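import Pool.Agent.Helper79.GX.KDefs

/-!
# AA: relations at all algebraic points of bounded degree: definitions for the core

Everything is over `ℚ`; the points are integers `u`. For a system `T z' = A z` the divided iterates are the
matrices `G_j = β_j / T^j` (`betaF`), so that `z^(j) / j! = G_j z`.
-/

open Polynomial

namespace Pool.Agent.Helper79.AA

open Pool.Agent.Helper79.GX

section

variable {ι : Type} [Fintype ι] [DecidableEq ι]

/-- `T z' = A z` on the disc of radius `R` around `0`. -/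
structure IsSys (T : ℚ[X]) (A : Matrix ι ι ℚ[X]) (R : ℝ) (z : ℂ → ι → ℂ) : Prop where
  an : ∀ k, AnalyticOnNhd ℂ (fun u => z u k) (Metric.ball 0 R)
  ode : ∀ u ∈ Metric.ball (0 : ℂ) R, ∀ k,
    aeval u T * deriv (fun u => z u k) u = ∑ l, aeval u (A k l) * z u l

/-- The components are linearly independent over `ℚ[X]` as functions on the disc of radius `R`. -/
def Indep (R : ℝ) (z : ℂ → ι → ℂ) : Prop :=
  ∀ v : ι → ℚ[X], (∀ s ∈ Metric.ball (0 : ℂ) R, ∑ k, aeval s (v k) * z s k = 0) → v = 0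

/-- There is a rational linear relation between the components of `z u` which is not the value at `u` of a
relation with coefficients in `ℚ[X]`. -/
def BadAt (R : ℝ) (z : ℂ → ι → ℂ) (u : ℚ) : Prop :=
  ∃ x : ι → ℚ, ∑ k, ((x k : ℚ) : ℂ) * z u k = 0 ∧
    ¬ ∃ v : ι → ℚ[X], (∀ k, (v k).eval u = x k) ∧
      ∀ s ∈ Metric.ball (0 : ℂ) R, ∑ k, aeval s (v k) * z s k = 0

/-- The value at `u` of the divided iterate `G_j`. -/
noncomputable def gm (T : ℚ[X]) (A : Matrix ι ι ℚ[X]) (j : ℕ) (u : ℚ) : Matrix ι ι ℚ :=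
  Matrix.of fun a b => (betaF T A j a b).eval u / T.eval u ^ j

/-- The denominators and sizes of the divided iterates at `u` grow geometrically with rate `Q`. -/
def Gr (T : ℚ[X]) (A : Matrix ι ι ℚ[X]) (u : ℚ) (Q : ℝ) : Prop :=
  ∃ C : ℝ, ∀ J : ℕ, ∃ q : ℕ, 0 < q ∧ (q : ℝ) ≤ C * Q ^ J ∧ ∀ j ≤ J, ∀ a b,
    (∃ n : ℤ, (q : ℚ) * gm T A j u a b = n) ∧ |((gm T A j u a b : ℚ) : ℝ)| ≤ C * Q ^ j

/-- `T ∇ p = T p' + p A`. -/
noncomputable def dop (T : ℚ[X]) (A : Matrix ι ι ℚ[X]) (p : ι → ℚ[X]) : ι → ℚ[X] :=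
  fun b => T * derivative (p b) + ∑ a, p a * A a b

/-- `T^j ∇^j p`. -/
noncomputable def nop (T : ℚ[X]) (A : Matrix ι ι ℚ[X]) : ℕ → (ι → ℚ[X]) → (ι → ℚ[X])
  | 0, p => p
  | (j + 1), p => fun b => dop T A (nop T A j p) b - (j : ℚ[X]) * derivative T * nop T A j p b

/-- The row vector `∇^j p / j!` at `u`. -/
noncomputable def row (T : ℚ[X]) (A : Matrix ι ι ℚ[X]) (p : ι → ℚ[X]) (j : ℕ) (u : ℚ) : ι → ℚ :=
  fun b => ∑ l ∈ Finset.range (j + 1), ∑ a, (hasseDeriv l (p a)).eval u * gm T A (j - l) u a b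

end

/-- The rows of `E` are a basis of a sub-quotient of the dual connection, modulo the rows of `N`. -/
structure Inter {β ι γ : Type} [Fintype β] [Fintype ι] [Fintype γ] (T : ℚ[X])
    (A : Matrix ι ι ℚ[X]) (B : Matrix β β ℚ[X]) (E : Matrix β ι ℚ[X]) (N : Matrix γ ι ℚ[X]) :
    Prop where
  top : ∃ S : Matrix β γ ℚ[X], T • E.map derivative + E * A = B * E + S * N
  bot : ∃ A' : Matrix γ γ ℚ[X], T • N.map derivative + N * A = A' * N

end Pool.Agent.Helper79.AA
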