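import Pool.Agent.Helper79.AA.UDefs

/-!
# AA-17: divided iterates in several variables

* `spec_eval`: `(spec i₀ a P).eval u = P (pt i₀ a u)`, and the complex version; both sides are algebra homomorphisms in `P`.
* `spec_deriv`: `spec` of `∂P/∂x_(i₀)` is the derivative: both sides are derivations in `P` over `spec` (or
  `MvPolynomial.induction_on`).
* `spec_beta`: induction on `j`.
-/

open Polynomial

namespace Pool.Agent.Helper79.AA

open Pool.Agent.Helper79.GX

variable {σ : Type} [DecidableEq σ] (i₀ : σ)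

theorem spec_eval (a : σ → ℤ) (P : MvPolynomial σ ℚ) (u : ℤ) :
    (spec i₀ a P).eval (u : ℚ) = MvPolynomial.eval (fun i => ((pt i₀ a u i : ℤ) : ℚ)) P := by
  have h : (Polynomial.aeval (u : ℚ)).comp (spec i₀ a) =
      MvPolynomial.aeval (fun i => ((pt i₀ a u i : ℤ) : ℚ)) := by
    apply MvPolynomial.algHom_ext
    intro i
    rw [AlgHom.comp_apply, spec, MvPolynomial.aeval_X, MvPolynomial.aeval_X, pt]
    split_ifs <;> simp
  have h2 : Polynomial.aeval (u : ℚ) (spec i₀ a P) =
      MvPolynomial.aeval (fun i => ((pt i₀ a u i : ℤ) : ℚ)) P := congrArg (fun f => f P) h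
  rw [Polynomial.coe_aeval_eq_eval, MvPolynomial.aeval_eq_eval] at h2
  exact h2

theorem spec_aeval (a : σ → ℤ) (P : MvPolynomial σ ℚ) (s : ℂ) :
    aeval s (spec i₀ a P) = MvPolynomial.aeval (ptC i₀ a s) P := by
  have h : (Polynomial.aeval s).comp (spec i₀ a) = MvPolynomial.aeval (ptC i₀ a s) := by
    apply MvPolynomial.algHom_ext
    intro i
    rw [AlgHom.comp_apply, spec, MvPolynomial.aeval_X, MvPolynomial.aeval_X, ptC]
    split_ifs <;> simp
  have h2 := congrArg (fun f => f P) h
  exact h2

theorem spec_deriv (a : σ → ℤ) (P : MvPolynomial σ ℚ) :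
    spec i₀ a (MvPolynomial.pderiv i₀ P) = derivative (spec i₀ a P) := by
  induction P using MvPolynomial.induction_on with
  | C c =>
    rw [MvPolynomial.pderiv_C, map_zero]
    have h1 : spec i₀ a (MvPolynomial.C c) = C c := by
      rw [spec, MvPolynomial.aeval_C]
      rfl
    rw [h1, derivative_C]
  | add p q hp hq => rw [map_add, map_add, map_add, derivative_add, hp, hq]
  | mul_X p i hp =>
    have h1 : spec i₀ a (MvPolynomial.X i) = C ((a i : ℤ) : ℚ) + if i = i₀ then X else 0 := by
      rw [spec, MvPolynomial.aeval_X]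
    have h2 : spec i₀ a (MvPolynomial.pderiv i₀ (MvPolynomial.X i)) =
        derivative (spec i₀ a (MvPolynomial.X i)) := by
      rw [h1, MvPolynomial.pderiv_X]
      by_cases hi : i = i₀
      · subst hi
        simp
      · rw [if_neg hi, Pi.single_eq_of_ne hi, map_zero, add_zero, derivative_C]
    rw [MvPolynomial.pderiv_mul, map_add, map_mul, map_mul, map_mul, derivative_mul, hp, h2]

variable {ι : Type} [Fintype ι] [DecidableEq ι] (Θ : MvPolynomial σ ℚ)
  (M : Matrix ι ι (MvPolynomial σ ℚ))

theorem spec_beta (a : σ → ℤ) (j : ℕ) :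
    betaF (spec i₀ a Θ) (M.map (spec i₀ a)) j = (mbeta i₀ Θ M j).map (spec i₀ a) := by
  induction j with
  | zero =>
    show (1 : Matrix ι ι ℚ[X]) = (1 : Matrix ι ι (MvPolynomial σ ℚ)).map (spec i₀ a)
    rw [Matrix.map_one _ (map_zero _) (map_one _)]
  | succ j ih =>
    have h1 : spec i₀ a (MvPolynomial.C (((j : ℚ) + 1)⁻¹)) = C (((j : ℚ) + 1)⁻¹) := by
      rw [spec, MvPolynomial.aeval_C]
      rfl
    ext1 x y
    rw [betaF, mbeta, ih, Matrix.map_apply]
    simp only [Matrix.smul_apply, Matrix.sub_apply, Matrix.add_apply, Matrix.mul_apply,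
      Matrix.map_apply, smul_eq_mul, map_mul, map_add, map_sub, map_sum, map_natCast, h1,
      spec_deriv]

end Pool.Agent.Helper79.AA
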