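import Pool.Agent.Helper79.GA.Str
import Pool.Agent.Helper79.GA.TOp

/-!
# AA-11: change of the derivation

Let `τ = D' t`, `B_l = φ (iter D α l)` and `c_(m,l)` the coefficient of `s^m` in `(g - t)^l`, `g = tay D' t = ∑ D'^n(t)/n! s^n`.
* `iter D' (τ φ(α)) m = ∑_(l ≤ m) c_(m,l) B_l`. Induction on `m`: `D' (B_l) = τ φ(D(iter D α l))` and
  `(l+1) iter_(l+1) = D (iter_l) + iter_l α` show that it is enough that
  `(m+1) c_(m+1,l) = D'(c_(m,l)) + l τ c_(m,l-1)`. This holds because `D'` applied to the coefficients of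
  `g` is `g'` (derivative with respect to `s`), so `(d/ds) (g-t)^l = D' ((g-t)^l) + l τ (g-t)^(l-1)`.
* Growth: `PG (tL D' t)`: the coefficient of index `n ≥ 1` of `g - t` is in `(G S).I (E (n + 2 s)) ⊆ (G S).I (E (1 + 2s) n)`, and the
  coefficient of index `0` is `0`. So by induction on `l` the coefficient of index `m` of `(g-t)^l` is in
  `(G S).I (E (1+2s) m)`, with no denominators. With `hα` (mapped by `φ`, `GmS.map`, `G_map`; enlarge the finite set: `G_mono`)
  this gives the growth of `∑_(l ≤ m) c_(m,l) B_l` with the same `q`.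
-/

open Polynomial

namespace Pool.Agent.Helper79.AA

open Pool.Agent.Helper79.CU Pool.Agent.Helper79.SE Pool.Agent.Helper79.GA

private theorem chain_ed_mul {Ω : Type} [Field Ω] [CharZero Ω] (D : Derivation ℚ Ω Ω)
    (f g : PowerSeries Ω) :
    (PowerSeries.mk fun n => D (PowerSeries.coeff n (f * g))) =
      (PowerSeries.mk fun n => D (PowerSeries.coeff n f)) * g +
        f * (PowerSeries.mk fun n => D (PowerSeries.coeff n g)) := by
  ext n
  rw [PowerSeries.coeff_mk, map_add, PowerSeries.coeff_mul, PowerSeries.coeff_mul,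
    PowerSeries.coeff_mul, map_sum, ← Finset.sum_add_distrib]
  refine Finset.sum_congr rfl fun p _ => ?_
  rw [Derivation.leibniz, PowerSeries.coeff_mk, PowerSeries.coeff_mk, smul_eq_mul, smul_eq_mul]
  ring

private theorem chain_deriv {Ω : Type} [Field Ω] [CharZero Ω] (D : Derivation ℚ Ω Ω) (t : Ω)
    (l : ℕ) :
    PowerSeries.derivative Ω ((tay D t - PowerSeries.C t) ^ (l + 1)) =
      (PowerSeries.mk fun n => D (PowerSeries.coeff n ((tay D t - PowerSeries.C t) ^ (l + 1)))) +
        PowerSeries.C (((l : Ω) + 1) * D t) * (tay D t - PowerSeries.C t) ^ l := by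
  have h1 : PowerSeries.derivative Ω (tay D t - PowerSeries.C t) =
      (PowerSeries.mk fun n => D (PowerSeries.coeff n (tay D t - PowerSeries.C t))) +
        PowerSeries.C (D t) := by
    rw [map_sub, deriv_tay]
    ext n
    rw [map_sub, map_add, PowerSeries.coeff_mk, map_sub, map_sub, PowerSeries.coeff_derivative]
    have h2 : D (PowerSeries.coeff n (tay D t)) = PowerSeries.coeff n (tay D (D t)) := by
      rw [← map_tay, PowerSeries.coeff_mk]
    rw [h2, PowerSeries.coeff_C, PowerSeries.coeff_C, PowerSeries.coeff_C]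
    rw [if_neg (Nat.succ_ne_zero n)]
    by_cases hn : n = 0
    · simp [hn]
    · simp [hn]
  induction l with
  | zero =>
    rw [zero_add, pow_one, pow_zero, h1, mul_one, Nat.cast_zero, zero_add, one_mul]
  | succ l ih =>
    rw [pow_succ _ (l + 1), Derivation.leibniz, ih, h1, chain_ed_mul, smul_eq_mul, smul_eq_mul]
    have h3 : PowerSeries.C ((((l + 1 : ℕ) : Ω) + 1) * D t) =
        PowerSeries.C (((l : Ω) + 1) * D t) + PowerSeries.C (D t) := by
      rw [← map_add]
      congr 1
      push_cast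
      ring
    rw [h3]
    ring

private theorem chain_coeff {Ω : Type} [Field Ω] [CharZero Ω] (D : Derivation ℚ Ω Ω) (t : Ω)
    (l m : ℕ) :
    ((m : Ω) + 1) * PowerSeries.coeff (m + 1) ((tay D t - PowerSeries.C t) ^ (l + 1)) =
      D (PowerSeries.coeff m ((tay D t - PowerSeries.C t) ^ (l + 1))) +
        ((l : Ω) + 1) * D t * PowerSeries.coeff m ((tay D t - PowerSeries.C t) ^ l) := by
  have h1 := congrArg (PowerSeries.coeff m) (chain_deriv D t l)
  rw [PowerSeries.coeff_derivative, map_add, PowerSeries.coeff_mk, PowerSeries.coeff_C_mul] at h1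
  rw [mul_comm, h1]

private theorem chain_coeff0 {Ω : Type} [Field Ω] [CharZero Ω] (D : Derivation ℚ Ω Ω) (t : Ω)
    (m : ℕ) :
    ((m : Ω) + 1) * PowerSeries.coeff (m + 1) ((tay D t - PowerSeries.C t) ^ 0) =
      D (PowerSeries.coeff m ((tay D t - PowerSeries.C t) ^ 0)) := by
  rw [pow_zero, PowerSeries.coeff_one, PowerSeries.coeff_one, if_neg (Nat.succ_ne_zero m),
    mul_zero]
  split_ifs
  · exact (Derivation.map_one_eq_zero D).symm
  · exact (map_zero D).symm

private theorem chain_zero {Ω : Type} [Field Ω] [CharZero Ω] (D : Derivation ℚ Ω Ω) (t : Ω)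
    (l : ℕ) : ∀ m : ℕ, m < l → PowerSeries.coeff m ((tay D t - PowerSeries.C t) ^ l) = 0 := by
  induction l with
  | zero => intro m hm; omega
  | succ l ih =>
    intro m hm
    rw [pow_succ, PowerSeries.coeff_mul]
    refine Finset.sum_eq_zero fun p hp => ?_
    have hp' := Finset.HasAntidiagonal.mem_antidiagonal.1 hp
    by_cases h : p.1 < l
    · rw [ih p.1 h, zero_mul]
    · have h2 : p.2 = 0 := by omega
      rw [h2, map_sub, coeff_tay, PowerSeries.coeff_C]
      simp

private theorem chain_grow {Ω : Type} [Field Ω] [CharZero Ω] {D : Derivation ℚ Ω Ω} {t : Ω}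
    (ht : PG (tL D t)) : ∃ (S : Set Ω) (E : ℕ), S.Finite ∧ ∀ l m : ℕ,
      PowerSeries.coeff m ((tay D t - PowerSeries.C t) ^ l) ∈ (G S).I (E * m) := by
  obtain ⟨S, E, s, hS, h⟩ := ht
  refine ⟨S, E * (1 + 2 * s), hS, ?_⟩
  have h1 : ∀ m : ℕ, PowerSeries.coeff m (tay D t - PowerSeries.C t) ∈
      (G S).I (E * (1 + 2 * s) * m) := by
    intro m
    rcases m with _ | m
    · have e : PowerSeries.coeff 0 (tay D t - PowerSeries.C t) = 0 := by
        rw [map_sub, coeff_tay, PowerSeries.coeff_C]
        simp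
      rw [e]
      exact AddSubgroup.zero_mem _
    · have e : PowerSeries.coeff (m + 1) (tay D t - PowerSeries.C t) =
          (tL D t).coeff ((m + 1 : ℕ) : ℤ) := by
        rw [map_sub, coeff_tay, PowerSeries.coeff_C, if_neg (Nat.succ_ne_zero m), sub_zero,
          tL_coeff, Algebra.smul_def, map_inv₀, map_natCast]
      rw [e]
      refine (G S).mono ?_ (h ((m + 1 : ℕ) : ℤ)).2
      rw [Int.toNat_le]
      push_cast
      have hE : (0 : ℤ) ≤ E := Int.natCast_nonneg E
      have hs : (0 : ℤ) ≤ s := Int.natCast_nonneg s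
      have hm : (0 : ℤ) ≤ m := Int.natCast_nonneg m
      have h3 : ((m : ℤ) + 1) + 2 * (s : ℤ) ≤ (1 + 2 * (s : ℤ)) * ((m : ℤ) + 1) := by
        nlinarith [mul_nonneg hs hm]
      calc (E : ℤ) * (((m : ℤ) + 1) + 2 * (s : ℤ)) ≤ E * ((1 + 2 * (s : ℤ)) * ((m : ℤ) + 1)) :=
            mul_le_mul_of_nonneg_left h3 hE
        _ = E * (1 + 2 * (s : ℤ)) * ((m : ℤ) + 1) := by ring
  intro l
  induction l with
  | zero =>
    intro m
    rw [pow_zero, PowerSeries.coeff_one]
    split_ifs
    · exact (G S).mono (Nat.zero_le _) (G S).one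
    · exact AddSubgroup.zero_mem _
  | succ l ih =>
    intro m
    rw [pow_succ, PowerSeries.coeff_mul]
    refine AddSubgroup.sum_mem _ fun p hp => ?_
    have hp' := Finset.HasAntidiagonal.mem_antidiagonal.1 hp
    refine (G S).mono (le_of_eq ?_) ((G S).mul (ih p.1) (h1 p.2))
    rw [← mul_add, hp']

private theorem chain_iter {K Ω ι : Type} [Field K] [CharZero K] [Field Ω] [CharZero Ω]
    [Fintype ι] [DecidableEq ι] (φ : K →+* Ω) {D : Derivation ℚ K K} {D' : Derivation ℚ Ω Ω}
    {t : Ω} (h : ∀ f : K, D' (φ f) = D' t * φ (D f)) (α : Matrix ι ι K) (m : ℕ) :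
    ∀ i j, iter D' (fun i j => D' t * φ (α i j)) m i j = ∑ l ∈ Finset.range (m + 1),
      PowerSeries.coeff m ((tay D' t - PowerSeries.C t) ^ l) * φ (iter D α l i j) := by
  induction m with
  | zero =>
    intro i j
    rw [Finset.sum_range_one, pow_zero, PowerSeries.coeff_one, if_pos rfl, one_mul]
    simp only [iter, Matrix.one_apply]
    split_ifs <;> simp
  | succ m ih =>
    intro i j
    have hm : ((m : Ω) + 1) ≠ 0 := Nat.cast_add_one_ne_zero m
    have h1 : iter D' (fun i j => D' t * φ (α i j)) (m + 1) i j = (((m + 1 : ℕ) : Ω)⁻¹) *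
        (D' (iter D' (fun i j => D' t * φ (α i j)) m i j) +
          ∑ l, iter D' (fun i j => D' t * φ (α i j)) m i l * (D' t * φ (α l j))) := rfl
    have h2 : ∀ l : ℕ, ((l : Ω) + 1) * φ (iter D α (l + 1) i j) =
        φ (D (iter D α l i j)) + ∑ r, φ (iter D α l i r) * φ (α r j) := by
      intro l
      have hl : ((l : K) + 1) ≠ 0 := Nat.cast_add_one_ne_zero l
      have e1 : iter D α (l + 1) i j = (((l + 1 : ℕ) : K)⁻¹) *
        (D (iter D α l i j) + ∑ r, iter D α l i r * α r j) := rfl
      have e2 : ((l : Ω) + 1) = φ ((l : K) + 1) := by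
        rw [map_add, map_natCast, map_one]
      rw [e1, e2, ← map_mul, Nat.cast_succ, mul_inv_cancel_left₀ hl, map_add, map_sum]
      simp only [map_mul]
    set c : ℕ → ℕ → Ω := fun m l =>
      PowerSeries.coeff m ((tay D' t - PowerSeries.C t) ^ l) with hc
    have hcs : ∀ l, ((m : Ω) + 1) * c (m + 1) (l + 1) =
        D' (c m (l + 1)) + ((l : Ω) + 1) * D' t * c m l := fun l => chain_coeff D' t l m
    have hc0 : ((m : Ω) + 1) * c (m + 1) 0 = D' (c m 0) := chain_coeff0 D' t m
    have hcz : c m (m + 1) = 0 := chain_zero D' t (m + 1) m (Nat.lt_succ_self m)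
    have e3 : D' (iter D' (fun i j => D' t * φ (α i j)) m i j) =
        ∑ l ∈ Finset.range (m + 1), (D' (c m l) * φ (iter D α l i j) +
          c m l * D' t * φ (D (iter D α l i j))) := by
      rw [ih i j, map_sum]
      refine Finset.sum_congr rfl fun l _ => ?_
      rw [Derivation.leibniz, h, smul_eq_mul, smul_eq_mul]
      ring
    have e4 : ∑ l, iter D' (fun i j => D' t * φ (α i j)) m i l * (D' t * φ (α l j)) =
        ∑ l ∈ Finset.range (m + 1), c m l * D' t *
          ∑ r, φ (iter D α l i r) * φ (α r j) := by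
      simp only [ih, Finset.sum_mul, Finset.mul_sum]
      rw [Finset.sum_comm]
      refine Finset.sum_congr rfl fun l _ => Finset.sum_congr rfl fun r _ => ?_
      ring
    have e5 : D' (iter D' (fun i j => D' t * φ (α i j)) m i j) +
        ∑ l, iter D' (fun i j => D' t * φ (α i j)) m i l * (D' t * φ (α l j)) =
        ((m : Ω) + 1) * ∑ l ∈ Finset.range (m + 2), c (m + 1) l * φ (iter D α l i j) := by
      rw [e3, e4, Finset.mul_sum, Finset.sum_range_succ' _ (m + 1), ← Finset.sum_add_distrib]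
      have e6 : ∀ l ∈ Finset.range (m + 1),
          (D' (c m l) * φ (iter D α l i j) + c m l * D' t * φ (D (iter D α l i j))) +
            c m l * D' t * ∑ r, φ (iter D α l i r) * φ (α r j) =
          D' (c m l) * φ (iter D α l i j) +
            c m l * D' t * (((l : Ω) + 1) * φ (iter D α (l + 1) i j)) := by
        intro l _
        rw [h2]
        ring
      rw [Finset.sum_congr rfl e6, Finset.sum_add_distrib]
      have e7 : ∑ l ∈ Finset.range (m + 1), D' (c m l) * φ (iter D α l i j) =
          ∑ l ∈ Finset.range (m + 1), D' (c m (l + 1)) * φ (iter D α (l + 1) i j) +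
            D' (c m 0) * φ (iter D α 0 i j) := by
        rw [← Finset.sum_range_succ' (fun l => D' (c m l) * φ (iter D α l i j)) (m + 1),
          Finset.sum_range_succ _ (m + 1), hcz, map_zero, zero_mul, add_zero]
      rw [e7, ← mul_assoc, hc0, add_right_comm, ← Finset.sum_add_distrib]
      congr 1
      refine Finset.sum_congr rfl fun l _ => ?_
      linear_combination (-(φ (iter D α (l + 1) i j))) * hcs l
    rw [h1, e5, Nat.cast_succ, inv_mul_cancel_left₀ hm]

theorem chain {K Ω ι : Type} [Field K] [CharZero K] [Field Ω] [CharZero Ω] [Fintype ι]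
    [DecidableEq ι] (φ : K →+* Ω) {D : Derivation ℚ K K} {D' : Derivation ℚ Ω Ω} {t : Ω}
    (h : ∀ f : K, D' (φ f) = D' t * φ (D f)) (ht : PG (tL D' t)) {α : Matrix ι ι K}
    (hα : TameM D α) : TameM D' (fun i j => D' t * φ (α i j)) := by
  obtain ⟨S, E, hS, hE⟩ := chain_grow ht
  obtain ⟨T, c, H, hT, hc⟩ := hα
  refine ⟨S ∪ φ '' T, E + c, H, hS.union (hT.image _), fun N => ?_⟩
  obtain ⟨q, q0, q1, q2⟩ := hc N
  refine ⟨q, q0, q1, fun m hm s => ?_⟩
  change (q : Ω) * iter D' (fun i j => D' t * φ (α i j)) m s.1 s.2 ∈ _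
  rw [chain_iter φ h, Finset.mul_sum]
  refine AddSubgroup.sum_mem _ fun l hl => ?_
  have hl' : l ≤ N := by
    have := Finset.mem_range.1 hl
    omega
  have e : (q : Ω) * (PowerSeries.coeff m ((tay D' t - PowerSeries.C t) ^ l) *
      φ (iter D α l s.1 s.2)) = PowerSeries.coeff m ((tay D' t - PowerSeries.C t) ^ l) *
      φ ((q : K) * iter D α l s.1 s.2) := by
    rw [map_mul, map_natCast]
    ring
  rw [e]
  have h1 := (G (S ∪ φ '' T)).mul (G_mono Set.subset_union_left le_rfl (hE l m))
    (G_mono Set.subset_union_right le_rfl (G_map φ (q2 l hl' s)))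
  refine (G (S ∪ φ '' T)).mono ?_ h1
  rw [add_mul]
  refine Nat.add_le_add_right (Nat.mul_le_mul_left _ ?_) _
  omega

end Pool.Agent.Helper79.AA
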