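import Pool.Agent.Helper79.AA.Row

/-!
# AA: estimates for the rows of the auxiliary polynomials
-/

open Polynomial

namespace Pool.Agent.Helper79.AA

open Pool.Agent.Helper79.GX

theorem hasse_map (P : ℤ[X]) (l : ℕ) :
    hasseDeriv l (P.map (Int.castRingHom ℚ)) = (hasseDeriv l P).map (Int.castRingHom ℚ) := by
  ext n
  rw [hasseDeriv_coeff, coeff_map, coeff_map, hasseDeriv_coeff, map_mul, map_natCast]

theorem hasse_eval (P : ℤ[X]) (l : ℕ) (u : ℤ) :
    (hasseDeriv l (P.map (Int.castRingHom ℚ))).eval (u : ℚ) =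
      (((hasseDeriv l P).eval u : ℤ) : ℚ) := by
  rw [hasse_map, eval_map, eval₂_at_intCast]
  simp

theorem hasse_bound {P : ℤ[X]} {M K : ℕ} {H : ℝ} (hK : 1 ≤ K) (hdeg : P.natDegree ≤ M)
    (hH : ∀ n, |((P.coeff n : ℤ) : ℝ)| ≤ H) (l : ℕ) {u : ℤ} (hu : |u| ≤ K) :
    |(((hasseDeriv l P).eval u : ℤ) : ℝ)| ≤ (M + 1) * H * (2 * K) ^ M := by
  have hH0 : 0 ≤ H := (abs_nonneg _).trans (hH 0)
  have hK1 : (1 : ℝ) ≤ K := by exact_mod_cast hK
  have hu' : |(u : ℝ)| ≤ K := by exact_mod_cast hu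
  have h1 : (hasseDeriv l P).natDegree ≤ M := (natDegree_hasseDeriv_le _ _).trans (by omega)
  rw [eval_eq_sum_range' (Nat.lt_succ_of_le h1)]
  push_cast
  refine (Finset.abs_sum_le_sum_abs _ _).trans ?_
  have h2 : ∀ i ∈ Finset.range (M + 1),
      |(((hasseDeriv l P).coeff i : ℤ) : ℝ) * (u : ℝ) ^ i| ≤ H * (2 * K) ^ M := by
    intro i hi
    rw [Finset.mem_range] at hi
    rw [abs_mul, abs_pow, hasseDeriv_coeff]
    push_cast
    rw [abs_mul, Nat.abs_cast]
    rcases le_or_gt (i + l) M with h3 | h3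
    · have h4 : ((Nat.choose (i + l) l : ℕ) : ℝ) ≤ 2 ^ M := by
        have : Nat.choose (i + l) l ≤ 2 ^ M :=
          (Nat.choose_le_two_pow _ _).trans (Nat.pow_le_pow_right (by norm_num) h3)
        exact_mod_cast this
      have h5 : |(u : ℝ)| ^ i ≤ (K : ℝ) ^ M :=
        (pow_le_pow_left₀ (abs_nonneg _) hu' i).trans (pow_le_pow_right₀ hK1 (by omega))
      calc ((Nat.choose (i + l) l : ℕ) : ℝ) * |((P.coeff (i + l) : ℤ) : ℝ)| * |(u : ℝ)| ^ i
          ≤ 2 ^ M * H * (K : ℝ) ^ M :=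
            mul_le_mul (mul_le_mul h4 (hH _) (abs_nonneg _) (by positivity)) h5
              (by positivity) (by positivity)
        _ = H * (2 * K) ^ M := by rw [mul_pow]; ring
    · rw [coeff_eq_zero_of_natDegree_lt (lt_of_le_of_lt hdeg h3)]
      simp only [Int.cast_zero, abs_zero, mul_zero, zero_mul]
      positivity
  refine (Finset.sum_le_sum h2).trans ?_
  rw [Finset.sum_const, Finset.card_range, nsmul_eq_mul]
  push_cast
  exact (mul_assoc _ _ _).ge

/-- The rows are bounded and have a common denominator. -/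
theorem row_bound {m : ℕ} {T : ℚ[X]} {A : Matrix (Fin m) (Fin m) ℚ[X]} {P : Fin m → ℤ[X]}
    {M K : ℕ} {H : ℝ} (hK : 1 ≤ K) (hdeg : ∀ a, (P a).natDegree ≤ M)
    (hH : ∀ a n, |(((P a).coeff n : ℤ) : ℝ)| ≤ H) (hH0 : 0 ≤ H) {u : ℤ} (hu : |u| ≤ K)
    {C Q : ℝ} (hQ : 1 ≤ Q) {J q : ℕ}
    (hq : ∀ j ≤ J, ∀ a b, (∃ n : ℤ, (q : ℚ) * gm T A j u a b = n) ∧
      |((gm T A j u a b : ℚ) : ℝ)| ≤ C * Q ^ j) {j : ℕ} (hj : j ≤ J) (b : Fin m) :
    (∃ n : ℤ, (q : ℚ) * row T A (fun a => (P a).map (Int.castRingHom ℚ)) j u b = n) ∧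
    |((row T A (fun a => (P a).map (Int.castRingHom ℚ)) j u b : ℚ) : ℝ)| ≤
      (J + 1) * (m * ((M + 1) * H * (2 * K) ^ M * (C * Q ^ J))) := by
  have hC : 0 ≤ C := by
    have h1 := (hq 0 (Nat.zero_le _) b b).2
    rw [pow_zero, mul_one] at h1
    exact (abs_nonneg _).trans h1
  have hK1 : (1 : ℝ) ≤ K := by exact_mod_cast hK
  constructor
  · unfold row
    have h1 : ∀ l ∈ Finset.range (j + 1), ∀ a ∈ (Finset.univ : Finset (Fin m)), ∃ n : ℤ,
        (q : ℚ) * ((hasseDeriv l ((P a).map (Int.castRingHom ℚ))).eval (u : ℚ) *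
          gm T A (j - l) u a b) = n := by
      intro l _ a _
      obtain ⟨n, hn⟩ := (hq (j - l) (by omega) a b).1
      refine ⟨(hasseDeriv l (P a)).eval u * n, ?_⟩
      rw [hasse_eval, Int.cast_mul, ← hn]
      ring
    choose! n hn using h1
    refine ⟨∑ l ∈ Finset.range (j + 1), ∑ a, n l a, ?_⟩
    rw [Finset.mul_sum]
    push_cast
    refine Finset.sum_congr rfl fun l hl => ?_
    rw [Finset.mul_sum]
    exact Finset.sum_congr rfl fun a ha => hn l hl a ha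
  · unfold row
    push_cast
    refine (Finset.abs_sum_le_sum_abs _ _).trans ?_
    have h2 : ∀ l ∈ Finset.range (j + 1), |∑ a, (((hasseDeriv l ((P a).map
        (Int.castRingHom ℚ))).eval (u : ℚ) : ℚ) : ℝ) * ((gm T A (j - l) u a b : ℚ) : ℝ)| ≤
        m * ((M + 1) * H * (2 * K) ^ M * (C * Q ^ J)) := by
      intro l _
      refine (Finset.abs_sum_le_sum_abs _ _).trans ?_
      have h3 : ∀ a ∈ (Finset.univ : Finset (Fin m)), |(((hasseDeriv l ((P a).map
          (Int.castRingHom ℚ))).eval (u : ℚ) : ℚ) : ℝ) * ((gm T A (j - l) u a b : ℚ) : ℝ)| ≤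
          (M + 1) * H * (2 * K) ^ M * (C * Q ^ J) := by
        intro a _
        rw [abs_mul, hasse_eval]
        have h4 := hasse_bound hK (hdeg a) (hH a) l hu
        have h5 := (hq (j - l) (by omega) a b).2
        have h6 : Q ^ (j - l) ≤ Q ^ J := pow_le_pow_right₀ hQ (by omega)
        refine mul_le_mul (by exact_mod_cast h4) (h5.trans ?_) (abs_nonneg _) (by positivity)
        exact mul_le_mul_of_nonneg_left h6 hC
      refine (Finset.sum_le_sum h3).trans ?_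
      rw [Finset.sum_const, Finset.card_univ, Fintype.card_fin, nsmul_eq_mul]
    refine (Finset.sum_le_sum h2).trans ?_
    rw [Finset.sum_const, Finset.card_range, nsmul_eq_mul]
    refine mul_le_mul_of_nonneg_right ?_ (by positivity)
    have : j + 1 ≤ J + 1 := by omega
    exact_mod_cast this

theorem aeval_bound {P : ℤ[X]} {M : ℕ} {H r : ℝ} (hr : 1 ≤ r) (hdeg : P.natDegree ≤ M)
    (hH : ∀ n, |((P.coeff n : ℤ) : ℝ)| ≤ H) {s : ℂ} (hs : ‖s‖ ≤ r) :
    ‖aeval s (P.map (Int.castRingHom ℚ))‖ ≤ (M + 1) * H * r ^ M := by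
  have hH0 : 0 ≤ H := (abs_nonneg _).trans (hH 0)
  have h0 : aeval s (P.map (Int.castRingHom ℚ)) = aeval s P := by
    rw [aeval_def, aeval_def, eval₂_map]
    congr 1
  rw [h0, aeval_eq_sum_range' (Nat.lt_succ_of_le hdeg)]
  refine (norm_sum_le _ _).trans ?_
  have h2 : ∀ i ∈ Finset.range (M + 1), ‖P.coeff i • s ^ i‖ ≤ H * r ^ M := by
    intro i hi
    rw [Finset.mem_range] at hi
    rw [zsmul_eq_mul, norm_mul, norm_pow]
    have h3 : ‖((P.coeff i : ℤ) : ℂ)‖ ≤ H := by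
      rw [Complex.norm_intCast]
      exact hH i
    refine mul_le_mul h3 ?_ (by positivity) hH0
    exact (pow_le_pow_left₀ (norm_nonneg _) hs i).trans (pow_le_pow_right₀ hr (by omega))
  refine (Finset.sum_le_sum h2).trans ?_
  rw [Finset.sum_const, Finset.card_range, nsmul_eq_mul]
  push_cast
  exact (mul_assoc _ _ _).ge

/-- Cramer's rule with estimates. -/
theorem cramer_bound {m : ℕ} (hm : 1 ≤ m) {r : Matrix (Fin m) (Fin m) ℚ} (hdet : r.det ≠ 0)
    {q : ℕ} (hq : 0 < q) (hint : ∀ i j, ∃ n : ℤ, (q : ℚ) * r i j = n) {ρ : ℝ}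
    (hρ : ∀ i j, |((r i j : ℚ) : ℝ)| ≤ ρ) {z : Fin m → ℂ} {ε : ℝ}
    (hz : ∀ i, ‖∑ j, ((r i j : ℚ) : ℂ) * z j‖ ≤ ε) (j : Fin m) :
    ‖z j‖ ≤ (q : ℝ) ^ m * (m * (((m - 1).factorial : ℝ) * ρ ^ (m - 1) * ε)) := by
  have hρ0 : 0 ≤ ρ := (abs_nonneg _).trans (hρ ⟨0, hm⟩ ⟨0, hm⟩)
  have hε0 : 0 ≤ ε := (norm_nonneg _).trans (hz ⟨0, hm⟩)
  have hq0 : (0 : ℝ) < q := by exact_mod_cast hq
  -- the determinant
  have h1 : ∃ n : ℤ, (q : ℚ) ^ m * r.det = n := by
    choose n hn using hint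
    refine ⟨(Matrix.of n).det, ?_⟩
    have h2 : (Matrix.of n).map (Int.castRingHom ℚ) = (q : ℚ) • r := by
      ext i j
      rw [Matrix.map_apply, Matrix.of_apply, Matrix.smul_apply, smul_eq_mul, hn]
      rfl
    have h3 := RingHom.map_det (Int.castRingHom ℚ) (Matrix.of n)
    rw [RingHom.mapMatrix_apply, h2, Matrix.det_smul, Fintype.card_fin] at h3
    exact h3.symm
  have hD : 1 ≤ (q : ℝ) ^ m * |((r.det : ℚ) : ℝ)| := by
    obtain ⟨n, hn⟩ := h1
    have hn0 : n ≠ 0 := by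
      rintro rfl
      rw [Int.cast_zero, mul_eq_zero] at hn
      rcases hn with hn | hn
      · exact absurd hn (pow_ne_zero _ (by exact_mod_cast hq.ne'))
      · exact hdet hn
    have h4 : (1 : ℝ) ≤ |(n : ℝ)| := by exact_mod_cast Int.one_le_abs hn0
    have h5 : ((q : ℝ) ^ m * ((r.det : ℚ) : ℝ)) = (n : ℝ) := by exact_mod_cast hn
    rw [← h5, abs_mul, abs_of_pos (by positivity)] at h4
    exact h4
  -- the entries of the adjugate matrix
  have hadj : ∀ i k, |((r.adjugate i k : ℚ) : ℝ)| ≤ ((m - 1).factorial : ℝ) * ρ ^ (m - 1) := by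
    intro i k
    obtain ⟨m', rfl⟩ : ∃ m', m = m' + 1 := ⟨m - 1, by omega⟩
    rw [Matrix.adjugate_fin_succ_eq_det_submatrix, Nat.add_sub_cancel]
    have h6 : (((-1 : ℚ) ^ (k + i : ℕ) * (r.submatrix k.succAbove i.succAbove).det : ℚ) : ℝ) =
        (-1 : ℝ) ^ (k + i : ℕ) *
          (((r.map (algebraMap ℚ ℝ)).submatrix k.succAbove i.succAbove).det) := by
      push_cast
      congr 1
    rw [h6, abs_mul, abs_pow, abs_neg, abs_one, one_pow, one_mul]
    have h7 := Matrix.det_le (A := (r.map (algebraMap ℚ ℝ)).submatrix k.succAbove i.succAbove)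
      (abv := IsAbsoluteValue.toAbsoluteValue (abs : ℝ → ℝ)) (x := ρ) (fun a b => by
        exact hρ _ _)
    rw [Fintype.card_fin, nsmul_eq_mul] at h7
    exact h7
  -- Cramer
  have h8 : ((r.det : ℚ) : ℂ) * z j = ∑ i, ((r.adjugate j i : ℚ) : ℂ) *
      ∑ l, ((r i l : ℚ) : ℂ) * z l := by
    have h9 : ∀ l, ∑ i, r.adjugate j i * r i l = if j = l then r.det else 0 := by
      intro l
      have := congrFun (congrFun (Matrix.adjugate_mul r) j) l
      rw [Matrix.mul_apply, Matrix.smul_apply, smul_eq_mul, Matrix.one_apply] at this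
      rw [this]
      split_ifs <;> simp
    simp only [Finset.mul_sum]
    rw [Finset.sum_comm]
    have h10 : ∀ l, ∑ i, ((r.adjugate j i : ℚ) : ℂ) * (((r i l : ℚ) : ℂ) * z l) =
        (if j = l then ((r.det : ℚ) : ℂ) else 0) * z l := by
      intro l
      have h11 : ∑ i, ((r.adjugate j i : ℚ) : ℂ) * ((r i l : ℚ) : ℂ) =
          (if j = l then ((r.det : ℚ) : ℂ) else 0) := by
        have h12 := congrArg (fun x : ℚ => (x : ℂ)) (h9 l)
        simp only [Rat.cast_sum, Rat.cast_mul] at h12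
        rw [h12]
        split_ifs <;> simp
      rw [← h11, Finset.sum_mul]
      exact Finset.sum_congr rfl fun i _ => by ring
    simp only [h10]
    simp
  have h12 : |((r.det : ℚ) : ℝ)| * ‖z j‖ ≤ m * (((m - 1).factorial : ℝ) * ρ ^ (m - 1) * ε) := by
    have h13 : |((r.det : ℚ) : ℝ)| = ‖((r.det : ℚ) : ℂ)‖ := by
      rw [Complex.norm_ratCast]
    rw [h13, ← norm_mul, h8]
    refine (norm_sum_le _ _).trans ?_
    have h14 : ∀ i ∈ (Finset.univ : Finset (Fin m)), ‖((r.adjugate j i : ℚ) : ℂ) *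
        ∑ l, ((r i l : ℚ) : ℂ) * z l‖ ≤ ((m - 1).factorial : ℝ) * ρ ^ (m - 1) * ε := by
      intro i _
      rw [norm_mul]
      refine mul_le_mul ?_ (hz i) (norm_nonneg _) (by positivity)
      rw [Complex.norm_ratCast]
      exact hadj j i
    refine (Finset.sum_le_sum h14).trans ?_
    rw [Finset.sum_const, Finset.card_univ, Fintype.card_fin, nsmul_eq_mul]
  calc ‖z j‖ = 1 * ‖z j‖ := (one_mul _).symm
    _ ≤ ((q : ℝ) ^ m * |((r.det : ℚ) : ℝ)|) * ‖z j‖ :=
        mul_le_mul_of_nonneg_right hD (norm_nonneg _)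
    _ = (q : ℝ) ^ m * (|((r.det : ℚ) : ℝ)| * ‖z j‖) := by ring
    _ ≤ _ := mul_le_mul_of_nonneg_left h12 (by positivity)

end Pool.Agent.Helper79.AA
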