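import Pool.Agent.Helper79.AA.Row

/-!
# AA-03: sub-quotients

* `inter_nop`: by induction on `j` there is `n : γ → ℚ[X]` with `nop T A j (lE) = (nop T B j l) E + n N`: for `q = l E + n N` we have
  `dop T A q = T l' E + l (T E' + E A) + T n' N + n (T N' + N A) = (dop T B l) E + (l S + T n' + n A') N`.
* `inter_row`: evaluate at `u`, divide by `j! T(u)^j` (`nop_eval` for both systems).
* `gr_inter`: `row T B e_k j u = (gm T B j u) k ·` (`hasseDeriv l` of a constant is `0` for `l > 0`), so by
  `inter_row` with `l = e_k` and multiplication by `Ψ`: `gm T B j u = ∑_(l ≤ j) (hasse_l E)(u) (gm T A (j-l) u) Ψ`. Here `hasse_l E = 0` for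
  `l` larger than the degrees `d` of the entries of `E`: the sum has at most `d + 1` terms, each of size
  at most `C' Q^(j-l) ≤ C' Q^j`, and `q · q'` is a common denominator, where `q'` is a common denominator of the
  `(hasse_l E)(u)`, `l ≤ d`, and of `Ψ`.
-/

open Polynomial

namespace Pool.Agent.Helper79.AA

open Pool.Agent.Helper79.GX

variable {β ι γ : Type} [Fintype β] [DecidableEq β] [Fintype ι] [DecidableEq ι] [Fintype γ]
  {T : ℚ[X]} {A : Matrix ι ι ℚ[X]} {B : Matrix β β ℚ[X]} {E : Matrix β ι ℚ[X]}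
  {N : Matrix γ ι ℚ[X]}

private theorem dop_vecMul {κ : Type} [Fintype κ] (M : Matrix κ ι ℚ[X]) (l : κ → ℚ[X]) (b : ι) :
    dop T A (Matrix.vecMul l M) b = ∑ k, T * derivative (l k) * M k b +
      ∑ k, l k * (T • M.map derivative + M * A) k b := by
  unfold dop
  simp only [Matrix.vecMul, dotProduct, derivative_sum, derivative_mul, Matrix.add_apply,
    Matrix.smul_apply, Matrix.map_apply, smul_eq_mul, Matrix.mul_apply]
  have h1 : ∑ a, (∑ k, l k * M k a) * A a b = ∑ k, l k * ∑ a, M k a * A a b := by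
    simp only [Finset.sum_mul]
    rw [Finset.sum_comm]
    refine Finset.sum_congr rfl fun k _ => ?_
    rw [Finset.mul_sum]
    exact Finset.sum_congr rfl fun a _ => by ring
  rw [h1, Finset.mul_sum, ← Finset.sum_add_distrib, ← Finset.sum_add_distrib]
  exact Finset.sum_congr rfl fun k _ => by ring

private theorem dop_add (p q : ι → ℚ[X]) (b : ι) :
    dop T A (p + q) b = dop T A p b + dop T A q b := by
  unfold dop
  simp only [Pi.add_apply, derivative_add, add_mul, Finset.sum_add_distrib]
  ring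

theorem inter_nop (h : Inter T A B E N) (l : β → ℚ[X]) (j : ℕ) :
    ∃ n : γ → ℚ[X], nop T A j (Matrix.vecMul l E) =
      Matrix.vecMul (nop T B j l) E + Matrix.vecMul n N := by
  obtain ⟨S, hS⟩ := h.top
  obtain ⟨A', hA'⟩ := h.bot
  induction j with
  | zero =>
    refine ⟨0, ?_⟩
    simp [nop]
  | succ j ih =>
    obtain ⟨n, hn⟩ := ih
    refine ⟨fun g => ∑ k, nop T B j l k * S k g + T * derivative (n g) +
      ∑ g', n g' * A' g' g - (j : ℚ[X]) * derivative T * n g, ?_⟩
    funext b
    have hl : nop T A (j + 1) (Matrix.vecMul l E) b =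
        dop T A (nop T A j (Matrix.vecMul l E)) b -
          (j : ℚ[X]) * derivative T * nop T A j (Matrix.vecMul l E) b := rfl
    have hB : ∀ k, nop T B (j + 1) l k = dop T B (nop T B j l) k -
          (j : ℚ[X]) * derivative T * nop T B j l k := fun k => rfl
    rw [hl, hn, dop_add, dop_vecMul, dop_vecMul, hS, hA']
    simp only [Pi.add_apply, Matrix.vecMul, dotProduct, Matrix.add_apply, Matrix.mul_apply, hB, dop]
    set w := nop T B j l with hw
    have e1 : ∑ k, w k * (∑ m, B k m * E m b + ∑ g, S k g * N g b) =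
        ∑ k, (∑ m, w m * B m k) * E k b + ∑ g, (∑ k, w k * S k g) * N g b := by
      simp only [mul_add, Finset.sum_add_distrib, Finset.mul_sum, Finset.sum_mul]
      congr 1
      · rw [Finset.sum_comm]
        exact Finset.sum_congr rfl fun k _ => Finset.sum_congr rfl fun m _ => by ring
      · rw [Finset.sum_comm]
        exact Finset.sum_congr rfl fun k _ => Finset.sum_congr rfl fun m _ => by ring
    have e2 : ∑ g, n g * ∑ g', A' g g' * N g' b = ∑ g, (∑ g', n g' * A' g' g) * N g b := by
      simp only [Finset.mul_sum, Finset.sum_mul]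
      rw [Finset.sum_comm]
      exact Finset.sum_congr rfl fun k _ => Finset.sum_congr rfl fun m _ => by ring
    rw [e1, e2]
    have e3 : ∑ k, (T * derivative (w k) + ∑ m, w m * B m k -
          (j : ℚ[X]) * derivative T * w k) * E k b =
        ∑ k, T * derivative (w k) * E k b + ∑ k, (∑ m, w m * B m k) * E k b -
          (j : ℚ[X]) * derivative T * ∑ k, w k * E k b := by
      rw [Finset.mul_sum, ← Finset.sum_add_distrib, ← Finset.sum_sub_distrib]
      exact Finset.sum_congr rfl fun k _ => by ring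
    have e4 : ∑ g, (∑ k, w k * S k g + T * derivative (n g) + ∑ g', n g' * A' g' g -
          (j : ℚ[X]) * derivative T * n g) * N g b =
        ∑ g, (∑ k, w k * S k g) * N g b + ∑ g, T * derivative (n g) * N g b +
          ∑ g, (∑ g', n g' * A' g' g) * N g b -
          (j : ℚ[X]) * derivative T * ∑ g, n g * N g b := by
      rw [Finset.mul_sum, ← Finset.sum_add_distrib, ← Finset.sum_add_distrib,
        ← Finset.sum_sub_distrib]
      exact Finset.sum_congr rfl fun k _ => by ring
    rw [e3, e4]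
    ring

theorem inter_row (h : Inter T A B E N) (l : β → ℚ[X]) (j : ℕ) {u : ℚ} (hu : T.eval u ≠ 0) :
    ∃ n : γ → ℚ, row T A (Matrix.vecMul l E) j u =
      Matrix.vecMul (row T B l j u) (E.map (Polynomial.eval u)) +
        Matrix.vecMul n (N.map (Polynomial.eval u)) := by
  obtain ⟨n, hn⟩ := inter_nop h l j
  have hc : (j.factorial : ℚ) * T.eval u ^ j ≠ 0 :=
    mul_ne_zero (by exact_mod_cast Nat.factorial_ne_zero j) (pow_ne_zero _ hu)
  refine ⟨fun g => (n g).eval u / ((j.factorial : ℚ) * T.eval u ^ j), ?_⟩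
  funext b
  have h1 := congrArg (Polynomial.eval u) (congrFun hn b)
  rw [nop_eval _ _ hu] at h1
  simp only [Pi.add_apply, Matrix.vecMul, dotProduct, eval_add, eval_finsetSum, eval_mul,
    nop_eval _ _ hu] at h1
  simp only [Pi.add_apply, Matrix.vecMul, dotProduct, Matrix.map_apply]
  have e1 : (fun b => ∑ k, l k * E k b) = Matrix.vecMul l E := rfl
  apply mul_left_cancel₀ hc
  refine h1.trans ?_
  rw [mul_add, Finset.mul_sum, Finset.mul_sum]
  congr 1
  · exact Finset.sum_congr rfl fun k _ => by ring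
  · refine Finset.sum_congr rfl fun k _ => ?_
    field_simp

private theorem exists_den {τ : Type} [Fintype τ] (f : τ → ℚ) :
    ∃ D : ℕ, 0 < D ∧ ∀ t, ∃ n : ℤ, (D : ℚ) * f t = n := by
  classical
  refine ⟨∏ t, (f t).den, Finset.prod_pos fun t _ => (f t).den_pos, fun t => ?_⟩
  obtain ⟨c, hc⟩ := Finset.dvd_prod_of_mem (fun t => (f t).den) (Finset.mem_univ t)
  refine ⟨c * (f t).num, ?_⟩
  rw [hc]
  push_cast
  have h := Rat.den_mul_eq_num (f t)
  linear_combination (c : ℚ) * h

private theorem row_single (k : β) (j : ℕ) (u : ℚ) (m : β) :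
    row T B (Pi.single k 1) j u m = gm T B j u k m := by
  unfold row
  rw [Finset.sum_eq_single 0]
  · rw [Finset.sum_eq_single k]
    · simp
    · intro a _ hak
      simp [Pi.single_eq_of_ne hak]
    · intro h
      exact absurd (Finset.mem_univ k) h
  · intro l _ hl
    apply Finset.sum_eq_zero
    intro a _
    by_cases hak : a = k
    · subst hak
      rw [Pi.single_eq_same, hasseDeriv_eq_zero_of_lt_natDegree _ _ (by
        rw [natDegree_one]; exact Nat.pos_of_ne_zero hl)]
      simp
    · simp [Pi.single_eq_of_ne hak]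
  · intro h
    exact absurd (Finset.mem_range.2 (Nat.succ_pos j)) h

theorem gr_inter (h : Inter T A B E N) {u : ℚ} (hu : T.eval u ≠ 0) {Ψ : Matrix ι β ℚ}
    (hE : E.map (Polynomial.eval u) * Ψ = 1) (hN : N.map (Polynomial.eval u) * Ψ = 0) {Q : ℝ}
    (hQ : 1 ≤ Q) (hG : Gr T A u Q) : Gr T B u Q := by
  -- the formula
  have hform : ∀ j k m, gm T B j u k m = ∑ b, ∑ l ∈ Finset.range (j + 1), ∑ a,
      (hasseDeriv l (E k a)).eval u * gm T A (j - l) u a b * Ψ b m := by
    intro j k m
    obtain ⟨n, hn⟩ := inter_row h (Pi.single k 1) j hu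
    rw [Matrix.single_one_vecMul] at hn
    have h1 := congrArg (fun v => Matrix.vecMul v Ψ) hn
    simp only [Matrix.add_vecMul, Matrix.vecMul_vecMul, hE, hN, Matrix.vecMul_one,
      Matrix.vecMul_zero, add_zero] at h1
    have h2 := congrFun h1 m
    rw [row_single] at h2
    rw [← h2]
    simp only [Matrix.vecMul, dotProduct, row, Finset.sum_mul]
    rfl
  obtain ⟨d, hd⟩ : ∃ d : ℕ, ∀ k a, (E k a).natDegree ≤ d := by
    refine ⟨∑ k, ∑ a, (E k a).natDegree, fun k a => ?_⟩
    refine le_trans ?_ (Finset.single_le_sum (f := fun k => ∑ a, (E k a).natDegree)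
      (fun _ _ => Nat.zero_le _) (Finset.mem_univ k))
    exact Finset.single_le_sum (f := fun a => (E k a).natDegree)
      (fun _ _ => Nat.zero_le _) (Finset.mem_univ a)
  obtain ⟨D, hD0, hD⟩ := exists_den (τ := Fin (d + 1) × β × ι × ι × β)
    (fun t => (hasseDeriv (t.1 : ℕ) (E t.2.1 t.2.2.1)).eval u * Ψ t.2.2.2.1 t.2.2.2.2)
  obtain ⟨C, hC⟩ := hG
  have hC0 : 0 < C := by
    obtain ⟨q, hq0, hq, -⟩ := hC 0
    rw [pow_zero, mul_one] at hq
    exact lt_of_lt_of_le (by exact_mod_cast hq0) hq
  set K : ℝ := ∑ k, ∑ m, ∑ b, ∑ l ∈ Finset.range (d + 1), ∑ a,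
    |(((hasseDeriv l (E k a)).eval u * Ψ b m : ℚ) : ℝ)| with hK
  have hK0 : 0 ≤ K := by
    rw [hK]
    positivity
  refine ⟨C * (D + K), fun J => ?_⟩
  obtain ⟨q, hq0, hq, hj⟩ := hC J
  have hQJ : 0 < Q ^ J := by positivity
  refine ⟨q * D, Nat.mul_pos hq0 hD0, ?_, ?_⟩
  · push_cast
    have h1 : (q : ℝ) * D ≤ C * Q ^ J * D := mul_le_mul_of_nonneg_right hq (Nat.cast_nonneg _)
    have h2 : 0 ≤ C * K * Q ^ J := by positivity
    nlinarith
  · intro j hjJ k m
    constructor
    · -- integrality
      rw [hform]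
      have hterm : ∀ b l a, l ∈ Finset.range (j + 1) → ∃ n : ℤ,
          ((q * D : ℕ) : ℚ) * ((hasseDeriv l (E k a)).eval u * gm T A (j - l) u a b * Ψ b m) =
            n := by
        intro b l a hl
        by_cases hld : l < d + 1
        · obtain ⟨n1, hn1⟩ := hD (⟨l, hld⟩, k, a, b, m)
          obtain ⟨n2, hn2⟩ := (hj (j - l) ((Nat.sub_le _ _).trans hjJ) a b).1
          refine ⟨n2 * n1, ?_⟩
          simp only at hn1
          push_cast
          rw [← hn1, ← hn2]
          ring
        · refine ⟨0, ?_⟩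
          rw [hasseDeriv_eq_zero_of_lt_natDegree _ _ (lt_of_le_of_lt (hd k a) (by omega))]
          simp
      choose! F hF using hterm
      refine ⟨∑ b, ∑ l ∈ Finset.range (j + 1), ∑ a, F b l a, ?_⟩
      rw [Finset.mul_sum]
      push_cast
      refine Finset.sum_congr rfl fun b _ => ?_
      rw [Finset.mul_sum]
      refine Finset.sum_congr rfl fun l hl => ?_
      rw [Finset.mul_sum]
      refine Finset.sum_congr rfl fun a _ => ?_
      have := hF b l a hl
      push_cast at this
      exact this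
    · -- size
      rw [hform]
      push_cast
      have hsz : ∀ i ≤ J, ∀ a b, |((gm T A i u a b : ℚ) : ℝ)| ≤ C * Q ^ i :=
        fun i hi a b => (hj i hi a b).2
      have hterm : ∀ b, ∀ l ∈ Finset.range (j + 1), ∀ a,
          |(((hasseDeriv l (E k a)).eval u : ℚ) : ℝ) * ((gm T A (j - l) u a b : ℚ) : ℝ) *
            ((Ψ b m : ℚ) : ℝ)| ≤
          |(((hasseDeriv l (E k a)).eval u * Ψ b m : ℚ) : ℝ)| * (C * Q ^ j) := by
        intro b l hl a
        rw [Finset.mem_range] at hl
        have h1 := hsz (j - l) ((Nat.sub_le _ _).trans hjJ) a b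
        have h2 : Q ^ (j - l) ≤ Q ^ j := pow_le_pow_right₀ hQ (Nat.sub_le _ _)
        have h3 : |((gm T A (j - l) u a b : ℚ) : ℝ)| ≤ C * Q ^ j :=
          h1.trans (mul_le_mul_of_nonneg_left h2 hC0.le)
        push_cast
        rw [abs_mul, abs_mul, abs_mul]
        calc |(((hasseDeriv l (E k a)).eval u : ℚ) : ℝ)| * |((gm T A (j - l) u a b : ℚ) : ℝ)| *
              |((Ψ b m : ℚ) : ℝ)| =
            |(((hasseDeriv l (E k a)).eval u : ℚ) : ℝ)| * |((Ψ b m : ℚ) : ℝ)| *
              |((gm T A (j - l) u a b : ℚ) : ℝ)| := by ring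
          _ ≤ _ := mul_le_mul_of_nonneg_left h3 (by positivity)
      have hK1 : ∑ b, ∑ l ∈ Finset.range (j + 1), ∑ a,
          |(((hasseDeriv l (E k a)).eval u * Ψ b m : ℚ) : ℝ)| ≤ K := by
        have e1 : ∀ b, ∑ l ∈ Finset.range (j + 1), ∑ a,
            |(((hasseDeriv l (E k a)).eval u * Ψ b m : ℚ) : ℝ)| ≤
            ∑ l ∈ Finset.range (d + 1), ∑ a,
              |(((hasseDeriv l (E k a)).eval u * Ψ b m : ℚ) : ℝ)| := by
          intro b
          rw [← Finset.sum_filter_ne_zero]
          apply Finset.sum_le_sum_of_subset_of_nonneg _ (fun _ _ _ => by positivity)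
          intro l hl
          obtain ⟨-, hne⟩ := Finset.mem_filter.1 hl
          rw [Finset.mem_range]
          by_contra hlt
          apply hne
          apply Finset.sum_eq_zero
          intro a _
          rw [hasseDeriv_eq_zero_of_lt_natDegree _ _ (lt_of_le_of_lt (hd k a) (by omega))]
          simp
        refine (Finset.sum_le_sum fun b _ => e1 b).trans ?_
        rw [hK]
        refine le_trans ?_ (Finset.single_le_sum (f := fun k => ∑ m, ∑ b,
          ∑ l ∈ Finset.range (d + 1), ∑ a,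
            |(((hasseDeriv l (E k a)).eval u * Ψ b m : ℚ) : ℝ)|)
          (fun _ _ => by positivity) (Finset.mem_univ k))
        exact Finset.single_le_sum (f := fun m => ∑ b,
          ∑ l ∈ Finset.range (d + 1), ∑ a,
            |(((hasseDeriv l (E k a)).eval u * Ψ b m : ℚ) : ℝ)|)
          (fun _ _ => by positivity) (Finset.mem_univ m)
      calc |∑ b, ∑ l ∈ Finset.range (j + 1), ∑ a, (((hasseDeriv l (E k a)).eval u : ℚ) : ℝ) *
              ((gm T A (j - l) u a b : ℚ) : ℝ) * ((Ψ b m : ℚ) : ℝ)| ≤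
          ∑ b, ∑ l ∈ Finset.range (j + 1), ∑ a,
            |(((hasseDeriv l (E k a)).eval u * Ψ b m : ℚ) : ℝ)| * (C * Q ^ j) := by
            refine (Finset.abs_sum_le_sum_abs _ _).trans (Finset.sum_le_sum fun b _ => ?_)
            refine (Finset.abs_sum_le_sum_abs _ _).trans (Finset.sum_le_sum fun l hl => ?_)
            refine (Finset.abs_sum_le_sum_abs _ _).trans (Finset.sum_le_sum fun a _ => ?_)
            exact hterm b l hl a
        _ = (∑ b, ∑ l ∈ Finset.range (j + 1), ∑ a,
            |(((hasseDeriv l (E k a)).eval u * Ψ b m : ℚ) : ℝ)|) * (C * Q ^ j) := by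
            simp only [Finset.sum_mul]
        _ ≤ K * (C * Q ^ j) := mul_le_mul_of_nonneg_right hK1 (by positivity)
        _ ≤ C * (D + K) * Q ^ j := by
            have : 0 ≤ C * D * Q ^ j := by positivity
            nlinarith

end Pool.Agent.Helper79.AA
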