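import Pool.Agent.Helper79.AA.Row

/-!
# AA-08: the quotient by the relations

Let `W = {v ∈ ℚ[X]^ι | ∑ v_k z_k = 0 on the disc}`: a saturated submodule (a nonzero polynomial has finitely many zeros and
the functions are continuous), stable under `dop` (differentiate, `IsSys.ode`). `ℚ[X]` is a principal ideal
domain, `ℚ[X]^ι / W` is torsion free, so free: let `N` be a basis of `W` and `E` lifts of a basis of the
quotient; together they are a basis of `ℚ[X]^ι`, which gives `Ψ`, `Φ` with `E Ψ = 1`, `E Φ = 0`, `N Ψ = 0`, `N Φ = 1`,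
`Ψ E + Φ N = 1`. Stability of `W` and expansion in the basis give `Inter T A B E N`. For `y = E z`: `T y' = B y` since `N z = 0`.
-/

open Polynomial

namespace Pool.Agent.Helper79.AA

open Pool.Agent.Helper79.GX

variable {ι : Type} [Fintype ι] [DecidableEq ι]

/-- The functional relations. -/
private def qW (R : ℝ) (z : ℂ → ι → ℂ) : Submodule ℚ[X] (ι → ℚ[X]) where
  carrier := {v | ∀ s ∈ Metric.ball (0 : ℂ) R, ∑ k, aeval s (v k) * z s k = 0}
  add_mem' {v w} hv hw s hs := by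
    simp only [Pi.add_apply, map_add, add_mul, Finset.sum_add_distrib, hv s hs, hw s hs, add_zero]
  zero_mem' s _ := by simp
  smul_mem' p v hv s hs := by
    simp only [Pi.smul_apply, smul_eq_mul, map_mul, mul_assoc]
    rw [← Finset.mul_sum, hv s hs, mul_zero]

omit [DecidableEq ι] in
private theorem qW_mem {R : ℝ} {z : ℂ → ι → ℂ} {v : ι → ℚ[X]} :
    v ∈ qW R z ↔ ∀ s ∈ Metric.ball (0 : ℂ) R, ∑ k, aeval s (v k) * z s k = 0 := Iff.rfl

omit [DecidableEq ι] in
private theorem qW_sat {R : ℝ} {z : ℂ → ι → ℂ}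
    (hz : ∀ k, AnalyticOnNhd ℂ (fun u => z u k) (Metric.ball 0 R)) {p : ℚ[X]} (hp : p ≠ 0)
    {v : ι → ℚ[X]} (h : p • v ∈ qW R z) : v ∈ qW R z := by
  rw [qW_mem] at h ⊢
  intro s hs
  set g : ℂ → ℂ := fun s => ∑ k, aeval s (v k) * z s k with hg
  have hfin : {s : ℂ | aeval s p = 0}.Finite := by
    have h1 : p.map (algebraMap ℚ ℂ) ≠ 0 :=
      (Polynomial.map_ne_zero_iff (algebraMap ℚ ℂ).injective).2 hp
    refine (finite_setOfPred_isRoot h1).subset fun u hu => ?_
    change IsRoot _ u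
    rw [IsRoot, eval_map]
    exact hu
  have h0 : ∀ s ∈ Metric.ball (0 : ℂ) R, aeval s p ≠ 0 → g s = 0 := by
    intro s hs hps
    have h1 := h s hs
    simp only [Pi.smul_apply, smul_eq_mul, map_mul, mul_assoc] at h1
    rw [← Finset.mul_sum] at h1
    exact (mul_eq_zero.1 h1).resolve_left hps
  have hc : ContinuousAt g s := by
    refine tendsto_finsetSum _ fun k _ => ?_
    exact ((Polynomial.continuous_aeval (v k)).continuousAt).mul (hz k s hs).continuousAt
  by_contra hne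
  have h1 : ∀ᶠ u in nhds s, g u ≠ 0 := hc.eventually_ne hne
  have h2 : ∀ᶠ u in nhdsWithin s {s}ᶜ, aeval u p ≠ 0 := by
    have h3 : ({u : ℂ | aeval u p = 0} \ {s})ᶜ ∈ nhds s := by
      refine (hfin.subset Set.sdiff_subset).isClosed.isOpen_compl.mem_nhds ?_
      simp
    filter_upwards [mem_nhdsWithin_of_mem_nhds h3, self_mem_nhdsWithin] with u hu1 hu2 hu3
    exact hu1 ⟨hu3, hu2⟩
  have h3 : ∀ᶠ u in nhdsWithin s {s}ᶜ, g u ≠ 0 ∧ u ∈ Metric.ball (0 : ℂ) R :=
    (h1.filter_mono nhdsWithin_le_nhds).and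
      (mem_nhdsWithin_of_mem_nhds (Metric.isOpen_ball.mem_nhds hs))
  obtain ⟨u, hu1, hu2, hu3⟩ := (h2.and h3).exists
  exact hu2 (h0 u hu3 hu1)

omit [DecidableEq ι] in
private theorem qW_dop {T : ℚ[X]} {A : Matrix ι ι ℚ[X]} {R : ℝ} {z : ℂ → ι → ℂ}
    (hz : IsSys T A R z) (v : ι → ℚ[X]) {s : ℂ} (hs : s ∈ Metric.ball (0 : ℂ) R) :
    DifferentiableAt ℂ (fun s => ∑ k, aeval s (v k) * z s k) s ∧
    aeval s T * deriv (fun s => ∑ k, aeval s (v k) * z s k) s =
      ∑ k, aeval s (T * derivative (v k) + ∑ l, v l * A l k) * z s k := by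
  have hd : ∀ k, HasDerivAt (fun s => aeval s (v k) * z s k)
      (aeval s (derivative (v k)) * z s k + aeval s (v k) * deriv (fun u => z u k) s) s := by
    intro k
    exact ((v k).hasDerivAt_aeval s).mul (hz.an k s hs).differentiableAt.hasDerivAt
  have h1 := HasDerivAt.fun_sum (u := Finset.univ) fun k _ => hd k
  refine ⟨h1.differentiableAt, ?_⟩
  rw [h1.deriv, Finset.sum_add_distrib, mul_add, Finset.mul_sum, Finset.mul_sum]
  have h2 : ∀ k, aeval s T * (aeval s (v k) * deriv (fun u => z u k) s) =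
      ∑ l, aeval s (v k) * aeval s (A k l) * z s l := by
    intro k
    have h3 := hz.ode s hs k
    calc _ = aeval s (v k) * (aeval s T * deriv (fun u => z u k) s) := by ring
      _ = _ := by
        rw [h3, Finset.mul_sum]
        exact Finset.sum_congr rfl fun l _ => by ring
  simp only [h2]
  rw [Finset.sum_comm]
  simp only [map_add, map_mul, map_sum, add_mul, Finset.sum_add_distrib, Finset.sum_mul]
  congr 1
  exact Finset.sum_congr rfl fun k _ => by ring

theorem exists_quo {T : ℚ[X]} {A : Matrix ι ι ℚ[X]} {R : ℝ} (hR : 0 < R) {z : ℂ → ι → ℂ}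
    (hz : IsSys T A R z) :
    ∃ (r c : ℕ) (E : Matrix (Fin r) ι ℚ[X]) (N : Matrix (Fin c) ι ℚ[X])
      (Ψ : Matrix ι (Fin r) ℚ[X]) (Φ : Matrix ι (Fin c) ℚ[X]) (B : Matrix (Fin r) (Fin r) ℚ[X]),
      r ≤ Fintype.card ι ∧ E * Ψ = 1 ∧ N * Ψ = 0 ∧ Ψ * E + Φ * N = 1 ∧
      (∀ s ∈ Metric.ball (0 : ℂ) R, ∀ i, ∑ k, aeval s (N i k) * z s k = 0) ∧
      Inter T A B E N ∧ IsSys T B R (fun s i => ∑ k, aeval s (E i k) * z s k) ∧
      Indep R (fun s i => ∑ k, aeval s (E i k) * z s k) := by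
  classical
  set W := qW R z with hW
  have htf : Module.IsTorsionFree ℚ[X] ((ι → ℚ[X]) ⧸ W) := by
    refine ⟨fun p hp => ?_⟩
    intro a b hab
    obtain ⟨v, rfl⟩ := W.mkQ_surjective a
    obtain ⟨w, rfl⟩ := W.mkQ_surjective b
    have h1 : W.mkQ (p • v) = W.mkQ (p • w) := by
      rw [map_smul, map_smul]
      exact hab
    rw [Submodule.mkQ_apply, Submodule.mkQ_apply, Submodule.Quotient.eq, ← smul_sub] at h1
    rw [Submodule.mkQ_apply, Submodule.mkQ_apply, Submodule.Quotient.eq]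
    exact qW_sat hz.an hp.ne_zero h1
  have hfree : Module.Free ℚ[X] ((ι → ℚ[X]) ⧸ W) := inferInstance
  set r := Module.finrank ℚ[X] ((ι → ℚ[X]) ⧸ W) with hr
  let b : Module.Basis (Fin r) ℚ[X] ((ι → ℚ[X]) ⧸ W) := Module.finBasis ℚ[X] _
  obtain ⟨c, ⟨bW⟩⟩ := Submodule.nonempty_basis_of_pid (Pi.basisFun ℚ[X] ι) W
  obtain ⟨σ, hσ⟩ := Module.projective_lifting_property W.mkQ
    (LinearMap.id : ((ι → ℚ[X]) ⧸ W) →ₗ[ℚ[X]] _) W.mkQ_surjective
  have hσ' : ∀ x, W.mkQ (σ x) = x := fun x => LinearMap.congr_fun hσ x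
  set E : Matrix (Fin r) ι ℚ[X] := fun i => σ (b i) with hE
  set N : Matrix (Fin c) ι ℚ[X] := fun i => (bW i : ι → ℚ[X]) with hN
  set Ψ : Matrix ι (Fin r) ℚ[X] := fun k i => b.repr (W.mkQ (Pi.single k 1)) i with hΨ
  -- coordinates
  have hcoord : ∀ (v : ι → ℚ[X]) (i : Fin r), b.repr (W.mkQ v) i = ∑ k, v k * Ψ k i := by
    intro v i
    have h1 : v = ∑ k, v k • (Pi.single k (1 : ℚ[X]) : ι → ℚ[X]) := by
      funext l
      simp [Finset.sum_apply, Pi.single_apply]
    conv_lhs => rw [h1]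
    rw [map_sum, map_sum, Finsupp.finsetSum_apply]
    refine Finset.sum_congr rfl fun k _ => ?_
    rw [map_smul, map_smul, Finsupp.smul_apply, smul_eq_mul]
  have hWΨ : ∀ v : ι → ℚ[X], v ∈ W → ∀ i, ∑ k, v k * Ψ k i = 0 := by
    intro v hv i
    rw [← hcoord]
    have : W.mkQ v = 0 := by
      rw [Submodule.mkQ_apply, Submodule.Quotient.mk_eq_zero]
      exact hv
    rw [this, map_zero, Finsupp.zero_apply]
  have hex : ∀ k, ∃ φ : Fin c → ℚ[X], (Pi.single k (1 : ℚ[X]) : ι → ℚ[X]) =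
      ∑ i, Ψ k i • E i + ∑ i, φ i • N i := by
    intro k
    set v : ι → ℚ[X] := Pi.single k 1 with hv
    have h1 : ∑ i, Ψ k i • E i = σ (W.mkQ v) := by
      conv_rhs => rw [← b.sum_repr (W.mkQ v)]
      rw [map_sum]
      exact Finset.sum_congr rfl fun i _ => by rw [map_smul]
    have h2 : v - ∑ i, Ψ k i • E i ∈ W := by
      rw [h1, ← Submodule.Quotient.mk_eq_zero, ← Submodule.mkQ_apply, map_sub, hσ', sub_self]
    refine ⟨fun i => bW.repr ⟨_, h2⟩ i, ?_⟩
    have h3 := congrArg (Subtype.val) (bW.sum_repr ⟨_, h2⟩)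
    have h4 : ∑ i, (bW.repr ⟨_, h2⟩ i) • N i = v - ∑ i, Ψ k i • E i := by
      refine Eq.trans ?_ h3
      simp only [AddSubmonoidClass.coe_finsetSum, Submodule.coe_smul]
      rfl
    rw [h4]
    abel
  choose Φ hΦ using hex
  have hEΨ : E * Ψ = 1 := by
    ext1 i j
    rw [Matrix.mul_apply, ← hcoord, hE, hσ', Module.Basis.repr_self, Matrix.one_apply,
      Finsupp.single_apply]
  have hNΨ : N * Ψ = 0 := by
    ext1 i j
    rw [Matrix.mul_apply, Matrix.zero_apply]
    exact hWΨ _ (bW i).2 j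
  have hone : Ψ * E + Matrix.of Φ * N = 1 := by
    ext1 k l
    have h1 := congrFun (hΦ k) l
    rw [Matrix.add_apply, Matrix.mul_apply, Matrix.mul_apply, Matrix.one_apply]
    simp only [Pi.add_apply, Finset.sum_apply, Pi.smul_apply, smul_eq_mul, Pi.single_apply] at h1
    simp only [Matrix.of_apply]
    rw [← h1]
    by_cases hkl : l = k
    · rw [if_pos hkl, if_pos hkl.symm]
    · rw [if_neg hkl, if_neg fun h => hkl h.symm]
  have hNz : ∀ s ∈ Metric.ball (0 : ℂ) R, ∀ i, ∑ k, aeval s (N i k) * z s k = 0 :=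
    fun s hs i => (bW i).2 s hs
  set Dm : Matrix (Fin r) ι ℚ[X] := T • E.map derivative + E * A with hDm
  set Dn : Matrix (Fin c) ι ℚ[X] := T • N.map derivative + N * A with hDn
  have hDnW : ∀ i, Dn i ∈ W := by
    intro i
    rw [hW, qW_mem]
    intro s hs
    have h1 := (qW_dop hz (N i) hs).2
    have h2 : (fun s => ∑ k, aeval s (N i k) * z s k) =ᶠ[nhds s] fun _ => 0 := by
      filter_upwards [Metric.isOpen_ball.mem_nhds hs] with u hu
      exact hNz u hu i
    rw [h2.deriv_eq, deriv_const, mul_zero] at h1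
    rw [h1]
    refine Finset.sum_congr rfl fun k _ => ?_
    rw [hDn, Matrix.add_apply, Matrix.smul_apply, Matrix.map_apply, Matrix.mul_apply, smul_eq_mul]
  have hDnΨ : Dn * Ψ = 0 := by
    ext1 i j
    rw [Matrix.mul_apply, Matrix.zero_apply]
    exact hWΨ _ (hDnW i) j
  have htop : Dm = Dm * Ψ * E + Dm * Matrix.of Φ * N := by
    rw [Matrix.mul_assoc, Matrix.mul_assoc, ← Matrix.mul_add, hone, Matrix.mul_one]
  refine ⟨r, c, E, N, Ψ, Matrix.of Φ, Dm * Ψ, ?_, hEΨ, hNΨ, hone, hNz, ⟨⟨Dm * Matrix.of Φ, htop⟩,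
    ⟨Dn * Matrix.of Φ, ?_⟩⟩, ⟨fun i => ?_, fun s hs i => ?_⟩, fun v hv => ?_⟩
  · have h1 := Submodule.finrank_quotient_le W
    rwa [Module.finrank_fintype_fun_eq_card] at h1
  · have h1 : Dn * (Ψ * E + Matrix.of Φ * N) = Dn := by rw [hone, Matrix.mul_one]
    rw [Matrix.mul_add, ← Matrix.mul_assoc, hDnΨ, Matrix.zero_mul, zero_add,
      ← Matrix.mul_assoc] at h1
    exact h1.symm
  · refine DifferentiableOn.analyticOnNhd (fun s hs => ?_) Metric.isOpen_ball
    exact (qW_dop hz (E i) hs).1.differentiableWithinAt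
  · rw [(qW_dop hz (E i) hs).2]
    have h1 : ∀ k, T * derivative (E i k) + ∑ l, E i l * A l k =
        ∑ j, (Dm * Ψ) i j * E j k + ∑ j, (Dm * Matrix.of Φ) i j * N j k := by
      intro k
      have h2 := congrFun (congrFun htop i) k
      rw [hDm, Matrix.add_apply, Matrix.smul_apply, Matrix.map_apply, Matrix.mul_apply,
        smul_eq_mul, ← hDm] at h2
      rw [h2, Matrix.add_apply, Matrix.mul_apply, Matrix.mul_apply (M := Dm * Matrix.of Φ)]
    simp only [h1, map_add, map_sum, map_mul, add_mul, Finset.sum_add_distrib, Finset.sum_mul,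
      Finset.mul_sum]
    have h2 : ∑ k, ∑ j, aeval s ((Dm * Matrix.of Φ) i j) * aeval s (N j k) * z s k = 0 := by
      rw [Finset.sum_comm]
      refine Finset.sum_eq_zero fun j _ => ?_
      simp only [mul_assoc]
      rw [← Finset.mul_sum, hNz s hs j, mul_zero]
    rw [h2, add_zero, Finset.sum_comm]
    exact Finset.sum_congr rfl fun j _ => Finset.sum_congr rfl fun k _ => by ring
  · have h1 : Matrix.vecMul v E ∈ W := by
      rw [hW, qW_mem]
      intro s hs
      have h2 := hv s hs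
      simp only [Matrix.vecMul, dotProduct, map_sum, map_mul, Finset.sum_mul]
      rw [Finset.sum_comm, ← h2]
      refine Finset.sum_congr rfl fun i _ => ?_
      rw [Finset.mul_sum]
      exact Finset.sum_congr rfl fun k _ => by ring
    have h2 : Matrix.vecMul (Matrix.vecMul v E) Ψ = 0 := by
      funext i
      exact hWΨ _ h1 i
    rwa [Matrix.vecMul_vecMul, hEΨ, Matrix.vecMul_one] at h2

end Pool.Agent.Helper79.AA
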