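import Mathlib

/-!
# AA: exponential growth rates
-/

open Filter Topology

namespace Pool.Agent.Helper79.AA

/-- `0 ≤ g τ ≤ C τ^k ρ^τ` for `τ ≥ 1`. -/
def Sb (g : ℕ → ℝ) (ρ : ℝ) : Prop :=
  0 ≤ ρ ∧ ∃ (C : ℝ) (k : ℕ), ∀ τ : ℕ, 1 ≤ τ → 0 ≤ g τ ∧ g τ ≤ C * (τ : ℝ) ^ k * ρ ^ τ

theorem Sb.mul {g h : ℕ → ℝ} {ρ σ : ℝ} (hg : Sb g ρ) (hh : Sb h σ) :
    Sb (fun τ => g τ * h τ) (ρ * σ) := by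
  obtain ⟨hρ, C, k, h1⟩ := hg
  obtain ⟨hσ, C', k', h2⟩ := hh
  refine ⟨mul_nonneg hρ hσ, C * C', k + k', fun τ hτ => ?_⟩
  obtain ⟨a1, a2⟩ := h1 τ hτ
  obtain ⟨b1, b2⟩ := h2 τ hτ
  refine ⟨mul_nonneg a1 b1, ?_⟩
  calc g τ * h τ ≤ (C * (τ : ℝ) ^ k * ρ ^ τ) * (C' * (τ : ℝ) ^ k' * σ ^ τ) :=
        mul_le_mul a2 b2 b1 (a1.trans a2)
    _ = C * C' * (τ : ℝ) ^ (k + k') * (ρ * σ) ^ τ := by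
        rw [pow_add, mul_pow]
        ring

theorem Sb.const {c : ℝ} (hc : 0 ≤ c) : Sb (fun _ => c) 1 :=
  ⟨zero_le_one, c, 0, fun τ _ => ⟨hc, by rw [pow_zero, one_pow, mul_one, mul_one]⟩⟩

theorem Sb.pow {g : ℕ → ℝ} {ρ : ℝ} (hg : Sb g ρ) (n : ℕ) : Sb (fun τ => g τ ^ n) (ρ ^ n) := by
  induction n with
  | zero => simpa using Sb.const zero_le_one
  | succ n ih => simpa only [pow_succ] using ih.mul hg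

theorem Sb.exp {x : ℝ} (hx : 0 ≤ x) (n : ℕ) : Sb (fun τ => x ^ (n * τ)) (x ^ n) :=
  ⟨by positivity, 1, 0, fun τ _ => ⟨by positivity, by
    rw [pow_zero, mul_one, one_mul]
    exact (pow_mul x n τ).le⟩⟩

theorem Sb.lin {a b : ℝ} (ha : 0 ≤ a) (hb : 0 ≤ b) : Sb (fun τ => a * (τ : ℝ) + b) 1 := by
  refine ⟨zero_le_one, a + b, 1, fun τ hτ => ⟨by positivity, ?_⟩⟩
  have h1 : (1 : ℝ) ≤ τ := by exact_mod_cast hτ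
  rw [pow_one, one_pow, mul_one]
  nlinarith

theorem Sb.mono {g h : ℕ → ℝ} {ρ : ℝ} (hg : Sb g ρ) (h0 : ∀ τ, 1 ≤ τ → 0 ≤ h τ)
    (h1 : ∀ τ, 1 ≤ τ → h τ ≤ g τ) : Sb h ρ := by
  obtain ⟨hρ, C, k, h2⟩ := hg
  exact ⟨hρ, C, k, fun τ hτ => ⟨h0 τ hτ, (h1 τ hτ).trans (h2 τ hτ).2⟩⟩

theorem Sb.congr {g : ℕ → ℝ} {ρ σ : ℝ} (hg : Sb g ρ) (h : ρ = σ) : Sb g σ := h ▸ hg

theorem Sb.lt {g : ℕ → ℝ} {ρ : ℝ} (hg : Sb g ρ) (hρ : ρ < 1) {ν : ℝ} (hν : 0 < ν) :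
    ∃ τ : ℕ, 1 ≤ τ ∧ g τ < ν := by
  obtain ⟨h0, C, k, h1⟩ := hg
  have h2 : Tendsto (fun τ : ℕ => C * ((τ : ℝ) ^ k * ρ ^ τ)) atTop (𝓝 (C * 0)) :=
    (tendsto_pow_const_mul_const_pow_of_lt_one k h0 hρ).const_mul C
  rw [mul_zero] at h2
  have h3 := h2.eventually (gt_mem_nhds hν)
  obtain ⟨τ, h4, h5⟩ := (h3.and (eventually_ge_atTop 1)).exists
  refine ⟨τ, h5, lt_of_le_of_lt (h1 τ h5).2 ?_⟩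
  rw [mul_assoc]
  exact h4

end Pool.Agent.Helper79.AA
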