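import Pool.Agent.Helper79.AA.Defs

/-!
# AA-05: Schwarz lemma with several multiple zeros

`g = f / ∏_(u ∈ Ξ) (s - u)^τ` extends to an analytic function on the disc of radius `R` (one zero at a time, e.g.
`AnalyticAt` with vanishing iterated derivatives: `f = (s - u)^τ g`, or `dslope` iterated). On `|s| = R/2` we have
`|s - u| ≥ R/2 - K ≥ R/4`, so `|g| ≤ S (4/R)^(#Ξ τ)` on `|s| ≤ R/2` (maximum principle,
`Complex.norm_le_of_forall_mem_frontier_norm_le`). On the circle of radius `1` around `u ∈ Ξ` we have `|s| ≤ K + 1 ≤ R/2` and `|s - u'| ≤ 2K + 1 ≤ 3K`, so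
`|f| ≤ (3K)^(#Ξ τ) S (4/R)^(#Ξ τ)`. Cauchy's estimate (`Complex.norm_iteratedDeriv_le_of_forall_mem_sphere_norm_le` or similar) with radius `1`.
-/

open Polynomial Topology

namespace Pool.Agent.Helper79.AA

theorem schwarz_away (A : Finset ℂ) (s : ℂ) : ∀ᶠ z in 𝓝 s, z ≠ s → z ∉ A := by
  classical
  have h1 : IsOpen (((A.erase s : Finset ℂ) : Set ℂ)ᶜ) :=
    (A.erase s).finite_toSet.isClosed.isOpen_compl
  have h2 : s ∈ (((A.erase s : Finset ℂ) : Set ℂ)ᶜ) := by simp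
  filter_upwards [h1.mem_nhds h2] with z hz hne hzA
  exact hz (by simp [hne, hzA])

/-- division by the zeros -/
theorem schwarz_divide {R : ℝ} (A : Finset ℂ) {f : ℂ → ℂ}
    (hf : AnalyticOnNhd ℂ f (Metric.ball 0 R)) (τ : ℕ)
    (hz : ∀ u ∈ A, ∀ j < τ, iteratedDeriv j f u = 0) :
    ∃ G : ℂ → ℂ, DifferentiableOn ℂ G (Metric.ball 0 R) ∧
      ∀ s ∈ Metric.ball (0 : ℂ) R, f s = (∏ u ∈ A, (s - u) ^ τ) * G s := by
  classical
  have hPne : ∀ z : ℂ, z ∉ A → ∏ u ∈ A, (z - u) ^ τ ≠ 0 := by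
    intro z hzA
    refine Finset.prod_ne_zero_iff.2 fun u hu => pow_ne_zero _ (sub_ne_zero.2 ?_)
    rintro rfl
    exact hzA hu
  have hPan : ∀ (B : Finset ℂ) (s : ℂ), AnalyticAt ℂ (fun z => ∏ u ∈ B, (z - u) ^ τ) s := by
    intro B s
    have : (fun z : ℂ => ∏ u ∈ B, (z - u) ^ τ) = ∏ u ∈ B, fun z : ℂ => (z - u) ^ τ := by
      funext z
      rw [Finset.prod_apply]
    rw [this]
    refine Finset.analyticAt_prod B fun u _ => ?_
    exact (analyticAt_id.sub analyticAt_const).pow τ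
  have hloc : ∀ s ∈ Metric.ball (0 : ℂ) R, ∃ h : ℂ → ℂ, AnalyticAt ℂ h s ∧
      ∀ᶠ z in 𝓝 s, f z = (∏ u ∈ A, (z - u) ^ τ) * h z := by
    intro s hs
    by_cases hsA : s ∈ A
    · obtain ⟨g, hg, hg2⟩ := (natCast_le_analyticOrderAt (hf s hs)).1
        ((natCast_le_analyticOrderAt_iff_iteratedDeriv_eq_zero (hf s hs)).2 (hz s hsA))
      have hne : ∏ u ∈ A.erase s, (s - u) ^ τ ≠ 0 := by
        refine Finset.prod_ne_zero_iff.2 fun u hu => pow_ne_zero _ (sub_ne_zero.2 ?_)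
        exact (Finset.ne_of_mem_erase hu).symm
      refine ⟨fun z => g z / ∏ u ∈ A.erase s, (z - u) ^ τ, hg.div (hPan _ s) hne, ?_⟩
      have hne2 := (hPan (A.erase s) s).continuousAt.eventually_ne hne
      filter_upwards [hg2, hne2] with z h1 h2
      rw [h1, ← Finset.mul_prod_erase A (fun u => (z - u) ^ τ) hsA, smul_eq_mul]
      field_simp
    · refine ⟨fun z => f z / ∏ u ∈ A, (z - u) ^ τ, (hf s hs).div (hPan _ s) (hPne s hsA), ?_⟩
      have hne2 := (hPan A s).continuousAt.eventually_ne (hPne s hsA)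
      filter_upwards [hne2] with z h2
      field_simp
  choose! h hh1 hh2 using hloc
  have key : ∀ s ∈ Metric.ball (0 : ℂ) R, f s = (∏ u ∈ A, (s - u) ^ τ) * h s s :=
    fun s hs => (hh2 s hs).self_of_nhds
  refine ⟨fun s => h s s, fun s hs => ?_, key⟩
  apply DifferentiableAt.differentiableWithinAt
  refine (hh1 s hs).differentiableAt.congr_of_eventuallyEq ?_
  filter_upwards [schwarz_away A s, hh2 s hs, Metric.isOpen_ball.mem_nhds hs] with z h1 h2 h3
  by_cases hzs : z = s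
  · rw [hzs]
  · have h4 := key z h3
    rw [h4] at h2
    exact mul_left_cancel₀ (hPne z (h1 hzs)) h2

theorem schwarz {K : ℕ} (hK : 2 ≤ K) {R : ℝ} (hR : 4 * (K : ℝ) ≤ R) {Ξ : Finset ℤ}
    (hΞ : ∀ u ∈ Ξ, |u| ≤ K) {f : ℂ → ℂ} (hf : AnalyticOnNhd ℂ f (Metric.ball 0 R)) {τ : ℕ}
    (hz : ∀ u ∈ Ξ, ∀ j < τ, iteratedDeriv j f (u : ℂ) = 0) {S : ℝ}
    (hS : ∀ s : ℂ, ‖s‖ ≤ R / 2 → ‖f s‖ ≤ S) {u : ℤ} (hu : u ∈ Ξ) (j : ℕ) :
    ‖iteratedDeriv j f (u : ℂ)‖ ≤ (j.factorial : ℝ) *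
      (S * (3 * K) ^ (Ξ.card * τ) * (4 / R) ^ (Ξ.card * τ)) := by
  classical
  have hKR : (2 : ℝ) ≤ K := by exact_mod_cast hK
  have hR0 : 0 < R := by linarith
  have hS0 : 0 ≤ S := (norm_nonneg _).trans (hS 0 (by simp; positivity))
  have hnorm : ∀ v ∈ Ξ, ‖((v : ℤ) : ℂ)‖ ≤ K := by
    intro v hv
    rw [Complex.norm_intCast]
    exact_mod_cast hΞ v hv
  set A : Finset ℂ := Ξ.image (fun v : ℤ => (v : ℂ)) with hA
  have hprod : ∀ s : ℂ, ∏ w ∈ A, (s - w) ^ τ = ∏ v ∈ Ξ, (s - (v : ℂ)) ^ τ := by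
    intro s
    rw [hA, Finset.prod_image]
    intro x _ y _ hxy
    exact Int.cast_injective hxy
  obtain ⟨G, hG, hfG⟩ := schwarz_divide (R := R) A hf τ (by
      intro w hw
      rw [hA, Finset.mem_image] at hw
      obtain ⟨v, hv, rfl⟩ := hw
      exact hz v hv)
  simp only [hprod] at hfG
  have hpn : ∀ s : ℂ, ‖∏ v ∈ Ξ, (s - (v : ℂ)) ^ τ‖ = ∏ v ∈ Ξ, ‖s - (v : ℂ)‖ ^ τ := by
    intro s
    rw [norm_prod]
    simp only [norm_pow]
  -- the bound on the disc of radius `R / 2`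
  have hGb : ∀ s : ℂ, ‖s‖ ≤ R / 2 → ‖G s‖ ≤ S * (4 / R) ^ (Ξ.card * τ) := by
    intro s hs
    refine Complex.norm_le_of_forall_mem_frontier_norm_le (U := Metric.ball 0 (R / 2))
      Metric.isBounded_ball ?_ ?_ ?_
    · refine hG.diffContOnCl_ball ?_
      exact Metric.closedBall_subset_ball (by linarith)
    · intro z hz'
      rw [frontier_ball (0 : ℂ) (by positivity : R / 2 ≠ 0), mem_sphere_zero_iff_norm] at hz'
      have hzb : z ∈ Metric.ball (0 : ℂ) R := by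
        rw [mem_ball_zero_iff, hz']
        linarith
      have h1 := hfG z hzb
      have h2 : (R / 4) ^ (Ξ.card * τ) ≤ ‖∏ v ∈ Ξ, (z - (v : ℂ)) ^ τ‖ := by
        rw [hpn, mul_comm, pow_mul, ← Finset.prod_const]
        refine Finset.prod_le_prod (fun _ _ => by positivity) fun v hv => ?_
        refine pow_le_pow_left₀ (by positivity) ?_ τ
        have h3 := norm_sub_norm_le z (v : ℂ)
        have h4 := hnorm v hv
        rw [hz'] at h3
        linarith
      have h5 : ‖f z‖ ≤ S := hS z hz'.le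
      rw [h1, norm_mul] at h5
      have h6 : (R / 4) ^ (Ξ.card * τ) * ‖G z‖ ≤ S :=
        (mul_le_mul_of_nonneg_right h2 (norm_nonneg _)).trans h5
      have h7 : (4 / R) ^ (Ξ.card * τ) * (R / 4) ^ (Ξ.card * τ) = 1 := by
        rw [← mul_pow]
        have : 4 / R * (R / 4) = 1 := by field_simp
        rw [this, one_pow]
      have h8 : 0 ≤ (4 / R) ^ (Ξ.card * τ) := by positivity
      calc ‖G z‖ = (4 / R) ^ (Ξ.card * τ) * ((R / 4) ^ (Ξ.card * τ) * ‖G z‖) := by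
            rw [← mul_assoc, h7, one_mul]
        _ ≤ (4 / R) ^ (Ξ.card * τ) * S := mul_le_mul_of_nonneg_left h6 h8
        _ = _ := mul_comm _ _
    · rw [closure_ball (0 : ℂ) (by positivity : R / 2 ≠ 0), mem_closedBall_zero_iff]
      exact hs
  have hdc : DiffContOnCl ℂ f (Metric.ball (u : ℂ) 1) := by
    refine hf.differentiableOn.diffContOnCl_ball ?_
    intro z hz'
    rw [Metric.mem_closedBall, dist_eq_norm] at hz'
    rw [mem_ball_zero_iff]
    have h1 := norm_add_le (z - (u : ℂ)) (u : ℂ)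
    rw [sub_add_cancel] at h1
    have h2 := hnorm u hu
    linarith
  have hc := Complex.norm_iteratedDeriv_le_of_forall_mem_sphere_norm_le (c := (u : ℂ)) (R := 1)
    (C := S * (3 * K) ^ (Ξ.card * τ) * (4 / R) ^ (Ξ.card * τ)) j one_pos hdc (by
      intro z hz'
      rw [mem_sphere_iff_norm] at hz'
      have h1 := norm_add_le (z - (u : ℂ)) (u : ℂ)
      rw [sub_add_cancel, hz'] at h1
      have h2 := hnorm u hu
      have hzn : ‖z‖ ≤ K + 1 := by linarith
      have hzb : z ∈ Metric.ball (0 : ℂ) R := by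
        rw [mem_ball_zero_iff]
        linarith
      rw [hfG z hzb, norm_mul]
      have h3 : ‖∏ v ∈ Ξ, (z - (v : ℂ)) ^ τ‖ ≤ (3 * K : ℝ) ^ (Ξ.card * τ) := by
        rw [hpn, mul_comm Ξ.card τ, pow_mul, ← Finset.prod_const]
        refine Finset.prod_le_prod (fun _ _ => by positivity) fun v hv => ?_
        refine pow_le_pow_left₀ (norm_nonneg _) ?_ τ
        have h4 := norm_sub_le z (v : ℂ)
        have h5 := hnorm v hv
        linarith
      have h4 := hGb z (by linarith)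
      calc ‖∏ v ∈ Ξ, (z - (v : ℂ)) ^ τ‖ * ‖G z‖
          ≤ (3 * K : ℝ) ^ (Ξ.card * τ) * (S * (4 / R) ^ (Ξ.card * τ)) :=
            mul_le_mul h3 h4 (norm_nonneg _) (by positivity)
        _ = _ := by ring)
  rw [one_pow, div_one] at hc
  exact hc

end Pool.Agent.Helper79.AA
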