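import Pool.Agent.Helper79.AA.Row

/-!
# AA-04: the auxiliary polynomials

`M = 2 m b τ`. The unknowns are the `m (M + 1)` integer coefficients of `p`. For every `u ∈ Ξ` choose `m - 1` vectors
`φ_(u,h) ∈ ℤ^m` whose common orthogonal space is `ℚ x_u` (a basis of the orthogonal of `x_u` in `ℚ^m`, which has
dimension `m - 1`, with cleared denominators). The equations are `⟨q_u row_j(p)(u), φ_(u,h)⟩ = 0`, `u ∈ Ξ`,
`j < τ`, `h < m - 1`, with `q_u` from `Gr` for `J = τ`: there are `(2m+1) b τ (m-1) = (2m^2 - m - 1) b τ` of them. Since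
`(hasse_l X^i)(u) = binom(i,l) u^(i-l)` is an integer of absolute value at most `2^M K^M`, the coefficients are integers of absolute
value at most `C τ (2K)^M Q^(2τ)` (`C` depends on everything except `τ`). Number of unknowns minus number of
equations: at least `(m + 1) b τ`, so the exponent in Siegel's lemma (`Int.Matrix.exists_ne_zero_int_vec_norm_le`) is
`≤ (2m^2-m-1)/(m+1) ≤ 2m`. If there are no equations (`m = 1`) or all coefficients are zero, take `p = e_0`.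
The number of unknowns is at most `C τ`.
-/

open Polynomial

namespace Pool.Agent.Helper79.AA

open Pool.Agent.Helper79.GX

/-- integer vectors whose common orthogonal space is the line spanned by `x` -/
private theorem siegel_orth {m' : ℕ} (x : Fin (m' + 1) → ℚ) (hx : x ≠ 0) :
    ∃ φ : Fin m' → Fin (m' + 1) → ℤ, ∀ y : Fin (m' + 1) → ℚ,
      (∀ h, ∑ a, y a * (φ h a : ℚ) = 0) → ∃ c : ℚ, y = c • x := by
  classical
  obtain ⟨a0, ha0⟩ : ∃ a, x a ≠ 0 := by
    by_contra h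
    push Not at h
    exact hx (funext h)
  set D : ℕ := ∏ a, (x a).den with hD
  have hD0 : (D : ℚ) ≠ 0 := by
    have : D ≠ 0 := Finset.prod_ne_zero_iff.2 fun a _ => (x a).den_nz
    exact_mod_cast this
  have hex : ∀ a, ∃ n : ℤ, (D : ℚ) * x a = n := by
    intro a
    obtain ⟨k, hk⟩ : (x a).den ∣ D := Finset.dvd_prod_of_mem _ (Finset.mem_univ a)
    refine ⟨(k : ℤ) * (x a).num, ?_⟩
    rw [hk]
    push_cast
    have h1 := Rat.mul_den_eq_num (x a)
    calc ((x a).den : ℚ) * k * x a = k * (x a * (x a).den) := by ring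
      _ = k * (x a).num := by rw [h1]
  choose N hN using hex
  refine ⟨fun h a => N a0 * (if a = a0.succAbove h then 1 else 0) -
    N (a0.succAbove h) * (if a = a0 then 1 else 0), ?_⟩
  intro y hy
  refine ⟨y a0 / x a0, ?_⟩
  funext b
  change y b = y a0 / x a0 * x b
  by_cases hb : b = a0
  · rw [hb, div_mul_cancel₀ _ ha0]
  · obtain ⟨h, rfl⟩ := Fin.exists_succAbove_eq hb
    have h1 := hy h
    have h2 : ∑ a, y a * ((N a0 * (if a = a0.succAbove h then 1 else 0) -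
        N (a0.succAbove h) * (if a = a0 then 1 else 0) : ℤ) : ℚ) =
        y (a0.succAbove h) * N a0 - y a0 * N (a0.succAbove h) := by
      have h3 : ∀ a, y a * ((N a0 * (if a = a0.succAbove h then 1 else 0) -
          N (a0.succAbove h) * (if a = a0 then 1 else 0) : ℤ) : ℚ) =
          (if a = a0.succAbove h then y a * N a0 else 0) -
            (if a = a0 then y a * N (a0.succAbove h) else 0) := by
        intro a
        split_ifs <;> push_cast <;> ring
      rw [Finset.sum_congr rfl (fun a _ => h3 a), Finset.sum_sub_distrib]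
      simp
    rw [h2, ← hN, ← hN] at h1
    have h4 : (D : ℚ) * (y (a0.succAbove h) * x a0 - y a0 * x (a0.succAbove h)) = 0 := by
      rw [← h1]; ring
    have h5 := (mul_eq_zero.1 h4).resolve_left hD0
    rw [div_mul_eq_mul_div, eq_div_iff ha0]
    linarith

attribute [local instance] Matrix.seminormedAddCommGroup in
/-- Siegel's lemma with a natural exponent -/
private theorem siegel_pkg {α β : Type} [Fintype α] [Fintype β] (A : Matrix α β ℤ) {H : ℝ}
    (hH : 1 ≤ H) (hA : ∀ i j, |((A i j : ℤ) : ℝ)| ≤ H) {k : ℕ} (hcard : 0 < Fintype.card α)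
    (hlt : Fintype.card α < Fintype.card β)
    (hk : Fintype.card α ≤ k * (Fintype.card β - Fintype.card α)) :
    ∃ t : β → ℤ, t ≠ 0 ∧ (∀ i, ∑ j, A i j * t j = 0) ∧
      ∀ j, |((t j : ℤ) : ℝ)| ≤ ((Fintype.card β : ℝ) * H) ^ k := by
  obtain ⟨t, ht0, ht1, ht2⟩ := Int.Matrix.exists_ne_zero_int_vec_norm_le A hlt hcard
  refine ⟨t, ht0, fun i => congrFun ht1 i, fun j => ?_⟩
  have h1 : |((t j : ℤ) : ℝ)| ≤ ‖t‖ := by
    rw [← Int.norm_eq_abs]
    exact norm_le_pi_norm t j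
  have hn1 : (1 : ℝ) ≤ (Fintype.card β : ℝ) := by
    exact_mod_cast (Nat.succ_le_of_lt (lt_of_le_of_lt (Nat.zero_le _) hlt))
  have h2 : max 1 ‖A‖ ≤ H := by
    refine max_le hH ?_
    rw [Matrix.norm_le_iff (by linarith)]
    intro i j
    rw [Int.norm_eq_abs]
    exact hA i j
  have h3 : (0 : ℝ) < (Fintype.card β : ℝ) - Fintype.card α := by
    have : (Fintype.card α : ℝ) < Fintype.card β := by exact_mod_cast hlt
    linarith
  have h4 : (Fintype.card α : ℝ) / ((Fintype.card β : ℝ) - Fintype.card α) ≤ k := by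
    rw [div_le_iff₀ h3]
    have h5 : (Fintype.card α : ℝ) ≤ ((k * (Fintype.card β - Fintype.card α) : ℕ) : ℝ) := by
      exact_mod_cast hk
    rw [Nat.cast_mul, Nat.cast_sub hlt.le] at h5
    exact h5
  have h6 : (1 : ℝ) ≤ (Fintype.card β : ℝ) * H := by nlinarith
  calc |((t j : ℤ) : ℝ)| ≤ ‖t‖ := h1
    _ ≤ ((Fintype.card β : ℝ) * max 1 ‖A‖) ^
        ((Fintype.card α : ℝ) / ((Fintype.card β : ℝ) - Fintype.card α)) := ht2
    _ ≤ ((Fintype.card β : ℝ) * H) ^
        ((Fintype.card α : ℝ) / ((Fintype.card β : ℝ) - Fintype.card α)) := by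
        refine Real.rpow_le_rpow (by positivity) ?_ (by positivity)
        exact mul_le_mul_of_nonneg_left h2 (by positivity)
    _ ≤ ((Fintype.card β : ℝ) * H) ^ (k : ℝ) := Real.rpow_le_rpow_of_exponent_le h6 h4
    _ = ((Fintype.card β : ℝ) * H) ^ k := Real.rpow_natCast _ _

/-- the divided derivatives of an integer polynomial at an integer -/
private theorem siegel_hasse {M : ℕ} (t : Fin (M + 1) → ℤ) (l : ℕ) (u : ℤ) :
    (hasseDeriv l ((∑ i : Fin (M + 1), C (t i) * X ^ (i : ℕ) : ℤ[X]).map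
      (Int.castRingHom ℚ))).eval (u : ℚ) =
      ∑ i : Fin (M + 1), ((((i : ℕ).choose l : ℕ) : ℚ) * (u : ℚ) ^ ((i : ℕ) - l)) * (t i : ℚ) := by
  rw [Polynomial.map_sum, map_sum, Polynomial.eval_finset_sum]
  refine Finset.sum_congr rfl fun i _ => ?_
  rw [Polynomial.map_mul, Polynomial.map_pow, Polynomial.map_X, Polynomial.map_C,
    C_mul_X_pow_eq_monomial, hasseDeriv_monomial, eval_monomial]
  simp only [eq_intCast]
  ring

theorem exists_aux {m : ℕ} (hm : 1 ≤ m) (T : ℚ[X]) (A : Matrix (Fin m) (Fin m) ℚ[X]) {Q : ℝ}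
    (hQ : 1 ≤ Q) {K : ℕ} (hK : 2 ≤ K) {b : ℕ} (hb : 1 ≤ b) {Ξ : Finset ℤ}
    (hcard : Ξ.card = (2 * m + 1) * b) {x : ℤ → Fin m → ℚ} (hx : ∀ u ∈ Ξ, x u ≠ 0)
    (hΞ : ∀ u ∈ Ξ, |u| ≤ K) (hG : ∀ u ∈ Ξ, Gr T A (u : ℚ) Q) :
    ∃ C : ℝ, 1 ≤ C ∧ ∀ τ : ℕ, 1 ≤ τ → ∃ p : Fin m → ℤ[X], p ≠ 0 ∧
      (∀ a, (p a).natDegree ≤ 2 * m * b * τ) ∧
      (∀ a n, |(((p a).coeff n : ℤ) : ℝ)| ≤
        (C * (τ : ℝ) ^ 2 * (2 * K) ^ (2 * m * b * τ) * Q ^ (2 * τ)) ^ (2 * m)) ∧
      ∀ u ∈ Ξ, ∀ j < τ, ∃ c : ℚ,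
        row T A (fun a => (p a).map (Int.castRingHom ℚ)) j (u : ℚ) = c • x u := by
  classical
  obtain ⟨m', rfl⟩ : ∃ m', m = m' + 1 := ⟨m - 1, by omega⟩
  choose CG hCG using hG
  choose φ hφ using fun (u : Ξ) => siegel_orth (x u) (hx u u.2)
  set C0 : ℝ := 1 + ∑ u : Ξ, |CG u u.2| with hC0
  set Φ : ℝ := 1 + ∑ u : Ξ, ∑ h, ∑ a, |(φ u h a : ℝ)| with hΦ
  have hC01 : 1 ≤ C0 := by
    have : 0 ≤ ∑ u : Ξ, |CG u u.2| := Finset.sum_nonneg fun _ _ => abs_nonneg _
    linarith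
  have hC0u : ∀ u : Ξ, CG u u.2 ≤ C0 := by
    intro u
    have h1 : |CG u u.2| ≤ ∑ u : Ξ, |CG u u.2| :=
      Finset.single_le_sum (f := fun u : Ξ => |CG u u.2|) (fun _ _ => abs_nonneg _)
        (Finset.mem_univ u)
    have := le_abs_self (CG u u.2)
    linarith
  have hΦ1 : 1 ≤ Φ := by
    have : 0 ≤ ∑ u : Ξ, ∑ h, ∑ a, |(φ u h a : ℝ)| := Finset.sum_nonneg fun _ _ =>
      Finset.sum_nonneg fun _ _ => Finset.sum_nonneg fun _ _ => abs_nonneg _
    linarith
  have hΦu : ∀ (u : Ξ) h a, |(φ u h a : ℝ)| ≤ Φ := by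
    intro u h a
    have h1 : |(φ u h a : ℝ)| ≤ ∑ a, |(φ u h a : ℝ)| :=
      Finset.single_le_sum (f := fun a => |(φ u h a : ℝ)|) (fun _ _ => abs_nonneg _)
        (Finset.mem_univ a)
    have h2 : ∑ a, |(φ u h a : ℝ)| ≤ ∑ h, ∑ a, |(φ u h a : ℝ)| :=
      Finset.single_le_sum (f := fun h => ∑ a, |(φ u h a : ℝ)|)
        (fun _ _ => Finset.sum_nonneg fun _ _ => abs_nonneg _) (Finset.mem_univ h)
    have h3 : ∑ h, ∑ a, |(φ u h a : ℝ)| ≤ ∑ u : Ξ, ∑ h, ∑ a, |(φ u h a : ℝ)| :=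
      Finset.single_le_sum (f := fun u : Ξ => ∑ h, ∑ a, |(φ u h a : ℝ)|)
        (fun _ _ => Finset.sum_nonneg fun _ _ => Finset.sum_nonneg fun _ _ => abs_nonneg _)
        (Finset.mem_univ u)
    linarith
  set C1 : ℝ := ((m' : ℝ) + 1) * C0 ^ 2 * Φ with hC1
  have hC11 : 1 ≤ C1 := by
    have h1 : (1 : ℝ) ≤ (m' : ℝ) + 1 := by
      have : (0 : ℝ) ≤ m' := Nat.cast_nonneg _
      linarith
    have h2 : (1 : ℝ) ≤ C0 ^ 2 := one_le_pow₀ hC01
    have h3 : (1 : ℝ) ≤ ((m' : ℝ) + 1) * C0 ^ 2 := one_le_mul_of_one_le_of_one_le h1 h2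
    exact one_le_mul_of_one_le_of_one_le h3 hΦ1
  set C2 : ℝ := 2 * ((m' : ℝ) + 1) ^ 2 * b + ((m' : ℝ) + 1) with hC2
  have hC21 : 1 ≤ C2 := by
    have h1 : (0 : ℝ) ≤ m' := Nat.cast_nonneg _
    have h2 : (0 : ℝ) ≤ 2 * ((m' : ℝ) + 1) ^ 2 * b := by positivity
    linarith
  have hK1 : (1 : ℝ) ≤ 2 * (K : ℝ) := by
    have : (2 : ℝ) ≤ K := by exact_mod_cast hK
    linarith
  have hKr : (1 : ℝ) ≤ (K : ℝ) := by
    have : (2 : ℝ) ≤ K := by exact_mod_cast hK
    linarith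
  refine ⟨C2 * C1, one_le_mul_of_one_le_of_one_le hC21 hC11, ?_⟩
  intro τ hτ
  have hτ1 : (1 : ℝ) ≤ τ := by exact_mod_cast hτ
  set M : ℕ := 2 * (m' + 1) * b * τ with hM
  set H : ℝ := C1 * τ * (2 * K) ^ M * Q ^ (2 * τ) with hH
  have hH1 : 1 ≤ H := by
    refine one_le_mul_of_one_le_of_one_le (one_le_mul_of_one_le_of_one_le
      (one_le_mul_of_one_le_of_one_le hC11 hτ1) (one_le_pow₀ hK1)) (one_le_pow₀ hQ)
  have hbig : C2 * τ * H = C2 * C1 * (τ : ℝ) ^ 2 * (2 * K) ^ M * Q ^ (2 * τ) := by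
    rw [hH]; ring
  have hbig1 : 1 ≤ C2 * C1 * (τ : ℝ) ^ 2 * (2 * K) ^ M * Q ^ (2 * τ) := by
    rw [← hbig]
    exact one_le_mul_of_one_le_of_one_le (one_le_mul_of_one_le_of_one_le hC21 hτ1) hH1
  rcases Nat.eq_zero_or_pos m' with hm0 | hm0
  · -- one unknown function
    subst hm0
    refine ⟨fun _ => 1, ?_, ?_, ?_, ?_⟩
    · intro h
      have := congrFun h 0
      exact one_ne_zero this
    · intro a
      simp
    · intro a n
      refine le_trans ?_ (one_le_pow₀ hbig1)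
      rw [Polynomial.coeff_one]
      split_ifs <;> simp
    · intro u hu j hj
      have h1 : x u 0 ≠ 0 := by
        intro h2
        apply hx u hu
        funext a
        rw [Subsingleton.elim (α := Fin 1) a 0, h2]
        rfl
      refine ⟨row T A (fun a => (1 : ℤ[X]).map (Int.castRingHom ℚ)) j (u : ℚ) 0 / x u 0, ?_⟩
      funext a
      rw [Subsingleton.elim (α := Fin 1) a 0]
      change _ = _ / x u 0 * x u 0
      rw [div_mul_cancel₀ _ h1]
  · -- denominators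
    have hq : ∀ u : Ξ, ∃ q : ℕ, 0 < q ∧ (q : ℝ) ≤ C0 * Q ^ τ ∧ ∀ j ≤ τ, ∀ a b,
        (∃ n : ℤ, (q : ℚ) * gm T A j (u : ℤ) a b = n) ∧
          |((gm T A j ((u : ℤ) : ℚ) a b : ℚ) : ℝ)| ≤ C0 * Q ^ j := by
      intro u
      obtain ⟨q, h1, h2, h3⟩ := hCG u u.2 τ
      refine ⟨q, h1, h2.trans (mul_le_mul_of_nonneg_right (hC0u u) (by positivity)), ?_⟩
      intro j hj a b
      refine ⟨(h3 j hj a b).1, ((h3 j hj a b).2).trans
        (mul_le_mul_of_nonneg_right (hC0u u) (by positivity))⟩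
    choose q hq0 hqle hq using hq
    have hN : ∀ (u : Ξ) (j : ℕ) (a b : Fin (m' + 1)), ∃ n : ℤ, j ≤ τ →
        (q u : ℚ) * gm T A j (u : ℤ) a b = n := by
      intro u j a b
      by_cases hj : j ≤ τ
      · obtain ⟨n, hn⟩ := (hq u j hj a b).1
        exact ⟨n, fun _ => hn⟩
      · exact ⟨0, fun h => absurd h hj⟩
    choose N hN using hN
    have hNle : ∀ (u : Ξ) (j : ℕ) (a b : Fin (m' + 1)), j ≤ τ →
        |(N u j a b : ℝ)| ≤ C0 ^ 2 * Q ^ (2 * τ) := by
      intro u j a b hj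
      have h1 : (N u j a b : ℝ) = (q u : ℝ) * ((gm T A j ((u : ℤ) : ℚ) a b : ℚ) : ℝ) := by
        have := hN u j a b hj
        have h2 : (((q u : ℚ) * gm T A j (u : ℤ) a b : ℚ) : ℝ) = ((N u j a b : ℚ) : ℝ) := by
          rw [this]
        push_cast at h2
        exact h2.symm
      rw [h1, abs_mul, Nat.abs_cast]
      have h3 := (hq u j hj a b).2
      calc (q u : ℝ) * |((gm T A j ((u : ℤ) : ℚ) a b : ℚ) : ℝ)|
          ≤ (C0 * Q ^ τ) * (C0 * Q ^ j) := mul_le_mul (hqle u) h3 (abs_nonneg _) (by positivity)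
        _ ≤ (C0 * Q ^ τ) * (C0 * Q ^ τ) := by
            refine mul_le_mul_of_nonneg_left ?_ (by positivity)
            exact mul_le_mul_of_nonneg_left (pow_le_pow_right₀ hQ hj) (by positivity)
        _ = C0 ^ 2 * Q ^ (2 * τ) := by ring
    -- the matrix
    set Mx : Matrix (Ξ × Fin τ × Fin m') (Fin (m' + 1) × Fin (M + 1)) ℤ :=
      Matrix.of fun e c => ∑ l ∈ Finset.range ((e.2.1 : ℕ) + 1),
        (((c.2 : ℕ).choose l : ℕ) : ℤ) * (e.1 : ℤ) ^ ((c.2 : ℕ) - l) *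
          ∑ b, N e.1 ((e.2.1 : ℕ) - l) c.1 b * φ e.1 e.2.2 b with hMx
    have hMxle : ∀ e c, |((Mx e c : ℤ) : ℝ)| ≤ H := by
      intro e c
      rw [hMx]
      simp only [Matrix.of_apply]
      push_cast
      refine (Finset.abs_sum_le_sum_abs _ _).trans ?_
      have hterm : ∀ l ∈ Finset.range ((e.2.1 : ℕ) + 1),
          |(((c.2 : ℕ).choose l : ℕ) : ℝ) * ((e.1 : ℤ) : ℝ) ^ ((c.2 : ℕ) - l) *
            ∑ b, (N e.1 ((e.2.1 : ℕ) - l) c.1 b : ℝ) * (φ e.1 e.2.2 b : ℝ)| ≤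
            C1 * (2 * K) ^ M * Q ^ (2 * τ) := by
        intro l hl
        rw [abs_mul, abs_mul, Nat.abs_cast, abs_pow]
        have k1 : (((c.2 : ℕ).choose l : ℕ) : ℝ) ≤ 2 ^ M := by
          have h1 : (c.2 : ℕ).choose l ≤ 2 ^ (c.2 : ℕ) := Nat.choose_le_two_pow _ _
          have h2 : 2 ^ (c.2 : ℕ) ≤ 2 ^ M :=
            Nat.pow_le_pow_right (by norm_num) (Nat.le_of_lt_succ c.2.2)
          exact_mod_cast h1.trans h2
        have k2 : |((e.1 : ℤ) : ℝ)| ^ ((c.2 : ℕ) - l) ≤ (K : ℝ) ^ M := by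
          have h1 : |((e.1 : ℤ) : ℝ)| ≤ K := by
            have := hΞ e.1 e.1.2
            rw [← Int.cast_abs]
            exact_mod_cast this
          calc |((e.1 : ℤ) : ℝ)| ^ ((c.2 : ℕ) - l) ≤ (K : ℝ) ^ ((c.2 : ℕ) - l) :=
                pow_le_pow_left₀ (abs_nonneg _) h1 _
            _ ≤ (K : ℝ) ^ M := pow_le_pow_right₀ hKr
                ((Nat.sub_le _ _).trans (Nat.le_of_lt_succ c.2.2))
        have k3 : |∑ b, (N e.1 ((e.2.1 : ℕ) - l) c.1 b : ℝ) * (φ e.1 e.2.2 b : ℝ)| ≤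
            ((m' : ℝ) + 1) * (C0 ^ 2 * Q ^ (2 * τ) * Φ) := by
          refine (Finset.abs_sum_le_sum_abs _ _).trans ?_
          have h1 : ∀ b ∈ (Finset.univ : Finset (Fin (m' + 1))),
              |(N e.1 ((e.2.1 : ℕ) - l) c.1 b : ℝ) * (φ e.1 e.2.2 b : ℝ)| ≤
              C0 ^ 2 * Q ^ (2 * τ) * Φ := by
            intro b _
            rw [abs_mul]
            refine mul_le_mul (hNle _ _ _ _ ?_) (hΦu _ _ _) (abs_nonneg _) (by positivity)
            exact (Nat.sub_le _ _).trans e.2.1.2.le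
          refine (Finset.sum_le_sum h1).trans (le_of_eq ?_)
          rw [Finset.sum_const, Finset.card_univ, Fintype.card_fin, nsmul_eq_mul]
          push_cast
          ring
        calc (((c.2 : ℕ).choose l : ℕ) : ℝ) * |((e.1 : ℤ) : ℝ)| ^ ((c.2 : ℕ) - l) *
            |∑ b, (N e.1 ((e.2.1 : ℕ) - l) c.1 b : ℝ) * (φ e.1 e.2.2 b : ℝ)|
            ≤ (2 ^ M * (K : ℝ) ^ M) * (((m' : ℝ) + 1) * (C0 ^ 2 * Q ^ (2 * τ) * Φ)) := by
              refine mul_le_mul (mul_le_mul k1 k2 (by positivity) (by positivity)) k3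
                (abs_nonneg _) (by positivity)
          _ = C1 * (2 * K) ^ M * Q ^ (2 * τ) := by
              rw [hC1, mul_pow]; ring
      refine (Finset.sum_le_sum hterm).trans ?_
      rw [Finset.sum_const, Finset.card_range, nsmul_eq_mul]
      have h1 : (((e.2.1 : ℕ) + 1 : ℕ) : ℝ) ≤ τ := by
        exact_mod_cast Nat.succ_le_of_lt e.2.1.2
      calc (((e.2.1 : ℕ) + 1 : ℕ) : ℝ) * (C1 * (2 * K) ^ M * Q ^ (2 * τ))
          ≤ τ * (C1 * (2 * K) ^ M * Q ^ (2 * τ)) :=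
            mul_le_mul_of_nonneg_right h1 (by positivity)
        _ = H := by rw [hH]; ring
    -- cardinalities
    have hα : Fintype.card (Ξ × Fin τ × Fin m') = (2 * (m' + 1) + 1) * b * (τ * m') := by
      rw [Fintype.card_prod, Fintype.card_prod, Fintype.card_fin, Fintype.card_fin,
        Fintype.card_coe, hcard]
    have hβ : Fintype.card (Fin (m' + 1) × Fin (M + 1)) =
        Fintype.card (Ξ × Fin τ × Fin m') + ((m' + 2) * b * τ + (m' + 1)) := by
      rw [hα, Fintype.card_prod, Fintype.card_fin, Fintype.card_fin, hM]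
      ring
    have hpos : 0 < Fintype.card (Ξ × Fin τ × Fin m') := by
      rw [hα]
      positivity
    have hlt : Fintype.card (Ξ × Fin τ × Fin m') < Fintype.card (Fin (m' + 1) × Fin (M + 1)) := by
      rw [hβ]
      omega
    have hk : Fintype.card (Ξ × Fin τ × Fin m') ≤ (2 * (m' + 1)) *
        (Fintype.card (Fin (m' + 1) × Fin (M + 1)) - Fintype.card (Ξ × Fin τ × Fin m')) := by
      rw [hβ, Nat.add_sub_cancel_left, hα]
      have h1 : (2 * (m' + 1) + 1) * b * (τ * m') = ((2 * (m' + 1) + 1) * m') * (b * τ) := by ring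
      have h2 : 2 * (m' + 1) * ((m' + 2) * b * τ + (m' + 1)) =
          (2 * (m' + 1) * (m' + 2)) * (b * τ) + 2 * (m' + 1) * (m' + 1) := by ring
      rw [h1, h2]
      have h3 : (2 * (m' + 1) + 1) * m' ≤ 2 * (m' + 1) * (m' + 2) := by nlinarith
      exact (Nat.mul_le_mul_right _ h3).trans (Nat.le_add_right _ _)
    obtain ⟨t, ht0, ht1, ht2⟩ := siegel_pkg Mx hH1 hMxle (k := 2 * (m' + 1)) hpos hlt hk
    have hcardβ : (Fintype.card (Fin (m' + 1) × Fin (M + 1)) : ℝ) ≤ C2 * τ := by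
      rw [Fintype.card_prod, Fintype.card_fin, Fintype.card_fin, hM, hC2]
      push_cast
      have h1 : (0 : ℝ) ≤ m' := Nat.cast_nonneg _
      nlinarith
    have hfin : ∀ c, |((t c : ℤ) : ℝ)| ≤
        (C2 * C1 * (τ : ℝ) ^ 2 * (2 * K) ^ M * Q ^ (2 * τ)) ^ (2 * (m' + 1)) := by
      intro c
      refine (ht2 c).trans ?_
      rw [← hbig]
      refine pow_le_pow_left₀ (by positivity) ?_ _
      exact mul_le_mul_of_nonneg_right hcardβ (by linarith)
    have hcoeff : ∀ (a : Fin (m' + 1)) (n : ℕ),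
        (∑ i : Fin (M + 1), C (t (a, i)) * X ^ (i : ℕ) : ℤ[X]).coeff n =
          if h : n < M + 1 then t (a, ⟨n, h⟩) else 0 := by
      intro a n
      rw [Polynomial.finsetSum_coeff]
      simp only [coeff_C_mul, coeff_X_pow]
      split_ifs with h
      · rw [Finset.sum_eq_single ⟨n, h⟩]
        · simp
        · intro i _ hi
          rw [if_neg, mul_zero]
          intro h1
          exact hi (Fin.ext h1.symm)
        · intro h1
          exact absurd (Finset.mem_univ _) h1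
      · refine Finset.sum_eq_zero fun i _ => ?_
        rw [if_neg, mul_zero]
        intro h1
        exact h (h1 ▸ i.2)
    refine ⟨fun a => ∑ i : Fin (M + 1), C (t (a, i)) * X ^ (i : ℕ), ?_, ?_, ?_, ?_⟩
    · intro h0
      apply ht0
      funext c
      obtain ⟨a, i⟩ := c
      have h1 := congrArg (fun f : ℤ[X] => f.coeff (i : ℕ)) (congrFun h0 a)
      change (∑ i : Fin (M + 1), C (t (a, i)) * X ^ (i : ℕ) : ℤ[X]).coeff (i : ℕ) =
        (0 : ℤ[X]).coeff (i : ℕ) at h1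
      rw [hcoeff, dif_pos i.2] at h1
      simpa using h1
    · intro a
      rw [Polynomial.natDegree_le_iff_coeff_eq_zero]
      intro n hn
      rw [hcoeff, dif_neg]
      omega
    · intro a n
      rw [hcoeff]
      split_ifs with h
      · exact hfin _
      · rw [Int.cast_zero, abs_zero]
        positivity
    · intro u hu j hj
      refine hφ ⟨u, hu⟩ _ (fun h => ?_)
      have hq1 : (q ⟨u, hu⟩ : ℚ) ≠ 0 := by
        exact_mod_cast (hq0 ⟨u, hu⟩).ne'
      have he := ht1 (⟨u, hu⟩, ⟨j, hj⟩, h)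
      have he' : ∑ c, ((Mx (⟨u, hu⟩, ⟨j, hj⟩, h) c : ℤ) : ℚ) * (t c : ℚ) = 0 := by
        exact_mod_cast he
      apply (mul_eq_zero.1 (?_ : (q ⟨u, hu⟩ : ℚ) * _ = 0)).resolve_left hq1
      rw [← he', hMx, Fintype.sum_prod_type]
      simp only [Matrix.of_apply]
      push_cast
      have hrow : ∀ b', (q ⟨u, hu⟩ : ℚ) * row T A
          (fun a => (∑ i : Fin (M + 1), C (t (a, i)) * X ^ (i : ℕ) : ℤ[X]).map
            (Int.castRingHom ℚ)) j (u : ℚ) b' =
          ∑ l ∈ Finset.range (j + 1), ∑ a, (∑ i : Fin (M + 1),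
            ((((i : ℕ).choose l : ℕ) : ℚ) * (u : ℚ) ^ ((i : ℕ) - l)) * (t (a, i) : ℚ)) *
              (N ⟨u, hu⟩ (j - l) a b' : ℚ) := by
        intro b'
        unfold row
        rw [Finset.mul_sum]
        refine Finset.sum_congr rfl fun l hl => ?_
        rw [Finset.mul_sum]
        refine Finset.sum_congr rfl fun a _ => ?_
        rw [siegel_hasse, ← hN ⟨u, hu⟩ (j - l) a b' ((Nat.sub_le _ _).trans hj.le)]
        ring
      rw [Finset.mul_sum]
      have hL : ∀ b' ∈ (Finset.univ : Finset (Fin (m' + 1))),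
          (q ⟨u, hu⟩ : ℚ) * (row T A
          (fun a => (∑ i : Fin (M + 1), C (t (a, i)) * X ^ (i : ℕ) : ℤ[X]).map
            (Int.castRingHom ℚ)) j (u : ℚ) b' * (φ ⟨u, hu⟩ h b' : ℚ)) =
          ∑ l ∈ Finset.range (j + 1), ∑ a, ∑ i : Fin (M + 1),
            ((((i : ℕ).choose l : ℕ) : ℚ) * (u : ℚ) ^ ((i : ℕ) - l)) * (t (a, i) : ℚ) *
              (N ⟨u, hu⟩ (j - l) a b' : ℚ) * (φ ⟨u, hu⟩ h b' : ℚ) := by
        intro b' _
        rw [← mul_assoc, hrow, Finset.sum_mul]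
        refine Finset.sum_congr rfl fun l _ => ?_
        rw [Finset.sum_mul]
        refine Finset.sum_congr rfl fun a _ => ?_
        rw [Finset.sum_mul, Finset.sum_mul]
      rw [Finset.sum_congr rfl hL]
      -- reorder the sums
      have hR : ∀ a ∈ (Finset.univ : Finset (Fin (m' + 1))),
          ∑ i : Fin (M + 1), (∑ l ∈ Finset.range (j + 1),
            (((i : ℕ).choose l : ℕ) : ℚ) * (u : ℚ) ^ ((i : ℕ) - l) *
              ∑ b', (N ⟨u, hu⟩ (j - l) a b' : ℚ) * (φ ⟨u, hu⟩ h b' : ℚ)) * (t (a, i) : ℚ) =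
          ∑ l ∈ Finset.range (j + 1), ∑ i : Fin (M + 1), ∑ b',
            ((((i : ℕ).choose l : ℕ) : ℚ) * (u : ℚ) ^ ((i : ℕ) - l)) * (t (a, i) : ℚ) *
              (N ⟨u, hu⟩ (j - l) a b' : ℚ) * (φ ⟨u, hu⟩ h b' : ℚ) := by
        intro a _
        rw [Finset.sum_comm]
        refine Finset.sum_congr rfl fun i _ => ?_
        rw [Finset.sum_mul]
        refine Finset.sum_congr rfl fun l _ => ?_
        rw [Finset.mul_sum, Finset.sum_mul]
        refine Finset.sum_congr rfl fun b' _ => ?_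
        ring
      rw [Finset.sum_congr rfl hR, Finset.sum_comm, Finset.sum_comm (s := Finset.univ)
        (t := Finset.range (j + 1))]
      refine Finset.sum_congr rfl fun l _ => ?_
      rw [Finset.sum_comm]
      refine Finset.sum_congr rfl fun a _ => ?_
      rw [Finset.sum_comm]

end Pool.Agent.Helper79.AA
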