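import Pool.Agent.Helper79.AA.Row

/-!
# AA-06: independent rows at one of the points

Let `δ = det (nop T A j p)_(j < m)`, a nonzero polynomial of degree at most `m M + C` (`nop T A j p` has degree at most
`M + j d`, `d` = maximum of the degrees of `T` and of the entries of `A`). The orders of vanishing of `δ` at the points of `Ξ`
add up to at most `m M + C`, so there is `u ∈ Ξ` with `μ #Ξ ≤ m M + C`, `μ` = the order at `u`. Claim: the
rows `row T A p j u`, `j < m + μ`, span `ℚ^m` (then choose `m` linearly independent ones). Otherwise there is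
`c ∈ ℚ^m`, `c ≠ 0`, with `row_j(p)(u) · c = 0` for all `j < m + μ`. Let `Z = ∑ G_j(u) s^j ∈ M_m(ℚ[[s]])`; then
`T(u+s) Z' = A(u+s) Z` (equivalent to `(j+1) β_(j+1) = T β_j' - j T' β_j + β_j A`; perhaps easier: for a polynomial matrix
`β` write `β(u+s)` as a power series; the identity of formal power series `Z^(j)/j! = G_j(u+s) Z`), and
`h(s) = p(u+s) Z c = ∑_j (row_j(p)(u) · c) s^j` has order at least `m + μ`. By induction `(nop T A i p)(u+s) Z c = T(u+s)^i h^(i)` has order
at least `m + μ - i ≥ μ + 1` for `i < m`. Multiply the vector `(nop_i(p)(u+s))_i Z c` by the adjugate matrix: `δ(u+s) Z c`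
has order at least `μ + 1`, and `Z(0) c = c ≠ 0`: so `δ(u+s)` has order at least `μ + 1`, contradiction.

Alternative without power series: the row `row_j(p)(u)` is `nop_j(p)(u)` up to a nonzero factor (`nop_eval`); show by
induction on `i` that for `i < m`, `j ≤ μ` the `j`-th derivative at `u` of `nop_i(p)` is, modulo products (matrix
with polynomial entries regular at `u`), in the span of the rows of index `≤ i + j`.
-/

open Polynomial

namespace Pool.Agent.Helper79.AA

open Pool.Agent.Helper79.GX

private theorem span_trunc {m : ℕ} (T : ℚ[X]) (A : Matrix (Fin m) (Fin m) ℚ[X]) {u : ℚ}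
    (hu : T.eval u ≠ 0) (c : Fin m → ℚ) (N : ℕ) :
    ∃ z : Fin m → ℚ[X], (∀ a, (z a).eval u = c a) ∧
      ∀ a, (X - C u) ^ N ∣ T * derivative (z a) - ∑ b, A a b * z b := by
  induction N with
  | zero =>
    refine ⟨fun a => C (c a), fun a => eval_C, fun a => ?_⟩
    rw [pow_zero]
    exact one_dvd _
  | succ N ih =>
    obtain ⟨z, hz0, hzE⟩ := ih
    choose e he using hzE
    have hN : ((N : ℚ) + 1) ≠ 0 := by positivity
    refine ⟨fun a => z a + C (-(e a).eval u / (((N : ℚ) + 1) * T.eval u)) * (X - C u) ^ (N + 1),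
      fun a => ?_, fun a => ?_⟩
    · rw [eval_add, hz0, eval_mul, eval_pow, eval_sub, eval_X, eval_C, eval_C, sub_self,
        zero_pow (Nat.succ_ne_zero N), mul_zero, add_zero]
    · set d : Fin m → ℚ := fun a => -(e a).eval u / (((N : ℚ) + 1) * T.eval u) with hd
      have h1 : T * derivative (z a + C (d a) * (X - C u) ^ (N + 1)) -
          ∑ b, A a b * (z b + C (d b) * (X - C u) ^ (N + 1)) =
          (X - C u) ^ N * (e a + C ((N : ℚ) + 1) * C (d a) * T) -
            (X - C u) ^ (N + 1) * ∑ b, A a b * C (d b) := by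
        have h2 : ∑ b, A a b * (z b + C (d b) * (X - C u) ^ (N + 1)) =
            ∑ b, A a b * z b + (X - C u) ^ (N + 1) * ∑ b, A a b * C (d b) := by
          rw [Finset.mul_sum, ← Finset.sum_add_distrib]
          refine Finset.sum_congr rfl fun b _ => ?_
          ring
        rw [h2, derivative_add, derivative_C_mul, derivative_X_sub_C_pow, Nat.add_sub_cancel]
        have h3 : T * derivative (z a) = ∑ b, A a b * z b + (X - C u) ^ N * e a := by
          rw [← he a]
          ring
        rw [mul_add, h3]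
        push_cast
        ring
      rw [h1]
      refine dvd_sub ?_ (Dvd.intro _ rfl)
      rw [pow_succ]
      refine mul_dvd_mul_left _ ?_
      rw [dvd_iff_isRoot, IsRoot.def, eval_add, eval_mul, eval_mul, eval_C, eval_C, hd]
      field_simp
      ring

private theorem span_dvd_of_deriv (h : ℚ[X]) (u : ℚ) (k : ℕ) (h0 : h.eval u = 0)
    (hd : (X - C u) ^ k ∣ derivative h) : (X - C u) ^ (k + 1) ∣ h := by
  by_cases hz : h = 0
  · rw [hz]
    exact dvd_zero _
  have hroot : IsRoot h u := h0
  have hz' : derivative h ≠ 0 := by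
    intro h1
    have h2 := derivative_eq_zero.1 h1
    rw [natDegree_eq_zero] at h2
    obtain ⟨c, hc⟩ := h2
    rw [← hc, eval_C] at h0
    rw [h0, C_0] at hc
    exact hz hc.symm
  have h3 := derivative_rootMultiplicity_of_root hroot
  have h4 := (le_rootMultiplicity_iff hz').2 hd
  have h5 := (rootMultiplicity_pos hz).2 hroot
  exact (le_rootMultiplicity_iff hz).1 (by omega)

private theorem span_step {m : ℕ} (T : ℚ[X]) (A : Matrix (Fin m) (Fin m) ℚ[X])
    (p z : Fin m → ℚ[X]) (i : ℕ) :
    ∑ b, nop T A (i + 1) p b * z b =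
      T * derivative (∑ b, nop T A i p b * z b) -
        (i : ℚ[X]) * derivative T * ∑ b, nop T A i p b * z b -
        ∑ a, nop T A i p a * (T * derivative (z a) - ∑ b, A a b * z b) := by
  have h1 : ∀ b, nop T A (i + 1) p b = T * derivative (nop T A i p b) +
      ∑ a, nop T A i p a * A a b - (i : ℚ[X]) * derivative T * nop T A i p b := fun b => rfl
  simp only [h1]
  have h2 : derivative (∑ b, nop T A i p b * z b) =
      ∑ b, (derivative (nop T A i p b) * z b + nop T A i p b * derivative (z b)) := by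
    rw [derivative_sum]
    exact Finset.sum_congr rfl fun b _ => derivative_mul
  have h3 : ∑ a, nop T A i p a * (T * derivative (z a) - ∑ b, A a b * z b) =
      ∑ a, nop T A i p a * (T * derivative (z a)) -
        ∑ b, (∑ a, nop T A i p a * A a b) * z b := by
    rw [← Finset.sum_sub_distrib]
    have h4 : ∑ b, (∑ a, nop T A i p a * A a b) * z b =
        ∑ a, nop T A i p a * ∑ b, A a b * z b := by
      simp only [Finset.sum_mul, Finset.mul_sum]
      rw [Finset.sum_comm]
      exact Finset.sum_congr rfl fun a _ => Finset.sum_congr rfl fun b _ => by ring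
    have h5 : ∑ a, (nop T A i p a * (T * derivative (z a)) -
        (∑ a', nop T A i p a' * A a' a) * z a) =
        ∑ a, nop T A i p a * (T * derivative (z a)) -
          ∑ a, (∑ a', nop T A i p a' * A a' a) * z a := Finset.sum_sub_distrib _ _
    rw [h5, h4, ← Finset.sum_sub_distrib]
    exact Finset.sum_congr rfl fun a _ => by ring
  rw [h2, h3, Finset.mul_sum, Finset.mul_sum]
  rw [← sub_add, ← Finset.sum_sub_distrib, ← Finset.sum_sub_distrib, ← Finset.sum_add_distrib]
  exact Finset.sum_congr rfl fun b _ => by ring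

private theorem span_key {m : ℕ} (T : ℚ[X]) (A : Matrix (Fin m) (Fin m) ℚ[X])
    (p : Fin m → ℚ[X]) {u : ℚ} (hu : T.eval u ≠ 0) (μ : ℕ) (c : Fin m → ℚ) (hc : c ≠ 0)
    (hrow : ∀ j < m + μ, ∑ b, row T A p j u b * c b = 0) :
    (X - C u) ^ (μ + 1) ∣ (Matrix.of fun (j : Fin m) (a : Fin m) => nop T A j p a).det := by
  obtain ⟨z, hz0, hzE⟩ := span_trunc T A hu c (m + μ + 1)
  have hcop : ∀ (f : ℚ[X]) (k : ℕ), f.eval u ≠ 0 → IsCoprime ((X - C u) ^ k) f := by
    intro f k hf
    refine IsCoprime.pow_left ?_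
    rw [(irreducible_X_sub_C u).coprime_iff_not_dvd, dvd_iff_isRoot]
    exact hf
  have hval : ∀ i < m + μ, (∑ b, nop T A i p b * z b).eval u = 0 := by
    intro i hi
    rw [eval_finsetSum]
    have h1 : ∀ b, (nop T A i p b * z b).eval u =
        ((i.factorial : ℚ) * T.eval u ^ i) * (row T A p i u b * c b) := by
      intro b
      rw [eval_mul, nop_eval p i hu b, hz0]
      ring
    rw [Finset.sum_congr rfl fun b _ => h1 b, ← Finset.mul_sum, hrow i hi, mul_zero]
  have hind : ∀ k ≤ m + μ, ∀ i, i + k ≤ m + μ → (X - C u) ^ k ∣ ∑ b, nop T A i p b * z b := by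
    intro k
    induction k with
    | zero =>
      intro _ i _
      rw [pow_zero]
      exact one_dvd _
    | succ k ih =>
      intro hk i hi
      refine span_dvd_of_deriv _ u k (hval i (by omega)) ?_
      have h1 := ih (by omega) (i + 1) (by omega)
      have h2 := ih (by omega) i (by omega)
      have h3 : (X - C u) ^ k ∣
          ∑ a, nop T A i p a * (T * derivative (z a) - ∑ b, A a b * z b) := by
        refine Finset.dvd_sum fun a _ => ?_
        exact (((pow_dvd_pow _ (by omega)).trans (hzE a))).mul_left _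
      rw [span_step] at h1
      have h4 : (X - C u) ^ k ∣ T * derivative (∑ b, nop T A i p b * z b) := by
        have h5 := (h1.add h3).add (h2.mul_left ((i : ℚ[X]) * derivative T))
        convert h5 using 1
        ring
      exact (hcop T k hu).dvd_of_dvd_mul_left h4
  obtain ⟨a, ha⟩ : ∃ a, c a ≠ 0 := by
    by_contra hcon
    push Not at hcon
    exact hc (funext hcon)
  set Nm : Matrix (Fin m) (Fin m) ℚ[X] := Matrix.of fun (j : Fin m) (a : Fin m) =>
    nop T A j p a with hNm
  have hadj : Nm.det * z a = ∑ i, Nm.adjugate a i * ∑ b, nop T A i p b * z b := by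
    have h1 : (Nm.adjugate * Nm).mulVec z = (Nm.det • (1 : Matrix (Fin m) (Fin m) ℚ[X])).mulVec z := by
      rw [Matrix.adjugate_mul]
    rw [← Matrix.mulVec_mulVec, Matrix.smul_mulVec, Matrix.one_mulVec] at h1
    have h2 := congrFun h1 a
    rw [Pi.smul_apply, smul_eq_mul] at h2
    rw [← h2]
    rfl
  have hdiv : (X - C u) ^ (μ + 1) ∣ Nm.det * z a := by
    rw [hadj]
    refine Finset.dvd_sum fun i _ => ?_
    refine Dvd.dvd.mul_left ?_ _
    exact hind (μ + 1) (by have := i.2; omega) i (by have := i.2; omega)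
  exact (hcop (z a) (μ + 1) (by rw [hz0]; exact ha)).dvd_of_dvd_mul_right hdiv

private theorem span_deg {m : ℕ} (T : ℚ[X]) (A : Matrix (Fin m) (Fin m) ℚ[X]) (d : ℕ)
    (hT : T.natDegree ≤ d) (hA : ∀ a b, (A a b).natDegree ≤ d) (p : Fin m → ℚ[X]) (M : ℕ)
    (hp : ∀ a, (p a).natDegree ≤ M) (j : ℕ) : ∀ a, (nop T A j p a).natDegree ≤ M + j * d := by
  induction j with
  | zero =>
    intro a
    rw [Nat.zero_mul, add_zero]
    exact hp a
  | succ j ih =>
    intro b
    have h1 : nop T A (j + 1) p b = T * derivative (nop T A j p b) +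
      ∑ a, nop T A j p a * A a b - (j : ℚ[X]) * derivative T * nop T A j p b := rfl
    rw [h1]
    have e : M + (j + 1) * d = (M + j * d) + d := by ring
    rw [e]
    have k1 : (T * derivative (nop T A j p b)).natDegree ≤ (M + j * d) + d := by
      refine natDegree_mul_le.trans ?_
      have h2 := natDegree_derivative_le (nop T A j p b)
      have h3 := ih b
      omega
    have k2 : (∑ a, nop T A j p a * A a b).natDegree ≤ (M + j * d) + d := by
      refine natDegree_sum_le_of_forall_le _ _ fun a _ => ?_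
      exact (natDegree_mul_le (p := nop T A j p a) (q := A a b)).trans (add_le_add (ih a) (hA a b))
    have k3 : ((j : ℚ[X]) * derivative T * nop T A j p b).natDegree ≤ (M + j * d) + d := by
      refine natDegree_mul_le.trans ?_
      have h2 : ((j : ℚ[X]) * derivative T).natDegree ≤ d := by
        refine natDegree_mul_le.trans ?_
        rw [natDegree_natCast, zero_add]
        exact (natDegree_derivative_le T).trans (by omega)
      have h3 := ih b
      omega
    refine (natDegree_sub_le_of_le (natDegree_add_le_of_le k1 k2) k3).trans ?_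
    rw [max_self, max_self]

theorem exists_rows {m : ℕ} (T : ℚ[X]) (A : Matrix (Fin m) (Fin m) ℚ[X]) :
    ∃ C : ℕ, ∀ (p : Fin m → ℚ[X]) (M : ℕ) (Ξ : Finset ℤ), (∀ a, (p a).natDegree ≤ M) →
      (Matrix.of fun (j : Fin m) (a : Fin m) => nop T A j p a).det ≠ 0 →
      (∀ u ∈ Ξ, T.eval (u : ℚ) ≠ 0) → Ξ.Nonempty →
      ∃ u ∈ Ξ, ∃ s : Fin m → ℕ, (∀ k, s k * Ξ.card ≤ m * M + C * Ξ.card) ∧
        (Matrix.of fun (k : Fin m) (a : Fin m) => row T A p (s k) (u : ℚ) a).det ≠ 0 := by
  classical
  set d : ℕ := T.natDegree + ∑ a, ∑ b, (A a b).natDegree with hd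
  have hTd : T.natDegree ≤ d := Nat.le_add_right _ _
  have hAd : ∀ a b, (A a b).natDegree ≤ d := by
    intro a b
    have h1 : (A a b).natDegree ≤ ∑ b, (A a b).natDegree :=
      Finset.single_le_sum (f := fun b => (A a b).natDegree) (fun _ _ => Nat.zero_le _)
        (Finset.mem_univ b)
    have h2 : ∑ b, (A a b).natDegree ≤ ∑ a, ∑ b, (A a b).natDegree :=
      Finset.single_le_sum (f := fun a => ∑ b, (A a b).natDegree) (fun _ _ => Nat.zero_le _)
        (Finset.mem_univ a)
    omega
  refine ⟨m + m * (m * d), ?_⟩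
  intro p M Ξ hp hdet hTu hne
  set δ : ℚ[X] := (Matrix.of fun (j : Fin m) (a : Fin m) => nop T A j p a).det with hδ
  have hdeg : δ.natDegree ≤ m * M + m * (m * d) := by
    rw [hδ, Matrix.det_apply]
    refine natDegree_sum_le_of_forall_le _ _ fun σ _ => ?_
    refine (natDegree_smul_le _ _).trans ?_
    refine (natDegree_prod_le _ _).trans ?_
    have h1 : ∀ i ∈ (Finset.univ : Finset (Fin m)),
        ((Matrix.of fun (j : Fin m) (a : Fin m) => nop T A j p a) (σ i) i).natDegree ≤
          M + m * d := by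
      intro i _
      refine (span_deg T A d hTd hAd p M hp (σ i) i).trans ?_
      have h2 : ((σ i : Fin m) : ℕ) * d ≤ m * d := Nat.mul_le_mul_right d (σ i).2.le
      omega
    refine (Finset.sum_le_card_nsmul _ _ _ h1).trans ?_
    rw [Finset.card_univ, Fintype.card_fin, smul_eq_mul]
    rw [mul_add]
  -- the point with the smallest multiplicity
  obtain ⟨u, huΞ, humin⟩ := Finset.exists_min_image Ξ
    (fun u : ℤ => rootMultiplicity (u : ℚ) δ) hne
  set μ : ℕ := rootMultiplicity (u : ℚ) δ with hμ
  have hμdeg : μ * Ξ.card ≤ δ.natDegree := by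
    have h1 : (∏ w ∈ Ξ, (X - C ((w : ℤ) : ℚ)) ^ μ) ∣ δ := by
      refine Finset.prod_dvd_of_coprime ?_ ?_
      · intro w _ w' _ hww
        refine IsCoprime.pow ?_
        exact pairwise_coprime_X_sub_C (K := ℚ) (s := fun w : ℤ => (w : ℚ))
          Int.cast_injective hww
      · intro w hw
        exact (pow_dvd_pow _ (humin w hw)).trans (pow_rootMultiplicity_dvd δ (w : ℚ))
    have h2 := natDegree_le_of_dvd h1 hdet
    rw [natDegree_prod _ _ (fun w _ => pow_ne_zero _ (X_sub_C_ne_zero _))] at h2
    simp only [natDegree_pow, natDegree_X_sub_C, mul_one, Finset.sum_const, smul_eq_mul] at h2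
    rw [mul_comm]
    exact h2
  refine ⟨u, huΞ, ?_⟩
  -- the rows span
  set v : Fin (m + μ) → (Fin m → ℚ) := fun j => row T A p j (u : ℚ) with hv
  have hspan : Submodule.span ℚ (Set.range v) = ⊤ := by
    by_contra hcon
    obtain ⟨f, hf0, hf⟩ := Submodule.exists_le_ker_of_lt_top _ (lt_top_iff_ne_top.2 hcon)
    set c : Fin m → ℚ := fun b => f (Pi.single b 1) with hc
    have hfc : ∀ x : Fin m → ℚ, f x = ∑ b, x b * c b := by
      intro x
      conv_lhs => rw [← Finset.univ_sum_single x, map_sum]
      refine Finset.sum_congr rfl fun b _ => ?_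
      rw [hc]
      have h1 : (Pi.single b (x b) : Fin m → ℚ) = x b • Pi.single b 1 := by
        rw [← Pi.single_smul, smul_eq_mul, mul_one]
      rw [h1, map_smul, smul_eq_mul]
    have hc0 : c ≠ 0 := by
      intro h1
      apply hf0
      ext b
      have h2 := congrFun h1 b
      simpa [hc] using h2
    have h3 := span_key T A p (hTu u huΞ) μ c hc0 (by
      intro j hj
      rw [← hfc]
      have h4 : v ⟨j, hj⟩ ∈ Submodule.span ℚ (Set.range v) :=
        Submodule.subset_span ⟨⟨j, hj⟩, rfl⟩
      exact LinearMap.mem_ker.1 (hf h4))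
    have h5 := (le_rootMultiplicity_iff hdet).2 h3
    rw [← hμ] at h5
    omega
  obtain ⟨κ, a, ha, hsp, hli⟩ := exists_linearIndependent' ℚ v
  have hsp' : ⊤ ≤ Submodule.span ℚ (Set.range (v ∘ a)) := by rw [hsp, hspan]
  have : Finite κ := Finite.of_injective a ha
  have := Fintype.ofFinite κ
  let bas := Module.Basis.mk hli hsp'
  have hcard : Fintype.card κ = m := by
    have h1 := Module.finrank_eq_card_basis bas
    rw [Module.finrank_fin_fun] at h1
    exact h1.symm
  let eqv : Fin m ≃ κ := (Fintype.equivFinOfCardEq hcard).symm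
  refine ⟨fun k => ((a (eqv k) : Fin (m + μ)) : ℕ), ?_, ?_⟩
  · intro k
    have h1 : ((a (eqv k) : Fin (m + μ)) : ℕ) ≤ m + μ := (a (eqv k)).2.le
    have h2 : 1 ≤ Ξ.card := Finset.card_pos.2 hne
    calc ((a (eqv k) : Fin (m + μ)) : ℕ) * Ξ.card ≤ (m + μ) * Ξ.card :=
          Nat.mul_le_mul_right _ h1
      _ = m * Ξ.card + μ * Ξ.card := by ring
      _ ≤ m * Ξ.card + (m * M + m * (m * d)) := by omega
      _ ≤ m * M + (m + m * (m * d)) * Ξ.card := by nlinarith [Nat.zero_le (m * (m * d))]
  · have hli2 : LinearIndependent ℚ (fun k : Fin m => v (a (eqv k))) :=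
      hli.comp eqv eqv.injective
    intro h0
    have h1 : LinearIndependent ℚ
        (Matrix.of fun (k : Fin m) (b : Fin m) => row T A p ((a (eqv k) : Fin (m + μ)) : ℕ)
          (u : ℚ) b).row := hli2
    rw [Matrix.linearIndependent_rows_iff_isUnit, Matrix.isUnit_iff_isUnit_det, h0] at h1
    exact not_isUnit_zero h1

end Pool.Agent.Helper79.AA
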