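import Pool.Agent.Helper79.AA.Defs

/-!
# AA-07: the sub-connection generated by a polynomial vector

Let `W ⊂ ℚ[X]^m` be the set of the `q` such that `f q` is in the `ℚ[X]`-span of the `nop T A j p`, `j ∈ ℕ`, for some `f ≠ 0`.
* `W` is a saturated submodule, stable under `dop` (`nop (j+1) = dop (nop j) - j T' nop j`; `dop (f q) = T f' q + f dop q`), it contains `p`.
* The rank `l` of `W` is less than `m`: let `r < m` be the largest number such that `nop_0, …, nop_(r-1)` are linearly
  independent over `ℚ(X)` (`det = 0`); then `nop_r` is in the `ℚ(X)`-span of these, which is therefore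
  stable under `dop` and contains all the `nop_j`; so `W` has rank `r`.
* `W` is free with a basis `E` (`ℚ[X]` is a principal ideal domain), and `ℚ[X]^m / W` is torsion free, so free, so `W` is a direct
  summand: there is a projection `ℚ[X]^m → W`, which in the basis `E` gives `Ψ` with `E Ψ = 1`.
* `dop E_k ∈ W` gives `B`; `p ∈ W` gives `l`.
-/

open Polynomial

namespace Pool.Agent.Helper79.AA

open Pool.Agent.Helper79.GX

private theorem Sub_dop_add {m : ℕ} (T : ℚ[X]) (A : Matrix (Fin m) (Fin m) ℚ[X]) (x y : Fin m → ℚ[X]) :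
    dop T A (x + y) = dop T A x + dop T A y := by
  funext b
  simp only [dop, Pi.add_apply, derivative_add, add_mul, Finset.sum_add_distrib]
  ring

private theorem Sub_dop_zero {m : ℕ} (T : ℚ[X]) (A : Matrix (Fin m) (Fin m) ℚ[X]) :
    dop T A (0 : Fin m → ℚ[X]) = 0 := by
  funext b
  simp [dop]

private theorem Sub_dop_smul {m : ℕ} (T : ℚ[X]) (A : Matrix (Fin m) (Fin m) ℚ[X]) (c : ℚ[X])
    (x : Fin m → ℚ[X]) : dop T A (c • x) = (T * derivative c) • x + c • dop T A x := by
  funext b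
  simp only [dop, Pi.add_apply, Pi.smul_apply, smul_eq_mul, derivative_mul]
  have h : ∑ a, c * x a * A a b = c * ∑ a, x a * A a b := by
    rw [Finset.mul_sum]
    exact Finset.sum_congr rfl fun a _ => by ring
  rw [h]
  ring

private theorem Sub_dop_nop {m : ℕ} (T : ℚ[X]) (A : Matrix (Fin m) (Fin m) ℚ[X])
    (p : Fin m → ℚ[X]) (j : ℕ) :
    dop T A (nop T A j p) = nop T A (j + 1) p + ((j : ℚ[X]) * derivative T) • nop T A j p := by
  funext b
  simp only [nop, Pi.add_apply, Pi.smul_apply, smul_eq_mul]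
  ring

/-- saturation -/
private def Sub_sat {m : ℕ} (N : Submodule ℚ[X] (Fin m → ℚ[X])) :
    Submodule ℚ[X] (Fin m → ℚ[X]) where
  carrier := {q | ∃ f : ℚ[X], f ≠ 0 ∧ f • q ∈ N}
  zero_mem' := ⟨1, one_ne_zero, by rw [smul_zero]; exact N.zero_mem⟩
  add_mem' := by
    rintro x y ⟨f, hf, hx⟩ ⟨g, hg, hy⟩
    refine ⟨f * g, mul_ne_zero hf hg, ?_⟩
    rw [smul_add]
    refine N.add_mem ?_ ?_
    · rw [mul_comm, mul_smul]
      exact N.smul_mem _ hx
    · rw [mul_smul]
      exact N.smul_mem _ hy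
  smul_mem' := by
    rintro c x ⟨f, hf, hx⟩
    refine ⟨f, hf, ?_⟩
    rw [smul_comm]
    exact N.smul_mem _ hx

private theorem Sub_mem_sat {m : ℕ} {N : Submodule ℚ[X] (Fin m → ℚ[X])} {q : Fin m → ℚ[X]} :
    q ∈ Sub_sat N ↔ ∃ f : ℚ[X], f ≠ 0 ∧ f • q ∈ N := Iff.rfl

private theorem Sub_le_sat {m : ℕ} (N : Submodule ℚ[X] (Fin m → ℚ[X])) : N ≤ Sub_sat N :=
  fun x hx => ⟨1, one_ne_zero, by rw [one_smul]; exact hx⟩

private theorem Sub_sat_sat {m : ℕ} {N : Submodule ℚ[X] (Fin m → ℚ[X])} {q : Fin m → ℚ[X]}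
    {f : ℚ[X]} (hf : f ≠ 0) (h : f • q ∈ Sub_sat N) : q ∈ Sub_sat N := by
  obtain ⟨g, hg, h2⟩ := h
  exact ⟨g * f, mul_ne_zero hg hf, by rw [mul_smul]; exact h2⟩

private theorem Sub_exists_r {m : ℕ} (T : ℚ[X]) (A : Matrix (Fin m) (Fin m) ℚ[X])
    (p : Fin m → ℚ[X])
    (hp : (Matrix.of fun (j : Fin m) (a : Fin m) => nop T A j p a).det = 0) :
    ∃ r < m, ∃ c : ℚ[X], c ≠ 0 ∧ c • nop T A r p ∈
      Submodule.span ℚ[X] (Set.range fun i : Fin r => nop T A i p) := by
  obtain ⟨v, hv, hs⟩ := Matrix.exists_vecMul_eq_zero_iff.2 hp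
  have hne : (Finset.univ.filter fun i => v i ≠ 0).Nonempty := by
    by_contra h
    rw [Finset.not_nonempty_iff_eq_empty, Finset.filter_eq_empty_iff] at h
    exact hv (funext fun i => not_not.1 (h (Finset.mem_univ i)))
  obtain ⟨r, hr, hmax⟩ := Finset.exists_max_image _ (fun i : Fin m => (i : ℕ)) hne
  rw [Finset.mem_filter] at hr
  refine ⟨r, r.2, v r, hr.2, ?_⟩
  have hsum : ∑ i, v i • nop T A i p = 0 := by
    funext a
    have h1 := congrFun hs a
    simp only [Matrix.vecMul, dotProduct, Matrix.of_apply, Pi.zero_apply] at h1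
    simpa [Finset.sum_apply] using h1
  rw [← Finset.add_sum_erase _ _ (Finset.mem_univ r)] at hsum
  rw [eq_neg_of_add_eq_zero_left hsum]
  refine Submodule.neg_mem _ (Submodule.sum_mem _ fun i hi => ?_)
  by_cases h0 : v i = 0
  · rw [h0, zero_smul]
    exact Submodule.zero_mem _
  · have h1 := hmax i (Finset.mem_filter.2 ⟨Finset.mem_univ i, h0⟩)
    have h2 : (i : ℕ) < r := by
      refine lt_of_le_of_ne h1 fun h => ?_
      exact (Finset.mem_erase.1 hi).1 (Fin.ext h)
    exact Submodule.smul_mem _ _ (Submodule.subset_span ⟨⟨i, h2⟩, rfl⟩)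

private theorem Sub_stable {m : ℕ} (T : ℚ[X]) (A : Matrix (Fin m) (Fin m) ℚ[X])
    (p : Fin m → ℚ[X]) (r : ℕ) (c : ℚ[X]) (hc : c ≠ 0)
    (h : c • nop T A r p ∈ Submodule.span ℚ[X] (Set.range fun i : Fin r => nop T A i p))
    (q : Fin m → ℚ[X])
    (hq : q ∈ Sub_sat (Submodule.span ℚ[X] (Set.range fun i : Fin r => nop T A i p))) :
    dop T A q ∈ Sub_sat (Submodule.span ℚ[X] (Set.range fun i : Fin r => nop T A i p)) := by
  set N := Submodule.span ℚ[X] (Set.range fun i : Fin r => nop T A i p) with hN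
  have h1 : ∀ i ≤ r, nop T A i p ∈ Sub_sat N := by
    intro i hi
    rcases hi.lt_or_eq with h2 | h2
    · exact Sub_le_sat N (Submodule.subset_span ⟨⟨i, h2⟩, rfl⟩)
    · rw [h2]
      exact ⟨c, hc, h⟩
  have h2 : ∀ x ∈ N, dop T A x ∈ Sub_sat N := by
    intro x hx
    induction hx using Submodule.span_induction with
    | mem x hx =>
      obtain ⟨i, rfl⟩ := hx
      change dop T A (nop T A i p) ∈ Sub_sat N
      rw [Sub_dop_nop]
      exact Submodule.add_mem _ (h1 _ i.2) (Submodule.smul_mem _ _ (h1 _ i.2.le))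
    | zero => rw [Sub_dop_zero]; exact Submodule.zero_mem _
    | add x y _ _ hx hy => rw [Sub_dop_add]; exact Submodule.add_mem _ hx hy
    | smul a x hxN hx =>
      rw [Sub_dop_smul]
      exact Submodule.add_mem _ (Submodule.smul_mem _ _ (Sub_le_sat N hxN))
        (Submodule.smul_mem _ _ hx)
  obtain ⟨f, hf, hfq⟩ := hq
  have h3 := h2 _ hfq
  rw [Sub_dop_smul] at h3
  have hqs : q ∈ Sub_sat N := ⟨f, hf, hfq⟩
  have h4 : f • dop T A q ∈ Sub_sat N := by
    have h5 := Submodule.sub_mem _ h3 (Submodule.smul_mem _ (T * derivative f) hqs)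
    rwa [add_sub_cancel_left] at h5
  exact Sub_sat_sat hf h4

private theorem Sub_rank {m : ℕ} (S : ℕ → Fin m → ℚ[X]) (r : ℕ) (hr : r < m)
    (b : Module.Basis (Fin m) ℚ[X] (Fin m → ℚ[X]))
    (h : ∀ i, b i ∈ Sub_sat (Submodule.span ℚ[X] (Set.range fun i : Fin r => S i))) : False := by
  classical
  choose f hf hb using fun i => Sub_mem_sat.1 (h i)
  set D := ∏ i, f i with hD
  have hD0 : D ≠ 0 := Finset.prod_ne_zero_iff.2 fun i _ => hf i
  have h1 : ∀ i, D • b i ∈ Submodule.span ℚ[X] (Set.range fun i : Fin r => S i) := by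
    intro i
    rw [hD, ← Finset.prod_erase_mul _ _ (Finset.mem_univ i), mul_smul]
    exact Submodule.smul_mem _ _ (hb i)
  have h2 : LinearIndependent ℚ[X] (fun i => D • b i) := by
    rw [Fintype.linearIndependent_iff]
    intro g hg i
    have h3 : ∑ i, (D * g i) • b i = 0 := by
      rw [← hg]
      exact Finset.sum_congr rfl fun i _ => by rw [smul_smul, mul_comm]
    have h4 := Fintype.linearIndependent_iff.1 b.linearIndependent _ h3 i
    exact (mul_eq_zero.1 h4).resolve_left hD0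
  have h3 := linearIndependent_le_span_aux' (fun i => D • b i) h2
    (Set.range fun i : Fin r => S i) (by
      rintro _ ⟨i, rfl⟩
      exact h1 i)
  have h4 : Fintype.card (Set.range fun i : Fin r => S i) ≤ r := by
    have := Fintype.card_le_of_surjective (fun i : Fin r =>
      (⟨S i, i, rfl⟩ : Set.range fun i : Fin r => S i)) (by
        rintro ⟨_, i, rfl⟩
        exact ⟨i, rfl⟩)
    rwa [Fintype.card_fin] at this
  rw [Fintype.card_fin] at h3
  omega

theorem exists_sub {m : ℕ} (T : ℚ[X]) (A : Matrix (Fin m) (Fin m) ℚ[X]) (p : Fin m → ℚ[X])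
    (hp : (Matrix.of fun (j : Fin m) (a : Fin m) => nop T A j p a).det = 0) :
    ∃ (r : ℕ) (E : Matrix (Fin r) (Fin m) ℚ[X]) (Ψ : Matrix (Fin m) (Fin r) ℚ[X])
      (B : Matrix (Fin r) (Fin r) ℚ[X]) (l : Fin r → ℚ[X]), r < m ∧ E * Ψ = 1 ∧
      T • E.map derivative + E * A = B * E ∧ p = Matrix.vecMul l E := by
  classical
  obtain ⟨r, hr, c, hc, h⟩ := Sub_exists_r T A p hp
  set N := Submodule.span ℚ[X] (Set.range fun i : Fin r => nop T A i p) with hN
  have hst := Sub_stable T A p r c hc h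
  have hpW : p ∈ Sub_sat N := by
    rcases Nat.eq_zero_or_pos r with h0 | h0
    · subst h0
      exact ⟨c, hc, h⟩
    · exact Sub_le_sat N (Submodule.subset_span ⟨⟨0, h0⟩, rfl⟩)
  obtain ⟨n, snf⟩ := Submodule.smithNormalForm (Pi.basisFun ℚ[X] (Fin m)) (Sub_sat N)
  have ha : ∀ i, snf.a i ≠ 0 := by
    intro i hi
    have h1 := snf.snf i
    rw [hi, zero_smul] at h1
    exact snf.bN.ne_zero i (Subtype.ext h1)
  have hE : ∀ i, snf.bM (snf.f i) ∈ Sub_sat N := by
    intro i
    refine Sub_sat_sat (ha i) ?_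
    rw [← snf.snf i]
    exact (snf.bN i).2
  have hn : n < m := by
    by_contra hnm
    have hle := Fintype.card_le_of_embedding snf.f
    rw [Fintype.card_fin, Fintype.card_fin] at hle
    have hnm' : n = m := by omega
    have hsurj : Function.Surjective snf.f := by
      refine ((Fintype.bijective_iff_injective_and_card _).2 ⟨snf.f.injective, ?_⟩).2
      rw [Fintype.card_fin, Fintype.card_fin, hnm']
    refine Sub_rank (fun j => nop T A j p) r hr snf.bM fun i => ?_
    obtain ⟨k, rfl⟩ := hsurj i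
    exact hE k
  -- coordinates
  have hco : ∀ x ∈ Sub_sat N, x = ∑ i, snf.bM.coord (snf.f i) x • snf.bM (snf.f i) := by
    intro x hx
    have h1 := congrArg Subtype.val (snf.bN.sum_repr ⟨x, hx⟩)
    have h2 : x = ∑ i, (snf.bN.repr ⟨x, hx⟩ i * snf.a i) • snf.bM (snf.f i) := by
      have h4 : x = ((∑ i, snf.bN.repr ⟨x, hx⟩ i • snf.bN i : Sub_sat N) : Fin m → ℚ[X]) := h1.symm
      refine h4.trans ?_
      rw [AddSubmonoidClass.coe_finset_sum]
      refine Finset.sum_congr rfl fun i _ => ?_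
      rw [Submodule.coe_smul, snf.snf, smul_smul]
    have h3 : ∀ k, snf.bM.coord (snf.f k) x = snf.bN.repr ⟨x, hx⟩ k * snf.a k := by
      intro k
      conv_lhs => rw [h2]
      rw [map_sum, Finset.sum_eq_single k]
      · rw [map_smul, Module.Basis.coord_apply, Module.Basis.repr_self, Finsupp.single_eq_same,
          smul_eq_mul, mul_one]
      · intro i _ hik
        rw [map_smul, Module.Basis.coord_apply, Module.Basis.repr_self,
          Finsupp.single_eq_of_ne (fun hh => hik (snf.f.injective hh).symm), smul_zero]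
      · intro hk
        exact (hk (Finset.mem_univ k)).elim
    conv_lhs => rw [h2]
    exact Finset.sum_congr rfl fun i _ => by rw [h3 i]
  refine ⟨n, Matrix.of fun i a => snf.bM (snf.f i) a,
    Matrix.of fun a i => snf.bM.coord (snf.f i) (Pi.single a 1),
    Matrix.of fun k i => snf.bM.coord (snf.f i) (dop T A (snf.bM (snf.f k))),
    fun i => snf.bM.coord (snf.f i) p, hn, ?_, ?_, ?_⟩
  · ext1 i j
    rw [Matrix.mul_apply]
    simp only [Matrix.of_apply]
    have h1 : ∑ a, snf.bM (snf.f i) a * snf.bM.coord (snf.f j) (Pi.single a 1) =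
        snf.bM.coord (snf.f j) (∑ a, snf.bM (snf.f i) a • Pi.single a 1) := by
      rw [map_sum]
      exact Finset.sum_congr rfl fun a _ => by rw [map_smul, smul_eq_mul]
    have h2 : ∑ a, snf.bM (snf.f i) a • (Pi.single a 1 : Fin m → ℚ[X]) = snf.bM (snf.f i) := by
      funext b
      simp [Finset.sum_apply, Pi.single_apply]
    rw [h1, h2, Module.Basis.coord_apply, Module.Basis.repr_self, Matrix.one_apply]
    by_cases hij : i = j
    · rw [if_pos hij, hij, Finsupp.single_eq_same]
    · rw [if_neg hij, Finsupp.single_eq_of_ne (fun hh => hij (snf.f.injective hh).symm)]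
  · ext1 k b
    have h1 := hco _ (hst _ (hE k))
    have h2 := congrFun h1 b
    rw [Matrix.add_apply, Matrix.smul_apply, Matrix.map_apply, Matrix.mul_apply, Matrix.mul_apply]
    simp only [Matrix.of_apply, smul_eq_mul]
    simp only [Finset.sum_apply, Pi.smul_apply, smul_eq_mul] at h2
    rw [← h2]
    rfl
  · have h1 := hco _ hpW
    funext b
    have h2 := congrFun h1 b
    rw [h2]
    simp only [Matrix.vecMul, dotProduct, Matrix.of_apply, Finset.sum_apply, Pi.smul_apply,
      smul_eq_mul]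

end Pool.Agent.Helper79.AA
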