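import Pool.Agent.Helper79.AA.Row

/-!
# AA-02: a polynomial vector whose rows vanish

* `dvd_of_row`: by strong induction on `j`: `row_j(p)(u) = (hasse_j p)(u) + ∑_(l < j) (hasse_l p)(u) G_(j-l)(u)` (`G_0 = 1`),
  so `(hasse_j p_a)(u) = 0` for `j < τ`, that is the coefficients of index `< τ` of the Taylor expansion of `p_a` at
  `u` vanish (`Polynomial.taylor_coeff`), so `(X - u)^τ ∣ p_a` (`Polynomial.X_sub_C_pow_dvd_iff` or similar).
* `zero_of_rows`: the product of the coprime `(X - u)^τ`, `u ∈ Ξ`, divides `p_a`, degrees.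
-/

open Polynomial

namespace Pool.Agent.Helper79.AA

open Pool.Agent.Helper79.GX

variable {ι : Type} [Fintype ι] [DecidableEq ι] {T : ℚ[X]} {A : Matrix ι ι ℚ[X]}

private lemma tri_gm_zero (u : ℚ) (a b : ι) : gm T A 0 u a b = if a = b then 1 else 0 := by
  unfold gm
  rw [Matrix.of_apply, pow_zero, div_one]
  change (((1 : Matrix ι ι ℚ[X]) a b)).eval u = _
  rw [Matrix.one_apply]
  split_ifs <;> simp

private lemma tri_hasse {p : ι → ℚ[X]} {u : ℚ} {τ : ℕ} (h : ∀ j < τ, row T A p j u = 0) :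
    ∀ j < τ, ∀ a, (hasseDeriv j (p a)).eval u = 0 := by
  intro j
  induction j using Nat.strong_induction_on with
  | _ j ih =>
    intro hj b
    have h1 := congrFun (h j hj) b
    unfold row at h1
    rw [Finset.sum_range_succ, Finset.sum_eq_zero (s := Finset.range j), zero_add, Nat.sub_self,
      Pi.zero_apply] at h1
    · rw [Finset.sum_eq_single b] at h1
      · rwa [tri_gm_zero, if_pos rfl, mul_one] at h1
      · intro a _ hab
        rw [tri_gm_zero, if_neg hab, mul_zero]
      · intro hb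
        exact absurd (Finset.mem_univ _) hb
    · intro l hl
      apply Finset.sum_eq_zero
      intro a _
      have hl' := Finset.mem_range.1 hl
      rw [ih l hl' (hl'.trans hj) a, zero_mul]

theorem dvd_of_row {p : ι → ℚ[X]} {u : ℚ} {τ : ℕ} (h : ∀ j < τ, row T A p j u = 0) (a : ι) :
    (X - C u) ^ τ ∣ p a := by
  rw [X_sub_C_pow_dvd_iff, ← taylor_apply, X_pow_dvd_iff]
  intro d hd
  rw [taylor_coeff]
  exact tri_hasse h d hd a

theorem zero_of_rows {p : ι → ℚ[X]} {M τ : ℕ} (hdeg : ∀ a, (p a).natDegree ≤ M) {Ξ : Finset ℤ}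
    (h : ∀ u ∈ Ξ, ∀ j < τ, row T A p j (u : ℚ) = 0) (hM : M < Ξ.card * τ) : p = 0 := by
  funext a
  rw [Pi.zero_apply]
  by_contra hne
  have h1 : (∏ u ∈ Ξ, (X - C (u : ℚ)) ^ τ) ∣ p a := by
    apply Finset.prod_dvd_of_coprime
    · intro u _ v _ huv
      apply IsCoprime.pow
      apply isCoprime_X_sub_C_of_isUnit_sub
      rw [isUnit_iff_ne_zero, sub_ne_zero]
      intro he
      exact huv (by exact_mod_cast he)
    · intro u hu
      exact dvd_of_row (h u hu) a
  have h2 := natDegree_le_of_dvd h1 hne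
  rw [natDegree_prod_of_monic _ _ (fun u _ => (monic_X_sub_C _).pow _)] at h2
  simp only [natDegree_pow, natDegree_X_sub_C, mul_one, Finset.sum_const, smul_eq_mul] at h2
  have h3 := hdeg a
  omega

end Pool.Agent.Helper79.AA
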