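import Pool.Agent.Helper79.AA.Rate
import Pool.Agent.Helper79.AA.Sb
import Pool.Agent.Helper79.AA.Est
import Pool.Agent.Helper79.AA.Tri
import Pool.Agent.Helper79.AA.Inter
import Pool.Agent.Helper79.AA.Siegel
import Pool.Agent.Helper79.AA.Schwarz
import Pool.Agent.Helper79.AA.Span
import Pool.Agent.Helper79.AA.Sub
import Pool.Agent.Helper79.AA.Quo

/-!
# AA: the core theorem (assembly)
-/

open Polynomial

namespace Pool.Agent.Helper79.AA

open Pool.Agent.Helper79.GX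

/-- The core statement for rank at most `n`. -/
def CoreAt (n c B E : ℕ) : Prop :=
  ∀ (m : ℕ), m ≤ n → ∀ (K : ℕ) (Λ R : ℝ), 2 ≤ K → (K : ℝ) ^ E ≤ Λ → Λ ≤ R * K →
    ∀ (T : ℚ[X]) (A : Matrix (Fin m) (Fin m) ℚ[X]) (z : ℂ → Fin m → ℂ), IsSys T A R z →
    Indep R z → ∀ Ξ : Finset ℤ, (∀ u ∈ Ξ, |u| ≤ K) → (∀ u ∈ Ξ, T.eval (u : ℚ) ≠ 0) →
    (∀ u ∈ Ξ, Gr T A (u : ℚ) (Λ ^ c)) →
    (∀ u ∈ Ξ, ∃ x : Fin m → ℚ, x ≠ 0 ∧ ∑ k, ((x k : ℚ) : ℂ) * z (u : ℂ) k = 0) → Ξ.card ≤ B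

/-- A system with independent components has no zero. -/
theorem nz {m : ℕ} {T : ℚ[X]} {A : Matrix (Fin m) (Fin m) ℚ[X]} {R : ℝ} {z : ℂ → Fin m → ℂ}
    (hz : IsSys T A R z) (hi : Indep R z) (hm : 1 ≤ m) {u : ℚ}
    (hu : (u : ℂ) ∈ Metric.ball (0 : ℂ) R) (hT : T.eval u ≠ 0) : ∃ k, z (u : ℂ) k ≠ 0 := by
  by_contra hcon
  push Not at hcon
  set k₀ : Fin m := ⟨0, hm⟩
  have h1 : ∀ j, iteratedDeriv j (fun s => z s k₀) (u : ℂ) = 0 := by
    intro j
    have h2 := row_deriv hz (Pi.single k₀ 1) j hu hT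
    have h3 : (fun s => ∑ a, aeval s ((Pi.single k₀ 1 : Fin m → ℚ[X]) a) * z s a) =
        fun s => z s k₀ := by
      funext s
      rw [Finset.sum_eq_single k₀]
      · rw [Pi.single_eq_same, map_one, one_mul]
      · intro b _ hb
        rw [Pi.single_eq_of_ne hb, map_zero, zero_mul]
      · intro h
        exact absurd (Finset.mem_univ _) h
    rw [h3] at h2
    rw [h2]
    simp [hcon]
  have h4 : (fun s => z s k₀) =ᶠ[nhds (u : ℂ)] fun _ => 0 := by
    rw [Filter.EventuallyEq, ← analyticOrderAt_eq_top]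
    by_contra h5
    obtain ⟨n, hn⟩ := ENat.ne_top_iff_exists.1 h5
    have h6 := (natCast_le_analyticOrderAt_iff_iteratedDeriv_eq_zero (hz.an k₀ _ hu)
      (n := n + 1)).2 fun j _ => h1 j
    rw [← hn] at h6
    have h7 : n + 1 ≤ n := by exact_mod_cast h6
    omega
  have h8 : Set.EqOn (fun s => z s k₀) (fun _ => 0) (Metric.ball (0 : ℂ) R) :=
    (hz.an k₀).eqOn_of_preconnected_of_eventuallyEq analyticOnNhd_const
      (convex_ball _ _).isPreconnected hu h4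
  have h9 := hi (Pi.single k₀ 1) (fun s hs => by
    rw [Finset.sum_eq_single k₀]
    · rw [Pi.single_eq_same, map_one, one_mul]
      exact h8 hs
    · intro b _ hb
      rw [Pi.single_eq_of_ne hb, map_zero, zero_mul]
    · intro h
      exact absurd (Finset.mem_univ _) h)
  have h10 := congrFun h9 k₀
  rw [Pi.single_eq_same] at h10
  exact one_ne_zero h10

/-- The subsystem given by the rows of `E`. -/
theorem sub_isSys {β ι : Type} [Fintype β] [Fintype ι] {T : ℚ[X]} {A : Matrix ι ι ℚ[X]} {R : ℝ}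
    {z : ℂ → ι → ℂ} [DecidableEq β] [DecidableEq ι] (hz : IsSys T A R z) {E : Matrix β ι ℚ[X]}
    {B : Matrix β β ℚ[X]} (h : T • E.map derivative + E * A = B * E) :
    IsSys T B R (fun s i => ∑ k, aeval s (E i k) * z s k) := by
  have hpol : ∀ p : ℚ[X], ∀ s : ℂ, HasDerivAt (fun s : ℂ => aeval s p) (aeval s (derivative p)) s :=
    fun p s => p.hasDerivAt_aeval s
  constructor
  · intro i
    refine Finset.analyticOnNhd_fun_sum _ fun k _ => ?_
    refine AnalyticOnNhd.mul (fun s _ => ?_) (hz.an k)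
    have h1 : AnalyticOnNhd ℂ (fun s : ℂ => aeval s (E i k)) Set.univ :=
      DifferentiableOn.analyticOnNhd
        (fun s _ => (hpol _ s).differentiableAt.differentiableWithinAt) isOpen_univ
    exact h1 s (Set.mem_univ s)
  · intro s hs i
    have h1 : HasDerivAt (fun s => ∑ k, aeval s (E i k) * z s k)
        (∑ k, (aeval s (derivative (E i k)) * z s k +
          aeval s (E i k) * deriv (fun s => z s k) s)) s :=
      HasDerivAt.fun_sum fun k _ => (hpol _ s).mul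
        ((hz.an k s hs).differentiableAt.hasDerivAt)
    rw [h1.deriv]
    have h2 : ∀ k, aeval s ((B * E) i k) =
        aeval s T * aeval s (derivative (E i k)) + ∑ l, aeval s (E i l) * aeval s (A l k) := by
      intro k
      rw [← h, Matrix.add_apply, Matrix.smul_apply, Matrix.map_apply, smul_eq_mul, map_add,
        map_mul, Matrix.mul_apply, map_sum]
      simp only [map_mul]
    have h3 : ∑ l, aeval s (B i l) * ∑ k, aeval s (E l k) * z s k =
        ∑ k, aeval s ((B * E) i k) * z s k := by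
      simp only [Matrix.mul_apply, map_sum, map_mul, Finset.mul_sum, Finset.sum_mul]
      rw [Finset.sum_comm]
      refine Finset.sum_congr rfl fun k _ => Finset.sum_congr rfl fun l _ => by ring
    rw [h3]
    simp only [h2, add_mul, Finset.sum_add_distrib, Finset.mul_sum, mul_add]
    congr 1
    · refine Finset.sum_congr rfl fun k _ => by ring
    · have h4 : ∀ k, aeval s T * (aeval s (E i k) * deriv (fun s => z s k) s) =
          ∑ l, aeval s (E i k) * aeval s (A k l) * z s l := by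
        intro k
        rw [mul_left_comm, hz.ode s hs k, Finset.mul_sum]
        exact Finset.sum_congr rfl fun l _ => by ring
      simp only [h4, Finset.sum_mul]
      rw [Finset.sum_comm]

/-- The auxiliary polynomial is cyclic. -/
theorem aux_cyclic {n c B₀ E₀ : ℕ} (ih : CoreAt n c B₀ E₀) {m : ℕ} (hm : m ≤ n + 1) {K : ℕ} {Λ R : ℝ} (hK : 2 ≤ K)
    (hE : (K : ℝ) ^ E₀ ≤ Λ) (hR : Λ ≤ R * K) (hQ : 1 ≤ Λ ^ c) {T : ℚ[X]}
    {A : Matrix (Fin m) (Fin m) ℚ[X]} {z : ℂ → Fin m → ℂ} (hz : IsSys T A R z)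
    (hi : Indep R z) {Ξ : Finset ℤ} (hΞ : ∀ u ∈ Ξ, |u| ≤ K)
    (hT : ∀ u ∈ Ξ, T.eval (u : ℚ) ≠ 0) (hG : ∀ u ∈ Ξ, Gr T A (u : ℚ) (Λ ^ c))
    {x : ℤ → Fin m → ℚ} (hxz : ∀ u ∈ Ξ, ∑ k, ((x u k : ℚ) : ℂ) * z (u : ℂ) k = 0)
    {P : Fin m → ℚ[X]} (hP : P ≠ 0) {M τ : ℕ} (hdeg : ∀ a, (P a).natDegree ≤ M)
    (hrow : ∀ u ∈ Ξ, ∀ j < τ, ∃ c : ℚ, row T A P j (u : ℚ) = c • x u)
    (hcard : M < (Ξ.card - B₀) * τ) :
    (Matrix.of fun (j : Fin m) (a : Fin m) => nop T A j P a).det ≠ 0 := by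
  classical
  intro hdet
  obtain ⟨r, E, Ψ, B', l, hr, hEΨ, hint, hPl⟩ := exists_sub T A P hdet
  set ζ : ℂ → Fin r → ℂ := fun s i => ∑ k, aeval s (E i k) * z s k with hζ
  have hsys : IsSys T B' R ζ := sub_isSys hz hint
  have hvE : ∀ (v : Fin r → ℚ[X]) (s : ℂ), ∑ k, aeval s (Matrix.vecMul v E k) * z s k =
      ∑ i, aeval s (v i) * ζ s i := by
    intro v s
    simp only [Matrix.vecMul, dotProduct, map_sum, map_mul, hζ, Finset.mul_sum, Finset.sum_mul]
    rw [Finset.sum_comm]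
    exact Finset.sum_congr rfl fun i _ => Finset.sum_congr rfl fun k _ => by ring
  have hind : Indep R ζ := by
    intro v hv
    have h1 := hi (Matrix.vecMul v E) fun s hs => by rw [hvE, hv s hs]
    have h2 : Matrix.vecMul (Matrix.vecMul v E) Ψ = v := by
      rw [Matrix.vecMul_vecMul, hEΨ, Matrix.vecMul_one]
    rw [h1, Matrix.zero_vecMul] at h2
    exact h2.symm
  set N : Matrix (Fin 0) (Fin m) ℚ[X] := 0 with hN
  have hInt : Inter T A B' E N := ⟨⟨0, by rw [hint, Matrix.zero_mul, add_zero]⟩,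
    ⟨0, by ext i; exact i.elim0⟩⟩
  have hmul : ∀ u : ℚ, E.map (Polynomial.eval u) * Ψ.map (Polynomial.eval u) = 1 := by
    intro u
    have h1 := congrArg (fun M : Matrix _ _ ℚ[X] => M.map (Polynomial.evalRingHom u)) hEΨ
    simp only [Matrix.map_mul] at h1
    rw [Matrix.map_one _ (map_zero _) (map_one _)] at h1
    exact h1
  have hGr : ∀ u ∈ Ξ, Gr T B' (u : ℚ) (Λ ^ c) := fun u hu =>
    gr_inter hInt (hT u hu) (hmul _) (by ext i; exact i.elim0) hQ (hG u hu)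
  set Ξ' : Finset ℤ := Ξ.filter fun u => ∃ y : Fin r → ℚ, y ≠ 0 ∧
    ∑ k, ((y k : ℚ) : ℂ) * ζ (u : ℂ) k = 0 with hΞ'
  have hc' : Ξ'.card ≤ B₀ := by
    refine ih r (by omega) K Λ R hK hE hR T B' ζ hsys hind Ξ' (fun u hu => ?_) (fun u hu => ?_)
      (fun u hu => ?_) (fun u hu => ?_)
    · exact hΞ u (Finset.mem_filter.1 hu).1
    · exact hT u (Finset.mem_filter.1 hu).1
    · exact hGr u (Finset.mem_filter.1 hu).1
    · exact (Finset.mem_filter.1 hu).2
  apply hP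
  refine zero_of_rows (T := T) (A := A) (M := M) (τ := τ) hdeg (Ξ := Ξ \ Ξ') ?_ ?_
  · intro u hu j hj
    rw [Finset.mem_sdiff, hΞ', Finset.mem_filter] at hu
    obtain ⟨hu1, hu2⟩ := hu
    have hu3 : ∀ y : Fin r → ℚ, ∑ k, ((y k : ℚ) : ℂ) * ζ (u : ℂ) k = 0 → y = 0 := by
      intro y hy
      by_contra h
      exact hu2 ⟨hu1, y, h, hy⟩
    obtain ⟨cc, hcc⟩ := hrow u hu1 j hj
    obtain ⟨nn, hnn⟩ := inter_row hInt l j (hT u hu1)
    have h1 : Matrix.vecMul nn (N.map (Polynomial.eval (u : ℚ))) = 0 := by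
      funext k
      simp [Matrix.vecMul, dotProduct]
    rw [h1, add_zero, ← hPl] at hnn
    set y : Fin r → ℚ := row T B' l j (u : ℚ) with hy
    have h2 : ∑ k, ((row T A P j (u : ℚ) k : ℚ) : ℂ) * z (u : ℂ) k = 0 := by
      rw [hcc]
      simp only [Pi.smul_apply, smul_eq_mul, Rat.cast_mul, mul_assoc]
      rw [← Finset.mul_sum, hxz u hu1, mul_zero]
    have h3 : ∑ k, ((row T A P j (u : ℚ) k : ℚ) : ℂ) * z (u : ℂ) k =
        ∑ i, ((y i : ℚ) : ℂ) * ζ (u : ℂ) i := by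
      rw [hnn]
      simp only [Matrix.vecMul, dotProduct, hζ, Finset.mul_sum, Rat.cast_sum, Rat.cast_mul,
        Finset.sum_mul, Matrix.map_apply]
      rw [Finset.sum_comm]
      refine Finset.sum_congr rfl fun i _ => Finset.sum_congr rfl fun k _ => ?_
      have h4 : aeval (u : ℂ) (E i k) = (((E i k).eval (u : ℚ) : ℚ) : ℂ) := by
        have := aeval_algebraMap_apply (A := ℚ) ℂ (u : ℚ) (E i k)
        rw [coe_aeval_eq_eval, eq_ratCast, eq_ratCast, Rat.cast_intCast] at this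
        exact this
      rw [h4, mul_assoc]
    rw [h3] at h2
    rw [hnn, hu3 y h2, Matrix.zero_vecMul]
  · refine lt_of_lt_of_le hcard (Nat.mul_le_mul_right _ ?_)
    have := Finset.le_card_sdiff Ξ' Ξ
    omega

/-- The induction step. -/
theorem core_step {n c B₀ E₀ : ℕ} (ih : CoreAt n c B₀ E₀) : ∃ B E, CoreAt (n + 1) c B E := by
  classical
  obtain ⟨m, hm⟩ : ∃ m : ℕ, m = n + 1 := ⟨_, rfl⟩
  rw [← hm]
  set b' : ℕ := B₀ + 1 + (6 * c * m ^ 2 + 1) with hb'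
  set b : ℕ := 2 * b' with hb
  set N : ℕ := (2 * m + 1) * b with hN
  set E : ℕ := E₀ + 2 * (8 * m ^ 3 + 4 * m ^ 2 + 4 * m + 6) + 4 with hE
  refine ⟨B₀ + N, E, fun m' hm' K Λ R hK hKΛ hΛR T A z hz hi Ξ hΞ hT hG hx => ?_⟩
  have hK1 : (1 : ℝ) ≤ K := by exact_mod_cast (by omega : 1 ≤ K)
  have hK2 : (2 : ℝ) ≤ K := by exact_mod_cast hK
  have hE₀ : (K : ℝ) ^ E₀ ≤ Λ := (pow_le_pow_right₀ hK1 (by omega)).trans hKΛ
  have hΛ4 : (K : ℝ) ^ 4 ≤ Λ := (pow_le_pow_right₀ hK1 (by omega)).trans hKΛ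
  rcases Nat.lt_or_ge m' m with hlt | hge
  · exact (ih m' (by omega) K Λ R hK hE₀ hΛR T A z hz hi Ξ hΞ hT hG hx).trans (by omega)
  obtain rfl : m' = m := le_antisymm hm' hge
  by_contra hcon
  push Not at hcon
  obtain ⟨Ξ', hsub, hcard⟩ := Finset.exists_subset_card_eq (s := Ξ) (n := N) (by omega)
  replace hΞ : ∀ u ∈ Ξ', |u| ≤ K := fun u hu => hΞ u (hsub hu)
  replace hT : ∀ u ∈ Ξ', T.eval (u : ℚ) ≠ 0 := fun u hu => hT u (hsub hu)
  replace hG : ∀ u ∈ Ξ', Gr T A (u : ℚ) (Λ ^ c) := fun u hu => hG u (hsub hu)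
  replace hx : ∀ u ∈ Ξ', ∃ x : Fin m' → ℚ, x ≠ 0 ∧ ∑ k, ((x k : ℚ) : ℂ) * z (u : ℂ) k = 0 :=
    fun u hu => hx u (hsub hu)
  choose! x hx0 hxz using hx
  have hm1 : 1 ≤ m' := by omega
  have hb1 : 1 ≤ b := by omega
  have hNpos : 0 < N := by positivity
  have hne : Ξ'.Nonempty := Finset.card_pos.1 (by omega)
  -- sizes
  have hK0 : (0 : ℝ) < K := by linarith
  have hΛ0 : 0 < Λ := lt_of_lt_of_le (by positivity) hΛ4
  have hΛ1 : 1 ≤ Λ := le_trans (one_le_pow₀ hK1) hΛ4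
  have hQ1 : 1 ≤ Λ ^ c := one_le_pow₀ hΛ1
  have hRK : (K : ℝ) ^ 3 ≤ R := by
    have h1 : (K : ℝ) ^ 3 * K ≤ R * K := by
      calc (K : ℝ) ^ 3 * K = (K : ℝ) ^ 4 := by ring
        _ ≤ _ := hΛ4.trans hΛR
    exact le_of_mul_le_mul_right h1 hK0
  have hR4 : 4 * (K : ℝ) ≤ R := le_trans (by nlinarith [mul_pos hK0 hK0]) hRK
  have hR2 : 1 ≤ R / 2 := by linarith
  have hR0 : 0 < R := by linarith
  have hball : ∀ u ∈ Ξ', (u : ℂ) ∈ Metric.ball (0 : ℂ) R := by
    intro u hu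
    rw [Metric.mem_ball, dist_zero_right, Complex.norm_intCast]
    have h1 : |(u : ℝ)| ≤ K := by exact_mod_cast hΞ u hu
    linarith
  -- the constants
  obtain ⟨C₁, hC₁, haux⟩ := exists_aux hm1 T A hQ1 hK hb1 hcard hx0 hΞ hG
  obtain ⟨C₂, hC₂⟩ := exists_rows T A
  choose! Cg hCg using hG
  set C₀ : ℝ := ∑ u ∈ Ξ', |Cg u| with hC₀
  have hC₀u : ∀ u ∈ Ξ', Cg u ≤ C₀ := fun u hu => (le_abs_self _).trans
    (Finset.single_le_sum (f := fun u => |Cg u|) (fun _ _ => abs_nonneg _) hu)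
  have hC₀0 : 0 ≤ C₀ := Finset.sum_nonneg fun _ _ => abs_nonneg _
  -- a bound for `z`
  have hcomp : IsCompact (Metric.closedBall (0 : ℂ) (R / 2)) := isCompact_closedBall _ _
  have hzb : ∀ a, ∃ S : ℝ, ∀ s ∈ Metric.closedBall (0 : ℂ) (R / 2), ‖z s a‖ ≤ S := fun a =>
    hcomp.exists_bound_of_continuousOn fun s hs => ((hz.an a s (by
      rw [Metric.mem_closedBall] at hs
      rw [Metric.mem_ball]
      linarith)).continuousAt).continuousWithinAt
  choose Sa hSa using hzb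
  set S : ℝ := ∑ a, |Sa a| with hS
  have hS0 : 0 ≤ S := Finset.sum_nonneg fun _ _ => abs_nonneg _
  have hSz : ∀ s : ℂ, ‖s‖ ≤ R / 2 → ∀ a, ‖z s a‖ ≤ S := fun s hs a =>
    (hSa a s (by rwa [Metric.mem_closedBall, dist_zero_right])).trans ((le_abs_self _).trans
      (Finset.single_le_sum (f := fun a => |Sa a|) (fun _ _ => abs_nonneg _)
        (Finset.mem_univ a)))
  -- the functions of `τ`
  set H : ℕ → ℝ := fun τ => (C₁ * (τ : ℝ) ^ 2 * (2 * K) ^ (2 * m' * b * τ) *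
    (Λ ^ c) ^ (2 * τ)) ^ (2 * m') with hH
  set qq : ℕ → ℝ := fun τ => C₀ * (Λ ^ c) ^ (m' * τ + C₂) with hqq
  set rr : ℕ → ℝ := fun τ => (((m' * τ + C₂ : ℕ) : ℝ) + 1) * (m' * ((((2 * m' * b * τ : ℕ) : ℝ) +
    1) * H τ * (2 * K) ^ (2 * m' * b * τ) * (C₀ * (Λ ^ c) ^ (m' * τ + C₂)))) with hrr
  set vv : ℕ → ℝ := fun τ => (m' * ((((2 * m' * b * τ : ℕ) : ℝ) + 1) * H τ *
    (R / 2) ^ (2 * m' * b * τ) * S)) * (3 * K) ^ (N * τ) * (4 / R) ^ (N * τ) with hvv
  have hmain : ∀ τ : ℕ, 1 ≤ τ → ∃ u ∈ Ξ', ∀ a, ‖z (u : ℂ) a‖ ≤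
      (qq τ) ^ m' * (m' * (((m' - 1).factorial : ℝ) * (rr τ) ^ (m' - 1) * vv τ)) := by
    intro τ hτ
    obtain ⟨p, hp0, hdeg, hcoef, hrow⟩ := haux τ hτ
    set P : Fin m' → ℚ[X] := fun a => (p a).map (Int.castRingHom ℚ) with hP
    have hP0 : P ≠ 0 := by
      intro h
      apply hp0
      funext a
      have h1 := congrFun h a
      rw [hP] at h1
      exact (Polynomial.map_eq_zero_iff (RingHom.injective_int (Int.castRingHom ℚ))).1 h1
    have hPdeg : ∀ a, (P a).natDegree ≤ 2 * m' * b * τ := fun a =>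
      natDegree_map_le.trans (hdeg a)
    have hH0 : 0 ≤ H τ := by positivity
    have hMcard : 2 * m' * b * τ < (Ξ'.card - B₀) * τ := by
      have h1 : 2 * m' * b < Ξ'.card - B₀ := by
        rw [hcard, hN, add_mul, one_mul]
        omega
      exact Nat.mul_lt_mul_of_pos_right h1 (by omega)
    have hcyc := aux_cyclic ih (by omega : m' ≤ n + 1) hK hE₀ hΛR hQ1 hz hi hΞ hT (fun u hu => ⟨Cg u, hCg u hu⟩) hxz hP0
      hPdeg hrow hMcard
    obtain ⟨u, hu, s, hs, hdetr⟩ := hC₂ P (2 * m' * b * τ) Ξ' hPdeg hcyc hT hne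
    refine ⟨u, hu, fun a => ?_⟩
    have hsk : ∀ k, s k ≤ m' * τ + C₂ := by
      intro k
      by_contra h1
      push Not at h1
      have h2 := hs k
      rw [hcard, hN] at h2
      have h3 : (m' * τ + C₂ + 1) * ((2 * m' + 1) * b) ≤ s k * ((2 * m' + 1) * b) :=
        Nat.mul_le_mul_right _ h1
      have h4 : (m' * τ + C₂ + 1) * ((2 * m' + 1) * b) = m' * (2 * m' * b * τ) +
          C₂ * ((2 * m' + 1) * b) + (m' * τ * b + (2 * m' + 1) * b) := by ring
      have h5 : 0 < m' * τ * b + (2 * m' + 1) * b := by positivity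
      omega
    obtain ⟨q, hq0, hqle, hqj⟩ := hCg u hu (m' * τ + C₂)
    have hqj' : ∀ j ≤ m' * τ + C₂, ∀ a b, (∃ n : ℤ, (q : ℚ) * gm T A j u a b = n) ∧
        |((gm T A j u a b : ℚ) : ℝ)| ≤ C₀ * (Λ ^ c) ^ j := fun j hj a b =>
      ⟨(hqj j hj a b).1, (hqj j hj a b).2.trans
        (mul_le_mul_of_nonneg_right (hC₀u u hu) (by positivity))⟩
    have hb := fun k a => row_bound (T := T) (A := A) (P := p) (by omega : 1 ≤ K) hdeg hcoef hH0
      (hΞ u hu) hQ1 hqj' (hsk k) a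
    -- the values
    set f : ℂ → ℂ := fun s => ∑ a, aeval s (P a) * z s a with hf
    have hfan : AnalyticOnNhd ℂ f (Metric.ball 0 R) := by
      refine Finset.analyticOnNhd_fun_sum _ fun k _ => AnalyticOnNhd.mul (fun s _ => ?_) (hz.an k)
      have h1 : AnalyticOnNhd ℂ (fun s : ℂ => aeval s (P k)) Set.univ :=
        DifferentiableOn.analyticOnNhd
          (fun s _ => ((P k).hasDerivAt_aeval s).differentiableAt.differentiableWithinAt)
          isOpen_univ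
      exact h1 s (Set.mem_univ s)
    have hrowd : ∀ v ∈ Ξ', ∀ j, iteratedDeriv j f (v : ℂ) =
        (j.factorial : ℂ) * ∑ k, ((row T A P j (v : ℚ) k : ℚ) : ℂ) * z (v : ℂ) k := by
      intro v hv j
      have h1 := row_deriv hz P j (u := (v : ℚ)) (by
        rw [Rat.cast_intCast]
        exact hball v hv) (hT v hv)
      rw [Rat.cast_intCast] at h1
      exact h1
    have hzero : ∀ v ∈ Ξ', ∀ j < τ, iteratedDeriv j f (v : ℂ) = 0 := by
      intro v hv j hj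
      obtain ⟨cc, hcc⟩ := hrow v hv j hj
      rw [hrowd v hv j, hcc]
      simp only [Pi.smul_apply, smul_eq_mul, Rat.cast_mul, mul_assoc]
      rw [← Finset.mul_sum, hxz v hv, mul_zero, mul_zero]
    have hfb : ∀ s : ℂ, ‖s‖ ≤ R / 2 → ‖f s‖ ≤ m' * ((((2 * m' * b * τ : ℕ) : ℝ) + 1) * H τ *
        (R / 2) ^ (2 * m' * b * τ) * S) := by
      intro s hs
      refine (norm_sum_le _ _).trans ?_
      have h1 : ∀ a ∈ (Finset.univ : Finset (Fin m')), ‖aeval s (P a) * z s a‖ ≤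
          ((((2 * m' * b * τ : ℕ) : ℝ) + 1) * H τ * (R / 2) ^ (2 * m' * b * τ) * S) := by
        intro a _
        rw [norm_mul]
        exact mul_le_mul (aeval_bound hR2 (hdeg a) (hcoef a) hs) (hSz s hs a) (norm_nonneg _)
          (by positivity)
      refine (Finset.sum_le_sum h1).trans ?_
      rw [Finset.sum_const, Finset.card_univ, Fintype.card_fin, nsmul_eq_mul]
    have hval : ∀ k, ‖∑ a, ((row T A P (s k) (u : ℚ) a : ℚ) : ℂ) * z (u : ℂ) a‖ ≤ vv τ := by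
      intro k
      have h1 := schwarz hK hR4 hΞ hfan hzero hfb hu (s k)
      rw [hrowd u hu (s k), norm_mul, Complex.norm_natCast, hcard] at h1
      exact le_of_mul_le_mul_left h1 (by exact_mod_cast (s k).factorial_pos)
    have hcr := cramer_bound hm1 hdetr hq0 (fun i j => (hb i j).1) (fun i j => (hb i j).2)
      (z := fun a => z (u : ℂ) a) hval a
    refine hcr.trans ?_
    have hvv0 : 0 ≤ vv τ := by positivity
    have hrr0 : 0 ≤ rr τ := by positivity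
    refine mul_le_mul_of_nonneg_right (pow_le_pow_left₀ (by positivity) ?_ _) (by positivity)
    exact hqle.trans (mul_le_mul_of_nonneg_right (hC₀u u hu) (by positivity))
  -- the growth rate
  have sH : Sb H (((2 * (K : ℝ)) ^ (2 * m' * b) * (Λ ^ c) ^ 2) ^ (2 * m')) := by
    have h1 := ((((Sb.const (by linarith : 0 ≤ C₁)).mul
      ((Sb.lin zero_le_one le_rfl).pow 2)).mul
      (Sb.exp (by positivity : 0 ≤ 2 * (K : ℝ)) (2 * m' * b))).mul
      (Sb.exp (by positivity : 0 ≤ Λ ^ c) 2)).pow (2 * m')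
    refine (h1.congr (by rw [one_pow, one_mul, one_mul])).mono (fun τ _ => by positivity)
      fun τ _ => ?_
    rw [one_mul, add_zero]
  have sQ : Sb (fun τ => C₀ * (Λ ^ c) ^ (m' * τ + C₂)) ((Λ ^ c) ^ m') := by
    have h1 := (Sb.const (by positivity : 0 ≤ C₀ * (Λ ^ c) ^ C₂)).mul
      (Sb.exp (by positivity : 0 ≤ Λ ^ c) m')
    refine (h1.congr (one_mul _)).mono (fun τ _ => by positivity) fun τ _ => ?_
    rw [pow_add]
    exact le_of_eq (by ring)
  have sL : ∀ A₁ A₂ : ℕ, Sb (fun τ => ((A₁ * τ + A₂ : ℕ) : ℝ) + 1) 1 := by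
    intro A₁ A₂
    refine (Sb.lin (a := A₁) (b := (A₂ : ℝ) + 1) (by positivity) (by positivity)).mono
      (fun τ _ => by positivity) fun τ _ => ?_
    push_cast
    linarith
  have sL' : ∀ A₁ : ℕ, Sb (fun τ => ((A₁ * τ : ℕ) : ℝ) + 1) 1 := by
    intro A₁
    simpa using sL A₁ 0
  have sR : Sb rr (((2 * (K : ℝ)) ^ (2 * m' * b) * (Λ ^ c) ^ 2) ^ (2 * m') *
      (2 * (K : ℝ)) ^ (2 * m' * b) * (Λ ^ c) ^ m') := by
    have h1 := (sL m' C₂).mul ((Sb.const (by positivity : 0 ≤ (m' : ℝ))).mul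
      ((((sL' (2 * m' * b)).mul sH).mul
        (Sb.exp (by positivity : 0 ≤ 2 * (K : ℝ)) (2 * m' * b))).mul sQ))
    exact h1.congr (by rw [one_mul, one_mul, one_mul])
  have sV : Sb vv (((2 * (K : ℝ)) ^ (2 * m' * b) * (Λ ^ c) ^ 2) ^ (2 * m') *
      (R / 2) ^ (2 * m' * b) * (3 * (K : ℝ)) ^ N * (4 / R) ^ N) := by
    have h1 := ((((Sb.const (by positivity : 0 ≤ (m' : ℝ))).mul
      ((((sL' (2 * m' * b)).mul sH).mul
        (Sb.exp (by positivity : 0 ≤ R / 2) (2 * m' * b))).mul (Sb.const hS0)))).mul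
        (Sb.exp (by positivity : 0 ≤ 3 * (K : ℝ)) N)).mul
        (Sb.exp (by positivity : 0 ≤ 4 / R) N)
    exact h1.congr (by rw [one_mul, one_mul, mul_one])
  have sG : Sb (fun τ => (qq τ) ^ m' * (m' * (((m' - 1).factorial : ℝ) * (rr τ) ^ (m' - 1) *
      vv τ))) (((Λ ^ c) ^ m') ^ m' *
      (((2 * (K : ℝ)) ^ (2 * m' * b) * (Λ ^ c) ^ 2) ^ (2 * m') * (2 * (K : ℝ)) ^ (2 * m' * b) *
        (Λ ^ c) ^ m') ^ (m' - 1) *
      (((2 * (K : ℝ)) ^ (2 * m' * b) * (Λ ^ c) ^ 2) ^ (2 * m') * (R / 2) ^ (2 * m' * b) *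
        (3 * (K : ℝ)) ^ ((2 * m' + 1) * b) * (4 / R) ^ ((2 * m' + 1) * b))) := by
    have h1 := (sQ.pow m').mul ((Sb.const (by positivity : 0 ≤ (m' : ℝ))).mul
      (((Sb.const (by positivity : 0 ≤ ((m' - 1).factorial : ℝ))).mul
        (sR.pow (m' - 1))).mul sV))
    exact h1.congr (by rw [one_mul, one_mul, hN]; ring)
  have hrate := rate (m := m') (b := b) (b' := b') (c := c) (K := K) (E := E) (Λ := Λ) (R := R)
    hm1 hK hb (by omega) (by omega) hKΛ hΛR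
  -- a lower bound for `z`
  have hnz : ∀ u ∈ Ξ', ∃ k, z (u : ℂ) k ≠ 0 := by
    intro u hu
    have := nz hz hi hm1 (u := (u : ℚ)) (by
      rw [Rat.cast_intCast]
      exact hball u hu) (hT u hu)
    rwa [Rat.cast_intCast] at this
  have : Nonempty (Fin m') := ⟨⟨0, hm1⟩⟩
  choose! kk hkk using hnz
  obtain ⟨u₀, hu₀, hmin⟩ := Finset.exists_min_image Ξ' (fun u => ‖z (u : ℂ) (kk u)‖) hne
  have hν : 0 < ‖z (u₀ : ℂ) (kk u₀)‖ := norm_pos_iff.2 (hkk u₀ hu₀)
  obtain ⟨τ, hτ, hlt⟩ := sG.lt hrate hν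
  obtain ⟨u, hu, hle⟩ := hmain τ hτ
  have h1 := hle (kk u)
  have h2 := hmin u hu
  linarith

/-- The core theorem for independent components. -/
theorem core_indep (n c : ℕ) : ∃ B E, CoreAt n c B E := by
  induction n with
  | zero =>
    refine ⟨0, 0, fun m hm K Λ R _ _ _ T A z _ _ Ξ _ _ _ hx => ?_⟩
    obtain rfl : m = 0 := by omega
    rw [Nat.le_zero, Finset.card_eq_zero, Finset.eq_empty_iff_forall_notMem]
    intro u hu
    obtain ⟨x, hx0, -⟩ := hx u hu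
    exact hx0 (Subsingleton.elim _ _)
  | succ n ih =>
    obtain ⟨B, E, h⟩ := ih
    exact core_step h

/-- The core theorem. -/
theorem core (n c : ℕ) : ∃ B E : ℕ, ∀ {ι : Type} [Fintype ι] [DecidableEq ι],
    Fintype.card ι ≤ n → ∀ (K : ℕ) (Λ R : ℝ), 2 ≤ K → (K : ℝ) ^ E ≤ Λ → Λ ≤ R * K →
    ∀ (T : ℚ[X]) (A : Matrix ι ι ℚ[X]) (z : ℂ → ι → ℂ), IsSys T A R z →
    ∀ Ξ : Finset ℤ, (∀ u ∈ Ξ, |u| ≤ K) → (∀ u ∈ Ξ, T.eval (u : ℚ) ≠ 0) →
    (∀ u ∈ Ξ, Gr T A (u : ℚ) (Λ ^ c)) → (∀ u ∈ Ξ, BadAt R z (u : ℚ)) → Ξ.card ≤ B := by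
  obtain ⟨B, E, hcore⟩ := core_indep n c
  refine ⟨B, E + 3, fun {ι} _ _ hn K Λ R hK hKΛ hΛR T A z hz Ξ hΞ hT hG hbad => ?_⟩
  have hK1 : (1 : ℝ) ≤ K := by exact_mod_cast (by omega : 1 ≤ K)
  have hK2 : (2 : ℝ) ≤ K := by exact_mod_cast hK
  have hK0 : (0 : ℝ) < K := by linarith
  have hE₀ : (K : ℝ) ^ E ≤ Λ := (pow_le_pow_right₀ hK1 (by omega)).trans hKΛ
  have hΛ1 : 1 ≤ Λ := le_trans (one_le_pow₀ hK1) hKΛ
  have hR0 : 0 < R := by
    by_contra h
    push Not at h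
    nlinarith
  have hQ1 : 1 ≤ Λ ^ c := one_le_pow₀ hΛ1
  obtain ⟨r, cc, E', N, Ψ, Φ, B', hr, hEΨ, hNΨ, h1, hNz, hInt, hsys, hind⟩ := exists_quo hR0 hz
  have hev : ∀ (u : ℚ) {α β γ : Type} [Fintype β] (M₁ : Matrix α β ℚ[X]) (M₂ : Matrix β γ ℚ[X]),
      (M₁ * M₂).map (Polynomial.eval u) =
        M₁.map (Polynomial.eval u) * M₂.map (Polynomial.eval u) := by
    intro u α β γ _ M₁ M₂
    exact Matrix.map_mul (f := Polynomial.evalRingHom u)
  have hone : ∀ (u : ℚ) {α : Type} [DecidableEq α], (1 : Matrix α α ℚ[X]).map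
      (Polynomial.eval u) = 1 := by
    intro u α _
    exact Matrix.map_one (Polynomial.evalRingHom u) (map_zero _) (map_one _)
  refine hcore r (hr.trans hn) K Λ R hK hE₀ hΛR T B' _ hsys hind Ξ hΞ hT (fun u hu => ?_)
    (fun u hu => ?_)
  · refine gr_inter hInt (hT u hu) (Ψ := Ψ.map (Polynomial.eval (u : ℚ))) ?_ ?_ hQ1 (hG u hu)
    · rw [← hev, hEΨ, hone]
    · rw [← hev, hNΨ]
      ext i j
      simp
  · obtain ⟨x, hx0, hx⟩ := hbad u hu
    rw [Rat.cast_intCast] at hx0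
    set y : Fin r → ℚ := Matrix.vecMul x (Ψ.map (Polynomial.eval (u : ℚ))) with hy
    set w : Fin cc → ℚ := Matrix.vecMul x (Φ.map (Polynomial.eval (u : ℚ))) with hw
    have hxy : x = Matrix.vecMul y (E'.map (Polynomial.eval (u : ℚ))) +
        Matrix.vecMul w (N.map (Polynomial.eval (u : ℚ))) := by
      have h2 := congrArg (fun M : Matrix ι ι ℚ[X] => M.map (Polynomial.eval (u : ℚ))) h1
      rw [Matrix.map_add _ (fun _ _ => eval_add), hev, hev, hone] at h2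
      rw [hy, hw, Matrix.vecMul_vecMul, Matrix.vecMul_vecMul, ← Matrix.vecMul_add, h2,
        Matrix.vecMul_one]
    have hcast : ∀ p : ℚ[X], aeval (u : ℂ) p = ((p.eval (u : ℚ) : ℚ) : ℂ) := by
      intro p
      have := aeval_algebraMap_apply (A := ℚ) ℂ (u : ℚ) p
      rw [coe_aeval_eq_eval, eq_ratCast, eq_ratCast, Rat.cast_intCast] at this
      exact this
    have hub : (u : ℂ) ∈ Metric.ball (0 : ℂ) R := by
      rw [Metric.mem_ball, dist_zero_right, Complex.norm_intCast]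
      have h3 : |(u : ℝ)| ≤ K := by exact_mod_cast hΞ u hu
      have h4 : (K : ℝ) ^ 2 * K ≤ R * K := by
        calc (K : ℝ) ^ 2 * K = (K : ℝ) ^ 3 := by ring
          _ ≤ (K : ℝ) ^ (E + 3) := pow_le_pow_right₀ hK1 (by omega)
          _ ≤ _ := hKΛ.trans hΛR
      have h5 : (K : ℝ) ^ 2 ≤ R := le_of_mul_le_mul_right h4 hK0
      nlinarith
    refine ⟨y, ?_, ?_⟩
    · intro h0
      apply hx
      refine ⟨Matrix.vecMul (fun i => C (w i)) N, fun k => ?_, fun s hs => ?_⟩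
      · rw [hxy, h0, Matrix.zero_vecMul, zero_add]
        simp [Matrix.vecMul, dotProduct, eval_finsetSum]
      · simp only [Matrix.vecMul, dotProduct, map_sum, map_mul, aeval_C, Finset.sum_mul]
        rw [Finset.sum_comm]
        refine Finset.sum_eq_zero fun i _ => ?_
        have h5 := hNz s hs i
        simp only [mul_assoc]
        rw [← Finset.mul_sum, h5, mul_zero]
    · have h6 : ∑ k, ((x k : ℚ) : ℂ) * z (u : ℂ) k =
          ∑ i, ((y i : ℚ) : ℂ) * ∑ k, aeval (u : ℂ) (E' i k) * z (u : ℂ) k +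
          ∑ i, ((w i : ℚ) : ℂ) * ∑ k, aeval (u : ℂ) (N i k) * z (u : ℂ) k := by
        conv_lhs => rw [hxy]
        simp only [Pi.add_apply, Rat.cast_add, add_mul, Finset.sum_add_distrib, Matrix.vecMul,
          dotProduct, Matrix.map_apply, Rat.cast_sum, Rat.cast_mul, Finset.sum_mul,
          Finset.mul_sum, hcast]
        congr 1
        · rw [Finset.sum_comm]
          exact Finset.sum_congr rfl fun i _ => Finset.sum_congr rfl fun k _ => by ring
        · rw [Finset.sum_comm]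
          exact Finset.sum_congr rfl fun i _ => Finset.sum_congr rfl fun k _ => by ring
      have h7 : ∑ i, ((w i : ℚ) : ℂ) * ∑ k, aeval (u : ℂ) (N i k) * z (u : ℂ) k = 0 :=
        Finset.sum_eq_zero fun i _ => by rw [hNz _ hub i, mul_zero]
      rw [h7, add_zero] at h6
      rw [← h6]
      exact hx0

end Pool.Agent.Helper79.AA
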