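import Mathlib

/-!
# AA-25: counting integral points, general lemmas

* `count_fib`: project away the coordinate `i`: `S` is finite, its projection has at most `(2X+1)^(n-1)` elements and every fibre at
  most `N` (`Finset.card_le_mul_card_image` or similar).
* `count_disc`: if `l, l'` are in the set then `|l - l'| ‖w‖ ≤ 2 Y`.
* `count_zero`: Schwartz-Zippel (`MvPolynomial.schwartz_zippel_sup_sum` or similar, in Mathlib), or induction.
-/

namespace Pool.Agent.Helper79.AA

theorem count_fib {σ : Type} [Fintype σ] [DecidableEq σ] (i : σ) (X N : ℕ) (S : Set (σ → ℤ))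
    (hS : ∀ a ∈ S, ∀ j, |a j| ≤ X)
    (h : ∀ a : σ → ℤ, (∀ j, |a j| ≤ X) → Set.ncard {l : ℤ | Function.update a i l ∈ S} ≤ N) :
    S.ncard ≤ (2 * X + 1) ^ (Fintype.card σ - 1) * N := by
  classical
  have hbox : S ⊆ ↑(Fintype.piFinset (fun _ : σ => Finset.Icc (-(X : ℤ)) X)) := by
    intro a ha
    rw [Finset.mem_coe, Fintype.mem_piFinset]
    intro j
    rw [Finset.mem_Icc]
    exact abs_le.mp (hS a ha j)
  have hfin : S.Finite := (Finset.finite_toSet _).subset hbox
  let T : Finset (σ → ℤ) := Fintype.piFinset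
    (fun j => if j = i then ({0} : Finset ℤ) else Finset.Icc (-(X : ℤ)) X)
  have hT : T.card = (2 * X + 1) ^ (Fintype.card σ - 1) := by
    rw [Fintype.card_piFinset]
    have h1 : ∀ j : σ, (if j = i then ({0} : Finset ℤ) else Finset.Icc (-(X : ℤ)) X).card =
        if j = i then 1 else 2 * X + 1 := by
      intro j
      by_cases hj : j = i
      · simp [hj]
      · rw [if_neg hj, if_neg hj, Int.card_Icc]
        omega
    simp only [h1]
    rw [Finset.prod_ite, Finset.prod_const_one, one_mul, Finset.prod_const,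
      Finset.filter_ne', Finset.card_erase_of_mem (Finset.mem_univ i), Finset.card_univ]
  have hle : hfin.toFinset.card ≤ N * T.card := by
    refine Finset.card_le_mul_card_image_of_maps_to (f := fun a => Function.update a i 0) ?_ N ?_
    · intro a ha
      rw [Set.Finite.mem_toFinset] at ha
      rw [Fintype.mem_piFinset]
      intro j
      by_cases hj : j = i
      · subst hj
        simp
      · rw [if_neg hj, Function.update_of_ne hj, Finset.mem_Icc]
        exact abs_le.mp (hS a ha j)
    · intro b hb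
      rw [Fintype.mem_piFinset] at hb
      have hb' : ∀ j, |b j| ≤ X := by
        intro j
        have h1 := hb j
        by_cases hj : j = i
        · rw [if_pos hj, Finset.mem_singleton] at h1
          rw [h1, abs_zero]
          exact Int.natCast_nonneg X
        · rw [if_neg hj, Finset.mem_Icc] at h1
          exact abs_le.mpr h1
      have hfib := h b hb'
      have hfinl : {l : ℤ | Function.update b i l ∈ S}.Finite := by
        refine (Set.finite_Icc (-(X : ℤ)) X).subset ?_
        intro l hl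
        have h1 := hS _ hl i
        rw [Function.update_self] at h1
        exact abs_le.mp h1
      refine le_trans ?_ hfib
      rw [Set.ncard_eq_toFinset_card _ hfinl]
      refine Finset.card_le_card_of_injOn (fun a => a i) ?_ ?_
      · intro a ha
        rw [Finset.mem_coe, Finset.mem_filter, Set.Finite.mem_toFinset] at ha
        rw [Finset.mem_coe, Set.Finite.mem_toFinset]
        show Function.update b i (a i) ∈ S
        rw [← ha.2, Function.update_idem, Function.update_eq_self]
        exact ha.1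
      · intro a ha a' ha' haa
        rw [Finset.mem_coe, Finset.mem_filter] at ha ha'
        have h1 : Function.update b i (a i) = a := by
          rw [← ha.2, Function.update_idem, Function.update_eq_self]
        have h2 : Function.update b i (a' i) = a' := by
          rw [← ha'.2, Function.update_idem, Function.update_eq_self]
        rw [← h1, ← h2]
        have haa' : a i = a' i := haa
        rw [haa']
  rw [Set.ncard_eq_toFinset_card S hfin, ← hT, mul_comm]
  exact hle

theorem count_disc {z w : ℂ} (hw : w ≠ 0) {Y : ℝ} (hY : 0 ≤ Y) :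
    {l : ℤ | ‖z + (l : ℂ) * w‖ ≤ Y}.Finite ∧
      (Set.ncard {l : ℤ | ‖z + (l : ℂ) * w‖ ≤ Y} : ℝ) ≤ 2 * Y / ‖w‖ + 1 := by
  have hwn : 0 < ‖w‖ := norm_pos_iff.mpr hw
  have hdiff : ∀ l ∈ {l : ℤ | ‖z + (l : ℂ) * w‖ ≤ Y}, ∀ l' ∈ {l : ℤ | ‖z + (l : ℂ) * w‖ ≤ Y},
      ((l : ℝ) - l') ≤ 2 * Y / ‖w‖ := by
    intro l hl l' hl'
    rw [le_div_iff₀ hwn]
    have h1 : ‖((l : ℂ) - l') * w‖ ≤ 2 * Y := by
      have h2 : ((l : ℂ) - l') * w = (z + (l : ℂ) * w) - (z + (l' : ℂ) * w) := by ring
      rw [h2]
      refine (norm_sub_le _ _).trans ?_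
      have h3 : ‖z + (l : ℂ) * w‖ ≤ Y := hl
      have h4 : ‖z + (l' : ℂ) * w‖ ≤ Y := hl'
      linarith
    rw [norm_mul] at h1
    have h2 : ((l : ℝ) - l') ≤ ‖((l : ℂ) - l')‖ := by
      have h3 : ((l : ℂ) - l') = (((l : ℝ) - l' : ℝ) : ℂ) := by push_cast; ring
      rw [h3, Complex.norm_real, Real.norm_eq_abs]
      exact le_abs_self _
    exact (mul_le_mul_of_nonneg_right h2 hwn.le).trans h1
  rcases Set.eq_empty_or_nonempty {l : ℤ | ‖z + (l : ℂ) * w‖ ≤ Y} with he | ⟨l0, hl0⟩
  · rw [he]
    refine ⟨Set.finite_empty, ?_⟩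
    rw [Set.ncard_empty, Nat.cast_zero]
    positivity
  · have hfin : {l : ℤ | ‖z + (l : ℂ) * w‖ ≤ Y}.Finite := by
      refine (Set.finite_Icc (l0 - ⌈2 * Y / ‖w‖⌉) (l0 + ⌈2 * Y / ‖w‖⌉)).subset ?_
      intro l hl
      have h1 := hdiff l hl l0 hl0
      have h2 := hdiff l0 hl0 l hl
      have h3 := Int.le_ceil (2 * Y / ‖w‖)
      rw [Set.mem_Icc]
      constructor
      · have h4 : (l0 : ℝ) - l ≤ ⌈2 * Y / ‖w‖⌉ := h2.trans h3
        have h5 : (l0 - l : ℤ) ≤ ⌈2 * Y / ‖w‖⌉ := by exact_mod_cast h4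
        omega
      · have h4 : (l : ℝ) - l0 ≤ ⌈2 * Y / ‖w‖⌉ := h1.trans h3
        have h5 : (l - l0 : ℤ) ≤ ⌈2 * Y / ‖w‖⌉ := by exact_mod_cast h4
        omega
    refine ⟨hfin, ?_⟩
    obtain ⟨lm, hlm, hlm'⟩ := hfin.toFinset.exists_min_image id
      ⟨l0, hfin.mem_toFinset.mpr hl0⟩
    obtain ⟨lM, hlM, hlM'⟩ := hfin.toFinset.exists_max_image id
      ⟨l0, hfin.mem_toFinset.mpr hl0⟩
    rw [Set.Finite.mem_toFinset] at hlm hlM
    have hsub : hfin.toFinset ⊆ Finset.Icc lm lM := by
      intro l hl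
      rw [Finset.mem_Icc]
      exact ⟨hlm' l hl, hlM' l hl⟩
    have hle : lm ≤ lM := hlm' lM (hfin.mem_toFinset.mpr hlM)
    have hcard := Finset.card_le_card hsub
    rw [Int.card_Icc] at hcard
    rw [Set.ncard_eq_toFinset_card _ hfin]
    have h1 := hdiff lM hlM lm hlm
    have h2 : ((hfin.toFinset.card : ℕ) : ℝ) ≤ ((lM + 1 - lm).toNat : ℝ) := by exact_mod_cast hcard
    have h3 : (((lM + 1 - lm).toNat : ℕ) : ℝ) = (lM : ℝ) + 1 - lm := by
      have h4 : (((lM + 1 - lm).toNat : ℕ) : ℤ) = lM + 1 - lm := Int.toNat_of_nonneg (by omega)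
      have h5 : (((lM + 1 - lm).toNat : ℕ) : ℝ) = (((lM + 1 - lm : ℤ)) : ℝ) := by
        rw [← h4]
        norm_cast
      rw [h5]
      push_cast
      ring
    rw [h3] at h2
    linarith

theorem count_zero {σ : Type} [Fintype σ] [DecidableEq σ] {Θ : MvPolynomial σ ℚ} (hΘ : Θ ≠ 0) :
    ∃ C : ℕ, ∀ X : ℕ, 1 ≤ X → Set.ncard {a : σ → ℤ | (∀ j, |a j| ≤ X) ∧
      MvPolynomial.eval (fun i => ((a i : ℤ) : ℚ)) Θ = 0} ≤ C * X ^ (Fintype.card σ - 1) := by
  classical
  let n := Fintype.card σ
  let e : σ ≃ Fin n := Fintype.equivFin σ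
  let p : MvPolynomial (Fin n) ℚ := MvPolynomial.rename e Θ
  have hp : p ≠ 0 := by
    intro h0
    exact hΘ (MvPolynomial.rename_injective e e.injective (by rw [map_zero]; exact h0))
  refine ⟨p.totalDegree * 3 ^ (n - 1), fun X hX => ?_⟩
  let S : Finset ℚ := (Finset.Icc (-(X : ℤ)) X).image (fun l : ℤ => (l : ℚ))
  have hS : S.card = 2 * X + 1 := by
    rw [Finset.card_image_of_injective _ (fun a b h => by exact_mod_cast h), Int.card_Icc]
    omega
  have hsz := MvPolynomial.schwartz_zippel_totalDegree hp S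
  have hfin : {a : σ → ℤ | (∀ j, |a j| ≤ X) ∧
      MvPolynomial.eval (fun i => ((a i : ℤ) : ℚ)) Θ = 0}.Finite := by
    refine (Finset.finite_toSet (Fintype.piFinset
      (fun _ : σ => Finset.Icc (-(X : ℤ)) X))).subset ?_
    intro a ha
    rw [Finset.mem_coe, Fintype.mem_piFinset]
    intro j
    rw [Finset.mem_Icc]
    exact abs_le.mp (ha.1 j)
  have hcard : hfin.toFinset.card ≤
      ((Fintype.piFinset fun _ : Fin n => S).filter (fun f => MvPolynomial.eval f p = 0)).card := by
    refine Finset.card_le_card_of_injOn (fun a => fun k => ((a (e.symm k) : ℤ) : ℚ)) ?_ ?_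
    · intro a ha
      rw [Finset.mem_coe, Set.Finite.mem_toFinset] at ha
      rw [Finset.mem_coe, Finset.mem_filter, Fintype.mem_piFinset]
      refine ⟨fun k => ?_, ?_⟩
      · refine Finset.mem_image.mpr ⟨a (e.symm k), ?_, rfl⟩
        rw [Finset.mem_Icc]
        exact abs_le.mp (ha.1 _)
      · show MvPolynomial.eval _ (MvPolynomial.rename e Θ) = 0
        rw [MvPolynomial.eval_rename]
        have h1 : ((fun k => ((a (e.symm k) : ℤ) : ℚ)) ∘ e) = fun i => ((a i : ℤ) : ℚ) := by
          funext i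
          simp
        rw [h1]
        exact ha.2
    · intro a _ a' _ h
      funext i
      have h1 := congrFun h (e i)
      simp only [Equiv.symm_apply_apply] at h1
      exact_mod_cast h1
  rw [Set.ncard_eq_toFinset_card _ hfin]
  refine hcard.trans ?_
  set Z := ((Fintype.piFinset fun _ : Fin n => S).filter
    (fun f => MvPolynomial.eval f p = 0)).card with hZ
  have hSpos : (0 : ℚ≥0) < (S.card : ℚ≥0) := by
    rw [hS]
    positivity
  rw [div_le_div_iff₀ (pow_pos hSpos n) hSpos] at hsz
  have hnat : Z * S.card ≤ p.totalDegree * S.card ^ n := by exact_mod_cast hsz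
  rcases Nat.eq_zero_or_pos n with hn | hn
  · have h0 : p.totalDegree = 0 := by
      have : IsEmpty (Fin n) := by rw [hn]; exact Fin.isEmpty'
      rw [MvPolynomial.eq_C_of_isEmpty p]
      exact MvPolynomial.totalDegree_C _
    rw [h0, zero_mul, hS] at hnat
    have hZ0 : Z = 0 := by
      rcases Nat.eq_zero_or_pos Z with h | h
      · exact h
      · have := Nat.mul_pos h (show 0 < 2 * X + 1 by omega)
        omega
    rw [hZ0]
    exact Nat.zero_le _
  · obtain ⟨m, hm⟩ : ∃ m, n = m + 1 := ⟨n - 1, by omega⟩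
    have hm' : Fintype.card σ - 1 = m := by
      show n - 1 = m
      omega
    rw [hm']
    have hpow : S.card ^ n = S.card ^ m * S.card := by rw [hm, pow_succ]
    rw [hpow, ← mul_assoc] at hnat
    have hSc : 0 < S.card := by rw [hS]; omega
    have h1 : Z ≤ p.totalDegree * S.card ^ m := Nat.le_of_mul_le_mul_right hnat hSc
    refine h1.trans ?_
    rw [mul_assoc, ← mul_pow]
    refine Nat.mul_le_mul_left _ (Nat.pow_le_pow_left ?_ m)
    rw [hS]
    omega

end Pool.Agent.Helper79.AA
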