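import Pool.Agent.Helper79.AA.UDefs
import Pool.Agent.Helper79.AA.CountA

/-!
# AA-26: degenerate polynomials are rare

`n = # Ix dg J`, `|a_i| ≤ X`, constants `C` depend on `ω`, `dg`, `s`. All sets are handled with `count_fib` for one coordinate and `count_disc`.
* `count_near`: `F_a(t) = 0`, `‖t - s‖ ≤ X^(-η)` gives `‖F_a(s)‖ ≤ C X^(1-η)` (`F_a(s) - F_a(t)`; `‖t‖ ≤ ‖s‖ + 1`), and
  `F_a(s)` is `a_(0,j) ω_j + ` (a function of the other coordinates): coordinate `(0, j)`, any `j`.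
* `count_large`: `F_a(t) = 0`, `‖t‖ ≥ X^η`: the leading coefficient `α = ∑_j a_(dg,j) ω_j` satisfies `‖α‖ ‖t‖^dg ≤ C X ‖t‖^(dg-1)` (`‖t‖ ≥ 1`), so `‖α‖ ≤ C X^(1-η)`:
  coordinate `(dg, j)`.
-/

open Polynomial

namespace Pool.Agent.Helper79.AA

open Pool.Agent.Helper64.Per

theorem countB_aux {σ : Type} [Fintype σ] [DecidableEq σ] (i : σ) (X : ℕ) (S : Set (σ → ℤ))
    (hS : ∀ a ∈ S, ∀ j, |a j| ≤ X) (G : (σ → ℤ) → ℂ) {w : ℂ} (hw : w ≠ 0)
    (hG : ∀ (a : σ → ℤ) (l : ℤ), G (Function.update a i l) = G (Function.update a i 0) + l * w)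
    {Y : ℝ} (hY : 0 ≤ Y) (hb : ∀ a ∈ S, ‖G a‖ ≤ Y) :
    (S.ncard : ℝ) ≤ (2 * X + 1) ^ (Fintype.card σ - 1) * (2 * Y / ‖w‖ + 1) := by
  have hnn : 0 ≤ 2 * Y / ‖w‖ + 1 := by positivity
  have h1 := count_fib i X ⌊2 * Y / ‖w‖ + 1⌋₊ S hS (by
    intro a _
    obtain ⟨hf, hc⟩ := count_disc (z := G (Function.update a i 0)) hw hY
    apply Nat.le_floor
    refine le_trans ?_ hc
    have hsub : {l : ℤ | Function.update a i l ∈ S} ⊆
        {l : ℤ | ‖G (Function.update a i 0) + (l : ℂ) * w‖ ≤ Y} := by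
      intro l hl
      have := hb _ hl
      rw [hG a l] at this
      exact this
    exact_mod_cast Set.ncard_le_ncard hsub hf)
  have h2 : (S.ncard : ℝ) ≤ ((2 * X + 1) ^ (Fintype.card σ - 1) * ⌊2 * Y / ‖w‖ + 1⌋₊ : ℕ) := by
    exact_mod_cast h1
  refine h2.trans ?_
  push_cast
  exact mul_le_mul_of_nonneg_left (Nat.floor_le hnn) (by positivity)

theorem countB_fin {n : ℕ} (hn : 1 ≤ n) {X : ℕ} (hX : 1 ≤ X) {η : ℝ} (hη' : η < 1) {C w B : ℝ}
    (hC : 0 ≤ C) (hw : 0 < w)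
    (h : B ≤ (2 * X + 1) ^ (n - 1) * (2 * (C * (X : ℝ) ^ (1 - η)) / w + 1)) :
    B ≤ 3 ^ (n - 1) * (2 * C / w + 1) * (X : ℝ) ^ ((n : ℝ) - η) := by
  have hX1 : (1 : ℝ) ≤ X := by exact_mod_cast hX
  have hX0 : (0 : ℝ) < X := by linarith
  have h1 : (1 : ℝ) ≤ (X : ℝ) ^ (1 - η) := Real.one_le_rpow hX1 (by linarith)
  have h2 : (2 * (X : ℝ) + 1) ^ (n - 1) ≤ 3 ^ (n - 1) * (X : ℝ) ^ (n - 1) := by
    rw [← mul_pow]
    exact pow_le_pow_left₀ (by positivity) (by linarith) _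
  have h3 : 2 * (C * (X : ℝ) ^ (1 - η)) / w + 1 ≤ (2 * C / w + 1) * (X : ℝ) ^ (1 - η) := by
    have : 2 * (C * (X : ℝ) ^ (1 - η)) / w = 2 * C / w * (X : ℝ) ^ (1 - η) := by ring
    rw [this, add_mul, one_mul]
    linarith
  have h4 : (X : ℝ) ^ ((n : ℝ) - η) = (X : ℝ) ^ (n - 1) * (X : ℝ) ^ (1 - η) := by
    rw [← Real.rpow_natCast, ← Real.rpow_add hX0]
    congr 1
    rw [Nat.cast_sub hn]
    push_cast
    ring
  calc B ≤ _ := h
    _ ≤ (3 ^ (n - 1) * (X : ℝ) ^ (n - 1)) * ((2 * C / w + 1) * (X : ℝ) ^ (1 - η)) :=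
        mul_le_mul h2 h3 (by positivity) (by positivity)
    _ = _ := by rw [h4]; ring

variable {κ : IntermediateField ℚ Qbar} {J : Type} [Fintype J] [DecidableEq J] [Nonempty J]
  {ω : J → κ} (hω : ∀ j, ω j ≠ 0) {dg : ℕ} (hdg : 1 ≤ dg)

include hω hdg

theorem count_near (s : ℂ) {η : ℝ} (hη : 0 < η) (hη' : η < 1) : ∃ C : ℝ, ∀ X : ℕ, 1 ≤ X →
    (Set.ncard {a : Ix dg J → ℤ | (∀ j, |a j| ≤ X) ∧ ∃ t : ℂ, ‖t - s‖ ≤ (X : ℝ) ^ (-η) ∧
      Fv ω (fun i => (a i : ℂ)) t = 0} : ℝ) ≤ C * (X : ℝ) ^ ((Fintype.card (Ix dg J) : ℝ) - η) := by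
  obtain ⟨j₀⟩ := ‹Nonempty J›
  set w : ℂ := algebraMap κ ℂ (ω j₀) with hwdef
  have hw : w ≠ 0 := by
    rw [hwdef, Ne, map_eq_zero]
    exact hω j₀
  set C₁ : ℝ := ∑ i : Ix dg J, ‖algebraMap κ ℂ (ω i.2)‖ * ((i.1 : ℕ) * (‖s‖ + 1) ^ (i.1 : ℕ))
    with hC₁
  have hC₁0 : 0 ≤ C₁ := Finset.sum_nonneg fun i _ => by positivity
  have hn : 1 ≤ Fintype.card (Ix dg J) := Fintype.card_pos_iff.2 ⟨((0 : Fin (dg + 1)), j₀)⟩
  refine ⟨3 ^ (Fintype.card (Ix dg J) - 1) * (2 * C₁ / ‖w‖ + 1), fun X hX => ?_⟩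
  have hX1 : (1 : ℝ) ≤ X := by exact_mod_cast hX
  have hX0 : (0 : ℝ) < X := by linarith
  apply countB_fin hn hX hη' hC₁0 (norm_pos_iff.2 hw)
  refine countB_aux ((0 : Fin (dg + 1)), j₀) X _ (fun a ha => ha.1)
    (fun a => Fv ω (fun i => (a i : ℂ)) s) hw ?_ (by positivity) ?_
  · intro a l
    unfold Fv
    rw [← Finset.add_sum_erase _ _ (Finset.mem_univ ((0 : Fin (dg + 1)), j₀)),
      ← Finset.add_sum_erase _ _ (Finset.mem_univ ((0 : Fin (dg + 1)), j₀))]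
    have hE : ∀ m : ℤ, ∑ x ∈ Finset.univ.erase ((0 : Fin (dg + 1)), j₀),
        ((Function.update a ((0 : Fin (dg + 1)), j₀) m x : ℤ) : ℂ) *
          algebraMap κ ℂ (ω x.2) * s ^ (x.1 : ℕ) =
        ∑ x ∈ Finset.univ.erase ((0 : Fin (dg + 1)), j₀),
        ((a x : ℤ) : ℂ) * algebraMap κ ℂ (ω x.2) * s ^ (x.1 : ℕ) := by
      intro m
      apply Finset.sum_congr rfl
      intro x hx
      rw [Function.update_of_ne (Finset.ne_of_mem_erase hx)]
    rw [hE l, hE 0]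
    simp only [Function.update_self]
    simp
    ring
  · rintro a ⟨ha, t, ht, hF⟩
    have hts : ‖t - s‖ ≤ 1 := ht.trans (Real.rpow_le_one_of_one_le_of_nonpos hX1 (by linarith))
    have htn : ‖t‖ ≤ ‖s‖ + 1 := by
      calc ‖t‖ = ‖s + (t - s)‖ := by ring_nf
        _ ≤ ‖s‖ + ‖t - s‖ := norm_add_le _ _
        _ ≤ ‖s‖ + 1 := by linarith
    have hpow : ∀ k : ℕ, ‖s ^ k - t ^ k‖ ≤ ‖t - s‖ * (k * (‖s‖ + 1) ^ k) := by
      intro k
      have h1 : (∑ i ∈ Finset.range k, s ^ i * t ^ (k - 1 - i)) * (s - t) = s ^ k - t ^ k :=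
        geom_sum₂_mul s t k
      rw [← h1, norm_mul, norm_sub_rev s t, mul_comm]
      apply mul_le_mul_of_nonneg_left _ (norm_nonneg _)
      calc ‖∑ i ∈ Finset.range k, s ^ i * t ^ (k - 1 - i)‖
          ≤ ∑ i ∈ Finset.range k, ‖s ^ i * t ^ (k - 1 - i)‖ := norm_sum_le _ _
        _ ≤ ∑ i ∈ Finset.range k, (‖s‖ + 1) ^ k := by
            apply Finset.sum_le_sum
            intro i hi
            have hi' := Finset.mem_range.1 hi
            rw [norm_mul, norm_pow, norm_pow]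
            calc ‖s‖ ^ i * ‖t‖ ^ (k - 1 - i) ≤ (‖s‖ + 1) ^ i * (‖s‖ + 1) ^ (k - 1 - i) := by
                  apply mul_le_mul _ _ (by positivity) (by positivity)
                  · exact pow_le_pow_left₀ (norm_nonneg _) (by linarith) _
                  · exact pow_le_pow_left₀ (norm_nonneg _) htn _
              _ = (‖s‖ + 1) ^ (i + (k - 1 - i)) := by rw [pow_add]
              _ ≤ (‖s‖ + 1) ^ k := pow_le_pow_right₀ (by linarith [norm_nonneg s]) (by omega)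
        _ = k * (‖s‖ + 1) ^ k := by simp
    have hdiff : Fv ω (fun i => (a i : ℂ)) s =
        ∑ i : Ix dg J, (a i : ℂ) * algebraMap κ ℂ (ω i.2) * (s ^ (i.1 : ℕ) - t ^ (i.1 : ℕ)) := by
      have : Fv ω (fun i => (a i : ℂ)) s =
          Fv ω (fun i => (a i : ℂ)) s - Fv ω (fun i => (a i : ℂ)) t := by rw [hF, sub_zero]
      rw [this]
      unfold Fv
      rw [← Finset.sum_sub_distrib]
      apply Finset.sum_congr rfl
      intro i _
      ring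
    show ‖Fv ω (fun i => (a i : ℂ)) s‖ ≤ C₁ * (X : ℝ) ^ (1 - η)
    rw [hdiff]
    calc ‖∑ i : Ix dg J, (a i : ℂ) * algebraMap κ ℂ (ω i.2) * (s ^ (i.1 : ℕ) - t ^ (i.1 : ℕ))‖
        ≤ ∑ i : Ix dg J,
          ‖(a i : ℂ) * algebraMap κ ℂ (ω i.2) * (s ^ (i.1 : ℕ) - t ^ (i.1 : ℕ))‖ :=
          norm_sum_le _ _
      _ ≤ ∑ i : Ix dg J, (X : ℝ) ^ (1 - η) *
          (‖algebraMap κ ℂ (ω i.2)‖ * ((i.1 : ℕ) * (‖s‖ + 1) ^ (i.1 : ℕ))) := by
          apply Finset.sum_le_sum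
          intro i _
          rw [norm_mul, norm_mul]
          have h1 : ‖((a i : ℤ) : ℂ)‖ ≤ X := by
            rw [Complex.norm_intCast]
            exact_mod_cast ha i
          have h2 := hpow (i.1 : ℕ)
          have h3 : ‖s ^ (i.1 : ℕ) - t ^ (i.1 : ℕ)‖ ≤
              (X : ℝ) ^ (-η) * ((i.1 : ℕ) * (‖s‖ + 1) ^ (i.1 : ℕ)) :=
            h2.trans (mul_le_mul_of_nonneg_right ht (by positivity))
          have h4 : (X : ℝ) ^ (1 - η) = X * (X : ℝ) ^ (-η) := by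
            rw [sub_eq_add_neg, Real.rpow_add hX0, Real.rpow_one]
          rw [h4]
          calc ‖((a i : ℤ) : ℂ)‖ * ‖algebraMap κ ℂ (ω i.2)‖ * ‖s ^ (i.1 : ℕ) - t ^ (i.1 : ℕ)‖
              ≤ X * ‖algebraMap κ ℂ (ω i.2)‖ *
                ((X : ℝ) ^ (-η) * ((i.1 : ℕ) * (‖s‖ + 1) ^ (i.1 : ℕ))) := by
                apply mul_le_mul _ h3 (norm_nonneg _) (by positivity)
                exact mul_le_mul_of_nonneg_right h1 (norm_nonneg _)
            _ = _ := by ring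
      _ = C₁ * (X : ℝ) ^ (1 - η) := by rw [← Finset.mul_sum, hC₁, mul_comm]

theorem count_large {η : ℝ} (hη : 0 < η) (hη' : η < 1) : ∃ C : ℝ, ∀ X : ℕ, 1 ≤ X →
    (Set.ncard {a : Ix dg J → ℤ | (∀ j, |a j| ≤ X) ∧ ∃ t : ℂ, (X : ℝ) ^ η ≤ ‖t‖ ∧
      Fv ω (fun i => (a i : ℂ)) t = 0} : ℝ) ≤ C * (X : ℝ) ^ ((Fintype.card (Ix dg J) : ℝ) - η) := by
  obtain ⟨j₀⟩ := ‹Nonempty J›
  set w : ℂ := algebraMap κ ℂ (ω j₀) with hwdef
  have hw : w ≠ 0 := by
    rw [hwdef, Ne, map_eq_zero]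
    exact hω j₀
  set C₁ : ℝ := ∑ i : Ix dg J, ‖algebraMap κ ℂ (ω i.2)‖ with hC₁
  have hC₁0 : 0 ≤ C₁ := Finset.sum_nonneg fun i _ => norm_nonneg _
  have hn : 1 ≤ Fintype.card (Ix dg J) := Fintype.card_pos_iff.2 ⟨((0 : Fin (dg + 1)), j₀)⟩
  refine ⟨3 ^ (Fintype.card (Ix dg J) - 1) * (2 * C₁ / ‖w‖ + 1), fun X hX => ?_⟩
  have hX1 : (1 : ℝ) ≤ X := by exact_mod_cast hX
  have hX0 : (0 : ℝ) < X := by linarith
  apply countB_fin hn hX hη' hC₁0 (norm_pos_iff.2 hw)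
  refine countB_aux (Fin.last dg, j₀) X _ (fun a ha => ha.1)
    (fun a => ∑ i : Ix dg J, if i.1 = Fin.last dg then (a i : ℂ) * algebraMap κ ℂ (ω i.2) else 0)
    hw ?_ (by positivity) ?_
  · intro a l
    rw [← Finset.add_sum_erase _ _ (Finset.mem_univ (Fin.last dg, j₀)),
      ← Finset.add_sum_erase _ _ (Finset.mem_univ (Fin.last dg, j₀))]
    have hE : ∀ m : ℤ, ∑ x ∈ Finset.univ.erase (Fin.last dg, j₀),
        (if x.1 = Fin.last dg then ((Function.update a (Fin.last dg, j₀) m x : ℤ) : ℂ) *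
          algebraMap κ ℂ (ω x.2) else 0) =
        ∑ x ∈ Finset.univ.erase (Fin.last dg, j₀),
        (if x.1 = Fin.last dg then ((a x : ℤ) : ℂ) * algebraMap κ ℂ (ω x.2) else 0) := by
      intro m
      apply Finset.sum_congr rfl
      intro x hx
      rw [Function.update_of_ne (Finset.ne_of_mem_erase hx)]
    rw [hE l, hE 0]
    simp only [Function.update_self]
    simp
    ring
  · rintro a ⟨ha, t, ht, hF⟩
    have ht1 : 1 ≤ ‖t‖ := le_trans (Real.one_le_rpow hX1 hη.le) ht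
    have ht0 : 0 < ‖t‖ := by linarith
    set α : ℂ := ∑ i : Ix dg J, if i.1 = Fin.last dg then (a i : ℂ) * algebraMap κ ℂ (ω i.2) else 0
      with hα
    have hsplit : α * t ^ dg = - ∑ i : Ix dg J,
        if i.1 = Fin.last dg then 0 else (a i : ℂ) * algebraMap κ ℂ (ω i.2) * t ^ (i.1 : ℕ) := by
      have h1 : α * t ^ dg + ∑ i : Ix dg J,
          (if i.1 = Fin.last dg then 0 else (a i : ℂ) * algebraMap κ ℂ (ω i.2) * t ^ (i.1 : ℕ)) =
          Fv ω (fun i => (a i : ℂ)) t := by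
        rw [hα, Finset.sum_mul, ← Finset.sum_add_distrib]
        unfold Fv
        apply Finset.sum_congr rfl
        intro i _
        by_cases h : i.1 = Fin.last dg
        · rw [if_pos h, if_pos h, h]
          simp
        · rw [if_neg h, if_neg h]
          simp
      rw [hF] at h1
      exact eq_neg_of_add_eq_zero_left h1
    have hbound : ‖α‖ * ‖t‖ ^ dg ≤ X * C₁ * ‖t‖ ^ (dg - 1) := by
      rw [← norm_pow, ← norm_mul, hsplit, norm_neg]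
      calc ‖∑ i : Ix dg J,
          (if i.1 = Fin.last dg then 0 else (a i : ℂ) * algebraMap κ ℂ (ω i.2) * t ^ (i.1 : ℕ))‖
          ≤ ∑ i : Ix dg J, ‖(if i.1 = Fin.last dg then 0 else
            (a i : ℂ) * algebraMap κ ℂ (ω i.2) * t ^ (i.1 : ℕ))‖ := norm_sum_le _ _
        _ ≤ ∑ i : Ix dg J, X * ‖algebraMap κ ℂ (ω i.2)‖ * ‖t‖ ^ (dg - 1) := by
            apply Finset.sum_le_sum
            intro i _
            by_cases h : i.1 = Fin.last dg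
            · rw [if_pos h, norm_zero]
              positivity
            · rw [if_neg h, norm_mul, norm_mul, norm_pow]
              have hlt : (i.1 : ℕ) < dg := Fin.val_lt_last h
              have h1 : ‖((a i : ℤ) : ℂ)‖ ≤ X := by
                rw [Complex.norm_intCast]
                exact_mod_cast ha i
              have h2 : ‖t‖ ^ (i.1 : ℕ) ≤ ‖t‖ ^ (dg - 1) :=
                pow_le_pow_right₀ ht1 (by omega)
              exact mul_le_mul (mul_le_mul_of_nonneg_right h1 (norm_nonneg _)) h2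
                (by positivity) (by positivity)
        _ = X * C₁ * ‖t‖ ^ (dg - 1) := by
            rw [hC₁, Finset.mul_sum, Finset.sum_mul]
    have h5 : ‖α‖ * ‖t‖ ≤ X * C₁ := by
      have h6 : ‖t‖ ^ dg = ‖t‖ ^ (dg - 1) * ‖t‖ := by
        rw [← pow_succ]
        congr 1
        omega
      rw [h6] at hbound
      have h7 : (‖α‖ * ‖t‖) * ‖t‖ ^ (dg - 1) ≤ X * C₁ * ‖t‖ ^ (dg - 1) := by
        calc (‖α‖ * ‖t‖) * ‖t‖ ^ (dg - 1) = ‖α‖ * (‖t‖ ^ (dg - 1) * ‖t‖) := by ring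
          _ ≤ _ := hbound
      exact le_of_mul_le_mul_right h7 (by positivity)
    have h8 : ‖α‖ * (X : ℝ) ^ η ≤ X * C₁ :=
      (mul_le_mul_of_nonneg_left ht (norm_nonneg _)).trans h5
    show ‖α‖ ≤ C₁ * (X : ℝ) ^ (1 - η)
    have hη0 : 0 < (X : ℝ) ^ η := Real.rpow_pos_of_pos hX0 _
    have h9 : (X : ℝ) ^ (1 - η) = X / (X : ℝ) ^ η := by
      rw [Real.rpow_sub hX0, Real.rpow_one]
    rw [h9, ← mul_div_assoc, le_div_iff₀ hη0]
    linarith

end Pool.Agent.Helper79.AA
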