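import Pool.Agent.Helper79.AA.CountB

/-!
# AA-26b: small derivatives are rare

`n = # Ix dg J`, `|a_i| ≤ X`, constants `C` depend on `ω` and `dg`. See `CountB.lean`.
* `count_deriv`: let `η = η₂ / (4 dg^2)` (or smaller), and `F_a(t) = 0`, `‖t‖ ≤ X^η`, `‖F_a'(t)‖ ≤ X^(1-η₂)`. The `a` with `‖α‖ ≤ X^(1-η₂/2)` (`α` the
  leading coefficient) are few (coordinate `(dg, j)`). For the others: `dg = 1` is impossible for large `X` (`F_a'(t) = α`); for `dg ≥ 2`
  `F_a'(t) = dg α ∏ (t - c_i)` with the `dg - 1` roots `c_i` of `F_a'`, so some `i` has `‖t - c_i‖ ≤ X^(-η₂/(2(dg-1)))`, so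
  `‖F_a(c_i)‖ = ‖F_a(c_i) - F_a(t)‖ ≤ C X^(1 + dg η) ‖t - c_i‖ ≤ X^(1-θ)`. The polynomial `F_a'` (so the `c_i`) does not depend on the coordinates `(0, j)`, and `F_a(c_i)` is
  `a_(0,j) ω_j` + (a function of the other coordinates): for given other coordinates, `a_(0,j)` is in one of `dg - 1` discs of radius `X^(1-θ)/‖ω_j‖`.
-/

open Polynomial

namespace Pool.Agent.Helper79.AA

open Pool.Agent.Helper64.Per

variable {κ : IntermediateField ℚ Qbar} {J : Type} [Fintype J] [DecidableEq J] [Nonempty J]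
  {ω : J → κ} (hω : ∀ j, ω j ≠ 0) {dg : ℕ} (hdg : 1 ≤ dg)

omit [DecidableEq J] [Nonempty J] in
/-- the polynomial `F_a` -/
private lemma countC_derivative_eval (ω : J → κ) (a : Ix dg J → ℤ) (t : ℂ) :
    (derivative (∑ i, C ((a i : ℂ) * algebraMap κ ℂ (ω i.2)) * X ^ (i.1 : ℕ) : ℂ[X])).eval t =
      Fd ω (fun i => (a i : ℂ)) t := by
  unfold Fd
  rw [derivative_sum, eval_finsetSum]
  refine Finset.sum_congr rfl (fun i _ => ?_)
  rw [derivative_C_mul, derivative_X_pow]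
  simp only [eval_mul, eval_C, eval_pow, eval_X, map_natCast, eval_natCast]

omit [DecidableEq J] [Nonempty J] in
private lemma countC_coeff (ω : J → κ) (a : Ix dg J → ℤ) (k : ℕ) :
    (∑ i, C ((a i : ℂ) * algebraMap κ ℂ (ω i.2)) * X ^ (i.1 : ℕ) : ℂ[X]).coeff k =
      ∑ i : Ix dg J, (a i : ℂ) * (if (i.1 : ℕ) = k then algebraMap κ ℂ (ω i.2) else 0) := by
  rw [finsetSum_coeff]
  refine Finset.sum_congr rfl (fun i _ => ?_)
  rw [coeff_C_mul_X_pow]
  by_cases h : (i.1 : ℕ) = k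
  · rw [if_pos h, if_pos h.symm]
  · rw [if_neg h, if_neg (fun h' => h h'.symm), mul_zero]

private lemma countC_pow_sub {c t : ℂ} {M : ℝ} (hM : 1 ≤ M) (hc : ‖c‖ ≤ M) (ht : ‖t‖ ≤ M) (k : ℕ) :
    ‖c ^ k - t ^ k‖ ≤ k * M ^ k * ‖c - t‖ := by
  have hM0 : 0 ≤ M := by linarith
  induction k with
  | zero => simp
  | succ k ih =>
    have h1 : c ^ (k + 1) - t ^ (k + 1) = c * (c ^ k - t ^ k) + (c - t) * t ^ k := by ring
    have h2 : ‖t ^ k‖ ≤ M ^ k := by
      rw [norm_pow]; exact pow_le_pow_left₀ (norm_nonneg _) ht k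
    have h3 : M ^ k ≤ M ^ (k + 1) := pow_le_pow_right₀ hM (Nat.le_succ k)
    have h0 : 0 ≤ ‖c - t‖ := norm_nonneg _
    calc ‖c ^ (k + 1) - t ^ (k + 1)‖ ≤ ‖c * (c ^ k - t ^ k)‖ + ‖(c - t) * t ^ k‖ := by
          rw [h1]; exact norm_add_le _ _
      _ = ‖c‖ * ‖c ^ k - t ^ k‖ + ‖c - t‖ * ‖t ^ k‖ := by rw [norm_mul, norm_mul]
      _ ≤ M * (k * M ^ k * ‖c - t‖) + ‖c - t‖ * M ^ k :=
          add_le_add (mul_le_mul hc ih (norm_nonneg _) hM0) (mul_le_mul_of_nonneg_left h2 h0)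
      _ ≤ M * (k * M ^ k * ‖c - t‖) + ‖c - t‖ * M ^ (k + 1) :=
          by linarith [mul_le_mul_of_nonneg_left h3 h0]
      _ = ((k + 1 : ℕ) : ℝ) * M ^ (k + 1) * ‖c - t‖ := by push_cast; ring

private lemma countC_prod {t : ℂ} {r : ℝ} (hr : 0 ≤ r) (s : Multiset ℂ) (h : ∀ c ∈ s, r ≤ ‖t - c‖) :
    r ^ s.card ≤ ‖(s.map (t - ·)).prod‖ := by
  induction s using Multiset.induction with
  | empty => simp
  | cons c s ih =>
    rw [Multiset.map_cons, Multiset.prod_cons, Multiset.card_cons, norm_mul, pow_succ']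
    exact mul_le_mul (h c (Multiset.mem_cons_self c s))
      (ih (fun c' hc' => h c' (Multiset.mem_cons_of_mem hc'))) (by positivity) (norm_nonneg _)

/-- a linear form -/
private noncomputable def countCLin {σ : Type} [Fintype σ] (w : σ → ℂ) (a : σ → ℤ) : ℂ :=
  ∑ i, (a i : ℂ) * w i

private lemma countC_lin_update {σ : Type} [Fintype σ] [DecidableEq σ] (w : σ → ℂ) (a : σ → ℤ) (i₀ : σ)
    (l : ℤ) : countCLin w (Function.update a i₀ l) =
      countCLin w (Function.update a i₀ 0) + (l : ℂ) * w i₀ := by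
  unfold countCLin
  rw [← Finset.add_sum_erase _ _ (Finset.mem_univ i₀),
    ← Finset.add_sum_erase (a := i₀) Finset.univ
      (fun i => ((Function.update a i₀ 0 i : ℤ) : ℂ) * w i) (Finset.mem_univ i₀)]
  have h : ∀ i ∈ Finset.univ.erase i₀, ((Function.update a i₀ l i : ℤ) : ℂ) * w i =
      ((Function.update a i₀ 0 i : ℤ) : ℂ) * w i := by
    intro i hi
    have hne : i ≠ i₀ := (Finset.mem_erase.1 hi).1
    rw [Function.update_of_ne hne, Function.update_of_ne hne]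
  rw [Finset.sum_congr rfl h, Function.update_self, Function.update_self]
  push_cast
  ring

private lemma countC_finite {σ : Type} [Fintype σ] [DecidableEq σ] (X : ℕ) (S : Set (σ → ℤ))
    (hS : ∀ a ∈ S, ∀ j, |a j| ≤ X) : S.Finite := by
  refine (Set.finite_Icc (fun _ : σ => -(X : ℤ)) (fun _ : σ => (X : ℤ))).subset ?_
  intro a ha
  exact ⟨fun j => (abs_le.1 (hS a ha j)).1, fun j => (abs_le.1 (hS a ha j)).2⟩

/-- one coordinate lies in few discs -/
private lemma countC_discs {σ : Type} [Fintype σ] [DecidableEq σ] (i₀ : σ) {X : ℕ} (hX : 1 ≤ X)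
    (S : Set (σ → ℤ)) (hS : ∀ a ∈ S, ∀ j, |a j| ≤ X) (r : ℕ) {w : ℂ} (hw : w ≠ 0) {Y A θ : ℝ}
    (hA : 0 ≤ A) (hY : Y ≤ A * (X : ℝ) ^ (1 - θ)) (hY0 : 0 ≤ Y) (hθ : θ ≤ 1)
    (h : ∀ a : σ → ℤ, (∀ j, |a j| ≤ X) → ∃ F : Finset ℂ, F.card ≤ r ∧
      ∀ l : ℤ, Function.update a i₀ l ∈ S → ∃ z ∈ F, ‖z + (l : ℂ) * w‖ ≤ Y) :
    (S.ncard : ℝ) ≤ (3 ^ (Fintype.card σ - 1) * r * (2 * A / ‖w‖ + 1)) *
      (X : ℝ) ^ ((Fintype.card σ : ℝ) - θ) := by
  have hXR : (1 : ℝ) ≤ X := by exact_mod_cast hX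
  have hX0 : (0 : ℝ) < X := by linarith
  have hwn : 0 < ‖w‖ := norm_pos_iff.2 hw
  have hn1 : 1 ≤ Fintype.card σ := Fintype.card_pos_iff.2 ⟨i₀⟩
  set N : ℕ := r * ⌊2 * Y / ‖w‖ + 1⌋₊ with hN
  have hfib : ∀ a : σ → ℤ, (∀ j, |a j| ≤ X) →
      Set.ncard {l : ℤ | Function.update a i₀ l ∈ S} ≤ N := by
    intro a ha
    obtain ⟨F, hF, hFl⟩ := h a ha
    have hsub : {l : ℤ | Function.update a i₀ l ∈ S} ⊆ ⋃ z ∈ F, {l : ℤ | ‖z + (l : ℂ) * w‖ ≤ Y} := by
      intro l hl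
      obtain ⟨z, hz, hz'⟩ := hFl l hl
      exact Set.mem_biUnion (Finset.mem_coe.2 hz) hz'
    have hfin : (⋃ z ∈ F, {l : ℤ | ‖z + (l : ℂ) * w‖ ≤ Y}).Finite :=
      F.finite_toSet.biUnion (fun z _ => (count_disc hw hY0).1)
    refine (Set.ncard_le_ncard hsub hfin).trans ?_
    refine (F.set_ncard_biUnion_le _).trans ?_
    have h1 : ∀ z ∈ F, Set.ncard {l : ℤ | ‖z + (l : ℂ) * w‖ ≤ Y} ≤ ⌊2 * Y / ‖w‖ + 1⌋₊ :=
      fun z _ => Nat.le_floor (count_disc hw hY0).2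
    refine (Finset.sum_le_card_nsmul F _ _ h1).trans ?_
    rw [smul_eq_mul]
    exact Nat.mul_le_mul_right _ hF
  have hmain := count_fib i₀ X N S hS hfib
  have hNR : (N : ℝ) ≤ r * ((2 * A / ‖w‖ + 1) * (X : ℝ) ^ (1 - θ)) := by
    rw [hN]
    push_cast
    apply mul_le_mul_of_nonneg_left _ (Nat.cast_nonneg r)
    have h2 : (⌊2 * Y / ‖w‖ + 1⌋₊ : ℝ) ≤ 2 * Y / ‖w‖ + 1 := Nat.floor_le (by positivity)
    refine h2.trans ?_
    have h3 : 1 ≤ (X : ℝ) ^ (1 - θ) := Real.one_le_rpow hXR (by linarith)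
    have h4 : 2 * Y / ‖w‖ ≤ 2 * A / ‖w‖ * (X : ℝ) ^ (1 - θ) := by
      rw [div_mul_eq_mul_div, div_le_div_iff_of_pos_right hwn]
      linarith
    nlinarith
  have h5 : (S.ncard : ℝ) ≤ ((2 * (X : ℝ) + 1) ^ (Fintype.card σ - 1)) * N := by
    exact_mod_cast hmain
  have h6 : (2 * (X : ℝ) + 1) ^ (Fintype.card σ - 1) ≤ (3 * (X : ℝ)) ^ (Fintype.card σ - 1) :=
    pow_le_pow_left₀ (by positivity) (by linarith) _
  have h7 : (X : ℝ) ^ (Fintype.card σ - 1) * (X : ℝ) ^ (1 - θ) = (X : ℝ) ^ ((Fintype.card σ : ℝ) - θ) := by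
    rw [← Real.rpow_natCast, ← Real.rpow_add hX0]
    congr 1
    rw [Nat.cast_sub hn1]
    push_cast
    ring
  calc (S.ncard : ℝ) ≤ ((2 * (X : ℝ) + 1) ^ (Fintype.card σ - 1)) * N := h5
    _ ≤ ((3 * (X : ℝ)) ^ (Fintype.card σ - 1)) * (r * ((2 * A / ‖w‖ + 1) * (X : ℝ) ^ (1 - θ))) :=
        mul_le_mul h6 hNR (Nat.cast_nonneg _) (by positivity)
    _ = (3 ^ (Fintype.card σ - 1) * r * (2 * A / ‖w‖ + 1)) *
          ((X : ℝ) ^ (Fintype.card σ - 1) * (X : ℝ) ^ (1 - θ)) := by rw [mul_pow]; ring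
    _ = _ := by rw [h7]

include hω hdg

theorem count_deriv {η₂ : ℝ} (hη : 0 < η₂) (hη' : η₂ < 1) : ∃ (η θ C : ℝ), 0 < η ∧ η ≤ η₂ ∧
    0 < θ ∧ θ < 1 ∧ ∀ X : ℕ, 1 ≤ X →
    (Set.ncard {a : Ix dg J → ℤ | (∀ j, |a j| ≤ X) ∧ ∃ t : ℂ, ‖t‖ ≤ (X : ℝ) ^ η ∧
      ‖Fd ω (fun i => (a i : ℂ)) t‖ ≤ (X : ℝ) ^ (1 - η₂) ∧ Fv ω (fun i => (a i : ℂ)) t = 0} : ℝ) ≤
        C * (X : ℝ) ^ ((Fintype.card (Ix dg J) : ℝ) - θ) := by
  classical
  have hdgR : (1 : ℝ) ≤ dg := by exact_mod_cast hdg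
  have hdg0 : (0 : ℝ) < dg := by linarith
  obtain ⟨j₀⟩ := (inferInstance : Nonempty J)
  have hw : (algebraMap κ ℂ (ω j₀)) ≠ 0 := (_root_.map_ne_zero _).2 (hω j₀)
  set w₀ : ℂ := algebraMap κ ℂ (ω j₀) with hw₀
  set η : ℝ := η₂ / (4 * dg ^ 2) with hηdef
  set θ : ℝ := η₂ / (4 * dg) with hθdef
  have hη0 : 0 < η := by positivity
  have hθ0 : 0 < θ := by positivity
  have hηle : η ≤ η₂ := by
    rw [hηdef]
    apply div_le_self hη.le
    nlinarith
  have hθle : θ ≤ η₂ / 4 := by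
    rw [hθdef]
    apply div_le_div_of_nonneg_left hη.le (by norm_num)
    linarith
  have hdgη : (dg : ℝ) * η = θ := by
    rw [hηdef, hθdef]; field_simp
  -- constants
  set Ω : ℝ := ∑ i : Ix dg J, ‖algebraMap κ ℂ (ω i.2)‖ with hΩ
  have hΩ0 : 0 ≤ Ω := Finset.sum_nonneg (fun i _ => norm_nonneg _)
  set A : ℝ := Ω * (dg * 2 ^ dg) with hA
  have hA0 : 0 ≤ A := by positivity
  -- the linear forms
  set wt : Ix dg J → ℂ := fun i => if (i.1 : ℕ) = dg then algebraMap κ ℂ (ω i.2) else 0 with hwt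
  set P : (Ix dg J → ℤ) → ℂ[X] := fun a =>
    ∑ i, C ((a i : ℂ) * algebraMap κ ℂ (ω i.2)) * X ^ (i.1 : ℕ) with hP
  have hPc : ∀ a, (P a).coeff dg = countCLin wt a := fun a => countC_coeff ω a dg
  have hPdeg : ∀ a, (P a).natDegree ≤ dg := by
    intro a
    refine natDegree_sum_le_of_forall_le _ _ (fun i _ => ?_)
    refine (natDegree_C_mul_X_pow_le _ _).trans ?_
    exact Nat.lt_succ_iff.1 i.1.2
  set il : Ix dg J := (Fin.last dg, j₀) with hil
  set i0 : Ix dg J := (0, j₀) with hi0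
  refine ⟨η, θ, 3 ^ (Fintype.card (Ix dg J) - 1) * (1 : ℕ) * (2 * 1 / ‖w₀‖ + 1) +
    3 ^ (Fintype.card (Ix dg J) - 1) * (dg : ℕ) * (2 * A / ‖w₀‖ + 1), hη0, hηle, hθ0,
    by linarith, ?_⟩
  intro X hX
  have hXR : (1 : ℝ) ≤ X := by exact_mod_cast hX
  have hX0 : (0 : ℝ) < X := by linarith
  set B := {a : Ix dg J → ℤ | (∀ j, |a j| ≤ X) ∧ ∃ t : ℂ, ‖t‖ ≤ (X : ℝ) ^ η ∧
      ‖Fd ω (fun i => (a i : ℂ)) t‖ ≤ (X : ℝ) ^ (1 - η₂) ∧ Fv ω (fun i => (a i : ℂ)) t = 0} with hB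
  set S1 := {a : Ix dg J → ℤ | (∀ j, |a j| ≤ X) ∧ ‖countCLin wt a‖ ≤ (X : ℝ) ^ (1 - η₂ / 2)} with hS1
  set S2 := {a : Ix dg J → ℤ | a ∈ B ∧ (X : ℝ) ^ (1 - η₂ / 2) < ‖countCLin wt a‖} with hS2
  have hBsub : B ⊆ S1 ∪ S2 := by
    intro a ha
    by_cases h : ‖countCLin wt a‖ ≤ (X : ℝ) ^ (1 - η₂ / 2)
    · exact Or.inl ⟨ha.1, h⟩
    · exact Or.inr ⟨ha, not_le.1 h⟩
  have hf1 : S1.Finite := countC_finite X S1 (fun a ha => ha.1)
  have hf2 : S2.Finite := countC_finite X S2 (fun a ha => ha.1.1)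
  have hcard : (B.ncard : ℝ) ≤ (S1.ncard : ℝ) + (S2.ncard : ℝ) := by
    have h1 : B.ncard ≤ (S1 ∪ S2).ncard := Set.ncard_le_ncard hBsub (hf1.union hf2)
    have h2 : (S1 ∪ S2).ncard ≤ S1.ncard + S2.ncard := Set.ncard_union_le _ _
    exact_mod_cast h1.trans h2
  -- the first set
  have hb1 : (S1.ncard : ℝ) ≤ (3 ^ (Fintype.card (Ix dg J) - 1) * (1 : ℕ) * (2 * 1 / ‖w₀‖ + 1)) *
      (X : ℝ) ^ ((Fintype.card (Ix dg J) : ℝ) - θ) := by
    refine countC_discs il hX S1 (fun a ha => ha.1) 1 hw (Y := (X : ℝ) ^ (1 - η₂ / 2))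
      (A := 1) (θ := θ) zero_le_one ?_ (by positivity) (by linarith) ?_
    · rw [one_mul]
      exact Real.rpow_le_rpow_of_exponent_le hXR (by linarith)
    · intro a _
      refine ⟨{countCLin wt (Function.update a il 0)}, by simp, ?_⟩
      intro l hl
      refine ⟨_, Finset.mem_singleton_self _, ?_⟩
      have h1 := hl.2
      rw [countC_lin_update] at h1
      have h2 : wt il = w₀ := by
        simp only [hwt, hil, Fin.val_last, if_true, hw₀]
      rwa [h2] at h1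
  -- the second set
  have hb2 : (S2.ncard : ℝ) ≤ (3 ^ (Fintype.card (Ix dg J) - 1) * (dg : ℕ) * (2 * A / ‖w₀‖ + 1)) *
      (X : ℝ) ^ ((Fintype.card (Ix dg J) : ℝ) - θ) := by
    refine countC_discs i0 hX S2 (fun a ha => ha.1.1) dg hw (Y := A * (X : ℝ) ^ (1 - θ))
      (A := A) (θ := θ) hA0 le_rfl (by positivity) (by linarith) ?_
    intro a _
    -- the derivative does not depend on the coordinate `i0`
    have hder : ∀ l : ℤ, derivative (P (Function.update a i0 l)) = derivative (P a) := by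
      intro l
      simp only [hP]
      rw [derivative_sum, derivative_sum]
      refine Finset.sum_congr rfl (fun i _ => ?_)
      by_cases h : i = i0
      · rw [h]
        simp [hi0]
      · rw [Function.update_of_ne h]
    refine ⟨((derivative (P a)).roots.toFinset).image (fun c =>
      countCLin (fun i : Ix dg J => algebraMap κ ℂ (ω i.2) * c ^ (i.1 : ℕ)) (Function.update a i0 0)),
      ?_, ?_⟩
    · refine Finset.card_image_le.trans ?_
      refine (Multiset.toFinset_card_le _).trans ?_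
      refine (card_roots' _).trans ?_
      refine (natDegree_derivative_le _).trans ?_
      have := hPdeg a
      omega
    · intro l hl
      obtain ⟨⟨hb, t, ht1, ht2, ht3⟩, hα⟩ := hl
      set a' := Function.update a i0 l with ha'
      set D := derivative (P a') with hD
      have hDa : D = derivative (P a) := hder l
      -- the leading coefficient
      have hαne : (P a').coeff dg ≠ 0 := by
        rw [hPc]
        intro h0
        rw [h0, norm_zero] at hα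
        exact absurd hα (not_lt.2 (by positivity))
      have hcoeff : D.coeff (dg - 1) = (P a').coeff dg * dg := by
        rw [hD, coeff_derivative, Nat.sub_add_cancel hdg]
        have : ((dg - 1 : ℕ) : ℂ) + 1 = dg := by
          rw [Nat.cast_sub hdg]; push_cast; ring
        rw [this]
      have hdgC : (dg : ℂ) ≠ 0 := by
        have : dg ≠ 0 := by omega
        exact_mod_cast this
      have hDdeg : D.natDegree = dg - 1 := by
        apply le_antisymm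
        · refine (natDegree_derivative_le _).trans ?_
          have := hPdeg a'
          omega
        · apply le_natDegree_of_ne_zero
          rw [hcoeff]
          exact mul_ne_zero hαne hdgC
      have hlc : D.leadingCoeff = countCLin wt a' * dg := by
        rw [leadingCoeff, hDdeg, hcoeff, hPc]
      have hev : D.eval t = Fd ω (fun i => (a' i : ℂ)) t := countC_derivative_eval ω a' t
      have hsp := IsAlgClosed.splits D
      have hprod := hsp.eval_eq_prod_roots t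
      have hcardr : D.roots.card = dg - 1 := by rw [← hsp.natDegree_eq_card_roots, hDdeg]
      -- a close root
      obtain ⟨c, hc, hct⟩ : ∃ c ∈ D.roots, ‖t - c‖ ≤ (X : ℝ) ^ (-(η₂ / (2 * dg))) := by
        by_contra hcon
        push Not at hcon
        have h1 := countC_prod (t := t) (r := (X : ℝ) ^ (-(η₂ / (2 * dg)))) (by positivity) D.roots
          (fun c hc => (hcon c hc).le)
        rw [hcardr] at h1
        have h2 : ‖D.eval t‖ = ‖countCLin wt a'‖ * dg * ‖(D.roots.map (t - ·)).prod‖ := by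
          rw [hprod, hlc, norm_mul, norm_mul, Complex.norm_natCast]
        rw [hev] at h2
        have h3 : (X : ℝ) ^ (-(η₂ / 2)) ≤ ((X : ℝ) ^ (-(η₂ / (2 * dg)))) ^ (dg - 1) := by
          rw [← Real.rpow_natCast, ← Real.rpow_mul hX0.le]
          apply Real.rpow_le_rpow_of_exponent_le hXR
          rw [Nat.cast_sub hdg]
          push_cast
          have h4 : η₂ / (2 * dg) * ((dg : ℝ) - 1) ≤ η₂ / 2 := by
            rw [div_mul_eq_mul_div, div_le_div_iff₀ (by positivity) (by norm_num)]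
            nlinarith
          linarith
        have h5 : (X : ℝ) ^ (1 - η₂) < ‖countCLin wt a'‖ * dg * ‖(D.roots.map (t - ·)).prod‖ := by
          calc (X : ℝ) ^ (1 - η₂) = (X : ℝ) ^ (1 - η₂ / 2) * (X : ℝ) ^ (-(η₂ / 2)) := by
                rw [← Real.rpow_add hX0]; congr 1; ring
            _ < ‖countCLin wt a'‖ * (X : ℝ) ^ (-(η₂ / 2)) :=
                mul_lt_mul_of_pos_right hα (by positivity)
            _ ≤ (‖countCLin wt a'‖ * dg) * (X : ℝ) ^ (-(η₂ / 2)) := by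
                apply mul_le_mul_of_nonneg_right _ (by positivity)
                nlinarith [norm_nonneg (countCLin wt a')]
            _ ≤ (‖countCLin wt a'‖ * dg) * ‖(D.roots.map (t - ·)).prod‖ :=
                mul_le_mul_of_nonneg_left (h3.trans h1) (by positivity)
        rw [← h2] at h5
        exact absurd ht2 (not_le.2 h5)
      refine ⟨_, Finset.mem_image_of_mem _ (Multiset.mem_toFinset.2 (hDa ▸ hc)), ?_⟩
      -- the value at `c`
      have hval : countCLin (fun i : Ix dg J => algebraMap κ ℂ (ω i.2) * c ^ (i.1 : ℕ))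
            (Function.update a i0 0) + (l : ℂ) * w₀ =
          ∑ i : Ix dg J, (a' i : ℂ) * algebraMap κ ℂ (ω i.2) * (c ^ (i.1 : ℕ) - t ^ (i.1 : ℕ)) := by
        have h1 := countC_lin_update (fun i : Ix dg J => algebraMap κ ℂ (ω i.2) * c ^ (i.1 : ℕ)) a i0 l
        have h2 : algebraMap κ ℂ (ω i0.2) * c ^ ((i0.1 : Fin (dg + 1)) : ℕ) = w₀ := by
          simp [hi0, hw₀]
        rw [h2] at h1
        rw [← h1]
        have h3 : ∑ i : Ix dg J, (a' i : ℂ) * algebraMap κ ℂ (ω i.2) * t ^ (i.1 : ℕ) = 0 := ht3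
        have h4 : ∑ i : Ix dg J, (a' i : ℂ) * algebraMap κ ℂ (ω i.2) * (c ^ (i.1 : ℕ) - t ^ (i.1 : ℕ)) =
            ∑ i : Ix dg J, (a' i : ℂ) * (algebraMap κ ℂ (ω i.2) * c ^ (i.1 : ℕ)) -
              ∑ i : Ix dg J, (a' i : ℂ) * algebraMap κ ℂ (ω i.2) * t ^ (i.1 : ℕ) := by
          rw [← Finset.sum_sub_distrib]
          refine Finset.sum_congr rfl (fun i _ => by ring)
        rw [h4, h3, sub_zero]
        rfl
      rw [hval]
      set M : ℝ := 2 * (X : ℝ) ^ η with hM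
      have hXη : 1 ≤ (X : ℝ) ^ η := Real.one_le_rpow hXR hη0.le
      have hM1 : 1 ≤ M := by linarith
      have hct1 : (X : ℝ) ^ (-(η₂ / (2 * dg))) ≤ 1 :=
        Real.rpow_le_one_of_one_le_of_nonpos hXR (by
          have : 0 < η₂ / (2 * dg) := by positivity
          linarith)
      have hcM : ‖c‖ ≤ M := by
        have : ‖c‖ ≤ ‖t‖ + ‖t - c‖ := by
          have := norm_sub_norm_le c t
          rw [norm_sub_rev] at this
          linarith
        linarith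
      have htM : ‖t‖ ≤ M := by linarith
      have hterm : ∀ i : Ix dg J, ‖(a' i : ℂ) * algebraMap κ ℂ (ω i.2) *
          (c ^ (i.1 : ℕ) - t ^ (i.1 : ℕ))‖ ≤ ‖algebraMap κ ℂ (ω i.2)‖ *
            ((X : ℝ) * (dg * M ^ dg * (X : ℝ) ^ (-(η₂ / (2 * dg))))) := by
        intro i
        rw [norm_mul, norm_mul]
        have h1 : ‖(a' i : ℂ)‖ ≤ X := by
          rw [Complex.norm_intCast]
          exact_mod_cast hb i
        have hk : (i.1 : ℕ) ≤ dg := Nat.lt_succ_iff.1 i.1.2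
        have hkR : ((i.1 : ℕ) : ℝ) ≤ dg := by exact_mod_cast hk
        have h2 := countC_pow_sub hM1 hcM htM (i.1 : ℕ)
        have h3 : M ^ (i.1 : ℕ) ≤ M ^ dg := pow_le_pow_right₀ hM1 hk
        have h4 : ‖c ^ (i.1 : ℕ) - t ^ (i.1 : ℕ)‖ ≤ dg * M ^ dg * (X : ℝ) ^ (-(η₂ / (2 * dg))) := by
          refine h2.trans ?_
          rw [norm_sub_rev c t]
          exact mul_le_mul (mul_le_mul hkR h3 (by positivity) hdg0.le) hct (norm_nonneg _)
            (by positivity)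
        calc ‖(a' i : ℂ)‖ * ‖algebraMap κ ℂ (ω i.2)‖ * ‖c ^ (i.1 : ℕ) - t ^ (i.1 : ℕ)‖
            = ‖algebraMap κ ℂ (ω i.2)‖ * (‖(a' i : ℂ)‖ * ‖c ^ (i.1 : ℕ) - t ^ (i.1 : ℕ)‖) := by ring
          _ ≤ _ := mul_le_mul_of_nonneg_left (mul_le_mul h1 h4 (norm_nonneg _) hX0.le)
              (norm_nonneg _)
      refine (norm_sum_le _ _).trans ((Finset.sum_le_sum (fun i _ => hterm i)).trans ?_)
      rw [← Finset.sum_mul, ← hΩ]
      have hMpow : M ^ dg = 2 ^ dg * (X : ℝ) ^ θ := by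
        rw [hM, mul_pow, ← Real.rpow_natCast ((X : ℝ) ^ η), ← Real.rpow_mul hX0.le, mul_comm η,
          hdgη]
      have hexp : (X : ℝ) * ((X : ℝ) ^ θ * (X : ℝ) ^ (-(η₂ / (2 * dg)))) = (X : ℝ) ^ (1 - θ) := by
        conv_lhs => rw [← Real.rpow_one (X : ℝ)]
        rw [Real.rpow_one, ← Real.rpow_add hX0]
        nth_rewrite 1 [← Real.rpow_one (X : ℝ)]
        rw [← Real.rpow_add hX0]
        congr 1
        rw [hθdef]
        field_simp
        ring
      calc Ω * ((X : ℝ) * (dg * M ^ dg * (X : ℝ) ^ (-(η₂ / (2 * dg)))))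
          = Ω * (dg * 2 ^ dg) * ((X : ℝ) * ((X : ℝ) ^ θ * (X : ℝ) ^ (-(η₂ / (2 * dg))))) := by
            rw [hMpow]; ring
        _ = A * (X : ℝ) ^ (1 - θ) := by rw [hexp]
        _ ≤ A * (X : ℝ) ^ (1 - θ) := le_rfl
  calc (B.ncard : ℝ) ≤ (S1.ncard : ℝ) + (S2.ncard : ℝ) := hcard
    _ ≤ _ := add_le_add hb1 hb2
    _ = _ := by ring

end Pool.Agent.Helper79.AA
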