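import Pool.Agent.Helper79.AA.MBeta
import Pool.Agent.Helper79.GA.Basic

/-!
# AA-18: denominators of the divided iterates at integral points

`TameM`: a finite set `S ⊆ k`, `c`, `H` with `q iter_m ∈ (G S).I (c (N+1))` for `m ≤ N`. Let `Θ₀ ∈ ℤ[x]`, `Θ₀ ≠ 0`, be a common denominator of the
elements of `S` and of `1`: `Θ₀ s` is (the image of) a polynomial with integral coefficients (`IsFractionRing`, clear the
rational denominators too). Then `Θ₀^n x` is the image of a polynomial over `ℤ` for all `x ∈ (G S).I n` (integral combinations of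
products of at most `n` elements of `S`; use `G_sub`-like induction, or `AddSubgroup.closure_induction`).
With `iter Dk (M/Θ) m = mbeta m / Θ^m` in `k` (induction on `m`): `q Θ₀^(c(N+1)) mbeta_m = Θ^m P` with `P ∈ ℤ[x]`
(the homomorphism `ℚ[x] → k` is injective), and evaluate at `a`: the integer `q |Θ₀(a)|^(c(N+1))` is a denominator of `mbeta_m(a)/Θ(a)^m`.
-/

open Polynomial

namespace Pool.Agent.Helper79.AA

open Pool.Agent.Helper79.GX Pool.Agent.Helper79.GA

open Pool.Agent.Helper79.CU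

theorem den_clear {σ : Type} (a : MvPolynomial σ ℚ) :
    ∃ d : ℤ, d ≠ 0 ∧ ∃ A : MvPolynomial σ ℤ,
      MvPolynomial.C (d : ℚ) * a = MvPolynomial.map (Int.castRingHom ℚ) A := by
  induction a using MvPolynomial.induction_on with
  | C q =>
    refine ⟨(q.den : ℤ), by exact_mod_cast q.den_nz, MvPolynomial.C q.num, ?_⟩
    rw [MvPolynomial.map_C, ← map_mul]
    congr 1
    have h := Rat.mul_den_eq_num q
    rw [eq_intCast, mul_comm]
    exact_mod_cast h
  | add p q hp hq =>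
    obtain ⟨d, hd, A, hA⟩ := hp
    obtain ⟨e, he, B, hB⟩ := hq
    refine ⟨d * e, mul_ne_zero hd he, MvPolynomial.C e * A + MvPolynomial.C d * B, ?_⟩
    rw [map_add, map_mul, map_mul, MvPolynomial.map_C, MvPolynomial.map_C, ← hA, ← hB, eq_intCast,
      eq_intCast, Int.cast_mul, map_mul]
    ring
  | mul_X p i hp =>
    obtain ⟨d, hd, A, hA⟩ := hp
    refine ⟨d, hd, A * MvPolynomial.X i, ?_⟩
    rw [map_mul, MvPolynomial.map_X, ← hA, mul_assoc]

section

variable {σ k : Type} [Field k] [CharZero k] [Algebra (MvPolynomial σ ℚ) k]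

/-- The homomorphism from integral polynomials. -/
noncomputable def denHom (σ k : Type) [Field k] [CharZero k] [Algebra (MvPolynomial σ ℚ) k] :
    MvPolynomial σ ℤ →+* k :=
  (algebraMap (MvPolynomial σ ℚ) k).comp (MvPolynomial.map (Int.castRingHom ℚ))

theorem den_map_inj {σ : Type} : Function.Injective
    (MvPolynomial.map (Int.castRingHom ℚ) : MvPolynomial σ ℤ →+* MvPolynomial σ ℚ) :=
  MvPolynomial.map_injective _ Int.cast_injective

theorem denHom_inj [IsFractionRing (MvPolynomial σ ℚ) k] :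
    Function.Injective (denHom σ k) :=
  (IsFractionRing.injective (MvPolynomial σ ℚ) k).comp den_map_inj

theorem den_single [IsFractionRing (MvPolynomial σ ℚ) k] (s : k) :
    ∃ Θ : MvPolynomial σ ℤ, Θ ≠ 0 ∧ ∃ P : MvPolynomial σ ℤ,
      denHom σ k Θ * s = denHom σ k P := by
  obtain ⟨a, b, hb, rfl⟩ := IsFractionRing.div_surjective (A := MvPolynomial σ ℚ) s
  have hb0 : b ≠ 0 := nonZeroDivisors.ne_zero hb
  have hbk : algebraMap (MvPolynomial σ ℚ) k b ≠ 0 := by
    intro h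
    exact hb0 ((IsFractionRing.injective (MvPolynomial σ ℚ) k) (by rw [h, map_zero]))
  obtain ⟨d, hd, A, hA⟩ := den_clear a
  obtain ⟨e, he, B, hB⟩ := den_clear b
  refine ⟨MvPolynomial.C d * B, ?_, MvPolynomial.C e * A, ?_⟩
  · refine mul_ne_zero ?_ ?_
    · rw [Ne, MvPolynomial.C_eq_zero]
      exact hd
    · intro h
      rw [h, map_zero] at hB
      rcases mul_eq_zero.mp hB with h1 | h1
      · rw [MvPolynomial.C_eq_zero] at h1
        exact he (by exact_mod_cast h1)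
      · exact hb0 h1
  · unfold denHom
    rw [RingHom.comp_apply, RingHom.comp_apply, map_mul, map_mul (MvPolynomial.map _),
      MvPolynomial.map_C, MvPolynomial.map_C, ← hA, ← hB, eq_intCast, eq_intCast]
    simp only [map_mul]
    field_simp

theorem den_finite [IsFractionRing (MvPolynomial σ ℚ) k] {S : Set k} (hS : S.Finite) :
    ∃ Θ : MvPolynomial σ ℤ, Θ ≠ 0 ∧ ∀ s ∈ S, ∃ P : MvPolynomial σ ℤ,
      denHom σ k Θ * s = denHom σ k P := by
  induction S, hS using Set.Finite.induction_on with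
  | empty => exact ⟨1, one_ne_zero, fun s hs => absurd hs (Set.notMem_empty s)⟩
  | insert _ _ ih =>
    obtain ⟨Θ, h0, h⟩ := ih
    rename_i a S _ _
    obtain ⟨Θ', h0', P', h'⟩ := den_single (σ := σ) a
    refine ⟨Θ * Θ', mul_ne_zero h0 h0', fun s hs => ?_⟩
    rcases Set.mem_insert_iff.mp hs with rfl | hs
    · refine ⟨Θ * P', ?_⟩
      rw [map_mul, map_mul, mul_assoc, h']
    · obtain ⟨P, hP⟩ := h s hs
      refine ⟨Θ' * P, ?_⟩
      rw [map_mul, map_mul, ← hP]
      ring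

/-- The filtration by the exponent of the denominator. -/
noncomputable def denFilt (Θ : MvPolynomial σ ℤ) : MFilt k where
  I := fun n =>
    { carrier := {x | ∃ P : MvPolynomial σ ℤ, denHom σ k Θ ^ n * x = denHom σ k P}
      zero_mem' := ⟨0, by rw [mul_zero, map_zero]⟩
      add_mem' := by
        rintro x y ⟨P, hP⟩ ⟨Q, hQ⟩
        exact ⟨P + Q, by rw [mul_add, hP, hQ, map_add]⟩
      neg_mem' := by
        rintro x ⟨P, hP⟩
        exact ⟨-P, by rw [mul_neg, hP, map_neg]⟩ }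
  mono := by
    rintro m n hmn x ⟨P, hP⟩
    obtain ⟨j, rfl⟩ := Nat.exists_eq_add_of_le hmn
    refine ⟨Θ ^ j * P, ?_⟩
    rw [map_mul, map_pow, ← hP, pow_add]
    ring
  one := ⟨1, by rw [pow_zero, mul_one, map_one]⟩
  mul := by
    rintro m n x y ⟨P, hP⟩ ⟨Q, hQ⟩
    refine ⟨P * Q, ?_⟩
    rw [map_mul, ← hP, ← hQ, pow_add]
    ring

theorem den_G {S : Set k} {Θ : MvPolynomial σ ℤ}
    (h : ∀ s ∈ S, ∃ P : MvPolynomial σ ℤ, denHom σ k Θ * s = denHom σ k P) {n : ℕ} {x : k}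
    (hx : x ∈ (G S).I n) : ∃ P : MvPolynomial σ ℤ, denHom σ k Θ ^ n * x = denHom σ k P := by
  have h1 := genM_map (triv ℤ) (Int.castRingHom k) S (denFilt (k := k) Θ) (RingHom.id k) (c := 1)
    (fun i r _ => by
      have h2 := (denFilt (k := k) Θ).int_mul_mem (denFilt (k := k) Θ).one r
      rw [mul_one] at h2
      exact (denFilt (k := k) Θ).mono (Nat.zero_le _) h2)
    (fun s hs => by
      obtain ⟨P, hP⟩ := h s hs
      exact ⟨P, by rw [pow_one]; exact hP⟩) hx
  rw [one_mul] at h1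
  exact h1

end

theorem den_iter {σ : Type} [DecidableEq σ] {i₀ : σ} {k : Type} [Field k]
    [CharZero k] [Algebra (MvPolynomial σ ℚ) k] {Dk : Derivation ℚ k k}
    (hD : ∀ P, Dk (algebraMap (MvPolynomial σ ℚ) k P) =
      algebraMap (MvPolynomial σ ℚ) k (MvPolynomial.pderiv i₀ P)) {ι : Type} [Fintype ι]
    [DecidableEq ι] {α : Matrix ι ι k} (Θ : MvPolynomial σ ℚ)
    (M : Matrix ι ι (MvPolynomial σ ℚ)) (hΘ : algebraMap (MvPolynomial σ ℚ) k Θ ≠ 0)
    (hα : ∀ x y, α x y = algebraMap (MvPolynomial σ ℚ) k (M x y) /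
        algebraMap (MvPolynomial σ ℚ) k Θ) (m : ℕ) (x y : ι) :
    algebraMap (MvPolynomial σ ℚ) k Θ ^ m * iter Dk α m x y =
      algebraMap (MvPolynomial σ ℚ) k (mbeta i₀ Θ M m x y) := by
  induction m generalizing x y with
  | zero =>
    rw [pow_zero, one_mul]
    change (1 : Matrix ι ι k) x y = algebraMap (MvPolynomial σ ℚ) k
      ((1 : Matrix ι ι (MvPolynomial σ ℚ)) x y)
    rw [Matrix.one_apply, Matrix.one_apply]
    split_ifs
    · rw [map_one]
    · rw [map_zero]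
  | succ m ih =>
    set θ := algebraMap (MvPolynomial σ ℚ) k Θ with hθ
    have e1 : iter Dk α (m + 1) x y = (((m + 1 : ℕ) : k)⁻¹) *
      (Dk (iter Dk α m x y) + ∑ l, iter Dk α m x l * α l y) := rfl
    have e2 : mbeta i₀ Θ M (m + 1) x y =
        (MvPolynomial.C (((m : ℚ) + 1)⁻¹) : MvPolynomial σ ℚ) *
        (Θ * MvPolynomial.pderiv i₀ (mbeta i₀ Θ M m x y)
        - ((m : MvPolynomial σ ℚ) * MvPolynomial.pderiv i₀ Θ) * mbeta i₀ Θ M m x y
        + ∑ l, mbeta i₀ Θ M m x l * M l y) := rfl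
    have hC : algebraMap (MvPolynomial σ ℚ) k (MvPolynomial.C (((m : ℚ) + 1)⁻¹)) =
        (((m + 1 : ℕ) : k)⁻¹) := by
      have h1 : (((m + 1 : ℕ) : k)) ≠ 0 := by exact_mod_cast Nat.succ_ne_zero m
      apply eq_inv_of_mul_eq_one_left
      have h2 : ((m + 1 : ℕ) : k) = algebraMap (MvPolynomial σ ℚ) k
          (MvPolynomial.C ((m : ℚ) + 1)) := by
        have : (MvPolynomial.C ((m : ℚ) + 1) : MvPolynomial σ ℚ) = ((m + 1 : ℕ) :
          MvPolynomial σ ℚ) := by
          rw [map_add, map_natCast, map_one]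
          push_cast
          rfl
        rw [this, map_natCast]
      rw [h2, ← map_mul, ← map_mul, inv_mul_cancel₀ (by positivity), map_one, map_one]
    have hDx : θ ^ (m + 1) * Dk (iter Dk α m x y) =
        θ * algebraMap (MvPolynomial σ ℚ) k (MvPolynomial.pderiv i₀ (mbeta i₀ Θ M m x y)) -
        (m : k) * algebraMap (MvPolynomial σ ℚ) k (MvPolynomial.pderiv i₀ Θ) *
          algebraMap (MvPolynomial σ ℚ) k (mbeta i₀ Θ M m x y) := by
      have h1 := congrArg Dk (ih x y)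
      rw [Derivation.leibniz, hD, smul_eq_mul, smul_eq_mul, Derivation.leibniz_pow, hD] at h1
      rw [← h1, ← ih x y]
      simp only [nsmul_eq_mul, smul_eq_mul]
      rcases Nat.eq_zero_or_pos m with rfl | hm
      · simp
      · obtain ⟨j, rfl⟩ := Nat.exists_eq_succ_of_ne_zero hm.ne'
        simp only [Nat.succ_eq_add_one, Nat.add_sub_cancel]
        ring
    have hS : θ ^ (m + 1) * ∑ l, iter Dk α m x l * α l y =
        ∑ l, algebraMap (MvPolynomial σ ℚ) k (mbeta i₀ Θ M m x l) *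
          algebraMap (MvPolynomial σ ℚ) k (M l y) := by
      rw [Finset.mul_sum]
      refine Finset.sum_congr rfl fun l _ => ?_
      rw [hα, ← ih x l]
      field_simp
      ring
    rw [e1, e2, map_mul, hC, map_add, map_sub, map_sum]
    simp only [map_mul, map_natCast]
    rw [← hθ, ← hDx, ← hS]
    ring

theorem exists_den {σ : Type} [Finite σ] [DecidableEq σ] {i₀ : σ} {k : Type} [Field k]
    [CharZero k] [Algebra (MvPolynomial σ ℚ) k] [IsFractionRing (MvPolynomial σ ℚ) k]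
    {Dk : Derivation ℚ k k}
    (hD : ∀ P, Dk (algebraMap (MvPolynomial σ ℚ) k P) =
      algebraMap (MvPolynomial σ ℚ) k (MvPolynomial.pderiv i₀ P)) {ι : Type} [Fintype ι]
    [DecidableEq ι] {α : Matrix ι ι k} (hα : TameM Dk α) :
    ∃ Θ₀ : MvPolynomial σ ℤ, Θ₀ ≠ 0 ∧ ∃ c H : ℕ, ∀ (Θ : MvPolynomial σ ℚ)
      (M : Matrix ι ι (MvPolynomial σ ℚ)), Θ ≠ 0 →
      (∀ x y, α x y = algebraMap (MvPolynomial σ ℚ) k (M x y) /
        algebraMap (MvPolynomial σ ℚ) k Θ) →
      ∀ a : σ → ℤ, MvPolynomial.eval a Θ₀ ≠ 0 →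
        MvPolynomial.eval (fun i => ((a i : ℤ) : ℚ)) Θ ≠ 0 → ∀ N : ℕ, ∃ q : ℕ, 0 < q ∧
          q ≤ (H * (MvPolynomial.eval a Θ₀).natAbs) ^ (c * (N + 1)) ∧ ∀ m ≤ N, ∀ x y, ∃ n : ℤ,
            (q : ℚ) * (MvPolynomial.eval (fun i => ((a i : ℤ) : ℚ)) (mbeta i₀ Θ M m x y) /
              MvPolynomial.eval (fun i => ((a i : ℤ) : ℚ)) Θ ^ m) = n := by
  obtain ⟨S, c, H, hS, hq⟩ := hα
  obtain ⟨Θ₀, h0, hΘ₀⟩ := den_finite (σ := σ) hS
  refine ⟨Θ₀, h0, c + 1, H, ?_⟩
  intro Θ M hΘ hαM a ha0 haΘ N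
  have hΘk : algebraMap (MvPolynomial σ ℚ) k Θ ≠ 0 := by
    intro h
    exact hΘ ((IsFractionRing.injective (MvPolynomial σ ℚ) k) (by rw [h, map_zero]))
  obtain ⟨q, q0, q1, q2⟩ := hq N
  set t := (MvPolynomial.eval a Θ₀).natAbs with ht
  have ht0 : 0 < t := Int.natAbs_pos.mpr ha0
  have hH : 0 < H := by
    rcases Nat.eq_zero_or_pos H with rfl | h
    · rw [zero_pow (Nat.succ_ne_zero N)] at q1
      omega
    · exact h
  refine ⟨q * t ^ (c * (N + 1)), Nat.mul_pos q0 (pow_pos ht0 _), ?_, ?_⟩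
  · calc q * t ^ (c * (N + 1)) ≤ H ^ (N + 1) * t ^ (c * (N + 1)) := Nat.mul_le_mul_right _ q1
      _ ≤ H ^ ((c + 1) * (N + 1)) * t ^ ((c + 1) * (N + 1)) := by
        apply Nat.mul_le_mul
        · exact Nat.pow_le_pow_right hH (by nlinarith)
        · exact Nat.pow_le_pow_right ht0 (Nat.mul_le_mul_right _ (Nat.le_succ c))
      _ = (H * t) ^ ((c + 1) * (N + 1)) := by rw [mul_pow]
  · intro m hm x y
    obtain ⟨P, hP⟩ := den_G hΘ₀ (q2 m hm (x, y))
    have hit := den_iter hD Θ M hΘk hαM m x y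
    have hpoly : (MvPolynomial.map (Int.castRingHom ℚ) Θ₀) ^ (c * (N + 1)) *
        ((q : MvPolynomial σ ℚ) * mbeta i₀ Θ M m x y) =
        Θ ^ m * MvPolynomial.map (Int.castRingHom ℚ) P := by
      apply IsFractionRing.injective (MvPolynomial σ ℚ) k
      rw [map_mul, map_mul, map_mul, map_pow, map_pow, map_natCast, ← hit]
      have hP' : algebraMap (MvPolynomial σ ℚ) k (MvPolynomial.map (Int.castRingHom ℚ) Θ₀) ^
          (c * (N + 1)) * ((q : k) * iter Dk α m x y) =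
          algebraMap (MvPolynomial σ ℚ) k (MvPolynomial.map (Int.castRingHom ℚ) P) := hP
      rw [← hP']
      ring
    have hev := congrArg (MvPolynomial.eval (fun i => ((a i : ℤ) : ℚ))) hpoly
    rw [map_mul, map_mul, map_mul, map_pow, map_pow, map_natCast] at hev
    have hcast : ∀ R : MvPolynomial σ ℤ,
        MvPolynomial.eval (fun i => ((a i : ℤ) : ℚ)) (MvPolynomial.map (Int.castRingHom ℚ) R) =
        ((MvPolynomial.eval a R : ℤ) : ℚ) := by
      intro R
      rw [MvPolynomial.eval_map]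
      exact (MvPolynomial.eval₂_comp_left (Int.castRingHom ℚ) (RingHom.id ℤ) a R).symm
    rw [hcast, hcast] at hev
    set b := MvPolynomial.eval (fun i => ((a i : ℤ) : ℚ)) (mbeta i₀ Θ M m x y) with hb
    set u := MvPolynomial.eval (fun i => ((a i : ℤ) : ℚ)) Θ with hu
    set e := c * (N + 1) with he
    have hsq : ∃ s : ℤ, ((t : ℤ)) = s * MvPolynomial.eval a Θ₀ := by
      rcases Int.natAbs_eq (MvPolynomial.eval a Θ₀) with h | h
      · exact ⟨1, by rw [one_mul, ht]; exact h.symm⟩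
      · exact ⟨-1, by rw [neg_one_mul, ht]; omega⟩
    obtain ⟨s, hs⟩ := hsq
    refine ⟨s ^ e * MvPolynomial.eval a P, ?_⟩
    have hsQ : (t : ℚ) = (s : ℚ) * ((MvPolynomial.eval a Θ₀ : ℤ) : ℚ) := by
      exact_mod_cast congrArg (fun z : ℤ => (z : ℚ)) hs
    have hum : u ^ m ≠ 0 := pow_ne_zero _ haΘ
    push_cast
    rw [← mul_div_assoc, div_eq_iff hum, hsQ, mul_pow]
    calc (q : ℚ) * ((s : ℚ) ^ e * ((MvPolynomial.eval a Θ₀ : ℤ) : ℚ) ^ e) * b =
        (s : ℚ) ^ e * (((MvPolynomial.eval a Θ₀ : ℤ) : ℚ) ^ e * ((q : ℚ) * b)) := by ring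
      _ = (s : ℚ) ^ e * (u ^ m * ((MvPolynomial.eval a P : ℤ) : ℚ)) := by rw [hev]
      _ = _ := by ring

end Pool.Agent.Helper79.AA
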