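import Pool.Agent.Helper79.GA.Defs

/-!
# AA-16: the homomorphism from the rational function field

Every `f ∈ K` is `aeval u p / aeval u q`; since `u` and `t` are transcendental over `k` the map `aeval u p / aeval u q ↦ aeval t p / aeval t q` is a
well defined homomorphism (e.g. `K` is a fraction field of `k[X]` by `aeval u`, `IsFractionRing.lift`/`IsLocalization.lift`).
Derivation: both `f ↦ D' (φ f)` and `f ↦ D' t φ(D f)` are derivations from `K` to `L` (along `φ`) which vanish on
`k` and agree on `u`: check on polynomials (`D (aeval u p) = aeval u p'`), then on quotients.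
-/

open Polynomial

namespace Pool.Agent.Helper79.AA

open Pool.Agent.Helper79.GA

private theorem Hom_der_aeval {k K : Type} [Field k] [Field K] [CharZero K] [Algebra k K]
    {D : Derivation ℚ K K} (hc : ∀ c : k, D (algebraMap k K c) = 0) (u : K) (p : k[X]) :
    D (aeval u p) = aeval u (derivative p) * D u := by
  induction p using Polynomial.induction_on' with
  | add p q hp hq => simp only [map_add, hp, hq, add_mul]
  | monomial n a =>
    rw [aeval_monomial, derivative_monomial, aeval_monomial, Derivation.leibniz,
      Derivation.leibniz_pow, hc]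
    simp only [smul_eq_mul, nsmul_eq_mul, mul_zero, add_zero, map_mul, map_natCast]
    ring

theorem exists_hom {k K L : Type} [Field k] [Field K] [CharZero K] [Algebra k K] {u : K}
    {D : Derivation ℚ K K} (hu : RatX k u D) [Field L] [CharZero L] [Algebra k L]
    {D' : Derivation ℚ L L} (hc : ∀ c : k, D' (algebraMap k L c) = 0) {t : L}
    (ht : Transcendental k t) : ∃ φ : K →+* L, φ u = t ∧
      (∀ p : k[X], φ (aeval u p) = aeval t p) ∧ ∀ f : K, D' (φ f) = D' t * φ (D f) := by
  have hinj : Function.Injective (aeval u : k[X] →ₐ[k] K) :=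
    (transcendental_iff_injective).1 hu.tr
  have hinjt : Function.Injective (aeval t : k[X] →ₐ[k] L) :=
    (transcendental_iff_injective).1 ht
  letI : Algebra k[X] K := (aeval u : k[X] →ₐ[k] K).toRingHom.toAlgebra
  have hmap : ∀ p : k[X], algebraMap k[X] K p = aeval u p := fun p => rfl
  haveI : FaithfulSMul k[X] K := (faithfulSMul_iff_algebraMap_injective k[X] K).2 hinj
  haveI : IsFractionRing k[X] K := by
    apply IsFractionRing.of_field
    intro z
    obtain ⟨p, q, _, h⟩ := hu.quo z
    exact ⟨p, q, h⟩
  let φ : K →+* L := IsFractionRing.lift (A := k[X]) (g := (aeval t : k[X] →ₐ[k] L).toRingHom) hinjt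
  have hφ : ∀ p : k[X], φ (aeval u p) = aeval t p := fun p =>
    IsFractionRing.lift_algebraMap (A := k[X]) (g := (aeval t : k[X] →ₐ[k] L).toRingHom) hinjt p
  refine ⟨φ, ?_, hφ, ?_⟩
  · have h := hφ X
    rwa [aeval_X, aeval_X] at h
  · have hpol : ∀ p : k[X], D' (φ (aeval u p)) = D' t * φ (D (aeval u p)) := by
      intro p
      rw [hφ, Hom_der_aeval hc, Hom_der_aeval hu.const, hu.dx, mul_one, hφ, mul_comm]
    intro f
    obtain ⟨p, q, hq, hf⟩ := hu.quo f
    have hq' : φ (aeval u q) ≠ 0 := by
      intro h0
      exact hq ((map_eq_zero φ).1 h0)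
    have h1 : f * aeval u q = aeval u p := by rw [hf, div_mul_cancel₀ _ hq]
    have h2 := congrArg (fun x => D' (φ x)) h1
    have h3 := congrArg (fun x => D' t * φ (D x)) h1
    simp only [map_mul, Derivation.leibniz, smul_eq_mul, map_add] at h2 h3
    have h4 := hpol p
    have h5 := hpol q
    have h6 : (D' (φ f) - D' t * φ (D f)) * φ (aeval u q) = 0 := by
      linear_combination h2 - h3 + h4 - φ f * h5
    rcases mul_eq_zero.1 h6 with h7 | h7
    · exact sub_eq_zero.1 h7
    · exact absurd h7 hq'

end Pool.Agent.Helper79.AA
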