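import Pool.Agent.Helper79.AA.UDefs

/-!
# AA-19: the universal identities at complex points

`ι := algebraMap k L ∘ algebraMap ℚ[x] k`. An identity between `ι(P_1) p_1(t) + … = 0` (`P_i ∈ ℚ[x]`, `p_i ∈ κ[X]`) in `L` is `aeval (t, a) P = 0` for
`P = ∑ P_i p_i ∈ κ[Option Ix]`, so by `Mod.gen` it holds for all complex `(t', a')` with `Fv ω a' t' = 0`.
* `mod_dt`: apply `D` to `Mod.eqn`: `ω_(j₀) + (∑ a_i ω_(i.2) i.1 t^(i.1 - 1)) D t = 0` (`Dk x_i = δ_(i,(0,j₀))`).
* `mod_ident`: the hypothesis `hM` multiplied by `Θ F'(t) T(t)`, where `D t F'(t) = - ω_(j₀)`, `D (ω_j t^n) = ω_j n t^(n-1) D t`, is the identity between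
  polynomials in `t` and `a`.
* `mod_span`: the same for `hρ`, multiplied by `Θ`.
-/

open Polynomial

namespace Pool.Agent.Helper79.AA

open Pool.Agent.Helper79.GX Pool.Agent.Helper64.Per

private noncomputable def identQ {κ : IntermediateField ℚ Qbar} {J : Type} {dg : ℕ}
    (Q : MvPolynomial (Ix dg J) ℚ) : MvPolynomial (Option (Ix dg J)) κ :=
  MvPolynomial.aeval (fun i => (MvPolynomial.X (some i) : MvPolynomial (Option (Ix dg J)) κ)) Q

private noncomputable def identK {κ : IntermediateField ℚ Qbar} {J : Type} {dg : ℕ}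
    (p : κ[X]) : MvPolynomial (Option (Ix dg J)) κ :=
  Polynomial.aeval (MvPolynomial.X none : MvPolynomial (Option (Ix dg J)) κ) p

private theorem ident_evK {κ : IntermediateField ℚ Qbar} {J : Type} {dg : ℕ} {R : Type}
    [CommRing R] [Algebra κ R] (t : R) (a : Ix dg J → R) (p : κ[X]) :
    MvPolynomial.aeval (fun o : Option (Ix dg J) => o.elim t a) (identK (dg := dg) (J := J) p) =
      Polynomial.aeval t p := by
  unfold identK
  rw [← Polynomial.aeval_algHom_apply, MvPolynomial.aeval_X]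
  rfl

private theorem ident_evQ {κ : IntermediateField ℚ Qbar} {J : Type} {dg : ℕ} {R : Type}
    [CommRing R] [Algebra κ R] [Algebra ℚ R] (t : R) (a : Ix dg J → R)
    (Q : MvPolynomial (Ix dg J) ℚ) :
    MvPolynomial.aeval (fun o : Option (Ix dg J) => o.elim t a) (identQ (κ := κ) Q) =
      MvPolynomial.aeval a Q := by
  have key : (MvPolynomial.aeval (R := κ)
      (fun o : Option (Ix dg J) => (o.elim t a : R))).toRingHom.comp
      (MvPolynomial.aeval (R := ℚ)
        (fun i => (MvPolynomial.X (some i) : MvPolynomial (Option (Ix dg J)) κ))).toRingHom =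
      (MvPolynomial.aeval (R := ℚ) a).toRingHom := by
    apply MvPolynomial.ringHom_ext
    · intro r
      exact RingHom.congr_fun (RingHom.ext_rat
        (((MvPolynomial.aeval (R := κ)
          (fun o : Option (Ix dg J) => (o.elim t a : R))).toRingHom.comp
          (MvPolynomial.aeval (R := ℚ)
            (fun i => (MvPolynomial.X (some i) :
              MvPolynomial (Option (Ix dg J)) κ))).toRingHom).comp MvPolynomial.C)
        ((MvPolynomial.aeval (R := ℚ) a).toRingHom.comp MvPolynomial.C)) r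
    · intro i
      simp
  exact RingHom.congr_fun key Q

private theorem ident_iota {J : Type} {dg : ℕ} {k L : Type} [Field k]
    [Algebra (MvPolynomial (Ix dg J) ℚ) k] [Field L] [CharZero L] [Algebra k L]
    (Q : MvPolynomial (Ix dg J) ℚ) :
    algebraMap k L (algebraMap (MvPolynomial (Ix dg J) ℚ) k Q) =
      MvPolynomial.aeval (fun i => algebraMap k L (algebraMap (MvPolynomial (Ix dg J) ℚ) k
        (MvPolynomial.X i))) Q := by
  have key : (algebraMap k L).comp (algebraMap (MvPolynomial (Ix dg J) ℚ) k) =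
      (MvPolynomial.aeval (R := ℚ) (fun i => algebraMap k L (algebraMap
        (MvPolynomial (Ix dg J) ℚ) k (MvPolynomial.X i)))).toRingHom := by
    apply MvPolynomial.ringHom_ext
    · intro r
      exact RingHom.congr_fun (RingHom.ext_rat
        (((algebraMap k L).comp (algebraMap (MvPolynomial (Ix dg J) ℚ) k)).comp MvPolynomial.C)
        ((MvPolynomial.aeval (R := ℚ) (fun i => algebraMap k L (algebraMap
          (MvPolynomial (Ix dg J) ℚ) k (MvPolynomial.X i)))).toRingHom.comp MvPolynomial.C)) r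
    · intro i
      simp
  exact RingHom.congr_fun key Q

section

variable {κ : IntermediateField ℚ Qbar} {J : Type} [Fintype J] [DecidableEq J] {ω : J → κ}
  {dg : ℕ} {j₀ : J} {k L : Type} [Field k] [CharZero k] [Algebra (MvPolynomial (Ix dg J) ℚ) k]
  [Field L] [CharZero L] [Algebra k L] [Algebra κ L] {Dk : Derivation ℚ k k}
  {D : Derivation ℚ L L} {t : L} (h : Mod ω dg j₀ Dk D t)

include h

private theorem ident_der (w : κ) (n : ℕ) :
    D (algebraMap κ L w * t ^ n) = algebraMap κ L w * ((n : L) * t ^ (n - 1) * D t) := by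
  rw [Derivation.leibniz, Derivation.leibniz_pow, h.const w]
  simp only [smul_eq_mul, nsmul_eq_mul, mul_zero, add_zero]
  ring

private theorem ident_ne {Θ : MvPolynomial (Ix dg J) ℚ} (hΘ : Θ ≠ 0) :
    algebraMap k L (algebraMap (MvPolynomial (Ix dg J) ℚ) k Θ) ≠ 0 := by
  haveI := h.frac
  intro h0
  have h1 := (map_eq_zero_iff _ (algebraMap k L).injective).mp h0
  exact hΘ ((map_eq_zero_iff _ (IsFractionRing.injective (MvPolynomial (Ix dg J) ℚ) k)).mp h1)

theorem mod_dt : (∑ i : Ix dg J, algebraMap k L (algebraMap (MvPolynomial (Ix dg J) ℚ) k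
    (MvPolynomial.X i)) * algebraMap κ L (ω i.2) * ((((i.1 : ℕ) : L)) * t ^ ((i.1 : ℕ) - 1))) *
      D t = -algebraMap κ L (ω j₀) := by
  have h0 := congrArg D h.eqn
  rw [map_sum, map_zero] at h0
  have hterm : ∀ i : Ix dg J, D (algebraMap k L (algebraMap (MvPolynomial (Ix dg J) ℚ) k
      (MvPolynomial.X i)) * algebraMap κ L (ω i.2) * t ^ (i.1 : ℕ)) =
      algebraMap k L (algebraMap (MvPolynomial (Ix dg J) ℚ) k
        (MvPolynomial.X i)) * algebraMap κ L (ω i.2) * ((((i.1 : ℕ) : L)) * t ^ ((i.1 : ℕ) - 1)) *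
        D t + (if i = (0, j₀) then algebraMap κ L (ω j₀) else 0) := by
    intro i
    rw [mul_assoc, Derivation.leibniz, ident_der h, h.ext, h.der, MvPolynomial.pderiv_X]
    by_cases hi : i = (0, j₀)
    · subst hi
      simp only [Pi.single_eq_same, map_one, smul_eq_mul, mul_one, if_true]
      have : ((0 : Fin (dg + 1)) : ℕ) = 0 := rfl
      simp only [this, pow_zero]
      ring
    · rw [Pi.single_eq_of_ne hi, map_zero, map_zero, if_neg hi]
      simp only [smul_eq_mul]
      ring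
  rw [Finset.sum_congr rfl (fun i _ => hterm i), Finset.sum_add_distrib, ← Finset.sum_mul,
    Finset.sum_ite_eq' Finset.univ ((0 : Fin (dg + 1)), j₀)] at h0
  simp only [Finset.mem_univ, if_true] at h0
  exact eq_neg_of_add_eq_zero_left h0

theorem mod_ident {Γ β : Type} [Fintype Γ] [DecidableEq Γ] [Fintype β] [DecidableEq β]
    (b : Γ → J × ℕ) {T : κ[X]} (hT : T ≠ 0) {A : Matrix β β κ[X]} {Θ : MvPolynomial (Ix dg J) ℚ}
    (hΘ : Θ ≠ 0) {M : Matrix (Γ × β) (Γ × β) (MvPolynomial (Ix dg J) ℚ)}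
    (hM : ∀ (γ : Γ) (i i' : β),
      (if i = i' then D (algebraMap κ L (ω (b γ).1) * t ^ (b γ).2) else 0) +
        algebraMap κ L (ω (b γ).1) * t ^ (b γ).2 * (D t * (aeval t (A i i') / aeval t T)) =
      ∑ γ', algebraMap k L (algebraMap (MvPolynomial (Ix dg J) ℚ) k (M (γ, i) (γ', i')) /
        algebraMap (MvPolynomial (Ix dg J) ℚ) k Θ) * (algebraMap κ L (ω (b γ').1) *
          t ^ (b γ').2)) (t' : ℂ) (a' : Ix dg J → ℂ) (ha : Fv ω a' t' = 0) (γ : Γ) (i i' : β) :
    MvPolynomial.aeval a' Θ * (-(algebraMap κ ℂ (ω j₀))) *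
      ((if i = i' then (((b γ).2 : ℕ) : ℂ) * algebraMap κ ℂ (ω (b γ).1) * t' ^ ((b γ).2 - 1) *
        aeval t' T else 0) + algebraMap κ ℂ (ω (b γ).1) * t' ^ (b γ).2 * aeval t' (A i i')) =
    Fd ω a' t' * aeval t' T * ∑ γ', MvPolynomial.aeval a' (M (γ, i) (γ', i')) *
      (algebraMap κ ℂ (ω (b γ').1) * t' ^ (b γ').2) := by
  set P : MvPolynomial (Option (Ix dg J)) κ :=
    identQ Θ * (-(MvPolynomial.C (ω j₀))) *
      ((if i = i' then (((b γ).2 : ℕ) : MvPolynomial (Option (Ix dg J)) κ) *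
        MvPolynomial.C (ω (b γ).1) * MvPolynomial.X none ^ ((b γ).2 - 1) *
        identK T else 0) + MvPolynomial.C (ω (b γ).1) * MvPolynomial.X none ^ (b γ).2 *
          identK (A i i')) -
    (∑ i : Ix dg J, MvPolynomial.X (some i) * MvPolynomial.C (ω i.2) *
      ((((i.1 : ℕ) : MvPolynomial (Option (Ix dg J)) κ)) *
        MvPolynomial.X none ^ ((i.1 : ℕ) - 1))) * identK T *
      ∑ γ', identQ (M (γ, i) (γ', i')) *
        (MvPolynomial.C (ω (b γ').1) * MvPolynomial.X none ^ (b γ').2) with hP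
  have hev : ∀ {R : Type} [CommRing R] [Algebra κ R] [Algebra ℚ R] (t : R) (a : Ix dg J → R),
      MvPolynomial.aeval (fun o : Option (Ix dg J) => o.elim t a) P =
      MvPolynomial.aeval a Θ * (-(algebraMap κ R (ω j₀))) *
      ((if i = i' then (((b γ).2 : ℕ) : R) * algebraMap κ R (ω (b γ).1) * t ^ ((b γ).2 - 1) *
        aeval t T else 0) + algebraMap κ R (ω (b γ).1) * t ^ (b γ).2 * aeval t (A i i')) -
      (∑ i, a i * algebraMap κ R (ω i.2) * ((((i.1 : ℕ) : R)) * t ^ ((i.1 : ℕ) - 1))) *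
        aeval t T * ∑ γ', MvPolynomial.aeval a (M (γ, i) (γ', i')) *
      (algebraMap κ R (ω (b γ').1) * t ^ (b γ').2) := by
    intro R _ _ _ t a
    rw [hP]
    simp only [map_sub, map_mul, map_neg, map_add, map_sum, map_pow, map_natCast,
      MvPolynomial.aeval_X, MvPolynomial.aeval_C, ident_evK, ident_evQ, Option.elim_none, Option.elim_some, apply_ite
      (MvPolynomial.aeval (R := κ) (fun o : Option (Ix dg J) => (o.elim t a : R))), map_zero]
  have hTt : aeval t T ≠ 0 := by
    intro h0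
    exact hT ((transcendental_iff.mp h.tr) T h0)
  have hΘ0 := ident_ne h hΘ
  have hzero : MvPolynomial.aeval (fun o : Option (Ix dg J) => o.elim t fun i =>
      algebraMap k L (algebraMap (MvPolynomial (Ix dg J) ℚ) k (MvPolynomial.X i))) P = 0 := by
    rw [hev]
    rw [← ident_iota]
    set F := ∑ i : Ix dg J, algebraMap k L (algebraMap (MvPolynomial (Ix dg J) ℚ) k
      (MvPolynomial.X i)) * algebraMap κ L (ω i.2) *
        ((((i.1 : ℕ) : L)) * t ^ ((i.1 : ℕ) - 1)) with hF
    have hdt : F * D t = -algebraMap κ L (ω j₀) := mod_dt h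
    have hm := hM γ i i'
    rw [ident_der h] at hm
    set θ := algebraMap k L (algebraMap (MvPolynomial (Ix dg J) ℚ) k Θ) with hθ
    have hs : ∑ γ', algebraMap k L (algebraMap (MvPolynomial (Ix dg J) ℚ) k (M (γ, i) (γ', i')) /
        algebraMap (MvPolynomial (Ix dg J) ℚ) k Θ) * (algebraMap κ L (ω (b γ').1) *
          t ^ (b γ').2) = (∑ γ', MvPolynomial.aeval (fun i => algebraMap k L (algebraMap
            (MvPolynomial (Ix dg J) ℚ) k (MvPolynomial.X i))) (M (γ, i) (γ', i')) *
          (algebraMap κ L (ω (b γ').1) * t ^ (b γ').2)) / θ := by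
      rw [Finset.sum_div]
      apply Finset.sum_congr rfl
      intro γ' _
      rw [map_div₀, ident_iota (M (γ, i) (γ', i'))]
      ring
    rw [hs] at hm
    set Sg := ∑ γ', MvPolynomial.aeval (fun i => algebraMap k L (algebraMap
            (MvPolynomial (Ix dg J) ℚ) k (MvPolynomial.X i))) (M (γ, i) (γ', i')) *
          (algebraMap κ L (ω (b γ').1) * t ^ (b γ').2) with hSg
    have hSg' : Sg = θ * ((if i = i' then algebraMap κ L (ω (b γ).1) *
        ((((b γ).2 : ℕ) : L) * t ^ ((b γ).2 - 1) * D t) else 0) +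
        algebraMap κ L (ω (b γ).1) * t ^ (b γ).2 * (D t * (aeval t (A i i') / aeval t T))) := by
      rw [hm]
      field_simp
    rw [hSg', ← hdt]
    by_cases hii : i = i'
    · simp only [hii, if_true]
      field_simp
      ring
    · simp only [if_neg hii]
      field_simp
      ring
  have hfin := h.gen P hzero t' a' ha
  rw [hev] at hfin
  exact sub_eq_zero.mp hfin

theorem mod_span {Γ : Type} [Fintype Γ] (b : Γ → J × ℕ) {Θ : MvPolynomial (Ix dg J) ℚ}
    (hΘ : Θ ≠ 0) {ρ : Γ → MvPolynomial (Ix dg J) ℚ} {p : J × ℕ}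
    (hρ : algebraMap κ L (ω p.1) * t ^ p.2 =
      ∑ γ, algebraMap k L (algebraMap (MvPolynomial (Ix dg J) ℚ) k (ρ γ) /
        algebraMap (MvPolynomial (Ix dg J) ℚ) k Θ) * (algebraMap κ L (ω (b γ).1) * t ^ (b γ).2))
    (t' : ℂ) (a' : Ix dg J → ℂ) (ha : Fv ω a' t' = 0) :
    MvPolynomial.aeval a' Θ * (algebraMap κ ℂ (ω p.1) * t' ^ p.2) =
      ∑ γ, MvPolynomial.aeval a' (ρ γ) * (algebraMap κ ℂ (ω (b γ).1) * t' ^ (b γ).2) := by
  set P : MvPolynomial (Option (Ix dg J)) κ :=
    identQ Θ * (MvPolynomial.C (ω p.1) * MvPolynomial.X none ^ p.2) -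
      ∑ γ, identQ (ρ γ) * (MvPolynomial.C (ω (b γ).1) * MvPolynomial.X none ^ (b γ).2) with hP
  have hev : ∀ {R : Type} [CommRing R] [Algebra κ R] [Algebra ℚ R] (t : R) (a : Ix dg J → R),
      MvPolynomial.aeval (fun o : Option (Ix dg J) => o.elim t a) P =
      MvPolynomial.aeval a Θ * (algebraMap κ R (ω p.1) * t ^ p.2) -
      ∑ γ, MvPolynomial.aeval a (ρ γ) * (algebraMap κ R (ω (b γ).1) * t ^ (b γ).2) := by
    intro R _ _ _ t a
    rw [hP]
    simp only [map_sub, map_mul, map_sum, map_pow,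
      MvPolynomial.aeval_X, MvPolynomial.aeval_C, ident_evQ, Option.elim_none]
  have hΘ0 := ident_ne h hΘ
  have hzero : MvPolynomial.aeval (fun o : Option (Ix dg J) => o.elim t fun i =>
      algebraMap k L (algebraMap (MvPolynomial (Ix dg J) ℚ) k (MvPolynomial.X i))) P = 0 := by
    rw [hev]
    rw [← ident_iota, hρ, Finset.mul_sum, ← Finset.sum_sub_distrib]
    apply Finset.sum_eq_zero
    intro γ _
    rw [map_div₀, ← ident_iota]
    field_simp
    ring
  have hfin := h.gen P hzero t' a' ha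
  rw [hev] at hfin
  exact sub_eq_zero.mp hfin

end

end Pool.Agent.Helper79.AA
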