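import Mathlib

/-!
# AA-21: a quantitative inverse function theorem for analytic functions

On the ball (convex) `f(t) - f(t') - f'(t₀)(t - t')` has norm at most `‖f'(t₀)‖/2 ‖t - t'‖` (mean value inequality:
`Convex.norm_image_sub_le_of_norm_deriv_le`), so `f` is injective there (`ApproximatesLinearOn` with constant `‖f' t₀‖/2`), and the image of
the closed ball of radius `ε < r` contains the closed ball of radius `‖f'(t₀)‖ ε / 2`
(`ApproximatesLinearOn.surjOn_closedBall_of_nonlinearRightInverse`, or `ApproximatesLinearOn` lemmas for the linear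
isomorphism given by the multiplication with `f'(t₀)`). Let `g` be the inverse function. `deriv f ≠ 0` on the ball, so
`g` is continuous (`‖g s - g s'‖ ≤ (2/‖f' t₀‖) ‖s - s'‖`) and differentiable (`HasDerivAt.of_local_left_inverse`) at every
point of the open ball, so analytic (`DifferentiableOn.analyticOnNhd`).
-/

namespace Pool.Agent.Helper79.AA

theorem exists_inv {f : ℂ → ℂ} {t₀ : ℂ} {r : ℝ} (hr : 0 < r)
    (hf : AnalyticOnNhd ℂ f (Metric.ball t₀ r)) (h0 : deriv f t₀ ≠ 0)
    (h : ∀ t ∈ Metric.ball t₀ r, ‖deriv f t - deriv f t₀‖ ≤ ‖deriv f t₀‖ / 2) :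
    ∃ g : ℂ → ℂ, AnalyticOnNhd ℂ g (Metric.ball (f t₀) (‖deriv f t₀‖ * r / 2)) ∧
      g (f t₀) = t₀ ∧ ∀ s ∈ Metric.ball (f t₀) (‖deriv f t₀‖ * r / 2),
        g s ∈ Metric.ball t₀ r ∧ f (g s) = s := by
  classical
  set A : ℝ := ‖deriv f t₀‖ with hA
  have hA0 : 0 < A := norm_pos_iff.2 h0
  have hd : ∀ t ∈ Metric.ball t₀ r, DifferentiableAt ℂ f t := fun t ht => (hf t ht).differentiableAt
  -- the mean value inequality
  have hmv : ∀ x ∈ Metric.ball t₀ r, ∀ y ∈ Metric.ball t₀ r,
      ‖f y - f x - deriv f t₀ * (y - x)‖ ≤ A / 2 * ‖y - x‖ := by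
    intro x hx y hy
    have h1 := Convex.norm_image_sub_le_of_norm_deriv_le (𝕜 := ℂ)
      (f := fun t => f t - deriv f t₀ * t) (s := Metric.ball t₀ r) (C := A / 2) (x := x) (y := y)
      (fun t ht => (hd t ht).sub ((differentiableAt_id).const_mul _)) (fun t ht => by
        have h2 : deriv (fun t => f t - deriv f t₀ * t) t = deriv f t - deriv f t₀ := by
          have h3 : HasDerivAt (fun t => f t - deriv f t₀ * t) (deriv f t - deriv f t₀ * 1) t :=
            (hd t ht).hasDerivAt.sub ((hasDerivAt_id t).const_mul _)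
          rw [h3.deriv, mul_one]
        rw [h2]
        exact h t ht) (convex_ball t₀ r) hx hy
    have h4 : f y - f x - deriv f t₀ * (y - x) =
        (f y - deriv f t₀ * y) - (f x - deriv f t₀ * x) := by ring
    rw [h4]
    exact h1
  have hlow : ∀ x ∈ Metric.ball t₀ r, ∀ y ∈ Metric.ball t₀ r,
      A / 2 * ‖y - x‖ ≤ ‖f y - f x‖ := by
    intro x hx y hy
    have h1 := hmv x hx y hy
    have h2 : ‖deriv f t₀ * (y - x)‖ ≤ ‖f y - f x‖ + ‖f y - f x - deriv f t₀ * (y - x)‖ := by
      have h3 : deriv f t₀ * (y - x) = (f y - f x) - (f y - f x - deriv f t₀ * (y - x)) := by ring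
      calc ‖deriv f t₀ * (y - x)‖ = ‖(f y - f x) - (f y - f x - deriv f t₀ * (y - x))‖ := by
            rw [← h3]
        _ ≤ _ := norm_sub_le _ _
    rw [norm_mul, ← hA] at h2
    linarith
  have hinj : ∀ x ∈ Metric.ball t₀ r, ∀ y ∈ Metric.ball t₀ r, f x = f y → x = y := by
    intro x hx y hy hxy
    have h1 := hlow x hx y hy
    rw [hxy, sub_self, norm_zero] at h1
    have h2 : ‖y - x‖ ≤ 0 := by
      by_contra hcon
      push Not at hcon
      have : 0 < A / 2 * ‖y - x‖ := by positivity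
      linarith
    have h3 := norm_le_zero_iff.1 h2
    exact (sub_eq_zero.1 h3).symm
  -- surjectivity
  have hsurj : ∀ s ∈ Metric.ball (f t₀) (A * r / 2), ∃ t ∈ Metric.ball t₀ r, f t = s := by
    intro s hs
    rw [Metric.mem_ball, dist_eq_norm] at hs
    obtain ⟨ε, hε1, hε2⟩ : ∃ ε : ℝ, 2 * ‖s - f t₀‖ / A ≤ ε ∧ ε < r := by
      have h1 : 2 * ‖s - f t₀‖ / A < r := by
        rw [div_lt_iff₀ hA0]
        linarith
      exact ⟨_, le_rfl, h1⟩
    have hε0 : 0 ≤ ε := le_trans (by positivity) hε1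
    let e : ℂ ≃L[ℂ] ℂ := ContinuousLinearEquiv.unitsEquivAut ℂ (Units.mk0 (deriv f t₀) h0)
    have he : ∀ x, e x = x * deriv f t₀ := fun x => rfl
    have hes : ∀ x, e.symm x = x * (deriv f t₀)⁻¹ := fun x => rfl
    have happ : ApproximatesLinearOn f (e : ℂ →L[ℂ] ℂ) (Metric.ball t₀ r) ⟨A / 2, by positivity⟩ := by
      intro x hx y hy
      have h1 := hmv y hy x hx
      show ‖f x - f y - e (x - y)‖ ≤ A / 2 * ‖x - y‖
      rw [he, mul_comm]
      exact h1
    have hnorm : (‖(e.symm : ℂ →L[ℂ] ℂ)‖ : ℝ) ≤ A⁻¹ := by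
      apply ContinuousLinearMap.opNorm_le_bound _ (by positivity)
      intro x
      show ‖e.symm x‖ ≤ A⁻¹ * ‖x‖
      rw [hes, norm_mul, norm_inv, mul_comm]
    have h2 := happ.surjOn_closedBall_of_nonlinearRightInverse e.toNonlinearRightInverse hε0
      (Metric.closedBall_subset_ball hε2)
    have h3 : s ∈ Metric.closedBall (f t₀)
        (((e.toNonlinearRightInverse.nnnorm : ℝ)⁻¹ - ((⟨A / 2, by positivity⟩ : NNReal) : ℝ)) * ε) := by
      rw [Metric.mem_closedBall, dist_eq_norm]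
      have h4 : (e.toNonlinearRightInverse.nnnorm : ℝ) = ‖(e.symm : ℂ →L[ℂ] ℂ)‖ := rfl
      rw [h4]
      have hpos : 0 < ‖(e.symm : ℂ →L[ℂ] ℂ)‖ := by
        rw [norm_pos_iff]
        intro h5
        have h6 : e.symm (1 : ℂ) = 0 := by
          have := congrArg (fun L : ℂ →L[ℂ] ℂ => L 1) h5
          exact this
        rw [hes, one_mul, inv_eq_zero] at h6
        exact h0 h6
      have h5 : A ≤ ‖(e.symm : ℂ →L[ℂ] ℂ)‖⁻¹ := by
        rw [le_inv_comm₀ hA0 hpos]
        exact hnorm
      have h6 : A / 2 * ε ≤ (‖(e.symm : ℂ →L[ℂ] ℂ)‖⁻¹ - A / 2) * ε := by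
        apply mul_le_mul_of_nonneg_right _ hε0
        linarith
      have h7 : ‖s - f t₀‖ ≤ A / 2 * ε := by
        rw [div_le_iff₀ hA0] at hε1
        linarith
      exact h7.trans h6
    obtain ⟨t, ht, hts⟩ := h2 h3
    exact ⟨t, Metric.closedBall_subset_ball hε2 ht, hts⟩
  let g : ℂ → ℂ := fun s => if hs : s ∈ Metric.ball (f t₀) (A * r / 2) then
    (hsurj s hs).choose else t₀
  have hg : ∀ s ∈ Metric.ball (f t₀) (A * r / 2), g s ∈ Metric.ball t₀ r ∧ f (g s) = s := by
    intro s hs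
    have h1 : g s = (hsurj s hs).choose := dif_pos hs
    rw [h1]
    exact (hsurj s hs).choose_spec
  have ht0 : t₀ ∈ Metric.ball t₀ r := Metric.mem_ball_self hr
  have hs0 : f t₀ ∈ Metric.ball (f t₀) (A * r / 2) := Metric.mem_ball_self (by positivity)
  have hcont : ContinuousOn g (Metric.ball (f t₀) (A * r / 2)) := by
    have hL : LipschitzOnWith ⟨2 / A, by positivity⟩ g (Metric.ball (f t₀) (A * r / 2)) := by
      apply LipschitzOnWith.of_dist_le_mul
      intro x hx y hy
      rw [dist_eq_norm, dist_eq_norm]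
      have h1 := hlow (g y) (hg y hy).1 (g x) (hg x hx).1
      rw [(hg x hx).2, (hg y hy).2] at h1
      show ‖g x - g y‖ ≤ 2 / A * ‖x - y‖
      rw [div_mul_eq_mul_div, le_div_iff₀ hA0]
      linarith
    exact hL.continuousOn
  refine ⟨g, ?_, ?_, hg⟩
  · apply DifferentiableOn.analyticOnNhd _ Metric.isOpen_ball
    intro s hs
    apply DifferentiableAt.differentiableWithinAt
    have hgs := hg s hs
    have hne : deriv f (g s) ≠ 0 := by
      intro h1
      have h2 := h (g s) hgs.1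
      rw [h1, zero_sub, norm_neg, ← hA] at h2
      linarith
    have h3 : HasDerivAt g (deriv f (g s))⁻¹ s := by
      apply HasDerivAt.of_local_left_inverse (hcont.continuousAt (Metric.isOpen_ball.mem_nhds hs))
        (hd _ hgs.1).hasDerivAt hne
      filter_upwards [Metric.isOpen_ball.mem_nhds hs] with y hy
      exact (hg y hy).2
    exact h3.differentiableAt
  · exact hinj _ (hg _ hs0).1 _ ht0 (hg _ hs0).2

end Pool.Agent.Helper79.AA
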