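import Pool.Agent.Helper79.AA.MBeta

/-!
# AA-17b: sizes of the divided iterates

* `mbeta_size`: for `P ∈ ℚ[x_σ]` let `‖P‖` be the sum of the absolute values of the coefficients; `‖P Q‖ ≤ ‖P‖ ‖Q‖`,
  `‖∂P‖ ≤ deg(P) ‖P‖`. The total degree of the entries of `mbeta j` is at most `d j`, so by induction `‖(mbeta j)_(xy)‖ ≤ C^j`
  for a constant `C` (`j + 1` in the denominator cancels the degree `d j` and the factor `j`). For `|a_i| ≤ X`, `X ≥ 2`:
  `|P(a)| ≤ ‖P‖ X^deg(P)`, and `C ≤ 2^c ≤ X^c`.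
-/

open Polynomial

namespace Pool.Agent.Helper79.AA

open Pool.Agent.Helper79.GX

section msz

variable {σ : Type}

/-- The sum of the absolute values of the coefficients. -/
noncomputable def msz (P : MvPolynomial σ ℚ) : ℚ := ∑ m ∈ P.support, |MvPolynomial.coeff m P|

theorem msz_eq {P : MvPolynomial σ ℚ} {s : Finset (σ →₀ ℕ)} (hs : P.support ⊆ s) :
    msz P = ∑ m ∈ s, |MvPolynomial.coeff m P| :=
  Finset.sum_subset hs fun m _ hm => by
    rw [MvPolynomial.notMem_support_iff.1 hm, abs_zero]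

theorem msz_nonneg (P : MvPolynomial σ ℚ) : 0 ≤ msz P :=
  Finset.sum_nonneg fun _ _ => abs_nonneg _

theorem msz_zero : msz (0 : MvPolynomial σ ℚ) = 0 := by
  rw [msz, MvPolynomial.support_zero, Finset.sum_empty]

theorem msz_add (P Q : MvPolynomial σ ℚ) : msz (P + Q) ≤ msz P + msz Q := by
  classical
  rw [msz_eq (MvPolynomial.support_add (p := P) (q := Q)),
    msz_eq (P := P) Finset.subset_union_left, msz_eq (P := Q) Finset.subset_union_right,
    ← Finset.sum_add_distrib]
  apply Finset.sum_le_sum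
  intro m _
  rw [MvPolynomial.coeff_add]
  exact abs_add_le _ _

theorem msz_neg (P : MvPolynomial σ ℚ) : msz (-P) = msz P := by
  rw [msz, msz, MvPolynomial.support_neg]
  apply Finset.sum_congr rfl
  intro m _
  rw [MvPolynomial.coeff_neg, abs_neg]

theorem msz_sub (P Q : MvPolynomial σ ℚ) : msz (P - Q) ≤ msz P + msz Q := by
  rw [sub_eq_add_neg]
  exact (msz_add _ _).trans (by rw [msz_neg])

theorem msz_sum {ι : Type*} (s : Finset ι) (f : ι → MvPolynomial σ ℚ) :
    msz (∑ i ∈ s, f i) ≤ ∑ i ∈ s, msz (f i) := by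
  classical
  induction s using Finset.induction_on with
  | empty => rw [Finset.sum_empty, Finset.sum_empty, msz_zero]
  | insert a s ha ih =>
    rw [Finset.sum_insert ha, Finset.sum_insert ha]
    exact (msz_add _ _).trans (add_le_add le_rfl ih)

theorem msz_monomial (m : σ →₀ ℕ) (c : ℚ) : msz (MvPolynomial.monomial m c) = |c| := by
  classical
  rw [msz_eq MvPolynomial.support_monomial_subset, Finset.sum_singleton,
    MvPolynomial.coeff_monomial, if_pos rfl]

theorem msz_C (c : ℚ) : msz (MvPolynomial.C c : MvPolynomial σ ℚ) = |c| := msz_monomial 0 c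

theorem msz_mul (P Q : MvPolynomial σ ℚ) : msz (P * Q) ≤ msz P * msz Q := by
  have h1 : P * Q = ∑ m ∈ P.support, ∑ n ∈ Q.support, MvPolynomial.monomial (m + n)
      (MvPolynomial.coeff m P * MvPolynomial.coeff n Q) := by
    conv_lhs => rw [MvPolynomial.as_sum P, MvPolynomial.as_sum Q]
    rw [Finset.sum_mul_sum]
    apply Finset.sum_congr rfl
    intro m _
    apply Finset.sum_congr rfl
    intro n _
    rw [MvPolynomial.monomial_mul]
  rw [h1]
  refine (msz_sum _ _).trans ?_
  refine (Finset.sum_le_sum (g := fun m => |MvPolynomial.coeff m P| * msz Q) ?_).trans ?_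
  · intro m _
    refine (msz_sum _ _).trans ?_
    rw [msz, Finset.mul_sum]
    apply Finset.sum_le_sum
    intro n _
    rw [msz_monomial, abs_mul]
  · rw [← Finset.sum_mul]
    exact le_rfl

theorem pderiv_sum (i₀ : σ) (P : MvPolynomial σ ℚ) : MvPolynomial.pderiv i₀ P =
    ∑ m ∈ P.support, MvPolynomial.monomial (m - Finsupp.single i₀ 1)
      (MvPolynomial.coeff m P * m i₀) := by
  conv_lhs => rw [MvPolynomial.as_sum P]
  rw [map_sum]
  apply Finset.sum_congr rfl
  intro m _
  rw [MvPolynomial.pderiv_monomial]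

theorem apply_le_deg {P : MvPolynomial σ ℚ} {m : σ →₀ ℕ} (hm : m ∈ P.support) (i₀ : σ) :
    m i₀ ≤ P.totalDegree := by
  refine le_trans ?_ (MvPolynomial.le_totalDegree hm)
  by_cases h : i₀ ∈ m.support
  · exact Finset.single_le_sum (f := fun i => m i) (fun _ _ => Nat.zero_le _) h
  · rw [Finsupp.notMem_support_iff.1 h]
    exact Nat.zero_le _

theorem msz_pderiv (i₀ : σ) (P : MvPolynomial σ ℚ) :
    msz (MvPolynomial.pderiv i₀ P) ≤ P.totalDegree * msz P := by
  rw [pderiv_sum]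
  refine (msz_sum _ _).trans ?_
  conv_rhs => rw [msz, Finset.mul_sum]
  apply Finset.sum_le_sum
  intro m hm
  rw [msz_monomial, abs_mul, mul_comm]
  apply mul_le_mul_of_nonneg_right _ (abs_nonneg _)
  rw [Nat.abs_cast]
  exact_mod_cast apply_le_deg hm i₀

theorem deg_pderiv (i₀ : σ) (P : MvPolynomial σ ℚ) :
    (MvPolynomial.pderiv i₀ P).totalDegree ≤ P.totalDegree := by
  rw [pderiv_sum]
  apply MvPolynomial.totalDegree_finsetSum_le
  intro m hm
  refine (MvPolynomial.totalDegree_monomial_le _ _).trans ?_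
  refine le_trans ?_ (MvPolynomial.le_totalDegree hm)
  have h1 : ∀ n : σ →₀ ℕ, (n.sum fun _ => id) = n.degree := fun n => rfl
  have h2 : ∀ n : σ →₀ ℕ, (n.sum fun _ e => e) = n.degree := fun n => rfl
  rw [h1, h2]
  exact Finsupp.degree_mono tsub_le_self

/-- The size of a value. -/
theorem msz_eval_le {P : MvPolynomial σ ℚ} {D : ℕ} (hD : P.totalDegree ≤ D) {X : ℕ} (hX : 1 ≤ X)
    {a : σ → ℤ} (ha : ∀ i, |a i| ≤ X) :
    |MvPolynomial.eval (fun i => ((a i : ℤ) : ℚ)) P| ≤ msz P * (X : ℚ) ^ D := by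
  have hX1 : (1 : ℚ) ≤ X := by exact_mod_cast hX
  rw [MvPolynomial.eval_eq, msz, Finset.sum_mul]
  refine (Finset.abs_sum_le_sum_abs _ _).trans ?_
  apply Finset.sum_le_sum
  intro m hm
  rw [abs_mul]
  apply mul_le_mul_of_nonneg_left _ (abs_nonneg _)
  rw [Finset.abs_prod]
  have h1 : ∏ i ∈ m.support, |((a i : ℤ) : ℚ) ^ m i| ≤ ∏ i ∈ m.support, (X : ℚ) ^ m i := by
    apply Finset.prod_le_prod (fun _ _ => abs_nonneg _)
    intro i _
    rw [abs_pow]
    apply pow_le_pow_left₀ (abs_nonneg _)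
    exact_mod_cast ha i
  refine h1.trans ?_
  rw [Finset.prod_pow_eq_pow_sum]
  apply pow_le_pow_right₀ hX1
  exact (MvPolynomial.le_totalDegree hm).trans hD

theorem exists_pow_ge (q : ℚ) : ∃ c : ℕ, ∀ X : ℕ, 2 ≤ X → q ≤ (X : ℚ) ^ c := by
  obtain ⟨c, hc⟩ := pow_unbounded_of_one_lt q (by norm_num : (1 : ℚ) < 2)
  refine ⟨c, fun X hX => hc.le.trans ?_⟩
  apply pow_le_pow_left₀ (by norm_num)
  exact_mod_cast hX

theorem step_arith {t j d A N S : ℚ} (ht1 : t ≤ 1) (htj : t * j ≤ 1) (hd : 0 ≤ d)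
    (hA : 0 ≤ A) (hN : 0 ≤ N) (hS : 0 ≤ S) :
    t * (A * (d * j * N) + (j * (d * A)) * N + N * S) ≤ N * (2 * d * A + S + 1) := by
  have h1 : (t * j) * (2 * d * A * N) ≤ 1 * (2 * d * A * N) :=
    mul_le_mul_of_nonneg_right htj (by positivity)
  have h2 : t * (N * S) ≤ 1 * (N * S) := mul_le_mul_of_nonneg_right ht1 (by positivity)
  have h3 : t * (A * (d * j * N) + (j * (d * A)) * N + N * S) =
      (t * j) * (2 * d * A * N) + t * (N * S) := by ring
  have h4 : N * (2 * d * A + S + 1) = 1 * (2 * d * A * N) + 1 * (N * S) + N := by ring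
  rw [h3, h4]
  linarith

end msz

variable {σ : Type} [Finite σ] [DecidableEq σ] (i₀ : σ) {ι : Type} [Fintype ι] [DecidableEq ι]
  (Θ : MvPolynomial σ ℚ) (M : Matrix ι ι (MvPolynomial σ ℚ))

theorem mbeta_size : ∃ c : ℕ, ∀ X : ℕ, 2 ≤ X → ∀ a : σ → ℤ, (∀ i, |a i| ≤ X) → ∀ j x y,
    |((MvPolynomial.eval (fun i => ((a i : ℤ) : ℚ)) (mbeta i₀ Θ M j x y) : ℚ) : ℝ)| ≤
      ((X : ℝ) ^ c) ^ j := by
  obtain ⟨d, hd⟩ : ∃ d : ℕ, d = Θ.totalDegree + ∑ x, ∑ y, (M x y).totalDegree := ⟨_, rfl⟩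
  obtain ⟨S, hS⟩ : ∃ S : ℚ, S = ∑ x, ∑ y, msz (M x y) := ⟨_, rfl⟩
  have hS0 : 0 ≤ S := by
    rw [hS]
    exact Finset.sum_nonneg fun _ _ => Finset.sum_nonneg fun _ _ => msz_nonneg _
  obtain ⟨A, hA⟩ : ∃ A : ℚ, A = msz Θ := ⟨_, rfl⟩
  have hA0 : 0 ≤ A := by
    rw [hA]
    exact msz_nonneg _
  obtain ⟨K, hK⟩ : ∃ K : ℚ, K = 2 * d * A + S + 1 := ⟨_, rfl⟩
  have hK1 : 1 ≤ K := by
    have : (0 : ℚ) ≤ 2 * d * A := by positivity
    linarith
  have hMd : ∀ x y, (M x y).totalDegree ≤ d := by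
    intro x y
    have h1 : (M x y).totalDegree ≤ ∑ y, (M x y).totalDegree :=
      Finset.single_le_sum (f := fun y => (M x y).totalDegree) (fun _ _ => Nat.zero_le _)
        (Finset.mem_univ y)
    have h2 : ∑ y, (M x y).totalDegree ≤ ∑ x, ∑ y, (M x y).totalDegree :=
      Finset.single_le_sum (f := fun x => ∑ y, (M x y).totalDegree) (fun _ _ => Nat.zero_le _)
        (Finset.mem_univ x)
    omega
  have hΘd : Θ.totalDegree ≤ d := by omega
  have hSy : ∀ y, ∑ k, msz (M k y) ≤ S := by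
    intro y
    rw [hS]
    apply Finset.sum_le_sum
    intro k _
    exact Finset.single_le_sum (f := fun y => msz (M k y)) (fun _ _ => msz_nonneg _)
      (Finset.mem_univ y)
  have hstep : ∀ j x y, mbeta i₀ Θ M (j + 1) x y = MvPolynomial.C (((j : ℚ) + 1)⁻¹) *
      (Θ * MvPolynomial.pderiv i₀ (mbeta i₀ Θ M j x y) -
        ((MvPolynomial.C (j : ℚ) : MvPolynomial σ ℚ) * MvPolynomial.pderiv i₀ Θ) *
          mbeta i₀ Θ M j x y + ∑ k, mbeta i₀ Θ M j x k * M k y) := by
    intro j x y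
    have h1 : (MvPolynomial.C (j : ℚ) : MvPolynomial σ ℚ) = (j : MvPolynomial σ ℚ) :=
      map_natCast _ j
    rw [mbeta, h1]
    simp only [Matrix.smul_apply, Matrix.sub_apply, Matrix.add_apply, Matrix.mul_apply,
      Matrix.map_apply, smul_eq_mul]
  have hdeg : ∀ j x y, (mbeta i₀ Θ M j x y).totalDegree ≤ d * j := by
    intro j
    induction j with
    | zero =>
      intro x y
      show ((1 : Matrix ι ι (MvPolynomial σ ℚ)) x y).totalDegree ≤ _
      rw [Matrix.one_apply]
      split_ifs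
      · rw [MvPolynomial.totalDegree_one]
        exact Nat.zero_le _
      · rw [MvPolynomial.totalDegree_zero]
        exact Nat.zero_le _
    | succ j ih =>
      intro x y
      rw [hstep, Nat.mul_succ]
      refine (MvPolynomial.totalDegree_mul _ _).trans ?_
      rw [MvPolynomial.totalDegree_C, zero_add]
      refine (MvPolynomial.totalDegree_add _ _).trans (max_le ?_ ?_)
      · refine (MvPolynomial.totalDegree_sub _ _).trans (max_le ?_ ?_)
        · refine (MvPolynomial.totalDegree_mul _ _).trans ?_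
          have := (deg_pderiv i₀ (mbeta i₀ Θ M j x y)).trans (ih x y)
          omega
        · refine (MvPolynomial.totalDegree_mul _ _).trans ?_
          have h1 := MvPolynomial.totalDegree_mul (MvPolynomial.C (j : ℚ) : MvPolynomial σ ℚ)
            (MvPolynomial.pderiv i₀ Θ)
          rw [MvPolynomial.totalDegree_C, zero_add] at h1
          have h2 := deg_pderiv i₀ Θ
          have h3 := ih x y
          omega
      · apply MvPolynomial.totalDegree_finsetSum_le
        intro k _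
        refine (MvPolynomial.totalDegree_mul _ _).trans ?_
        exact Nat.add_le_add (ih x k) (hMd k y)
  have hmsz : ∀ j x y, msz (mbeta i₀ Θ M j x y) ≤ K ^ j := by
    intro j
    induction j with
    | zero =>
      intro x y
      show msz ((1 : Matrix ι ι (MvPolynomial σ ℚ)) x y) ≤ _
      rw [Matrix.one_apply, pow_zero]
      split_ifs
      · have := msz_C (σ := σ) 1
        rw [map_one, abs_one] at this
        exact this.le
      · rw [msz_zero]
        exact zero_le_one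
    | succ j ih =>
      intro x y
      rw [hstep]
      obtain ⟨N, hN⟩ : ∃ N : ℚ, N = K ^ j := ⟨_, rfl⟩
      rw [← hN] at ih
      have hN0 : 0 ≤ N := by
        rw [hN]
        exact pow_nonneg (zero_le_one.trans hK1) j
      obtain ⟨t, ht⟩ : ∃ t : ℚ, t = ((j : ℚ) + 1)⁻¹ := ⟨_, rfl⟩
      rw [← ht]
      have ht0 : 0 ≤ t := by
        rw [ht]
        positivity
      have htj : t * j ≤ 1 := by
        rw [ht, inv_mul_le_iff₀ (by positivity)]
        linarith
      have ht1 : t ≤ 1 := by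
        rw [ht]
        apply inv_le_one_of_one_le₀
        have : (0 : ℚ) ≤ j := Nat.cast_nonneg j
        linarith
      have h1 : msz (Θ * MvPolynomial.pderiv i₀ (mbeta i₀ Θ M j x y)) ≤ A * (d * j * N) := by
        refine (msz_mul _ _).trans ?_
        rw [← hA]
        apply mul_le_mul_of_nonneg_left _ hA0
        refine (msz_pderiv i₀ _).trans ?_
        apply mul_le_mul _ (ih x y) (msz_nonneg _) (by positivity)
        exact_mod_cast hdeg j x y
      have h2 : msz ((MvPolynomial.C (j : ℚ) * MvPolynomial.pderiv i₀ Θ) * mbeta i₀ Θ M j x y) ≤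
          (j * (d * A)) * N := by
        refine (msz_mul _ _).trans ?_
        apply mul_le_mul _ (ih x y) (msz_nonneg _) (by positivity)
        refine (msz_mul _ _).trans ?_
        rw [msz_C, Nat.abs_cast]
        apply mul_le_mul_of_nonneg_left _ (Nat.cast_nonneg j)
        refine (msz_pderiv i₀ _).trans ?_
        rw [← hA]
        apply mul_le_mul_of_nonneg_right _ hA0
        exact_mod_cast hΘd
      have h3 : msz (∑ k, mbeta i₀ Θ M j x k * M k y) ≤ N * S := by
        refine (msz_sum _ _).trans ?_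
        refine (Finset.sum_le_sum (g := fun k => N * msz (M k y)) ?_).trans ?_
        · intro k _
          refine (msz_mul _ _).trans ?_
          exact mul_le_mul_of_nonneg_right (ih x k) (msz_nonneg _)
        · rw [← Finset.mul_sum]
          exact mul_le_mul_of_nonneg_left (hSy y) hN0
      refine (msz_mul _ _).trans ?_
      rw [msz_C, abs_of_nonneg ht0]
      have h4 : msz (Θ * MvPolynomial.pderiv i₀ (mbeta i₀ Θ M j x y) -
          ((MvPolynomial.C (j : ℚ) : MvPolynomial σ ℚ) * MvPolynomial.pderiv i₀ Θ) *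
          mbeta i₀ Θ M j x y + ∑ k, mbeta i₀ Θ M j x k * M k y) ≤
          A * (d * j * N) + (j * (d * A)) * N + N * S := by
        refine (msz_add _ _).trans (add_le_add ?_ h3)
        exact (msz_sub _ _).trans (add_le_add h1 h2)
      refine (mul_le_mul_of_nonneg_left h4 ht0).trans ?_
      have h5 := step_arith ht1 htj (Nat.cast_nonneg d) hA0 hN0 hS0
      rw [pow_succ, ← hN, hK]
      exact h5
  obtain ⟨c0, hc0⟩ := exists_pow_ge K
  refine ⟨c0 + d, fun X hX a ha j x y => ?_⟩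
  have h1 := msz_eval_le (hdeg j x y) (le_trans (by norm_num) hX) ha
  have h2 : |MvPolynomial.eval (fun i => ((a i : ℤ) : ℚ)) (mbeta i₀ Θ M j x y)| ≤
      ((X : ℚ) ^ (c0 + d)) ^ j := by
    refine h1.trans ?_
    rw [pow_add, mul_pow, ← pow_mul (X : ℚ) d j]
    apply mul_le_mul_of_nonneg_right _ (by positivity)
    refine (hmsz j x y).trans ?_
    exact pow_le_pow_left₀ (by linarith) (hc0 X hX) j
  exact_mod_cast h2

omit [Finite σ] [DecidableEq σ] in
/-- The size of the values of one polynomial. -/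
theorem eval_size (P : MvPolynomial σ ℚ) : ∃ c : ℕ, ∀ X : ℕ, 2 ≤ X → ∀ a : σ → ℤ,
    (∀ i, |a i| ≤ X) → |((MvPolynomial.eval (fun i => ((a i : ℤ) : ℚ)) P : ℚ) : ℝ)| ≤
      (X : ℝ) ^ c := by
  obtain ⟨c0, hc0⟩ := exists_pow_ge (msz P)
  refine ⟨c0 + P.totalDegree, fun X hX a ha => ?_⟩
  have h1 := msz_eval_le (P := P) le_rfl (le_trans (by norm_num) hX) ha
  have h2 : |MvPolynomial.eval (fun i => ((a i : ℤ) : ℚ)) P| ≤
      (X : ℚ) ^ (c0 + P.totalDegree) := by
    refine h1.trans ?_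
    rw [pow_add]
    exact mul_le_mul_of_nonneg_right (hc0 X hX) (by positivity)
  exact_mod_cast h2

omit [Finite σ] [DecidableEq σ] in
/-- The nonzero values at integral points are not too small. -/
theorem eval_lower (P : MvPolynomial σ ℚ) : ∃ d : ℕ, 0 < d ∧ ∀ a : σ → ℤ,
    ∃ n : ℤ, (d : ℚ) * MvPolynomial.eval (fun i => ((a i : ℤ) : ℚ)) P = n := by
  induction P using MvPolynomial.induction_on with
  | C q =>
    refine ⟨q.den, q.den_pos, fun a => ⟨q.num, ?_⟩⟩
    rw [MvPolynomial.eval_C, mul_comm]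
    exact Rat.mul_den_eq_num q
  | add P Q hP hQ =>
    obtain ⟨d1, hd1, h1⟩ := hP
    obtain ⟨d2, hd2, h2⟩ := hQ
    refine ⟨d1 * d2, Nat.mul_pos hd1 hd2, fun a => ?_⟩
    obtain ⟨n1, hn1⟩ := h1 a
    obtain ⟨n2, hn2⟩ := h2 a
    refine ⟨d2 * n1 + d1 * n2, ?_⟩
    push_cast
    rw [map_add, ← hn1, ← hn2]
    ring
  | mul_X P i hP =>
    obtain ⟨d1, hd1, h1⟩ := hP
    refine ⟨d1, hd1, fun a => ?_⟩
    obtain ⟨n1, hn1⟩ := h1 a
    refine ⟨n1 * a i, ?_⟩
    push_cast
    rw [map_mul, MvPolynomial.eval_X, ← hn1]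
    ring

end Pool.Agent.Helper79.AA
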