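import Pool.Agent.Helper79.AA.CountA

/-!
# AA: power savings, numerical parameters
-/

namespace Pool.Agent.Helper79.AA

/-- Power saving: `f(X) ≤ C X^(n - θ)`. -/
def PS (n : ℕ) (f : ℕ → ℝ) : Prop :=
  ∃ θ C : ℝ, 0 < θ ∧ ∀ X : ℕ, 1 ≤ X → f X ≤ C * (X : ℝ) ^ ((n : ℝ) - θ)

theorem PS.mono {n : ℕ} {f g : ℕ → ℝ} (h : PS n g) (hfg : ∀ X, 1 ≤ X → f X ≤ g X) : PS n f := by
  obtain ⟨θ, C, h0, h1⟩ := h
  exact ⟨θ, C, h0, fun X hX => (hfg X hX).trans (h1 X hX)⟩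

theorem PS.of {n : ℕ} {f : ℕ → ℝ} {θ C : ℝ} (hθ : 0 < θ)
    (h : ∀ X : ℕ, 1 ≤ X → f X ≤ C * (X : ℝ) ^ ((n : ℝ) - θ)) : PS n f := ⟨θ, C, hθ, h⟩

theorem PS.of_mem {n : ℕ} {f : ℕ → ℝ} {θ C : ℝ}
    (h : ∀ X : ℕ, 1 ≤ X → f X ≤ C * (X : ℝ) ^ ((n : ℝ) - θ)) {θ' : ℝ} (h' : θ' ≤ θ) :
    ∀ X : ℕ, 1 ≤ X → f X ≤ |C| * (X : ℝ) ^ ((n : ℝ) - θ') := by
  intro X hX
  have hX1 : (1 : ℝ) ≤ X := by exact_mod_cast hX
  calc f X ≤ C * (X : ℝ) ^ ((n : ℝ) - θ) := h X hX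
    _ ≤ |C| * (X : ℝ) ^ ((n : ℝ) - θ) :=
        mul_le_mul_of_nonneg_right (le_abs_self C) (by positivity)
    _ ≤ |C| * (X : ℝ) ^ ((n : ℝ) - θ') :=
        mul_le_mul_of_nonneg_left (Real.rpow_le_rpow_of_exponent_le hX1 (by linarith))
          (abs_nonneg C)

theorem PS.add {n : ℕ} {f g : ℕ → ℝ} (hf : PS n f) (hg : PS n g) : PS n (fun X => f X + g X) := by
  obtain ⟨θ, C, h0, h1⟩ := hf
  obtain ⟨θ', C', h0', h1'⟩ := hg
  refine ⟨min θ θ', |C| + |C'|, lt_min h0 h0', fun X hX => ?_⟩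
  rw [add_mul]
  exact add_le_add (PS.of_mem h1 (min_le_left _ _) X hX)
    (PS.of_mem h1' (min_le_right _ _) X hX)

theorem PS.zero {n : ℕ} : PS n (fun _ => 0) := ⟨1, 0, one_pos, fun X _ => by simp⟩

theorem PS.sum {n : ℕ} {α : Type} (s : Finset α) {f : α → ℕ → ℝ} (h : ∀ i ∈ s, PS n (f i)) :
    PS n (fun X => ∑ i ∈ s, f i X) := by
  classical
  induction s using Finset.induction_on with
  | empty => simpa using PS.zero
  | insert a s ha ih =>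
    simp only [Finset.sum_insert ha]
    exact (h a (Finset.mem_insert_self a s)).add
      (ih fun i hi => h i (Finset.mem_insert_of_mem hi))

/-- Only large `X` matter. -/
theorem PS.large {n : ℕ} {f : ℕ → ℝ} (X₀ : ℕ) (h0 : ∀ X : ℕ, 1 ≤ X → f X ≤ (3 * (X : ℝ)) ^ n)
    {θ C : ℝ} (hθ : 0 < θ)
    (h : ∀ X : ℕ, X₀ ≤ X → 1 ≤ X → f X ≤ C * (X : ℝ) ^ ((n : ℝ) - θ)) : PS n f := by
  refine ⟨θ, |C| + 3 ^ n * (X₀ : ℝ) ^ θ, hθ, fun X hX => ?_⟩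
  have hX1 : (1 : ℝ) ≤ X := by exact_mod_cast hX
  have hX0 : (0 : ℝ) < X := by linarith
  rcases le_total X₀ X with h1 | h1
  · calc f X ≤ C * (X : ℝ) ^ ((n : ℝ) - θ) := h X h1 hX
      _ ≤ (|C| + 3 ^ n * (X₀ : ℝ) ^ θ) * (X : ℝ) ^ ((n : ℝ) - θ) := by
          refine mul_le_mul_of_nonneg_right ?_ (by positivity)
          have : 0 ≤ 3 ^ n * (X₀ : ℝ) ^ θ := by positivity
          linarith [le_abs_self C]
  · have h2 : (X : ℝ) ^ θ ≤ (X₀ : ℝ) ^ θ :=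
      Real.rpow_le_rpow hX0.le (by exact_mod_cast h1) hθ.le
    have h3 : (X : ℝ) ^ n = (X : ℝ) ^ θ * (X : ℝ) ^ ((n : ℝ) - θ) := by
      rw [← Real.rpow_add hX0, ← Real.rpow_natCast]
      congr 1
      ring
    calc f X ≤ (3 * (X : ℝ)) ^ n := h0 X hX
      _ = 3 ^ n * ((X : ℝ) ^ θ * (X : ℝ) ^ ((n : ℝ) - θ)) := by rw [mul_pow, h3]
      _ ≤ 3 ^ n * ((X₀ : ℝ) ^ θ * (X : ℝ) ^ ((n : ℝ) - θ)) := by
          refine mul_le_mul_of_nonneg_left (mul_le_mul_of_nonneg_right h2 (by positivity))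
            (by positivity)
      _ ≤ (|C| + 3 ^ n * (X₀ : ℝ) ^ θ) * (X : ℝ) ^ ((n : ℝ) - θ) := by
          have : 0 ≤ |C| * (X : ℝ) ^ ((n : ℝ) - θ) := by positivity
          linarith

theorem box_card {σ : Type} [Fintype σ] [DecidableEq σ] (X : ℕ) (S : Set (σ → ℤ))
    (hS : ∀ a ∈ S, ∀ j, |a j| ≤ X) : S.Finite ∧ S.ncard ≤ (2 * X + 1) ^ Fintype.card σ := by
  have hbox : S ⊆ ↑(Fintype.piFinset (fun _ : σ => Finset.Icc (-(X : ℤ)) X)) := by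
    intro a ha
    rw [Finset.mem_coe, Fintype.mem_piFinset]
    intro j
    rw [Finset.mem_Icc]
    exact abs_le.mp (hS a ha j)
  refine ⟨(Finset.finite_toSet _).subset hbox, ?_⟩
  refine (Set.ncard_le_ncard hbox (Finset.finite_toSet _)).trans ?_
  rw [Set.ncard_coe_finset, Fintype.card_piFinset, Finset.prod_const, Int.card_Icc,
    Finset.card_univ]
  refine Nat.pow_le_pow_left ?_ _
  omega

theorem box_card' {σ : Type} [Fintype σ] [DecidableEq σ] {X : ℕ} (hX : 1 ≤ X) (S : Set (σ → ℤ))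
    (hS : ∀ a ∈ S, ∀ j, |a j| ≤ X) : (S.ncard : ℝ) ≤ (3 * (X : ℝ)) ^ Fintype.card σ := by
  have h1 := (box_card X S hS).2
  have h2 : (S.ncard : ℝ) ≤ (2 * X + 1) ^ Fintype.card σ := by exact_mod_cast h1
  have hX1 : (1 : ℝ) ≤ X := by exact_mod_cast hX
  exact h2.trans (pow_le_pow_left₀ (by positivity) (by linarith) _)

theorem fib_count {P : ℤ → Prop} {X K N : ℕ} (hK : 1 ≤ K) (hKX : K ≤ X)
    (hP : ∀ l, P l → |l| ≤ X)
    (h : ∀ (q : ℤ) (Ξ : Finset ℤ), (∀ u ∈ Ξ, |u| ≤ K ∧ P (q + u)) → Ξ.card ≤ N) :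
    (Set.ncard {l : ℤ | P l} : ℝ) ≤ N * (4 * X / K) := by
  classical
  have hfin : {l : ℤ | P l}.Finite :=
    (Set.finite_Icc (-(X : ℤ)) X).subset fun l hl => Set.mem_Icc.2 (abs_le.1 (hP l hl))
  have hK0 : (0 : ℤ) < K := by exact_mod_cast hK
  set s : Finset ℤ := hfin.toFinset with hs
  have hmem : ∀ l, l ∈ s ↔ P l := fun l => by rw [hs, Set.Finite.mem_toFinset]; rfl
  have h1 : s.card ≤ N * (s.image fun l => l / (K : ℤ)).card := by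
    refine Finset.card_le_mul_card_image s N fun b _ => ?_
    have h2 : ((s.filter fun l => l / (K : ℤ) = b).image fun l => l - b * K).card =
        (s.filter fun l => l / (K : ℤ) = b).card :=
      Finset.card_image_of_injective _ fun l l' h => by
        have h' : l - b * K = l' - b * K := h
        linarith
    rw [← h2]
    refine h (b * K) _ fun u hu => ?_
    obtain ⟨l, hl, rfl⟩ := Finset.mem_image.1 hu
    obtain ⟨hl1, hl2⟩ := Finset.mem_filter.1 hl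
    have h3 := Int.emod_nonneg l hK0.ne'
    have h4 := Int.emod_lt_of_pos l hK0
    have h5 := Int.mul_ediv_add_emod l K
    rw [hl2] at h5
    refine ⟨?_, ?_⟩
    · rw [abs_le]
      constructor <;> nlinarith
    · rw [add_sub_cancel]
      exact (hmem l).1 hl1
  have h2 : (s.image fun l => l / (K : ℤ)).card ≤
      (Finset.Icc ((-(X : ℤ)) / K) ((X : ℤ) / K)).card := by
    refine Finset.card_le_card fun q hq => ?_
    obtain ⟨l, hl, rfl⟩ := Finset.mem_image.1 hq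
    have h3 := abs_le.1 (hP l ((hmem l).1 hl))
    rw [Finset.mem_Icc]
    exact ⟨Int.ediv_le_ediv hK0 h3.1, Int.ediv_le_ediv hK0 h3.2⟩
  have hK0' : (0 : ℝ) < K := by exact_mod_cast hK0
  have h3 : ((Finset.Icc ((-(X : ℤ)) / K) ((X : ℤ) / K)).card : ℝ) ≤ 4 * X / K := by
    rw [Int.card_Icc]
    have e1 : ((X : ℤ) / K : ℤ) * (K : ℤ) ≤ X := Int.ediv_mul_le _ hK0.ne'
    have e2 : -(X : ℤ) < (((-(X : ℤ)) / K : ℤ) + 1) * (K : ℤ) :=
      Int.lt_ediv_add_one_mul_self _ hK0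
    have e1' : (((X : ℤ) / K : ℤ) : ℝ) * K ≤ X := by exact_mod_cast e1
    have e2' : -(X : ℝ) < ((((-(X : ℤ)) / K : ℤ) : ℝ) + 1) * K := by exact_mod_cast e2
    have e3 : (-(X : ℤ)) / K ≤ (X : ℤ) / K := Int.ediv_le_ediv hK0 (by omega)
    have e4 : ((((X : ℤ) / K + 1 - (-(X : ℤ)) / K).toNat : ℕ) : ℝ) =
        ((((X : ℤ) / K + 1 - (-(X : ℤ)) / K : ℤ)) : ℝ) := by
      have : ((((X : ℤ) / K + 1 - (-(X : ℤ)) / K).toNat : ℕ) : ℤ) =
          (X : ℤ) / K + 1 - (-(X : ℤ)) / K := Int.toNat_of_nonneg (by omega)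
      exact_mod_cast this
    rw [e4, le_div_iff₀ hK0']
    push_cast
    have e5 : (K : ℝ) ≤ X := by exact_mod_cast hKX
    nlinarith
  rw [Set.ncard_eq_toFinset_card _ hfin]
  calc ((hfin.toFinset.card : ℕ) : ℝ) ≤ ((N * (s.image fun l => l / (K : ℤ)).card : ℕ) : ℝ) := by
        exact_mod_cast h1
    _ ≤ N * (4 * X / K) := by
        push_cast
        refine mul_le_mul_of_nonneg_left (le_trans ?_ h3) (Nat.cast_nonneg _)
        exact_mod_cast h2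

/-- The parameters. -/
theorem params (E dg : ℕ) {w W : ℝ} (hw : 0 < w) (hW : 0 ≤ W) : ∃ ε η₂ : ℝ, 0 < ε ∧ ε ≤ 1 / 2 ∧
    0 < η₂ ∧ η₂ < 1 ∧ ∃ X₀ : ℕ, ∀ X : ℕ, X₀ ≤ X → ∃ (K : ℕ) (r₀ ρ : ℝ), 2 ≤ X ∧ 2 ≤ K ∧ K ≤ X ∧
      (K : ℝ) ^ E ≤ X ∧ 2 * (K : ℝ) < ρ ∧ (X : ℝ) ≤ (ρ - K) * K ∧ 0 < r₀ ∧
      r₀ ≤ (X : ℝ) ^ (-η₂) ∧
      X * W * ((dg : ℝ) ^ 2 * (2 * (X : ℝ) ^ η₂) ^ dg) * r₀ ≤ (X : ℝ) ^ (1 - η₂) / 2 ∧
      ρ ≤ (X : ℝ) ^ (1 - η₂) / w * r₀ / 2 ∧ (X : ℝ) / K ≤ 2 * (X : ℝ) ^ (1 - ε) := by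
  set ε : ℝ := 1 / ((E : ℝ) + 2) with hε
  have hE0 : (0 : ℝ) ≤ E := Nat.cast_nonneg _
  have hd0 : (0 : ℝ) ≤ dg := Nat.cast_nonneg _
  have hε0 : 0 < ε := by positivity
  have hε2 : ε ≤ 1 / 2 := by
    rw [hε]
    exact div_le_div_of_nonneg_left zero_le_one two_pos (by linarith)
  set η₂ : ℝ := ε / (2 * ((dg : ℝ) + 2)) with hη₂
  have hη0 : 0 < η₂ := by positivity
  have hηε : ((dg : ℝ) + 2) * η₂ = ε / 2 := by
    rw [hη₂]
    field_simp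
  have hη1 : η₂ < 1 := by nlinarith
  set c₀ : ℝ := 1 / (2 * (W * ((dg : ℝ) ^ 2 * 2 ^ dg)) + 1) with hc₀
  have hWd : 0 ≤ W * ((dg : ℝ) ^ 2 * 2 ^ dg) := by positivity
  have hc₀0 : 0 < c₀ := by positivity
  have hc₀1 : c₀ ≤ 1 := by
    rw [hc₀, div_le_one (by positivity)]
    linarith
  have hc₀W : W * ((dg : ℝ) ^ 2 * 2 ^ dg) * c₀ ≤ 1 / 2 := by
    rw [hc₀, mul_one_div, div_le_iff₀ (by positivity)]
    linarith
  set c₁ : ℝ := c₀ / (2 * w) with hc₁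
  have hc₁0 : 0 < c₁ := by positivity
  refine ⟨ε, η₂, hε0, hε2, hη0, hη1, ?_⟩
  have htend : Filter.Tendsto (fun X : ℕ => (X : ℝ) ^ (ε / 2)) Filter.atTop Filter.atTop :=
    (tendsto_rpow_atTop (by positivity)).comp tendsto_natCast_atTop_atTop
  obtain ⟨X₀, hX₀⟩ := Filter.eventually_atTop.1 ((htend.eventually_ge_atTop (max 2 (4 / c₁))).and
    (Filter.eventually_ge_atTop 2))
  refine ⟨X₀, fun X hX => ?_⟩
  obtain ⟨h1, h2⟩ := hX₀ X hX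
  have hx1 : (1 : ℝ) ≤ X := by exact_mod_cast (by omega : 1 ≤ X)
  have hx0 : (0 : ℝ) < X := by linarith
  have h1a : (2 : ℝ) ≤ (X : ℝ) ^ (ε / 2) := (le_max_left _ _).trans h1
  have h1b : 4 / c₁ ≤ (X : ℝ) ^ (ε / 2) := (le_max_right _ _).trans h1
  set x : ℝ := (X : ℝ) with hx
  have hmono : ∀ p q : ℝ, p ≤ q → x ^ p ≤ x ^ q := fun p q h =>
    Real.rpow_le_rpow_of_exponent_le hx1 h
  have hxε : 2 ≤ x ^ ε := h1a.trans (hmono _ _ (by linarith))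
  set K : ℕ := ⌊x ^ ε⌋₊ with hK
  have hK1 : (K : ℝ) ≤ x ^ ε := Nat.floor_le (by positivity)
  have hK2 : 2 ≤ K := Nat.le_floor (by exact_mod_cast hxε)
  have hK3 : x ^ ε / 2 ≤ K := by
    have := Nat.lt_floor_add_one (x ^ ε)
    rw [← hK] at this
    linarith
  have hK0 : (0 : ℝ) < K := by exact_mod_cast (by omega : 0 < K)
  set r₀ : ℝ := c₀ * x ^ (-(((dg : ℝ) + 1) * η₂)) with hr₀
  set ρ : ℝ := x ^ (1 - η₂) / w * r₀ / 2 with hρ
  have hρ' : ρ = c₁ * x ^ (1 - ε / 2) := by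
    have e1 : x ^ (1 - ε / 2) = x ^ (1 - η₂) * x ^ (-(((dg : ℝ) + 1) * η₂)) := by
      rw [← Real.rpow_add hx0]
      congr 1
      rw [← hηε]
      ring
    rw [hρ, hr₀, hc₁, e1]
    field_simp
  have hρK : 4 * (K : ℝ) ≤ ρ := by
    rw [hρ']
    have e1 : x ^ (1 - ε / 2) = x ^ ε * x ^ (1 - 3 * ε / 2) := by
      rw [← Real.rpow_add hx0]
      congr 1
      ring
    have e2 : x ^ (ε / 2) ≤ x ^ (1 - 3 * ε / 2) := hmono _ _ (by linarith)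
    have e3 : 4 ≤ c₁ * x ^ (1 - 3 * ε / 2) := by
      have := h1b.trans e2
      rw [div_le_iff₀ hc₁0] at this
      linarith
    have hxε0 : 0 < x ^ ε := by positivity
    rw [e1]
    nlinarith
  refine ⟨K, r₀, ρ, h2, hK2, ?_, ?_, by linarith, ?_, by positivity, ?_, ?_, le_rfl, ?_⟩
  · have : (K : ℝ) ≤ X := by
      refine hK1.trans ?_
      calc x ^ ε ≤ x ^ (1 : ℝ) := hmono _ _ (by linarith)
        _ = x := Real.rpow_one x
    exact_mod_cast this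
  · calc (K : ℝ) ^ E ≤ (x ^ ε) ^ E := pow_le_pow_left₀ hK0.le hK1 E
      _ = x ^ (ε * E) := by rw [Real.rpow_mul hx0.le, Real.rpow_natCast]
      _ ≤ x ^ (1 : ℝ) := by
          refine hmono _ _ ?_
          rw [hε, div_mul_eq_mul_div, one_mul, div_le_one (by positivity)]
          linarith
      _ = x := Real.rpow_one x
  · have e1 : x ^ (1 - ε / 2) * x ^ ε = x * x ^ (ε / 2) := by
      nth_rw 3 [← Real.rpow_one x]
      rw [← Real.rpow_add hx0, ← Real.rpow_add hx0]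
      congr 1
      ring
    have e2 : 4 ≤ c₁ * x ^ (ε / 2) := by
      rw [div_le_iff₀ hc₁0] at h1b
      linarith
    calc x ≤ (c₁ * x ^ (ε / 2)) / 4 * x := by
          have : 1 ≤ (c₁ * x ^ (ε / 2)) / 4 := by linarith
          nlinarith
      _ = (c₁ * x ^ (1 - ε / 2)) / 2 * (x ^ ε / 2) := by
          linear_combination (-c₁ / 4) * e1
      _ = ρ / 2 * (x ^ ε / 2) := by rw [hρ']
      _ ≤ (ρ - K) * K := by
          refine mul_le_mul (by linarith) hK3 (by positivity) (by linarith)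
  · calc r₀ ≤ 1 * x ^ (-(((dg : ℝ) + 1) * η₂)) :=
          mul_le_mul_of_nonneg_right hc₀1 (by positivity)
      _ ≤ x ^ (-η₂) := by
          rw [one_mul]
          exact hmono _ _ (by nlinarith)
  · have e1 : (x ^ η₂) ^ dg = x ^ ((dg : ℝ) * η₂) := by
      rw [mul_comm, Real.rpow_mul hx0.le, Real.rpow_natCast]
    have e2 : x * x ^ ((dg : ℝ) * η₂) * x ^ (-(((dg : ℝ) + 1) * η₂)) = x ^ (1 - η₂) := by
      nth_rw 1 [← Real.rpow_one x]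
      rw [← Real.rpow_add hx0, ← Real.rpow_add hx0]
      congr 1
      ring
    calc x * W * ((dg : ℝ) ^ 2 * (2 * x ^ η₂) ^ dg) * r₀
        = (W * ((dg : ℝ) ^ 2 * 2 ^ dg) * c₀) * x ^ (1 - η₂) := by
          rw [mul_pow, e1, hr₀, ← e2]
          ring
      _ ≤ 1 / 2 * x ^ (1 - η₂) := mul_le_mul_of_nonneg_right hc₀W (by positivity)
      _ = _ := by ring
  · rw [div_le_iff₀ hK0]
    have e1 : x ^ (1 - ε) * x ^ ε = x := by
      rw [← Real.rpow_add hx0]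
      have : (1 - ε + ε) = 1 := by ring
      rw [this, Real.rpow_one]
    have hx1ε : 0 < x ^ (1 - ε) := by positivity
    calc x = 2 * x ^ (1 - ε) * (x ^ ε / 2) := by linear_combination -e1
      _ ≤ _ := mul_le_mul_of_nonneg_left hK3 (by positivity)

end Pool.Agent.Helper79.AA
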