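import Pool.Agent.Helper79.AA.Pencil
import Pool.Agent.Helper79.AA.CountC
import Pool.Agent.Helper79.AA.PS

/-!
# AA: counting the bad polynomials
-/

open Polynomial

namespace Pool.Agent.Helper79.AA

open Pool.Agent.Helper79.GX Pool.Agent.Helper64.Per

section

variable {κ : IntermediateField ℚ Qbar} {J : Type} [Fintype J]

theorem pow_sub_le {c t : ℂ} {M : ℝ} (hM : 1 ≤ M) (hc : ‖c‖ ≤ M) (ht : ‖t‖ ≤ M) (k : ℕ) :
    ‖c ^ k - t ^ k‖ ≤ k * M ^ k * ‖c - t‖ := by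
  have hM0 : 0 ≤ M := by linarith
  induction k with
  | zero => simp
  | succ k ih =>
    have h1 : c ^ (k + 1) - t ^ (k + 1) = c * (c ^ k - t ^ k) + (c - t) * t ^ k := by ring
    have h2 : ‖t ^ k‖ ≤ M ^ k := by
      rw [norm_pow]; exact pow_le_pow_left₀ (norm_nonneg _) ht k
    have h3 : M ^ k ≤ M ^ (k + 1) := pow_le_pow_right₀ hM (Nat.le_succ k)
    have h0 : 0 ≤ ‖c - t‖ := norm_nonneg _
    calc ‖c ^ (k + 1) - t ^ (k + 1)‖ ≤ ‖c * (c ^ k - t ^ k)‖ + ‖(c - t) * t ^ k‖ := by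
          rw [h1]; exact norm_add_le _ _
      _ = ‖c‖ * ‖c ^ k - t ^ k‖ + ‖c - t‖ * ‖t ^ k‖ := by rw [norm_mul, norm_mul]
      _ ≤ M * (k * M ^ k * ‖c - t‖) + ‖c - t‖ * M ^ k :=
          add_le_add (mul_le_mul hc ih (norm_nonneg _) hM0) (mul_le_mul_of_nonneg_left h2 h0)
      _ ≤ M * (k * M ^ k * ‖c - t‖) + ‖c - t‖ * M ^ (k + 1) :=
          by linarith [mul_le_mul_of_nonneg_left h3 h0]
      _ = ((k + 1 : ℕ) : ℝ) * M ^ (k + 1) * ‖c - t‖ := by push_cast; ring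

theorem Fd_diff (ω : J → κ) {dg : ℕ} {a : Ix dg J → ℂ} {X M : ℝ} (hX : 0 ≤ X) (hM : 1 ≤ M)
    (ha : ∀ i, ‖a i‖ ≤ X) {t τ : ℂ} (ht : ‖t‖ ≤ M) (hτ : ‖τ‖ ≤ M) :
    ‖Fd ω a t - Fd ω a τ‖ ≤ X * (∑ i : Ix dg J, ‖algebraMap κ ℂ (ω i.2)‖) *
      ((dg : ℝ) ^ 2 * M ^ dg) * ‖t - τ‖ := by
  have hM0 : 0 ≤ M := by linarith
  unfold Fd
  rw [← Finset.sum_sub_distrib]
  refine (norm_sum_le _ _).trans ?_
  rw [Finset.mul_sum, Finset.sum_mul, Finset.sum_mul]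
  refine Finset.sum_le_sum fun i _ => ?_
  have h1 : a i * algebraMap κ ℂ (ω i.2) * ((((i.1 : ℕ) : ℂ)) * t ^ ((i.1 : ℕ) - 1)) -
      a i * algebraMap κ ℂ (ω i.2) * ((((i.1 : ℕ) : ℂ)) * τ ^ ((i.1 : ℕ) - 1)) =
      a i * algebraMap κ ℂ (ω i.2) * (((i.1 : ℕ) : ℂ) * (t ^ ((i.1 : ℕ) - 1) -
        τ ^ ((i.1 : ℕ) - 1))) := by ring
  have hi : (i.1 : ℕ) ≤ dg := by
    have := i.1.2
    omega
  have hi' : ((i.1 : ℕ) : ℝ) ≤ dg := by exact_mod_cast hi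
  have hi'' : (((i.1 : ℕ) - 1 : ℕ) : ℝ) ≤ dg := by exact_mod_cast (by omega : (i.1 : ℕ) - 1 ≤ dg)
  have h2 := pow_sub_le hM ht hτ ((i.1 : ℕ) - 1)
  have h3 : M ^ ((i.1 : ℕ) - 1) ≤ M ^ dg := pow_le_pow_right₀ hM (by omega)
  have h4 : ‖t ^ ((i.1 : ℕ) - 1) - τ ^ ((i.1 : ℕ) - 1)‖ ≤ dg * M ^ dg * ‖t - τ‖ :=
    h2.trans (mul_le_mul_of_nonneg_right (mul_le_mul hi'' h3 (by positivity) (by positivity))
      (norm_nonneg _))
  rw [h1, norm_mul, norm_mul, norm_mul, Complex.norm_natCast]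
  calc ‖a i‖ * ‖algebraMap κ ℂ (ω i.2)‖ * (((i.1 : ℕ) : ℝ) *
        ‖t ^ ((i.1 : ℕ) - 1) - τ ^ ((i.1 : ℕ) - 1)‖)
      ≤ X * ‖algebraMap κ ℂ (ω i.2)‖ * ((dg : ℝ) * (dg * M ^ dg * ‖t - τ‖)) := by
        refine mul_le_mul (mul_le_mul_of_nonneg_right (ha i) (norm_nonneg _)) ?_ (by positivity)
          (by positivity)
        exact mul_le_mul hi' h4 (norm_nonneg _) (by positivity)
    _ = _ := by ring

theorem roots_finite {T : κ[X]} (hT : T ≠ 0) : {s : ℂ | aeval s T = 0}.Finite := by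
  have h1 : T.map (algebraMap κ ℂ) ≠ 0 :=
    (Polynomial.map_ne_zero_iff (algebraMap κ ℂ).injective).2 hT
  refine (finite_setOfPred_isRoot h1).subset fun u hu => ?_
  change IsRoot _ u
  rw [IsRoot, eval_map]
  exact hu

end

section

variable {κ : IntermediateField ℚ Qbar} {J : Type} [Fintype J] [DecidableEq J]
  (ω : Module.Basis J ℚ κ) {dg : ℕ} (hdg : 1 ≤ dg) {j₀ : J} {β : Type} [Fintype β]
  [DecidableEq β] {T : κ[X]} (hT0 : T ≠ 0) {A : Matrix β β κ[X]}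
  (D : Uni (fun j => ω j) dg j₀ T A)
  {U V : Set ℂ} (hU : IsOpen U) (hU' : IsPreconnected U) (hV : IsOpen V) (hV' : Convex ℝ V)
  (hVU : V ⊆ U) {z : ℂ → β → ℂ} (hz : ∀ i, AnalyticOnNhd ℂ (fun t => z t i) U)
  (hode : ∀ t ∈ U, ∀ i, aeval t T * deriv (fun t => z t i) t = ∑ l, aeval t (A i l) * z t l)

include hdg hT0 D hU hU' hV hV' hVU hz hode

theorem main_convex : PS (Fintype.card (Ix dg J)) fun X =>
    (Set.ncard {a : Ix dg J → ℤ | (∀ i, |a i| ≤ X) ∧ ∃ t ∈ V,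
      Fv (fun j => ω j) (fun i => (a i : ℂ)) t = 0 ∧ KBad κ U z t} : ℝ) := by
  classical
  have : Nonempty J := ⟨j₀⟩
  have hω : ∀ j, ω j ≠ 0 := fun j => ω.ne_zero j
  set w : ℂ := algebraMap κ ℂ (ω j₀) with hw
  have hw0 : w ≠ 0 := by
    rw [hw, Ne, map_eq_zero]
    exact hω j₀
  set W : ℝ := ∑ i : Ix dg J, ‖algebraMap κ ℂ (ω i.2)‖ with hW
  have hW0 : 0 ≤ W := Finset.sum_nonneg fun _ _ => norm_nonneg _
  set n : ℕ := Fintype.card (Ix dg J) with hn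
  have hn1 : 1 ≤ n := Fintype.card_pos
  obtain ⟨B, E, hcore⟩ := core (Fintype.card (D.Γ × β)) D.c
  obtain ⟨ε, η₂, hε0, hε1, hη₂, hη₂', X₀, hpar⟩ := params E dg (norm_pos_iff.2 hw0) hW0
  obtain ⟨η, θ, C₁, hη0, hηη, hθ0, hθ1, hder⟩ := count_deriv (ω := fun j => ω j) hω hdg hη₂ hη₂'
  have hη1 : η < 1 := lt_of_le_of_lt hηη hη₂'
  obtain ⟨C₂, hlarge⟩ := count_large (ω := fun j => ω j) hω hdg hη0 hη1
  obtain ⟨C₃, hzero⟩ := count_zero D.Θ_ne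
  set R : Finset ℂ := (roots_finite hT0).toFinset with hR
  have hRm : ∀ s, s ∈ R ↔ aeval s T = 0 := fun s => by rw [hR, Set.Finite.mem_toFinset]; rfl
  -- the pieces
  set S0 : ℕ → Set (Ix dg J → ℤ) := fun X => {a | (∀ j, |a j| ≤ X) ∧
      MvPolynomial.eval (fun i => ((a i : ℤ) : ℚ)) D.Θ = 0} with hS0
  set S1 : ℕ → Set (Ix dg J → ℤ) := fun X => {a | (∀ j, |a j| ≤ X) ∧ ∃ t : ℂ, ‖t‖ ≤ (X : ℝ) ^ η ∧
      ‖Fd (fun j => ω j) (fun i => (a i : ℂ)) t‖ ≤ (X : ℝ) ^ (1 - η₂) ∧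
      Fv (fun j => ω j) (fun i => (a i : ℂ)) t = 0} with hS1
  set S2 : ℕ → Set (Ix dg J → ℤ) := fun X => {a | (∀ j, |a j| ≤ X) ∧ ∃ t : ℂ,
      (X : ℝ) ^ η ≤ ‖t‖ ∧ Fv (fun j => ω j) (fun i => (a i : ℂ)) t = 0} with hS2
  set S3 : ℂ → ℕ → Set (Ix dg J → ℤ) := fun s X => {a | (∀ j, |a j| ≤ X) ∧ ∃ t : ℂ,
      ‖t - s‖ ≤ (X : ℝ) ^ (-η) ∧ Fv (fun j => ω j) (fun i => (a i : ℂ)) t = 0} with hS3
  set S4 : ℕ → Set (Ix dg J → ℤ) := fun X => {a | (∀ j, |a j| ≤ X) ∧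
      MvPolynomial.eval (fun i => ((a i : ℤ) : ℚ)) D.Θ ≠ 0 ∧ ∃ t ∈ V,
      Fv (fun j => ω j) (fun i => (a i : ℂ)) t = 0 ∧ KBad κ U z t ∧ ‖t‖ ≤ (X : ℝ) ^ η ∧
      (X : ℝ) ^ (1 - η₂) < ‖Fd (fun j => ω j) (fun i => (a i : ℂ)) t‖ ∧
      ∀ s, aeval s T = 0 → (X : ℝ) ^ (-η) < ‖t - s‖} with hS4
  have p0 : PS n fun X => ((S0 X).ncard : ℝ) := by
    refine PS.of (θ := 1) (C := C₃) one_pos fun X hX => ?_
    have h1 := hzero X hX
    have h2 : ((S0 X).ncard : ℝ) ≤ C₃ * (X : ℝ) ^ (n - 1) := by exact_mod_cast h1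
    have h3 : (X : ℝ) ^ ((n : ℝ) - 1) = (X : ℝ) ^ (n - 1) := by
      rw [← Real.rpow_natCast, Nat.cast_sub hn1, Nat.cast_one]
    rw [h3]
    exact h2
  have p1 : PS n fun X => ((S1 X).ncard : ℝ) := PS.of hθ0 fun X hX => hder X hX
  have p2 : PS n fun X => ((S2 X).ncard : ℝ) := PS.of hη0 fun X hX => hlarge X hX
  have p3 : PS n fun X => ∑ s ∈ R, ((S3 s X).ncard : ℝ) := by
    refine PS.sum R fun s _ => ?_
    obtain ⟨C, hC⟩ := count_near (ω := fun j => ω j) hω hdg s hη0 hη1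
    exact PS.of hη0 fun X hX => hC X hX
  -- the main part
  have p4 : PS n fun X => ((S4 X).ncard : ℝ) := by
    refine PS.large X₀ (fun X hX => box_card' hX _ fun a ha => ha.1) (θ := ε)
      (C := 3 ^ (n - 1) * (dg * B * 8)) hε0 fun X hX hX1 => ?_
    obtain ⟨K, r₀, ρ, hX2, hK2, hKX, hKE, hρK, hRK, hr₀, hr₀η, hr₀d, hρ, hXK⟩ := hpar X hX
    have hx1 : (1 : ℝ) ≤ X := by exact_mod_cast hX1
    have hx0 : (0 : ℝ) < X := by linarith
    have hK0 : (0 : ℝ) < K := by exact_mod_cast (by omega : 0 < K)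
    have hmono : ∀ p q : ℝ, p ≤ q → (X : ℝ) ^ p ≤ (X : ℝ) ^ q := fun p q h =>
      Real.rpow_le_rpow_of_exponent_le hx1 h
    have hr₀1 : r₀ ≤ 1 := by
      refine hr₀η.trans ?_
      calc (X : ℝ) ^ (-η₂) ≤ (X : ℝ) ^ (0 : ℝ) := hmono _ _ (by linarith)
        _ = 1 := Real.rpow_zero _
    have hy1 : 1 ≤ (X : ℝ) ^ η₂ := Real.one_le_rpow hx1 hη₂.le
    -- fibres
    have hfib : ∀ a : Ix dg J → ℤ, (∀ j, |a j| ≤ X) →
        (Set.ncard {l : ℤ | Function.update a (0, j₀) l ∈ S4 X} : ℝ) ≤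
          (dg * B : ℕ) * (4 * X / K) := by
      intro a _
      refine fib_count (P := fun l => Function.update a (0, j₀) l ∈ S4 X) (by omega) hKX
        (fun l hl => ?_) fun q Ξ hΞ => ?_
      · have := hl.1 (0, j₀)
        rwa [Function.update_self] at this
      · set a' : Ix dg J → ℤ := Function.update a (0, j₀) q with ha'
        have hpt : ∀ u : ℤ, pt (0, j₀) a' u = Function.update a (0, j₀) (q + u) := by
          intro u
          funext i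
          unfold pt
          by_cases hi : i = (0, j₀)
          · rw [if_pos hi, ha', hi, Function.update_self, Function.update_self]
          · rw [if_neg hi, add_zero, ha', Function.update_of_ne hi, Function.update_of_ne hi]
        have hmem : ∀ u ∈ Ξ, pt (0, j₀) a' u ∈ S4 X := fun u hu => by
          rw [hpt]
          exact (hΞ u hu).2
        have hex : ∀ u ∈ Ξ, ∃ t ∈ V,
            Fv (fun j => ω j) (fun i => ((pt (0, j₀) a' u i : ℤ) : ℂ)) t = 0 ∧ KBad κ U z t ∧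
            ‖t‖ ≤ (X : ℝ) ^ η ∧
            (X : ℝ) ^ (1 - η₂) < ‖Fd (fun j => ω j) (fun i => ((pt (0, j₀) a' u i : ℤ) : ℂ)) t‖ ∧
            ∀ s, aeval s T = 0 → (X : ℝ) ^ (-η) < ‖t - s‖ := fun u hu => (hmem u hu).2.2
        choose! τ hτ using hex
        simp only [ptC_int, Fd_ptC] at hτ
        refine pencil_count ω D hcore hU hU' hV hV' hVU hz hode hX2 hK2 hKE hρK hRK hr₀
          (fun u hu => (hΞ u hu).1) (τ := τ) (a := a')
          (fun u hu i => (hmem u hu).1 i) (fun u hu => (hmem u hu).2.1)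
          (fun u hu => (hτ u hu).1) (fun u hu => (hτ u hu).2.1) (fun u hu => (hτ u hu).2.2.1)
          (fun u hu t ht h0 => ?_) (fun u hu t ht => ?_) (fun u hu => ?_)
        · have h1 := (hτ u hu).2.2.2.2.2 t h0
          rw [Metric.mem_ball, dist_eq_norm, norm_sub_rev] at ht
          have h2 : (X : ℝ) ^ (-η₂) ≤ (X : ℝ) ^ (-η) := hmono _ _ (by linarith)
          linarith
        · rw [Metric.mem_ball, dist_eq_norm] at ht
          have hτn : ‖τ u‖ ≤ (X : ℝ) ^ η₂ := (hτ u hu).2.2.2.1.trans (hmono _ _ hηη)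
          have htn : ‖t‖ ≤ 2 * (X : ℝ) ^ η₂ := by
            calc ‖t‖ = ‖τ u + (t - τ u)‖ := by rw [add_sub_cancel]
              _ ≤ ‖τ u‖ + ‖t - τ u‖ := norm_add_le _ _
              _ ≤ _ := by linarith
          have hpb : ∀ i, ‖ptC (0, j₀) a' (u : ℂ) i‖ ≤ (X : ℝ) := by
            intro i
            rw [← ptC_int]
            simp only
            rw [Complex.norm_intCast]
            exact_mod_cast (hmem u hu).1 i
          have h1 := Fd_diff (fun j => ω j) hx0.le (M := 2 * (X : ℝ) ^ η₂) (by linarith) hpb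
            htn (hτn.trans (by linarith))
          rw [Fd_ptC, Fd_ptC] at h1
          have h2 := (hτ u hu).2.2.2.2.1
          calc _ ≤ _ := h1
            _ ≤ X * W * ((dg : ℝ) ^ 2 * (2 * (X : ℝ) ^ η₂) ^ dg) * r₀ :=
                mul_le_mul_of_nonneg_left ht.le (by positivity)
            _ ≤ (X : ℝ) ^ (1 - η₂) / 2 := hr₀d
            _ ≤ _ := by linarith
        · refine hρ.trans ?_
          have h2 := (hτ u hu).2.2.2.2.1
          have h3 : (X : ℝ) ^ (1 - η₂) / ‖w‖ ≤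
              ‖Fd (fun j => ω j) (fun i => (a' i : ℂ)) (τ u)‖ / ‖w‖ :=
            div_le_div_of_nonneg_right h2.le (norm_nonneg _)
          exact div_le_div_of_nonneg_right (mul_le_mul_of_nonneg_right h3 hr₀.le) two_pos.le
    set N : ℕ := ⌊((dg * B : ℕ) : ℝ) * (4 * X / K)⌋₊ with hN
    have hc := count_fib (0, j₀) X N (S4 X) (fun a ha => ha.1) fun a ha =>
      Nat.le_floor (hfib a ha)
    have hNle : (N : ℝ) ≤ dg * B * 8 * (X : ℝ) ^ (1 - ε) := by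
      calc (N : ℝ) ≤ ((dg * B : ℕ) : ℝ) * (4 * X / K) := Nat.floor_le (by positivity)
        _ = (dg * B * 4) * ((X : ℝ) / K) := by
            push_cast
            ring
        _ ≤ (dg * B * 4) * (2 * (X : ℝ) ^ (1 - ε)) := mul_le_mul_of_nonneg_left hXK (by positivity)
        _ = _ := by ring
    have h5 : ((S4 X).ncard : ℝ) ≤ (2 * X + 1) ^ (n - 1) * N := by exact_mod_cast hc
    have h6 : (X : ℝ) ^ ((n : ℝ) - ε) = (X : ℝ) ^ (n - 1) * (X : ℝ) ^ (1 - ε) := by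
      rw [← Real.rpow_natCast, Nat.cast_sub hn1, Nat.cast_one, ← Real.rpow_add hx0]
      congr 1
      ring
    calc ((S4 X).ncard : ℝ) ≤ (2 * X + 1) ^ (n - 1) * N := h5
      _ ≤ (3 * (X : ℝ)) ^ (n - 1) * (dg * B * 8 * (X : ℝ) ^ (1 - ε)) :=
          mul_le_mul (pow_le_pow_left₀ (by positivity) (by linarith) _) hNle (by positivity)
            (by positivity)
      _ = _ := by
          rw [mul_pow, h6]
          ring
  -- the union
  refine (((((p0.add p1).add p2).add p3).add p4)).mono fun X hX => ?_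
  set Y : Set (Ix dg J → ℤ) := {a | ∀ j, |a j| ≤ X} with hY
  have hYf : Y.Finite := (box_card X Y fun a ha => ha).1
  have hS3f : ∀ s, (S3 s X).Finite := fun s => hYf.subset fun a ha => ha.1
  have hsub : {a : Ix dg J → ℤ | (∀ i, |a i| ≤ X) ∧ ∃ t ∈ V,
      Fv (fun j => ω j) (fun i => (a i : ℂ)) t = 0 ∧ KBad κ U z t} ⊆
      (((S0 X ∪ S1 X) ∪ S2 X) ∪ ⋃ s ∈ R, S3 s X) ∪ S4 X := by
    rintro a ⟨ha, t, htV, hFt, hbt⟩
    by_cases h0 : MvPolynomial.eval (fun i => ((a i : ℤ) : ℚ)) D.Θ = 0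
    · exact Or.inl (Or.inl (Or.inl (Or.inl ⟨ha, h0⟩)))
    by_cases h2 : (X : ℝ) ^ η ≤ ‖t‖
    · exact Or.inl (Or.inl (Or.inr ⟨ha, t, h2, hFt⟩))
    push Not at h2
    by_cases h1 : ‖Fd (fun j => ω j) (fun i => (a i : ℂ)) t‖ ≤ (X : ℝ) ^ (1 - η₂)
    · exact Or.inl (Or.inl (Or.inl (Or.inr ⟨ha, t, h2.le, h1, hFt⟩)))
    push Not at h1
    by_cases h3 : ∃ s, aeval s T = 0 ∧ ‖t - s‖ ≤ (X : ℝ) ^ (-η)
    · obtain ⟨s, hs, hs'⟩ := h3
      refine Or.inl (Or.inr ?_)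
      rw [Set.mem_iUnion₂]
      exact ⟨s, (hRm s).2 hs, ha, t, hs', hFt⟩
    push Not at h3
    exact Or.inr ⟨ha, h0, t, htV, hFt, hbt, h2.le, h1, h3⟩
  have hf0 : (S0 X).Finite := hYf.subset fun a ha => ha.1
  have hf1 : (S1 X).Finite := hYf.subset fun a ha => ha.1
  have hf2 : (S2 X).Finite := hYf.subset fun a ha => ha.1
  have hf3 : (⋃ s ∈ R, S3 s X).Finite := R.finite_toSet.biUnion fun s _ => hS3f s
  have hf4 : (S4 X).Finite := hYf.subset fun a ha => ha.1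
  have h1 := Set.ncard_le_ncard hsub ((((hf0.union hf1).union hf2).union hf3).union hf4)
  have h2 := Set.ncard_union_le (((S0 X ∪ S1 X) ∪ S2 X) ∪ ⋃ s ∈ R, S3 s X) (S4 X)
  have h3 := Set.ncard_union_le ((S0 X ∪ S1 X) ∪ S2 X) (⋃ s ∈ R, S3 s X)
  have h4 := Set.ncard_union_le (S0 X ∪ S1 X) (S2 X)
  have h5 := Set.ncard_union_le (S0 X) (S1 X)
  have h6 : (⋃ s ∈ R, S3 s X).ncard ≤ ∑ s ∈ R, (S3 s X).ncard :=
    Finset.set_ncard_biUnion_le R fun s => S3 s X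
  have h7 : (Set.ncard {a : Ix dg J → ℤ | (∀ i, |a i| ≤ X) ∧ ∃ t ∈ V,
      Fv (fun j => ω j) (fun i => (a i : ℂ)) t = 0 ∧ KBad κ U z t}) ≤
      (S0 X).ncard + (S1 X).ncard + (S2 X).ncard + ∑ s ∈ R, (S3 s X).ncard + (S4 X).ncard := by
    omega
  exact_mod_cast h7

end

end Pool.Agent.Helper79.AA
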