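import Pool.Agent.Helper79.AA.Words
import Pool.Agent.Helper79.GX.RelBadK

/-!
# AA-28: from a relation of degree `≤ δ` to a linear relation between words

As `rel_badK` (file `GX/RelBadK.lean`), but simpler (no matrix `Z`) and with coefficients in `κ(t₀)`. Let `w₀ = w t₀`, `r` from `HasRelationC` and
`M₀ ∈ BFibreC` with `r(M₀) ≠ 0`; `M₀` is invertible, so some entry `(M₀)_(a₀k₀) ≠ 0`. `w₀` is algebraic of degree `≤ μ` over
`κ(t₀)` (`hw.eqn`), and `kapC κ t₀ w₀ = κ(t₀, w₀)`, so every coefficient of `r` is `∑_(l < μ) x_l w₀^l` with `x_l ∈ κ(t₀) = κ[t₀]`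
(`t₀` is algebraic), `x_l = aeval t₀ g_l`. So `P_(a₀k₀) r(P) = ∑ (∑_l x_(m,l) w₀^l) P_(a₀k₀) m(P)`, over monomials `m` of degree `≤ δ`, is for
`P = P t₀` and for `P = M₀` a combination `∑_α x_α wd (δ+1) w₀ P α` with `x_α = aeval t₀ (g α)`: the first letter is `some ((l, a₀), k₀)`, the others
`some ((0, a), k)` or `none`. `P t₀ ∈ ZClosure (P t₀)`, so the value at `P t₀` is `0`. If there is `h` as in `KBad` (negated), then the polynomial
`q(x, y, M) = ∑_α h_α(x) ∏_j (letter α_j)(y, M)`, in `MvPolynomial (Bool ⊕ ι × ι) Qbar`, vanishes at `(t, w t, P t)` for `t ∈ U`, so at `(t₀, w₀, M₀)`: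
`0 = ∑ x_α wd (δ+1) w₀ M₀ α = (M₀)_(a₀k₀) r(M₀) ≠ 0`, contradiction.
(The helper lemmas of `RelBadK` and `RepK`, e.g. `toX`, `evC_toX`, `evC_mul`, `evC_sum`, `evC_prod`, and the proof of `rep_exists` may be useful.)
-/

open Polynomial

namespace Pool.Agent.Helper79.AA

open Pool.Agent.Helper79.GX Pool.Agent.Helper79.CU Pool.Agent.Helper79.GA
  Pool.Agent.Helper64.Per

private theorem rk_pow_add {R A : Type} [CommRing R] [CommRing A] [Algebra R A]
    (V : Submodule R A) (a b : ℕ) : V ^ (a + b) = V ^ a * V ^ b := by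
  induction b with
  | zero => rw [Nat.add_zero, Submodule.pow_zero, mul_one]
  | succ b ih => rw [← Nat.add_assoc, Submodule.pow_succ, Submodule.pow_succ, ih, mul_assoc]

private theorem rk_pow_mono {R A : Type} [CommRing R] [CommRing A] [Algebra R A]
    {V : Submodule R A} (h : 1 ≤ V) {a b : ℕ} (hab : a ≤ b) : V ^ a ≤ V ^ b := by
  induction b, hab using Nat.le_induction with
  | base => exact le_rfl
  | succ b _ ih =>
    refine ih.trans ?_
    rw [Submodule.pow_succ]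
    conv_lhs => rw [← mul_one (V ^ b)]
    exact mul_le_mul_right h _

private theorem rk_mono {R A P : Type} [CommRing R] [CommRing A] [Algebra R A]
    {V : Submodule R A} (h1 : (1 : A) ∈ V)
    {g : P → A} (hg : ∀ p, g p ∈ V) (m : P →₀ ℕ) {δ : ℕ} (hm : (m.sum fun _ e => e) ≤ δ) :
    (∏ p ∈ m.support, g p ^ m p) ∈ V ^ δ := by
  classical
  have h : ∀ s : Finset P, (∏ p ∈ s, g p ^ m p) ∈ V ^ (∑ p ∈ s, m p) := by
    intro s
    induction s using Finset.induction_on with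
    | empty =>
      rw [Finset.prod_empty, Finset.sum_empty, Submodule.pow_zero]
      exact Submodule.mem_one.2 ⟨1, map_one _⟩
    | insert a s ha ih =>
      rw [Finset.prod_insert ha, Finset.sum_insert ha, rk_pow_add]
      exact Submodule.mul_mem_mul (Submodule.pow_mem_pow V (hg a) _) ih
  exact rk_pow_mono (Submodule.one_le.2 h1) hm (h _)

open scoped Pointwise in
private theorem rk_words {R S B : Type} [CommRing R] [Algebra R ℂ] [Fintype B] (φ : B → S → ℂ)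
    (e : ℕ) {f : S → ℂ} (hf : f ∈ (Submodule.span R (Set.range φ)) ^ e) :
    ∃ l : (Fin e → B) → R, ∀ s, ∑ α, algebraMap R ℂ (l α) * ∏ j, φ (α j) s = f s := by
  rw [Submodule.span_pow] at hf
  have hsub : (Set.range φ) ^ e ⊆ Set.range (fun α : Fin e → B => fun s => ∏ j, φ (α j) s) := by
    intro g hg
    rw [Set.mem_pow] at hg
    obtain ⟨w, rfl⟩ := hg
    choose α hα using fun i => (w i).2
    refine ⟨α, ?_⟩
    funext s
    rw [List.prod_ofFn, Finset.prod_apply]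
    exact Finset.prod_congr rfl fun j _ => by rw [hα]
  have hf' := Submodule.span_mono hsub hf
  rw [Submodule.mem_span_range_iff_exists_fun] at hf'
  obtain ⟨l, hl⟩ := hf'
  refine ⟨l, fun s => ?_⟩
  rw [← hl, Finset.sum_apply]
  refine Finset.sum_congr rfl fun α _ => ?_
  rw [Pi.smul_apply, Algebra.smul_def]

/-- every element of `kapC κ x u` is a combination of powers of `u` over `κ[x]` -/
private theorem rk_kap {κ : IntermediateField ℚ Qbar} {μ : ℕ} (hμ : 0 < μ) {x u : ℂ}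
    {f : Fin μ → κ[X]} (hu : u ^ μ = ∑ l : Fin μ, aeval x (f l) * u ^ (l : ℕ))
    (z : kapC κ x u) :
    ∃ c : Fin μ → κ[X], ((z : Qbar) : ℂ) = ∑ l : Fin μ, aeval x (c l) * u ^ (l : ℕ) := by
  obtain ⟨E, hE⟩ : ∃ E : κ[X][X] →+* ℂ, E = Polynomial.eval₂RingHom
      ((aeval x : κ[X] →ₐ[κ] ℂ) : κ[X] →+* ℂ) u := ⟨_, rfl⟩
  have hEC : ∀ p : κ[X], E (C p) = aeval x p := by
    intro p
    rw [hE, Polynomial.coe_eval₂RingHom, Polynomial.eval₂_C]
    rfl
  have hEX : E X = u := by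
    rw [hE, Polynomial.coe_eval₂RingHom, Polynomial.eval₂_X]
  let S : Subalgebra ℚ Qbar :=
    { carrier := {z | ∃ p : κ[X][X], ((z : Qbar) : ℂ) = E p}
      mul_mem' := by
        rintro a b ⟨p, hp⟩ ⟨q, hq⟩
        exact ⟨p * q, by rw [map_mul, ← hp, ← hq]; rfl⟩
      add_mem' := by
        rintro a b ⟨p, hp⟩ ⟨q, hq⟩
        exact ⟨p + q, by rw [map_add, ← hp, ← hq]; rfl⟩
      algebraMap_mem' := fun r => ⟨C (C (algebraMap ℚ κ r)), by rw [hEC, aeval_C]; rfl⟩ }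
  have hinv : ∀ z ∈ S, z⁻¹ ∈ S := fun z hz =>
    Subalgebra.inv_mem_of_algebraic S (x := (⟨z, hz⟩ : S))
      ((algebraicClosure.isAlgebraic ℚ ℂ).isAlgebraic z)
  have hle : kapC κ x u ≤ S.toIntermediateField hinv := by
    unfold kapC
    refine sup_le ?_ (IntermediateField.adjoin_le_iff.2 ?_)
    · intro z hz
      exact ⟨C (C ⟨z, hz⟩), by rw [hEC, aeval_C]; rfl⟩
    · rintro z (hz | hz)
      · exact ⟨C X, by rw [hEC, aeval_X, hz]⟩
      · exact ⟨X, by rw [hEX, hz]⟩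
  obtain ⟨p, hp⟩ := hle z.2
  have hdeg : (∑ l : Fin μ, (C (f l) : κ[X][X]) * X ^ (l : ℕ)).degree <
      (μ : WithBot ℕ) := degree_sum_fin_lt f
  have hqm : (X ^ μ - ∑ l : Fin μ, (C (f l) : κ[X][X]) * X ^ (l : ℕ)).Monic :=
    monic_X_pow_sub hdeg
  have hq0 : E (X ^ μ - ∑ l : Fin μ, (C (f l) : κ[X][X]) * X ^ (l : ℕ)) = 0 := by
    rw [map_sub, map_pow, hEX, map_sum, hu, sub_eq_zero]
    refine Finset.sum_congr rfl fun l _ => ?_
    rw [map_mul, map_pow, hEX, hEC]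
  have hqd : (X ^ μ - ∑ l : Fin μ, (C (f l) : κ[X][X]) * X ^ (l : ℕ)).degree =
      (μ : WithBot ℕ) := by
    rw [degree_sub_eq_left_of_degree_lt (by rw [degree_X_pow]; exact hdeg), degree_X_pow]
  set q : κ[X][X] := X ^ μ - ∑ l : Fin μ, (C (f l) : κ[X][X]) * X ^ (l : ℕ)
  have hr : (p %ₘ q).degree < (μ : WithBot ℕ) := by
    rw [← hqd]
    exact degree_modByMonic_lt p hqm
  have hpr : E p = E (p %ₘ q) := by
    conv_lhs => rw [← modByMonic_add_div p q]
    rw [map_add, map_mul, hq0, zero_mul, add_zero]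
  refine ⟨fun l => (p %ₘ q).coeff l, ?_⟩
  have hsum : p %ₘ q = ∑ l ∈ Finset.range μ, C ((p %ₘ q).coeff l) * X ^ l :=
    as_sum_range_C_mul_X_pow' _ (by
      rcases eq_or_ne (p %ₘ q) 0 with h0 | h0
      · rw [h0, natDegree_zero]
        exact hμ
      · exact (natDegree_lt_iff_degree_lt h0).2 hr)
  rw [hp, hpr]
  conv_lhs => rw [hsum]
  rw [map_sum, Finset.sum_range]
  refine Finset.sum_congr rfl fun l _ => ?_
  rw [map_mul, map_pow, hEX, hEC]

private theorem rk_exists {κ : IntermediateField ℚ Qbar} {μ : ℕ} {ι : Type} [Fintype ι]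
    [DecidableEq ι] (hμ : 0 < μ) {x u : ℂ}
    {f : Fin μ → κ[X]} (hu : u ^ μ = ∑ l : Fin μ, aeval x (f l) * u ^ (l : ℕ))
    (a₀ k₀ : ι) {δ : ℕ} (r : MvPolynomial (ι × ι) (kapC κ x u)) (hr : r.totalDegree ≤ δ) :
    ∃ g : (Fin (δ + 1) → Al μ ι) → κ[X], ∀ M : Matrix ι ι ℂ,
      ∑ α, aeval x (g α) * wd (δ + 1) u M α = M a₀ k₀ * evK (kapC κ x u) r M := by
  classical
  let R : Subalgebra κ ℂ := (aeval x : κ[X] →ₐ[κ] ℂ).range
  let φ : Al μ ι → Matrix ι ι ℂ → ℂ := fun o M => lt u M o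
  set V : Submodule R (Matrix ι ι ℂ → ℂ) := Submodule.span R (Set.range φ) with hV
  have hone : (1 : Matrix ι ι ℂ → ℂ) ∈ V := Submodule.subset_span ⟨none, rfl⟩
  have hK : ∀ (z : kapC κ x u) (a k : ι),
      (fun M : Matrix ι ι ℂ => ((z : Qbar) : ℂ) * M a k) ∈ V := by
    intro z a k
    obtain ⟨c, hc⟩ := rk_kap hμ hu z
    have h1 : (fun M : Matrix ι ι ℂ => ((z : Qbar) : ℂ) * M a k) =
        ∑ l : Fin μ, (⟨aeval x (c l), ⟨c l, rfl⟩⟩ : R) • φ (some ((l, a), k)) := by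
      funext M
      rw [Finset.sum_apply, hc, Finset.sum_mul]
      refine Finset.sum_congr rfl fun l _ => ?_
      rw [Pi.smul_apply, Algebra.smul_def, mul_assoc]
      rfl
    rw [h1]
    exact Submodule.sum_mem _ fun l _ => Submodule.smul_mem _ _ (Submodule.subset_span ⟨_, rfl⟩)
  have hf : (fun M : Matrix ι ι ℂ => M a₀ k₀ * evK (kapC κ x u) r M) ∈ V ^ (δ + 1) := by
    have h1 : (fun M : Matrix ι ι ℂ => M a₀ k₀ * evK (kapC κ x u) r M) =
        ∑ m ∈ r.support, (fun M : Matrix ι ι ℂ =>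
          (((MvPolynomial.coeff m r : kapC κ x u) : Qbar) : ℂ) * M a₀ k₀) *
          ∏ p ∈ m.support, (fun M : Matrix ι ι ℂ => M p.1 p.2) ^ m p := by
      funext M
      rw [Finset.sum_apply]
      unfold evK
      rw [MvPolynomial.aeval_def, MvPolynomial.eval₂_eq, Finset.mul_sum]
      refine Finset.sum_congr rfl fun m _ => ?_
      rw [Pi.mul_apply, Finset.prod_apply, ← mul_assoc, mul_comm (M a₀ k₀)]
      rfl
    rw [h1]
    refine Submodule.sum_mem _ fun m hm => ?_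
    rw [Nat.add_comm, rk_pow_add, Submodule.pow_one]
    refine Submodule.mul_mem_mul (hK _ _ _) (rk_mono hone (fun p => ?_) m
      (le_trans (MvPolynomial.le_totalDegree hm) hr))
    have h2 := hK 1 p.1 p.2
    have h3 : (fun M : Matrix ι ι ℂ => (((1 : kapC κ x u) : Qbar) : ℂ) * M p.1 p.2) =
        (fun M : Matrix ι ι ℂ => M p.1 p.2) := by
      funext M
      exact one_mul _
    rw [h3] at h2
    exact h2
  obtain ⟨l, hl⟩ := rk_words φ (δ + 1) hf
  choose g hg using fun α => (l α).2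
  refine ⟨g, fun M => ?_⟩
  rw [← hl M]
  refine Finset.sum_congr rfl fun α _ => ?_
  have h1 : aeval x (g α) = algebraMap R ℂ (l α) := hg α
  rw [h1]
  rfl

/-- The polynomial of a letter. -/
private noncomputable def rkL {μ : ℕ} {ι : Type} : Al μ ι → MvPolynomial (Bool ⊕ ι × ι) Qbar
  | none => 1
  | some p => MvPolynomial.X (Sum.inl false) ^ (p.1.1 : ℕ) *
      MvPolynomial.X (Sum.inr (p.1.2, p.2))

private theorem evC_rkL {μ : ℕ} {ι : Type} [Fintype ι] [DecidableEq ι] (o : Al μ ι) (x y : ℂ)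
    (M : Matrix ι ι ℂ) : evC (rkL o) x y M = lt y M o := by
  cases o with
  | none =>
    unfold evC
    simp [rkL, lt]
  | some p =>
    unfold evC
    simp [rkL, lt]

theorem kbad_of_rel {κ : IntermediateField ℚ Qbar} {μ : ℕ} {ι : Type} [Fintype ι]
    [DecidableEq ι] [Nonempty ι] {U : Set ℂ} {w : ℂ → ℂ} {f : Fin μ → κ[X]}
    (hf : ∀ t ∈ U, w t ^ μ = ∑ l : Fin μ, aeval t (f l) * w t ^ (l : ℕ))
    {P : ℂ → Matrix ι ι ℂ} {t₀ : ℂ} (ht : t₀ ∈ U) (halg : IsAlgebraic ℚ t₀)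
    (hdet : IsUnit (P t₀).det) {δ : ℕ} (h : HasRelationC U w P t₀ κ δ) :
    KBad κ U (fun t => wd (μ := μ) (δ + 1) (w t) (P t)) t₀ := by
  classical
  obtain ⟨r, hdeg, hZc, hB⟩ := h
  push Not at hB
  obtain ⟨M₀, hM₀, hne⟩ := hB
  obtain ⟨a₀, k₀, hak⟩ : ∃ a₀ k₀, M₀ a₀ k₀ ≠ 0 := by
    by_contra hcon
    push Not at hcon
    have h0 : M₀ = 0 := by
      ext a k
      exact hcon a k
    have h1 := hM₀.1
    rw [h0, Matrix.det_zero] at h1
    exact not_isUnit_zero h1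
  have hμ : 0 < μ := by
    rcases Nat.eq_zero_or_pos μ with h0 | h0
    · subst h0
      have h1 := hf _ ht
      simp at h1
    · exact h0
  obtain ⟨g, hg⟩ := rk_exists hμ (hf t₀ ht) a₀ k₀ r hdeg
  refine ⟨g, ?_, ?_⟩
  · rw [hg (P t₀), hZc (P t₀) ⟨hdet, fun q hq => hq⟩, mul_zero]
  · rintro ⟨h, hh1, hh2⟩
    have hev : ∀ (x y : ℂ) (M : Matrix ι ι ℂ),
        evC (∑ α : Fin (δ + 1) → Al μ ι, toX ι (h α) * ∏ j, rkL (α j)) x y M =
          ∑ α, aeval x (h α) * wd (δ + 1) y M α := by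
      intro x y M
      rw [evC_sum]
      refine Finset.sum_congr rfl fun α _ => ?_
      rw [evC_mul, evC_prod, evC_toX]
      unfold wd
      rw [Finset.prod_congr rfl fun j _ => evC_rkL (α j) x y M]
    have hq0 := hM₀.2 (∑ α : Fin (δ + 1) → Al μ ι, toX ι (h α) * ∏ j, rkL (α j)) (by
      intro t htU
      rw [hev]
      exact hh2 t htU)
    rw [hev] at hq0
    have h5 : ∑ α, aeval t₀ (h α) * wd (μ := μ) (δ + 1) (w t₀) M₀ α =
        M₀ a₀ k₀ * evK (kapC κ t₀ (w t₀)) r M₀ := by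
      rw [← hg M₀]
      refine Finset.sum_congr rfl fun α _ => ?_
      rw [hh1 α]
    rw [h5] at hq0
    rcases mul_eq_zero.mp hq0 with h8 | h8
    · exact hak h8
    · exact hne h8

end Pool.Agent.Helper79.AA
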