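import Pool.Agent.Helper79.GX.KDefs

/-!
# AA: definitions for the statement of the theorem on almost all algebraic points
-/

namespace Pool.Agent.Helper79.AA

open Pool.Agent.Helper64.Per Pool.Agent.Helper79.GX

/-- The value at `t` of the polynomial `F_a = ∑_k (∑_j a_(k,j) ω_j) t^k` of degree at most `D` over `κ`,
where `ω` is a basis of `κ` over `ℚ` and the `a_(k,j)` are integers. -/
noncomputable def polyVal {κ : IntermediateField ℚ Qbar} {J : Type} [Fintype J]
    (ω : Module.Basis J ℚ κ) {D : ℕ} (a : Fin (D + 1) × J → ℤ) (t : ℂ) : ℂ :=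
  ∑ i, (a i : ℂ) * algebraMap κ ℂ (ω i.2) * t ^ (i.1 : ℕ)

/-- `V` is contained in the union of finitely many convex open subsets of `U` (for example a compact subset
of `U`). -/
def FinConvexCover (U V : Set ℂ) : Prop :=
  ∃ (N : ℕ) (W : Fin N → Set ℂ), (∀ k, IsOpen (W k) ∧ Convex ℝ (W k) ∧ W k ⊆ U) ∧ V ⊆ ⋃ k, W k

/-- The integer vectors `a` with coordinates `|a_(k,j)| ≤ X` such that the polynomial `F_a` has a root
`t` in `V` with a relation of degree at most `δ` over `κ(s)` at the point `s = (t, w t)`. -/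
def RelPoly {κ : IntermediateField ℚ Qbar} {J : Type} [Fintype J] (ω : Module.Basis J ℚ κ)
    {ι : Type} [Fintype ι] [DecidableEq ι] (U V : Set ℂ) (w : ℂ → ℂ) (P : ℂ → Matrix ι ι ℂ)
    (δ D X : ℕ) : Set (Fin (D + 1) × J → ℤ) :=
  {a | (∀ i, |a i| ≤ X) ∧ ∃ t ∈ V, polyVal ω a t = 0 ∧ HasRelationC U w P t κ δ}

end Pool.Agent.Helper79.AA
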