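import Pool.Agent.Helper79.AA.UDefs

/-!
# AA-14: the subfield of the coefficients

`k = IntermediateField.adjoin ℚ (range a) ⊆ L` or `k = FractionRing (MvPolynomial Ix ℚ)` with the homomorphism to `L` given by
`Mod0.ind`. `L` is generated over `k` by `t` (algebraic over `k(κ)`: root of the polynomial `∑ a_i ω_(i.2) X^(i.1)`, nonzero because `a`
is algebraically independent over `ℚ` and `κ/ℚ` is algebraic, so also over `κ`; or more simply: if all the coefficients
`∑_j a_(k,j) ω_j`, `k ≥ 1`, vanish then the `ω_j`... ) and `κ` (algebraic over `ℚ`): `Mod0.quo`. So `L/k` is finite (`fin`), and since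
the ring `k[κ, t]` is a domain which is finite over `k`, it is a field, so equal to `L`; it is spanned over `k` by the
`ω_j t^n` because `ω` is a basis of `κ` (`span`). The derivation `Dk` is the restriction of `D` (`D` maps polynomials in `a` to
polynomials in `a`, so `k` to `k`).
To see that the polynomial `f = ∑ a_i ω_(i.2) X^(i.1) ∈ L[X]` of which `t` is a root is not `0`: apply `D` to `eqn`:
`ω_(j₀) + f'(t) D t = 0`, so `f' ≠ 0`.
-/

open Polynomial

namespace Pool.Agent.Helper79.AA

open Pool.Agent.Helper79.GX Pool.Agent.Helper64.Per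

section core

variable {κ : IntermediateField ℚ Qbar} [FiniteDimensional ℚ κ] {J : Type} [Fintype J]
    [DecidableEq J] (ω : Module.Basis J ℚ κ) {dg : ℕ} {j₀ : J} {L : Type} [Field L] [CharZero L]
    [Algebra κ L] {D : Derivation ℚ L L} {t : L} {a : Ix dg J → L}

private theorem mod1_der (h : Mod0 (fun j => ω j) dg j₀ D t a) (P : MvPolynomial (Ix dg J) ℚ) :
    D (MvPolynomial.aeval a P) = MvPolynomial.aeval a (MvPolynomial.pderiv (0, j₀) P) := by
  induction P using MvPolynomial.induction_on with
  | C q =>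
    rw [MvPolynomial.aeval_C, MvPolynomial.pderiv_C, map_zero, Derivation.map_algebraMap]
  | add p q hp hq => rw [map_add, map_add, map_add, map_add, hp, hq]
  | mul_X p i hp =>
    rw [map_mul, MvPolynomial.aeval_X, Derivation.leibniz, hp, h.der, Derivation.leibniz,
      MvPolynomial.pderiv_X, map_add]
    simp only [smul_eq_mul, map_mul, MvPolynomial.aeval_X]
    by_cases hi : i = (0, j₀)
    · subst hi
      simp
    · rw [if_neg hi, Pi.single_eq_of_ne' (Ne.symm hi)]
      simp

private theorem mod1_deriv_ne (h : Mod0 (fun j => ω j) dg j₀ D t a) :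
    ∑ i : Ix dg J, a i * algebraMap κ L (ω i.2) * (((i.1 : ℕ) : L) * t ^ ((i.1 : ℕ) - 1)) ≠ 0 := by
  intro h0
  have h1 := congrArg D h.eqn
  rw [map_zero, map_sum] at h1
  have h2 : ∀ i : Ix dg J, D (a i * algebraMap κ L (ω i.2) * t ^ (i.1 : ℕ)) =
      (if i = (0, j₀) then algebraMap κ L (ω j₀) else 0) +
        a i * algebraMap κ L (ω i.2) * (((i.1 : ℕ) : L) * t ^ ((i.1 : ℕ) - 1)) * D t := by
    intro i
    rw [Derivation.leibniz, Derivation.leibniz, Derivation.leibniz_pow, h.const, h.der]
    by_cases hi : i = (0, j₀)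
    · subst hi
      simp
    · rw [if_neg hi, if_neg hi]
      simp only [smul_eq_mul, nsmul_eq_mul]
      ring
  rw [Finset.sum_congr rfl fun i _ => h2 i, Finset.sum_add_distrib, ← Finset.sum_mul, h0, zero_mul,
    add_zero, Finset.sum_ite_eq' Finset.univ, if_pos (Finset.mem_univ _)] at h1
  exact ω.ne_zero j₀ ((map_eq_zero (algebraMap κ L)).mp h1)

variable {k : Type} [Field k] [CharZero k] [Algebra (MvPolynomial (Ix dg J) ℚ) k]
    [IsFractionRing (MvPolynomial (Ix dg J) ℚ) k] [Algebra k L]

private theorem mod1_exD (h : Mod0 (fun j => ω j) dg j₀ D t a)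
    (hk : ∀ P, algebraMap k L (algebraMap (MvPolynomial (Ix dg J) ℚ) k P) =
      MvPolynomial.aeval a P) (c : k) :
    ∃ c' : k, algebraMap k L c' = D (algebraMap k L c) := by
  obtain ⟨x, y, hy, rfl⟩ := IsFractionRing.div_surjective (MvPolynomial (Ix dg J) ℚ) c
  refine ⟨(algebraMap (MvPolynomial (Ix dg J) ℚ) k y)⁻¹ ^ 2 *
    (algebraMap (MvPolynomial (Ix dg J) ℚ) k y *
      algebraMap (MvPolynomial (Ix dg J) ℚ) k (MvPolynomial.pderiv (0, j₀) x) -
    algebraMap (MvPolynomial (Ix dg J) ℚ) k x *
      algebraMap (MvPolynomial (Ix dg J) ℚ) k (MvPolynomial.pderiv (0, j₀) y)), ?_⟩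
  rw [map_div₀, Derivation.leibniz_div]
  simp only [map_mul, map_pow, map_inv₀, map_sub, hk, smul_eq_mul, mod1_der ω h]

private theorem mod1_alg_t (h : Mod0 (fun j => ω j) dg j₀ D t a)
    (hk : ∀ P, algebraMap k L (algebraMap (MvPolynomial (Ix dg J) ℚ) k P) =
      MvPolynomial.aeval a P) (hκ : ∀ c : κ, IsAlgebraic k (algebraMap κ L c)) :
    IsAlgebraic k t := by
  have hmem : ∀ i : Ix dg J, a i * algebraMap κ L (ω i.2) ∈ algebraicClosure k L := by
    intro i
    apply mul_mem
    · have h1 := hk (MvPolynomial.X i)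
      rw [MvPolynomial.aeval_X] at h1
      rw [← h1]
      exact (algebraicClosure k L).algebraMap_mem _
    · exact mem_algebraicClosure_iff.mpr (hκ _)
  have h2 : IsAlgebraic (algebraicClosure k L) t := by
    refine ⟨∑ i : Ix dg J, Polynomial.C (⟨_, hmem i⟩ : algebraicClosure k L) *
      Polynomial.X ^ (i.1 : ℕ), ?_, ?_⟩
    · intro h0
      apply mod1_deriv_ne ω h
      have h3 := congrArg (fun p => Polynomial.aeval t (Polynomial.derivative p)) h0
      simp only [Polynomial.derivative_sum, map_sum, Polynomial.derivative_zero, map_zero,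
        Polynomial.derivative_C_mul, Polynomial.derivative_X_pow, map_mul, Polynomial.aeval_C,
        map_pow, Polynomial.aeval_X, map_natCast] at h3
      rw [← h3]
      apply Finset.sum_congr rfl
      intro i _
      rfl
    · simp only [map_sum, map_mul, Polynomial.aeval_C, map_pow, Polynomial.aeval_X]
      rw [← h.eqn]
      apply Finset.sum_congr rfl
      intro i _
      rfl
  exact h2.restrictScalars k

private theorem mod1_core (h : Mod0 (fun j => ω j) dg j₀ D t a)
    (hk : ∀ P, algebraMap k L (algebraMap (MvPolynomial (Ix dg J) ℚ) k P) =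
      MvPolynomial.aeval a P) :
    ∃ Dk : Derivation ℚ k k, Mod (fun j => ω j) dg j₀ Dk D t := by
  classical
  choose F hF using mod1_exD ω h hk
  have hinj : Function.Injective (algebraMap k L) := (algebraMap k L).injective
  let F0 : k →+ k :=
    { toFun := F
      map_zero' := by
        apply hinj
        rw [hF]
        simp
      map_add' := fun x y => by
        apply hinj
        rw [hF, map_add, map_add, map_add, hF, hF] }
  have hF0 : ∀ c, F0 c = F c := fun _ => rfl
  let Dk : Derivation ℚ k k := Derivation.mk' F0.toRatLinearMap (by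
    intro x y
    apply hinj
    change algebraMap k L (F (x * y)) = algebraMap k L (x • F y + y • F x)
    rw [hF, map_mul, Derivation.leibniz]
    simp only [smul_eq_mul, map_add, map_mul, hF])
  have hDk : ∀ c, Dk c = F c := fun _ => rfl
  have hX : ∀ i, algebraMap k L (algebraMap (MvPolynomial (Ix dg J) ℚ) k (MvPolynomial.X i)) = a i := by
    intro i
    rw [hk, MvPolynomial.aeval_X]
  have hκ : ∀ c : κ, IsAlgebraic k (algebraMap κ L c) := by
    intro c
    have h1 : IsAlgebraic ℚ c := Algebra.IsAlgebraic.isAlgebraic c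
    have h2 : IsAlgebraic ℚ (algebraMap κ L c) := h1.algebraMap
    exact h2.tower_top k
  have ht : IsAlgebraic k t := mod1_alg_t ω h hk hκ
  -- the expansion of an element of `κ`
  have hexp : ∀ (W : Submodule k L) (n : ℕ), (∀ j, algebraMap κ L (ω j) * t ^ n ∈ W) →
      ∀ c : κ, algebraMap κ L c * t ^ n ∈ W := by
    intro W n hW c
    have h1 : algebraMap κ L c = ∑ j, (ω.repr c j) • algebraMap κ L (ω j) := by
      conv_lhs => rw [← ω.sum_repr c]
      rw [map_sum]
      apply Finset.sum_congr rfl
      intro j _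
      exact map_rat_smul (algebraMap κ L) _ _
    rw [h1, Finset.sum_mul]
    apply Submodule.sum_mem
    intro j _
    rw [smul_mul_assoc]
    exact Submodule.smul_of_tower_mem W _ (hW j)
  let M0 : Submonoid L :=
    { carrier := {x | ∃ (c : κ) (n : ℕ), x = algebraMap κ L c * t ^ n}
      one_mem' := ⟨1, 0, by simp⟩
      mul_mem' := by
        rintro _ _ ⟨c, n, rfl⟩ ⟨c', n', rfl⟩
        refine ⟨c * c', n + n', ?_⟩
        rw [map_mul, pow_add]
        ring }
  have hM0 : ∀ (c : κ) (n : ℕ), algebraMap κ L c * t ^ n ∈ M0 := fun c n => ⟨c, n, rfl⟩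
  set A0 : Subalgebra k L := Algebra.adjoin k (M0 : Set L) with hA0
  have hA0span : Subalgebra.toSubmodule A0 = Submodule.span k (M0 : Set L) := by
    rw [hA0, Algebra.adjoin_eq_span, Submonoid.closure_eq]
  have hA0alg : ∀ x ∈ A0, IsAlgebraic k x := by
    intro x hx
    have h1 : A0 ≤ (algebraicClosure k L).toSubalgebra := by
      apply Algebra.adjoin_le
      rintro _ ⟨c, n, rfl⟩
      change _ ∈ algebraicClosure k L
      exact mul_mem (mem_algebraicClosure_iff.mpr (hκ c))
        (pow_mem (mem_algebraicClosure_iff.mpr ht) n)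
    exact mem_algebraicClosure_iff.mp (h1 hx)
  have hpoly : ∀ P : MvPolynomial (Option (Ix dg J)) κ,
      MvPolynomial.aeval (fun o => o.elim t a) P ∈ A0 := by
    intro P
    induction P using MvPolynomial.induction_on with
    | C c =>
      rw [MvPolynomial.aeval_C]
      have := Algebra.subset_adjoin (R := k) (hM0 c 0)
      rwa [pow_zero, mul_one] at this
    | add p q hp hq => rw [map_add]; exact add_mem hp hq
    | mul_X p o hp =>
      rw [map_mul, MvPolynomial.aeval_X]
      refine mul_mem hp ?_
      cases o with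
      | none =>
        have := Algebra.subset_adjoin (R := k) (hM0 1 1)
        rwa [map_one, one_mul, pow_one] at this
      | some i =>
        change a i ∈ A0
        rw [← hX i]
        exact A0.algebraMap_mem _
  have hA0top : A0 = ⊤ := by
    rw [eq_top_iff]
    intro f _
    obtain ⟨P, Q, _, hf⟩ := h.quo f
    rw [hf, div_eq_mul_inv]
    refine mul_mem (hpoly P) ?_
    exact Subalgebra.inv_mem_of_algebraic A0 (x := ⟨_, hpoly Q⟩) (hA0alg _ (hpoly Q))
  refine ⟨Dk, ?_⟩
  refine ⟨inferInstance, ?_, ?_, ?_, h.const, h.tr, ?_, ?_, ?_⟩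
  · -- finite
    set S : Set L := insert t (Set.range fun j => algebraMap κ L (ω j)) with hS
    have hSfin : S.Finite := (Set.finite_range _).insert t
    have hSint : ∀ x ∈ S, IsIntegral k x := by
      intro x hx
      rcases hx with rfl | ⟨j, rfl⟩
      · exact ht.isIntegral
      · exact (hκ _).isIntegral
    have hStop : Algebra.adjoin k S = ⊤ := by
      rw [eq_top_iff, ← hA0top, hA0]
      apply Algebra.adjoin_le
      rintro _ ⟨c, n, rfl⟩
      have htS : t ∈ Algebra.adjoin k S := Algebra.subset_adjoin (Set.mem_insert _ _)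
      exact hexp (Subalgebra.toSubmodule (Algebra.adjoin k S)) n
        (fun j => (Algebra.adjoin k S).mul_mem
        (Algebra.subset_adjoin (Set.mem_insert_of_mem _ ⟨j, rfl⟩)) (pow_mem htS n)) c
    have hfg := fg_adjoin_of_finite hSfin hSint
    rw [hStop, Algebra.top_toSubmodule] at hfg
    exact ⟨hfg⟩
  · intro P
    apply hinj
    rw [hDk, hF, hk, hk, mod1_der ω h]
  · intro c
    rw [hDk, hF]
  · simp only [hX]
    exact h.eqn
  · rw [eq_top_iff, ← Algebra.top_toSubmodule, ← hA0top, hA0span, Submodule.span_le]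
    rintro _ ⟨c, n, rfl⟩
    exact hexp (Submodule.span k (Set.range fun p : J × ℕ => algebraMap κ L (ω p.1) * t ^ p.2)) n
      (fun j => Submodule.subset_span ⟨(j, n), rfl⟩) c
  · intro P hP t' a' hta
    refine h.gen P ?_ t' a' hta
    rw [← hP]
    congr 2
    funext o
    cases o with
    | none => rfl
    | some i => exact (hX i).symm

end core

theorem exists_mod1 {κ : IntermediateField ℚ Qbar} [FiniteDimensional ℚ κ] {J : Type} [Fintype J]
    [DecidableEq J] (ω : Module.Basis J ℚ κ) {dg : ℕ} {j₀ : J} {L : Type} [Field L] [CharZero L]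
    [Algebra κ L] {D : Derivation ℚ L L} {t : L} {a : Ix dg J → L}
    (h : Mod0 (fun j => ω j) dg j₀ D t a) :
    ∃ (k : Type) (_ : Field k) (_ : CharZero k) (_ : Algebra (MvPolynomial (Ix dg J) ℚ) k)
      (_ : Algebra k L) (Dk : Derivation ℚ k k), Mod (fun j => ω j) dg j₀ Dk D t := by
  have hinj : Function.Injective (MvPolynomial.aeval a : MvPolynomial (Ix dg J) ℚ →ₐ[ℚ] L) := h.ind
  have hinj' : Function.Injective
      ((MvPolynomial.aeval a : MvPolynomial (Ix dg J) ℚ →ₐ[ℚ] L) : MvPolynomial (Ix dg J) ℚ →+* L) :=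
    hinj
  let k := FractionRing (MvPolynomial (Ix dg J) ℚ)
  let φ : k →+* L := IsFractionRing.lift hinj'
  let _ : Algebra k L := φ.toAlgebra
  have hk : ∀ P, algebraMap k L (algebraMap (MvPolynomial (Ix dg J) ℚ) k P) =
      MvPolynomial.aeval a P := fun P => IsFractionRing.lift_algebraMap hinj' P
  obtain ⟨Dk, hDk⟩ := mod1_core ω h hk
  exact ⟨k, inferInstance, inferInstance, inferInstance, inferInstance, Dk, hDk⟩

end Pool.Agent.Helper79.AA
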