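import Pool.Agent.Helper79.AA.UDefs
import Pool.Agent.Helper79.GA.Str

/-!
# AA-15: Taylor series in the model

`k`: `tL Dk (x_i)` is `x_i` or `x_i + z`, so `PG`; `tLH Dk` is a ring homomorphism, so the image of a polynomial is `PG`
(`PG_add`, `PG_mul`, `PG_C`: `MvPolynomial.induction_on`), and every element of `k` is a quotient (`PG_inv`), as in `ext_tame`. `L/k` is
algebraic: `alg_tame`.
-/

open Polynomial

namespace Pool.Agent.Helper79.AA

open Pool.Agent.Helper79.CU Pool.Agent.Helper79.SE Pool.Agent.Helper79.GA Pool.Agent.Helper64.Per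

theorem mod_PG {κ : IntermediateField ℚ Qbar} {J : Type} [Fintype J] [DecidableEq J] {ω : J → κ}
    {dg : ℕ} {j₀ : J} {k L : Type} [Field k] [CharZero k] [Algebra (MvPolynomial (Ix dg J) ℚ) k]
    [Field L] [CharZero L] [Algebra k L] [Algebra κ L] {Dk : Derivation ℚ k k}
    {D : Derivation ℚ L L} {t : L} (h : Mod ω dg j₀ Dk D t) : ∀ f : L, PG (tL D f) := by
  have hfr := h.frac
  have hfin := h.fin
  have hpoly : ∀ P : MvPolynomial (Ix dg J) ℚ,
      PG (tLH Dk (algebraMap (MvPolynomial (Ix dg J) ℚ) k P)) := by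
    intro P
    induction P using MvPolynomial.induction_on with
    | C c =>
      have h1 : Dk (algebraMap (MvPolynomial (Ix dg J) ℚ) k (MvPolynomial.C c)) = 0 := by
        rw [h.der, MvPolynomial.pderiv_C, map_zero]
      rw [tLH_apply, tL_const Dk h1]
      exact PG_C _
    | add p q hp hq =>
      rw [map_add, map_add]
      exact PG_add hp hq
    | mul_X p i hp =>
      rw [map_mul, map_mul]
      refine PG_mul hp ?_
      rw [tLH_apply]
      by_cases hi : i = (0, j₀)
      · have h1 : Dk (algebraMap (MvPolynomial (Ix dg J) ℚ) k (MvPolynomial.X i)) = 1 := by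
          rw [h.der, hi, MvPolynomial.pderiv_X_self, map_one]
        rw [tL_var Dk h1]
        exact PG_add (PG_C _) (PG_single _ _)
      · have h1 : Dk (algebraMap (MvPolynomial (Ix dg J) ℚ) k (MvPolynomial.X i)) = 0 := by
          rw [h.der, MvPolynomial.pderiv_X_of_ne (fun h2 => hi h2), map_zero]
        rw [tL_const Dk h1]
        exact PG_C _
  have hk : ∀ f : k, PG (tL Dk f) := by
    intro f
    obtain ⟨a, b, hb, rfl⟩ := IsFractionRing.div_surjective (A := MvPolynomial (Ix dg J) ℚ) f
    rw [← tLH_apply, map_div₀, div_eq_mul_inv]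
    exact PG_mul (hpoly a) (PG_inv (hpoly b))
  exact alg_tame (F := k) (L := L) (D := Dk) (D' := D) h.ext hk

end Pool.Agent.Helper79.AA
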