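import Pool.Agent.Helper79.GA.Str
import Pool.Agent.Helper79.GA.TOp
import Pool.Agent.Helper79.GA.Fun
import Pool.Agent.Helper79.GA.Calc

/-!
# AA-12: push-forward of a connection

Let `a` be the matrix in the statement (it is the matrix of the connection `D' + α` on `L^β` in the `F`-basis `b_γ ε_i`), and
`Y_m(p, i') = ∑_(x + y = m) D'^x(b p.1)/x! · iter D' α y p.2 i' ∈ L` (the coordinates of `∇^m(b_γ ε_i)/m!`; Leibniz).
* `(m+1) Y_(m+1)(p, i') = D' (Y_m(p, i')) + ∑_l Y_m(p, l) α l i'` (as in `calc`/`leib_iter`).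
* `∑_γ' (iter D a m p (γ', i')) b_γ' = Y_m(p, i')` by induction on `m` (`D'` of `f b_γ'` with `f ∈ F` is `D(f) b_γ' + f D'(b_γ')`, and
  `D'(b_γ') δ + b_γ' α = ∑ a b`). So `iter D a m p q = b.repr (Y_m(p, q.2)) q.1`.
* `Y_m` has geometric denominators: `GmS.conv` with `hPG (b γ)` (see `tameV_self`: `PG (tL D' f)` gives `GmS` for the sequence `D'^x f / x!`) and `hα`;
  then `GmS.fn` for the functional `b.coord q.1` and `GmS.family`, `GmS.comp`.
-/

open Polynomial

namespace Pool.Agent.Helper79.AA

open Pool.Agent.Helper79.CU Pool.Agent.Helper79.SE Pool.Agent.Helper79.GA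

private theorem push_taylor {K : Type} [Field K] [CharZero K] {D : Derivation ℚ K K} {f : K}
    (hf : PG (tL D f)) : GmS fun (m : ℕ) (_ : Unit) => ((m.factorial : K)⁻¹) * D^[m] f := by
  obtain ⟨T, E, s, hT, h⟩ := hf
  refine ⟨T, E * (1 + 2 * s), 1, hT, fun N => ⟨1, one_pos, by rw [one_pow], fun m hm _ => ?_⟩⟩
  have h1 := (h (m : ℤ)).2
  rw [tL_coeff] at h1
  rw [Nat.cast_one, one_mul]
  refine (G T).mono ?_ h1
  rw [Int.toNat_le]
  push_cast
  have h2 : (m : ℤ) ≤ N := by exact_mod_cast hm
  have hE : (0 : ℤ) ≤ E := Int.natCast_nonneg E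
  have hs : (0 : ℤ) ≤ s := Int.natCast_nonneg s
  have hN : (0 : ℤ) ≤ N := Int.natCast_nonneg N
  have h3 : (m : ℤ) + 2 * (s : ℤ) ≤ (1 + 2 * (s : ℤ)) * (N + 1) := by
    nlinarith [mul_nonneg hs hN]
  calc (E : ℤ) * ((m : ℤ) + 2 * (s : ℤ)) ≤ E * ((1 + 2 * (s : ℤ)) * (N + 1)) :=
        mul_le_mul_of_nonneg_left h3 hE
    _ = E * (1 + 2 * (s : ℤ)) * (N + 1) := by ring

private theorem push_sub_iter {K ι β : Type} [Field K] [CharZero K] [Fintype ι] [DecidableEq ι]
    [Fintype β] [DecidableEq β] {D : Derivation ℚ K K} {a : Matrix ι ι K}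
    {M : Matrix β ι K} {b : Matrix β β K}
    (hM : ∀ p i, D (M p i) + (M * a) p i = (b * M) p i) (m : ℕ) (p : β) (i : ι) :
    (nab D a)^[m] (M p) i = (m.factorial : K) * ∑ q, iter D b m p q * M q i := by
  induction m generalizing i with
  | zero =>
    simp [iter, Matrix.one_apply]
  | succ m ih =>
    have hm : ((m + 1 : ℕ) : K) ≠ 0 := Nat.cast_ne_zero.2 (Nat.succ_ne_zero m)
    have hfun : (nab D a)^[m] (M p) = fun i => (m.factorial : K) * ∑ q, iter D b m p q * M q i :=
      funext fun i => ih i
    have hDf : D (m.factorial : K) = 0 := by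
      have h1 : ((m.factorial : K)) = algebraMap ℚ K (m.factorial : ℚ) := by simp
      rw [h1, Derivation.map_algebraMap]
    have hrec : ∀ r, ((m + 1 : ℕ) : K) * iter D b (m + 1) p r =
        D (iter D b m p r) + ∑ q, iter D b m p q * b q r := by
      intro r
      have : iter D b (m + 1) p r = (((m + 1 : ℕ) : K)⁻¹) *
        (D (iter D b m p r) + ∑ l, iter D b m p l * b l r) := rfl
      rw [this, mul_inv_cancel_left₀ hm]
    rw [Function.iterate_succ_apply', hfun]
    unfold nab
    rw [Derivation.leibniz, hDf, smul_zero, add_zero, smul_eq_mul, map_sum]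
    have e1 : ∀ q, D (iter D b m p q * M q i) = iter D b m p q * D (M q i) +
        D (iter D b m p q) * M q i := by
      intro q
      rw [Derivation.leibniz, smul_eq_mul, smul_eq_mul, mul_comm (M q i)]
    have e2 : ∑ l, ((m.factorial : K) * ∑ q, iter D b m p q * M q l) * a l i =
        (m.factorial : K) * ∑ q, iter D b m p q * (M * a) q i := by
      simp only [Matrix.mul_apply, Finset.mul_sum, Finset.sum_mul]
      rw [Finset.sum_comm]
      refine Finset.sum_congr rfl fun q _ => Finset.sum_congr rfl fun l _ => ?_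
      ring
    have e3 : ∑ q, iter D b m p q * (b * M) q i = ∑ r, (∑ q, iter D b m p q * b q r) * M r i := by
      simp only [Matrix.mul_apply, Finset.mul_sum, Finset.sum_mul]
      rw [Finset.sum_comm]
      refine Finset.sum_congr rfl fun q _ => Finset.sum_congr rfl fun l _ => ?_
      ring
    rw [e2, ← mul_add, Finset.sum_congr rfl fun q _ => e1 q, Finset.sum_add_distrib,
      add_right_comm, ← Finset.sum_add_distrib]
    have e4 : ∑ q, (iter D b m p q * D (M q i) + iter D b m p q * (M * a) q i) =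
        ∑ r, (∑ q, iter D b m p q * b q r) * M r i := by
      rw [← e3]
      refine Finset.sum_congr rfl fun q _ => ?_
      rw [← mul_add, hM]
    rw [e4, ← Finset.sum_add_distrib, Nat.factorial_succ]
    have e5 : ∑ r, ((∑ q, iter D b m p q * b q r) * M r i + D (iter D b m p r) * M r i) =
        ((m + 1 : ℕ) : K) * ∑ r, iter D b (m + 1) p r * M r i := by
      rw [Finset.mul_sum]
      refine Finset.sum_congr rfl fun r _ => ?_
      rw [← mul_assoc, hrec]
      ring
    rw [e5]
    push_cast
    ring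

private theorem push_iter_map {F L ι : Type} [Field F] [CharZero F] [Field L] [CharZero L]
    [Algebra F L] [Fintype ι] [DecidableEq ι] {D : Derivation ℚ F F} {D' : Derivation ℚ L L}
    (hD : ∀ c, D' (algebraMap F L c) = algebraMap F L (D c)) (a : Matrix ι ι F) (m : ℕ) :
    ∀ i j, iter D' (a.map (algebraMap F L)) m i j = algebraMap F L (iter D a m i j) := by
  induction m with
  | zero =>
    intro i j
    simp only [iter, Matrix.one_apply]
    split_ifs <;> simp
  | succ m ih =>
    intro i j
    have h1 : iter D' (a.map (algebraMap F L)) (m + 1) i j = (((m + 1 : ℕ) : L)⁻¹) *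
        (D' (iter D' (a.map (algebraMap F L)) m i j) +
          ∑ l, iter D' (a.map (algebraMap F L)) m i l * (a.map (algebraMap F L)) l j) := rfl
    have h2 : iter D a (m + 1) i j = (((m + 1 : ℕ) : F)⁻¹) *
        (D (iter D a m i j) + ∑ l, iter D a m i l * a l j) := rfl
    rw [h1, h2, ih i j, hD, map_mul, map_inv₀, map_natCast, map_add, map_sum]
    congr 2
    refine Finset.sum_congr rfl fun l _ => ?_
    rw [ih i l, Matrix.map_apply, map_mul]

theorem tame_push {F L Γ β : Type} [Field F] [CharZero F] [Field L] [CharZero L] [Algebra F L]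
    [FiniteDimensional F L] [Fintype Γ] [DecidableEq Γ] [Fintype β] [DecidableEq β]
    {D : Derivation ℚ F F} {D' : Derivation ℚ L L}
    (hD : ∀ c, D' (algebraMap F L c) = algebraMap F L (D c)) (hPG : ∀ f : L, PG (tL D' f))
    (b : Module.Basis Γ F L) {α : Matrix β β L} (hα : TameM D' α) :
    TameM D (fun (p q : Γ × β) =>
      b.repr ((if p.2 = q.2 then D' (b p.1) else 0) + b p.1 * α p.2 q.2) q.1) := by
  set a : Matrix (Γ × β) (Γ × β) F := fun (p q : Γ × β) =>
    b.repr ((if p.2 = q.2 then D' (b p.1) else 0) + b p.1 * α p.2 q.2) q.1 with ha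
  set M : Matrix (Γ × β) β L := fun q i => if q.2 = i then b q.1 else 0 with hMdef
  have hsum : ∀ (f : Γ × β → F) (i : β), ∑ q, algebraMap F L (f q) * M q i =
      ∑ γ, f (γ, i) • b γ := by
    intro f i
    rw [Fintype.sum_prod_type]
    refine Finset.sum_congr rfl fun γ _ => ?_
    rw [Finset.sum_eq_single_of_mem i (Finset.mem_univ i)]
    · simp only [hMdef, if_true, Algebra.smul_def]
    · intro j _ hj
      simp only [hMdef, if_neg hj, mul_zero]
  have hM : ∀ p i, D' (M p i) + (M * α) p i = (a.map (algebraMap F L) * M) p i := by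
    intro p i
    have e1 : (a.map (algebraMap F L) * M) p i =
        (if p.2 = i then D' (b p.1) else 0) + b p.1 * α p.2 i := by
      rw [Matrix.mul_apply]
      have := hsum (fun q => a p q) i
      simp only [Matrix.map_apply]
      rw [this]
      exact b.sum_repr ((if p.2 = i then D' (b p.1) else 0) + b p.1 * α p.2 i)
    have e2 : (M * α) p i = b p.1 * α p.2 i := by
      rw [Matrix.mul_apply, Finset.sum_eq_single_of_mem p.2 (Finset.mem_univ _)]
      · simp only [hMdef, if_true]
      · intro j _ hj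
        simp only [hMdef, if_neg (Ne.symm hj), zero_mul]
    rw [e1, e2]
    congr 1
    simp only [hMdef]
    split_ifs
    · rfl
    · exact map_zero _
  have key : ∀ (m : ℕ) (p q : Γ × β), iter D a m p q = b.coord q.1 (∑ i,
      ∑ x ∈ Finset.HasAntidiagonal.antidiagonal m,
        (((x.1.factorial : L)⁻¹) * D'^[x.1] (M p i)) * iter D' α x.2 i q.2) := by
    intro m p q
    have hm : (m.factorial : L) ≠ 0 := Nat.cast_ne_zero.2 (Nat.factorial_ne_zero m)
    rw [Finset.sum_comm, ← leib_iter (M p) m q.2, push_sub_iter hM, inv_mul_cancel_left₀ hm]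
    have e1 : ∑ r, iter D' (a.map (algebraMap F L)) m p r * M r q.2 =
        ∑ γ, iter D a m p (γ, q.2) • b γ := by
      rw [← hsum (fun r => iter D a m p r) q.2]
      refine Finset.sum_congr rfl fun r _ => ?_
      rw [push_iter_map hD]
    rw [e1, Module.Basis.coord_apply, b.repr_sum_self]
  unfold TameM
  simp only [key]
  refine GmS.family fun s => ?_
  refine GmS.fn (b.coord s.2.1) ?_
  refine GmS.sum _ fun i _ => ?_
  exact GmS.conv (push_taylor (hPG (M s.1 i))) (GmS.comp hα fun _ : Unit => (i, s.2.2))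

end Pool.Agent.Helper79.AA
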