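import Pool.Agent.Helper79.AA.Mod0
import Pool.Agent.Helper79.AA.Mod1
import Pool.Agent.Helper79.AA.ModPG
import Pool.Agent.Helper79.AA.Hom
import Pool.Agent.Helper79.AA.Den
import Pool.Agent.Helper79.AA.Ident
import Pool.Agent.Helper79.AA.Chain
import Pool.Agent.Helper79.AA.Push
import Pool.Agent.Helper79.AA.MSize

/-!
# AA: the universal push-forward (assembly, helper79)
-/

open Polynomial

namespace Pool.Agent.Helper79.AA

open Pool.Agent.Helper79.CU Pool.Agent.Helper79.SE Pool.Agent.Helper79.GA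
  Pool.Agent.Helper79.GX Pool.Agent.Helper64.Per

theorem nat_le_pow {X : ℕ} (hX : 2 ≤ X) (n : ℕ) : (n : ℝ) ≤ (X : ℝ) ^ n := by
  have h1 : n < 2 ^ n := Nat.lt_two_pow_self
  have h2 : 2 ^ n ≤ X ^ n := Nat.pow_le_pow_left hX n
  exact_mod_cast (h1.trans_le h2).le

/-- The growth condition from the two bounds. -/
theorem gr_of {σ : Type} [Finite σ] [DecidableEq σ] (i₀ : σ) {ι : Type} [Fintype ι]
    [DecidableEq ι] (Θ : MvPolynomial σ ℚ) (M : Matrix ι ι (MvPolynomial σ ℚ))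
    (Θ₀ : MvPolynomial σ ℤ) (c H : ℕ)
    (hden : ∀ a : σ → ℤ, MvPolynomial.eval a Θ₀ ≠ 0 →
        MvPolynomial.eval (fun i => ((a i : ℤ) : ℚ)) Θ ≠ 0 → ∀ N : ℕ, ∃ q : ℕ, 0 < q ∧
          q ≤ (H * (MvPolynomial.eval a Θ₀).natAbs) ^ (c * (N + 1)) ∧ ∀ m ≤ N, ∀ x y, ∃ n : ℤ,
            (q : ℚ) * (MvPolynomial.eval (fun i => ((a i : ℤ) : ℚ)) (mbeta i₀ Θ M m x y) /
              MvPolynomial.eval (fun i => ((a i : ℤ) : ℚ)) Θ ^ m) = n)
    (hdvd : ∀ a : σ → ℤ, MvPolynomial.eval (fun i => ((a i : ℤ) : ℚ)) Θ ≠ 0 →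
      MvPolynomial.eval a Θ₀ ≠ 0) :
    ∃ c' : ℕ, ∀ X : ℕ, 2 ≤ X → ∀ (a : σ → ℤ) (u : ℤ), (∀ i, |pt i₀ a u i| ≤ X) →
      MvPolynomial.eval (fun i => ((pt i₀ a u i : ℤ) : ℚ)) Θ ≠ 0 →
      Gr (spec i₀ a Θ) (M.map (spec i₀ a)) (u : ℚ) ((X : ℝ) ^ c') := by
  obtain ⟨c₁, hc₁⟩ := eval_size (MvPolynomial.map (Int.castRingHom ℚ) Θ₀)
  obtain ⟨c₂, hc₂⟩ := mbeta_size i₀ Θ M
  obtain ⟨d, hd0, hd⟩ := eval_lower Θ
  refine ⟨(H + c₁) * c + (c₂ + d), fun X hX a u ha hΘ => ?_⟩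
  have hX1 : (1 : ℝ) ≤ X := by exact_mod_cast (by omega : 1 ≤ X)
  have hX0 : (0 : ℝ) < X := by linarith
  set a' : σ → ℤ := pt i₀ a u with ha'
  have hgm : ∀ j x y, gm (spec i₀ a Θ) (M.map (spec i₀ a)) j (u : ℚ) x y =
      MvPolynomial.eval (fun i => ((a' i : ℤ) : ℚ)) (mbeta i₀ Θ M j x y) /
        MvPolynomial.eval (fun i => ((a' i : ℤ) : ℚ)) Θ ^ j := by
    intro j x y
    rw [gm, Matrix.of_apply, spec_beta, Matrix.map_apply, spec_eval, spec_eval]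
  have hΘ₀ := hdvd a' hΘ
  -- the size of `Θ₀`
  have h1 : (((MvPolynomial.eval a' Θ₀).natAbs : ℕ) : ℝ) ≤ (X : ℝ) ^ c₁ := by
    have h2 := hc₁ X hX a' ha
    have h3 : MvPolynomial.eval (fun i => ((a' i : ℤ) : ℚ))
        (MvPolynomial.map (Int.castRingHom ℚ) Θ₀) = ((MvPolynomial.eval a' Θ₀ : ℤ) : ℚ) := by
      rw [MvPolynomial.eval_map]
      have := MvPolynomial.eval₂_comp_left (Int.castRingHom ℚ) (RingHom.id ℤ) a' Θ₀
      simp only [RingHomCompTriple.comp_eq] at this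
      rw [MvPolynomial.eval, MvPolynomial.coe_eval₂Hom]
      exact this.symm
    rw [h3, Rat.cast_intCast] at h2
    rw [Nat.cast_natAbs, Int.cast_abs]
    exact h2
  have h4 : 1 ≤ (X : ℝ) ^ ((H + c₁) * c) := one_le_pow₀ hX1
  refine ⟨(X : ℝ) ^ ((H + c₁) * c), fun J => ?_⟩
  obtain ⟨q, hq0, hq, hqn⟩ := hden a' hΘ₀ hΘ J
  refine ⟨q, hq0, ?_, fun j hj x y => ⟨?_, ?_⟩⟩
  · have h5 : (q : ℝ) ≤ ((H : ℝ) * (((MvPolynomial.eval a' Θ₀).natAbs : ℕ) : ℝ)) ^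
        (c * (J + 1)) := by exact_mod_cast hq
    have h6 : (H : ℝ) * (((MvPolynomial.eval a' Θ₀).natAbs : ℕ) : ℝ) ≤ (X : ℝ) ^ (H + c₁) := by
      rw [pow_add]
      exact mul_le_mul (nat_le_pow hX H) h1 (by positivity) (by positivity)
    calc (q : ℝ) ≤ ((X : ℝ) ^ (H + c₁)) ^ (c * (J + 1)) :=
          h5.trans (pow_le_pow_left₀ (by positivity) h6 _)
      _ = (X : ℝ) ^ ((H + c₁) * c) * ((X : ℝ) ^ ((H + c₁) * c)) ^ J := by
          rw [← pow_mul, ← pow_mul, ← pow_add]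
          congr 1
          ring
      _ ≤ (X : ℝ) ^ ((H + c₁) * c) * ((X : ℝ) ^ ((H + c₁) * c + (c₂ + d))) ^ J :=
          mul_le_mul_of_nonneg_left (pow_le_pow_left₀ (by positivity)
            (pow_le_pow_right₀ hX1 (by omega)) _) (by positivity)
  · rw [hgm]
    exact hqn j hj x y
  · rw [hgm]
    push_cast
    rw [abs_div, abs_pow]
    obtain ⟨n, hn⟩ := hd a'
    have hn0 : n ≠ 0 := by
      rintro rfl
      rw [Int.cast_zero, mul_eq_zero] at hn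
      rcases hn with hn | hn
      · exact absurd hn (by exact_mod_cast hd0.ne')
      · exact hΘ hn
    set y' : ℝ := ((MvPolynomial.eval (fun i => ((a' i : ℤ) : ℚ)) Θ : ℚ) : ℝ) with hy'
    have h7 : (d : ℝ) * y' = n := by
      have := congrArg (fun z : ℚ => (z : ℝ)) hn
      push_cast at this
      exact this
    have h8 : 1 ≤ (d : ℝ) * |y'| := by
      have h9 : (1 : ℝ) ≤ |(n : ℝ)| := by exact_mod_cast Int.one_le_abs hn0
      rw [← h7, abs_mul, Nat.abs_cast] at h9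
      exact h9
    have hy0 : 0 < |y'| := by
      by_contra h
      push Not at h
      have h10 : |y'| = 0 := le_antisymm h (abs_nonneg _)
      rw [h10, mul_zero] at h8
      linarith
    rw [div_le_iff₀ (by positivity)]
    have h11 : 1 ≤ (X : ℝ) ^ d * |y'| :=
      h8.trans (mul_le_mul_of_nonneg_right (nat_le_pow hX d) (abs_nonneg _))
    calc |((MvPolynomial.eval (fun i => ((a' i : ℤ) : ℚ)) (mbeta i₀ Θ M j x y) : ℚ) : ℝ)|
        ≤ ((X : ℝ) ^ c₂) ^ j := hc₂ X hX a' ha j x y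
      _ ≤ ((X : ℝ) ^ c₂) ^ j * ((X : ℝ) ^ d * |y'|) ^ j :=
          le_mul_of_one_le_right (by positivity) (one_le_pow₀ h11)
      _ = 1 * ((X : ℝ) ^ (c₂ + d)) ^ j * |y'| ^ j := by
          rw [mul_pow, pow_add, mul_pow]
          ring
      _ ≤ (X : ℝ) ^ ((H + c₁) * c) * ((X : ℝ) ^ ((H + c₁) * c + (c₂ + d))) ^ j * |y'| ^ j := by
          refine mul_le_mul_of_nonneg_right ?_ (by positivity)
          refine mul_le_mul h4 ?_ (by positivity) (by positivity)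
          exact pow_le_pow_left₀ (by positivity) (pow_le_pow_right₀ hX1 (by omega)) _

theorem exists_uni {κ : IntermediateField ℚ Qbar} [FiniteDimensional ℚ κ] {J : Type} [Fintype J]
    [DecidableEq J] (ω : Module.Basis J ℚ κ) {dg : ℕ} (hdg : 1 ≤ dg) (j₀ : J) {β : Type}
    [Fintype β] [DecidableEq β] {T : κ[X]} (hT : T ≠ 0) {A : Matrix β β κ[X]} {K : Type}
    [Field K] [CharZero K] [Algebra κ K] {u : K} {D : Derivation ℚ K K} (hu : RatX κ u D)
    (ht : TameM D (fun i j => aeval u (A i j) / aeval u T)) :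
    Nonempty (Uni (fun j => ω j) dg j₀ T A) := by
  classical
  obtain ⟨L, _, _, _, DL, t, a, h0⟩ := exists_mod0 (ω := fun j => ω j) (fun j => ω.ne_zero j) hdg j₀
  obtain ⟨k, _, _, _, _, Dk, h⟩ := exists_mod1 ω h0
  obtain ⟨φ, hφu, hφp, hφD⟩ := exists_hom hu h.const h.tr
  have hPG := mod_PG h
  have hchain := chain φ hφD (hPG t) ht
  have := h.fin
  have := h.frac
  -- the basis
  set v : J × ℕ → L := fun p => algebraMap κ L (ω p.1) * t ^ p.2 with hv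
  obtain ⟨Γ, bb, hinj, hspan, hli⟩ := exists_linearIndependent' k v
  have hΓ : Finite Γ := hli.finite_of_isNoetherian
  have fΓ : Fintype Γ := Fintype.ofFinite Γ
  have hspan' : ⊤ ≤ Submodule.span k (Set.range (v ∘ bb)) := by
    rw [hspan, h.span]
  set b : Module.Basis Γ k L := Module.Basis.mk hli hspan' with hb
  have hbv : ∀ γ, b γ = v (bb γ) := fun γ => by
    rw [hb, Module.Basis.mk_apply]
    rfl
  have hpush := tame_push h.ext hPG b hchain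
  set α' : Matrix (Γ × β) (Γ × β) k := fun p q =>
    b.repr ((if p.2 = q.2 then DL (b p.1) else 0) + b p.1 *
      (DL t * φ (aeval u (A p.2 q.2) / aeval u T))) q.1 with hα'
  obtain ⟨Θ₀, hΘ₀, c, H, hden⟩ := exists_den h.der hpush
  -- the common denominator
  obtain ⟨Θ₁, hΘ₁⟩ := IsLocalization.exist_integer_multiples_of_finite
    (nonZeroDivisors (MvPolynomial (Ix dg J) ℚ))
    (Sum.elim (fun x : (Γ × β) × (Γ × β) => α' x.1 x.2)
      (fun x : (J × Fin (dg + 1)) × Γ => b.repr (v (x.1.1, x.1.2)) x.2))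
  have hΘ₁0 : (Θ₁ : MvPolynomial (Ix dg J) ℚ) ≠ 0 := nonZeroDivisors.ne_zero Θ₁.2
  set R := MvPolynomial (Ix dg J) ℚ with hR
  have hinjR : Function.Injective (algebraMap R k) := IsFractionRing.injective R k
  have hM₁ : ∀ x y, ∃ P : R, algebraMap R k P = algebraMap R k Θ₁ * α' x y := by
    intro x y
    obtain ⟨P, hP⟩ := hΘ₁ (Sum.inl (x, y))
    refine ⟨P, ?_⟩
    rw [hP, Sum.elim_inl]
    exact Algebra.smul_def _ _
  have hρ₁ : ∀ (p : J × ℕ) (γ : Γ), ∃ P : R, p.2 ≤ dg →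
      algebraMap R k P = algebraMap R k Θ₁ * b.repr (v p) γ := by
    intro p γ
    by_cases hp : p.2 ≤ dg
    · obtain ⟨P, hP⟩ := hΘ₁ (Sum.inr ((p.1, ⟨p.2, by omega⟩), γ))
      refine ⟨P, fun _ => ?_⟩
      rw [hP, Sum.elim_inr]
      exact Algebra.smul_def _ _
    · exact ⟨0, fun h => absurd h hp⟩
  choose M₁ hM₁ using hM₁
  choose ρ₁ hρ₁ using hρ₁
  set Θ₂ : R := MvPolynomial.map (Int.castRingHom ℚ) Θ₀ with hΘ₂
  have hΘ₂0 : Θ₂ ≠ 0 := by
    intro h1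
    apply hΘ₀
    exact (MvPolynomial.map_injective _ (RingHom.injective_int (Int.castRingHom ℚ)))
      (by rw [map_zero]; exact h1)
  set Θ : R := (Θ₁ : R) * Θ₂ with hΘ
  have hΘ0 : Θ ≠ 0 := mul_ne_zero hΘ₁0 hΘ₂0
  have hne : ∀ P : R, P ≠ 0 → algebraMap R k P ≠ 0 := fun P hP h1 =>
    hP (hinjR (by rw [h1, map_zero]))
  set M : Matrix (Γ × β) (Γ × β) R := fun x y => M₁ x y * Θ₂ with hM
  have hMα : ∀ x y, α' x y = algebraMap R k (M x y) / algebraMap R k Θ := by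
    intro x y
    rw [hM, hΘ, map_mul, map_mul, hM₁, mul_div_mul_right _ _ (hne _ hΘ₂0),
      mul_div_cancel_left₀ _ (hne _ hΘ₁0)]
  have hρα : ∀ (p : J × ℕ) (γ : Γ), p.2 ≤ dg →
      b.repr (v p) γ = algebraMap R k (ρ₁ p γ * Θ₂) / algebraMap R k Θ := by
    intro p γ hp
    rw [hΘ, map_mul (algebraMap R k), map_mul (algebraMap R k), hρ₁ p γ hp, mul_div_mul_right _ _ (hne _ hΘ₂0),
      mul_div_cancel_left₀ _ (hne _ hΘ₁0)]
  have hΘ₀' : ∀ a : Ix dg J → ℤ, MvPolynomial.eval (fun i => ((a i : ℤ) : ℚ)) Θ ≠ 0 →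
      MvPolynomial.eval a Θ₀ ≠ 0 := by
    intro a h1 h2
    apply h1
    rw [hΘ, map_mul, hΘ₂]
    have h3 : MvPolynomial.eval (fun i => ((a i : ℤ) : ℚ))
        (MvPolynomial.map (Int.castRingHom ℚ) Θ₀) = ((MvPolynomial.eval a Θ₀ : ℤ) : ℚ) := by
      rw [MvPolynomial.eval_map]
      have := MvPolynomial.eval₂_comp_left (Int.castRingHom ℚ) (RingHom.id ℤ) a Θ₀
      simp only [RingHomCompTriple.comp_eq] at this
      rw [MvPolynomial.eval, MvPolynomial.coe_eval₂Hom]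
      exact this.symm
    rw [h3, h2, Int.cast_zero, mul_zero]
  obtain ⟨c', hc'⟩ := gr_of (0, j₀) Θ M Θ₀ c H (hden Θ M hΘ0 hMα) hΘ₀'
  -- sums
  have hsum : ∀ x : L, x = ∑ γ, algebraMap k L (b.repr x γ) * v (bb γ) := by
    intro x
    conv_lhs => rw [← b.sum_repr x]
    refine Finset.sum_congr rfl fun γ _ => ?_
    rw [Algebra.smul_def, hbv]
  refine ⟨{
    Γ := Γ
    b := bb
    Θ := Θ
    Θ_ne := hΘ0
    M := M
    ρ := fun p γ => ρ₁ p γ * Θ₂
    c := c'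
    growth := hc'
    ident := ?_
    span := ?_ }⟩
  · intro t' a' ha' γ i i'
    refine mod_ident h bb hT hΘ0 (fun γ i i' => ?_) t' a' ha' γ i i'
    have h1 := hsum ((if i = i' then DL (b γ) else 0) + b γ *
      (DL t * φ (aeval u (A i i') / aeval u T)))
    rw [hbv, map_div₀, hφp, hφp] at h1
    rw [h1]
    refine Finset.sum_congr rfl fun γ' _ => ?_
    rw [← hMα (γ, i) (γ', i'), hα']
    simp only [hbv, map_div₀, hφp]
    rfl
  · intro t' a' ha' p hp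
    refine mod_span h bb hΘ0 (ρ := fun γ => ρ₁ p γ * Θ₂) ?_ t' a' ha'
    rw [show algebraMap κ L (ω p.1) * t ^ p.2 = v p from rfl]
    conv_lhs => rw [hsum (v p)]
    refine Finset.sum_congr rfl fun γ _ => ?_
    rw [hρα p γ hp]

end Pool.Agent.Helper79.AA
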