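import Pool.Agent.Helper79.AA.Main1
import Pool.Agent.Helper79.AA.Univ
import Pool.Agent.Helper79.AA.RelK
import Pool.Agent.Helper79.AA.StatA
import Pool.Agent.Helper79.GA.MainV1
import Pool.Agent.Helper79.GA.StatH

/-!
# AA: assembly
-/

open Polynomial

namespace Pool.Agent.Helper79.AA

open Pool.Agent.Helper79.GX Pool.Agent.Helper64.Per Pool.Agent.Helper79.GA Pool.Agent.Helper79.CU

/-- Sub-connections are tame. -/
theorem sub_tame {κ : Type} [Field κ] [CharZero κ] {T : κ[X]} (hT : T ≠ 0) {ι₀ : Type}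
    [Fintype ι₀] [DecidableEq ι₀] {A₀ : Matrix ι₀ ι₀ κ[X]} (hA₀ : MobTame T A₀) {μ r : ℕ}
    {ι : Type} [Fintype ι] [DecidableEq ι] (E : SubTensor T A₀ μ r ι) :
    ∃ (K : Type) (_ : Field K) (_ : CharZero K) (_ : Algebra κ K) (u : K)
      (D : Derivation ℚ K K), RatX κ u D ∧
        TameM D (fun i j => aeval u (E.B i j) / aeval u T) := by
  obtain ⟨K, _, _, _, u, D, hu, hta⟩ := hA₀ 1 0 0 1 (by simp)
  refine ⟨K, inferInstance, inferInstance, inferInstance, u, D, hu, ?_⟩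
  have hst := ratx_tame hu
  have hinj : Function.Injective (aeval u : κ[X] →ₐ[κ] K) := by
    have := hu.tr
    exact transcendental_iff_injective.1 this
  have hTu : aeval u T ≠ 0 := by
    intro h0
    exact hT (hinj (by rw [h0, map_zero]))
  have e0 : (fun i j => mobd (1 : κ) 0 0 1 u * (aeval (mobv (1 : κ) 0 0 1 u) (A₀ i j) /
      aeval (mobv (1 : κ) 0 0 1 u) T) : Matrix ι₀ ι₀ K) =
      (aeval u T)⁻¹ • A₀.map (aeval u : κ[X] →ₐ[κ] K) := by
    have h1 : mobv (1 : κ) 0 0 1 u = u := by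
      rw [mobv]
      simp
    have h2 : mobd (1 : κ) 0 0 1 u = 1 := by
      rw [mobd]
      simp
    funext i j
    rw [h1, h2, one_mul, Matrix.smul_apply, Matrix.map_apply, smul_eq_mul, div_eq_mul_inv,
      mul_comm]
  rw [e0] at hta
  have ht1 := tame_tens hta r
  have e2 : (tens r A₀).map (aeval u : κ[X] →ₐ[κ] K) =
      tens r (A₀.map (aeval u : κ[X] →ₐ[κ] K)) :=
    tens_map (aeval u : κ[X] →ₐ[κ] K).toRingHom r _
  rw [tens_smul, ← e2] at ht1
  obtain ⟨ρ, θ, hθ, hρ⟩ := exists_rinv E.ind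
  have hθg : aeval u θ ≠ 0 := by
    intro h0
    exact hθ (hinj (by rw [h0, map_zero]))
  have ht3 : TameM D ((aeval u T)⁻¹ • E.B.map (aeval u : κ[X] →ₐ[κ] K)) := by
    refine tame_sub hst (M := E.M.map (aeval u : κ[X] →ₐ[κ] K))
      (ρ := (aeval u θ)⁻¹ • ρ.map (aeval u : κ[X] →ₐ[κ] K)) ?_ (fun p i => ?_) ht1
    · rw [Matrix.mul_smul, ← Matrix.map_mul, hρ]
      ext1 p q
      rw [Matrix.smul_apply, Matrix.map_apply, Matrix.smul_apply, Matrix.one_apply,
        Matrix.one_apply]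
      split_ifs
      · rw [smul_eq_mul, smul_eq_mul, mul_one, inv_mul_cancel₀ hθg]
      · rw [smul_zero, map_zero, smul_zero]
    · have e3 := congrArg (aeval u : κ[X] →ₐ[κ] K) (E.stable p i)
      rw [Matrix.map_apply, aeval_deriv hu, hu.dx, mul_one, Matrix.mul_smul, Matrix.smul_mul,
        Matrix.smul_apply, Matrix.smul_apply, ← Matrix.map_mul, ← Matrix.map_mul,
        Matrix.map_apply, Matrix.map_apply, ← e3, map_add, map_mul, smul_eq_mul, smul_eq_mul]
      field_simp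
  have e4 : (fun i j => aeval u (E.B i j) / aeval u T) =
      ((aeval u T)⁻¹ • E.B.map (aeval u : κ[X] →ₐ[κ] K)) := by
    funext i j
    rw [Matrix.smul_apply, Matrix.map_apply, smul_eq_mul, div_eq_mul_inv, mul_comm]
  rw [e4]
  exact ht3

/-- The theorem. -/
theorem mainA {κ : IntermediateField ℚ Qbar} [FiniteDimensional ℚ κ] {T : κ[X]}
    (hT : T ≠ 0) {ι₀ : Type} [Fintype ι₀] [DecidableEq ι₀] {A₀ : Matrix ι₀ ι₀ κ[X]}
    (hA₀ : MobTame T A₀) {μ r : ℕ} {ι : Type} [Fintype ι] [DecidableEq ι] [Nonempty ι]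
    (E : SubTensor T A₀ μ r ι) {U : Set ℂ} (hU : IsOpen U) (hU' : IsPreconnected U)
    {w : ℂ → ℂ} (hw : IsBranchOf κ U μ w) {P : ℂ → Matrix ι ι ℂ} (hP : IsPeriodST E U w P)
    (hdet : ∀ t ∈ U, IsUnit (P t).det) {V : Set ℂ} (hV : FinConvexCover U V) {J : Type}
    [Fintype J] (ω : Module.Basis J ℚ κ) (δ : ℕ) {D : ℕ} (hD : 1 ≤ D) :
    PS (Fintype.card (Fin (D + 1) × J)) fun X => ((RelPoly ω U V w P δ D X).ncard : ℝ) := by
  classical
  obtain ⟨N, Wk, hWk, hVW⟩ := hV
  obtain ⟨g', Vs, cc, hVs, hPV⟩ := hP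
  obtain ⟨f, hf⟩ := hw.eqn
  rcases U.eq_empty_or_nonempty with hUe | ⟨t₁, ht₁⟩
  · have hVe : V = ∅ := by
      rw [Set.eq_empty_iff_forall_notMem]
      intro t ht
      obtain ⟨k, hk⟩ := Set.mem_iUnion.1 (hVW ht)
      have := (hWk k).2.2 hk
      rw [hUe] at this
      exact this
    refine PS.mono PS.zero fun X _ => ?_
    have : RelPoly ω U V w P δ D X = ∅ := by
      rw [Set.eq_empty_iff_forall_notMem]
      rintro a ⟨_, t, ht, _⟩
      rw [hVe] at ht
      exact ht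
    rw [this, Set.ncard_empty, Nat.cast_zero]
  have hμ : 0 < μ := by
    rcases Nat.eq_zero_or_pos μ with h0 | h0
    · subst h0
      have h1 := hf _ ht₁
      simp at h1
    · exact h0
  -- the functions `W = M V^{⊗ r} c`
  set W : ℂ → Matrix (Fin μ × ι) ι ℂ := fun t p k =>
    ∑ I, aeval t (E.M p I) * (tpow r (Vs t) * cc) I k with hW
  have hWP : ∀ t ∈ U, ∀ (l : Fin μ) (x y : ι), w t ^ (l : ℕ) * P t x y = W t (l, x) y := hPV
  have hWode : ∀ t ∈ U, ∀ p k, DifferentiableAt ℂ (fun t => W t p k) t ∧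
      aeval t T * deriv (fun t => W t p k) t = ∑ q, aeval t (E.B p q) * W t q k := by
    intro t ht p k
    exact sub_ode (fun i k => (hVs t ht i k).1) (fun i k => (hVs t ht i k).2) E.stable cc p k
  have hPan : ∀ x y, AnalyticOnNhd ℂ (fun t => P t x y) U := by
    intro x y
    refine DifferentiableOn.analyticOnNhd (fun t ht => ?_) hU
    have h1 : (fun t => P t x y) =ᶠ[nhds t] fun t => W t (⟨0, by omega⟩, x) y := by
      filter_upwards [hU.mem_nhds ht] with z hz
      have := hWP z hz ⟨0, by omega⟩ x y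
      rwa [pow_zero, one_mul] at this
    exact (((hWode t ht _ _).1).congr_of_eventuallyEq h1).differentiableWithinAt
  have hode : ∀ t ∈ U, ∀ (p : Fin μ × ι) (k : ι),
      aeval t T * deriv (fun t => w t ^ (p.1 : ℕ) * P t p.2 k) t =
        ∑ q, aeval t (E.B p q) * (w t ^ (q.1 : ℕ) * P t q.2 k) := by
    intro t ht p k
    have h1 : (fun t => w t ^ (p.1 : ℕ) * P t p.2 k) =ᶠ[nhds t] fun t => W t p k := by
      filter_upwards [hU.mem_nhds ht] with z hz
      exact hWP z hz p.1 p.2 k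
    rw [h1.deriv_eq, (hWode t ht p k).2]
    exact Finset.sum_congr rfl fun q _ => by rw [← hWP t ht q.1 q.2 k]
  -- the words
  set z : ℂ → (Fin (δ + 1) → Al μ ι) → ℂ := fun t => wd (δ + 1) (w t) (P t) with hz
  have hzan : ∀ α, AnalyticOnNhd ℂ (fun t => z t α) U := fun α =>
    words_analytic hw.analytic hPan (δ + 1) α
  have hzode : ∀ t ∈ U, ∀ α, aeval t T * deriv (fun t => z t α) t =
      ∑ α', aeval t (tens (δ + 1) (wm E.B) α α') * z t α' := fun t ht α =>
    words_ode hU hw.analytic hPan hode (δ + 1) α ht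
  obtain ⟨K, _, _, _, u, Du, hu, hta⟩ := sub_tame hT hA₀ E
  have htw := tame_words hu hta (δ + 1)
  have hJ : Nonempty J := ω.index_nonempty
  obtain ⟨j₀⟩ := hJ
  obtain ⟨𝔇⟩ := exists_uni ω hD j₀ hT hu htw
  -- the count
  set n : ℕ := Fintype.card (Fin (D + 1) × J) with hn
  have hn1 : 1 ≤ n := Fintype.card_pos_iff.2 ⟨(0, j₀)⟩
  have h1 : PS n fun X => ∑ k : Fin N, (Set.ncard {a : Ix D J → ℤ | (∀ i, |a i| ≤ X) ∧
      ∃ t ∈ Wk k, Fv (fun j => ω j) (fun i => (a i : ℂ)) t = 0 ∧ KBad κ U z t} : ℝ) :=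
    PS.sum _ fun k _ => main_convex ω hD hT 𝔇 hU hU' (hWk k).1 (hWk k).2.1 (hWk k).2.2 hzan hzode
  have h2 : PS n fun _ => (1 : ℝ) := by
    refine PS.of (θ := 1) (C := 1) one_pos fun X hX => ?_
    rw [one_mul]
    have h3 : (1 : ℝ) ≤ n := by exact_mod_cast hn1
    exact Real.one_le_rpow (by exact_mod_cast hX) (by linarith)
  refine (h1.add h2).mono fun X _ => ?_
  set Y : Set (Ix D J → ℤ) := {a | ∀ j, |a j| ≤ X} with hY
  have hYf : Y.Finite := (box_card X Y fun a ha => ha).1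
  set Sk : Fin N → Set (Ix D J → ℤ) := fun k => {a : Ix D J → ℤ | (∀ i, |a i| ≤ X) ∧
      ∃ t ∈ Wk k, Fv (fun j => ω j) (fun i => (a i : ℂ)) t = 0 ∧ KBad κ U z t} with hSk
  have hsub : RelPoly ω U V w P δ D X ⊆ (⋃ k ∈ Finset.univ, Sk k) ∪ {0} := by
    rintro a ⟨ha, t, htV, hFt, hrel⟩
    by_cases ha0 : a = 0
    · exact Or.inr ha0
    refine Or.inl ?_
    obtain ⟨k, hk⟩ := Set.mem_iUnion.1 (hVW htV)
    rw [Set.mem_iUnion₂]
    refine ⟨k, Finset.mem_univ k, ha, t, hk, hFt, ?_⟩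
    have htU : t ∈ U := (hWk k).2.2 hk
    refine kbad_of_rel hf htU ?_ (hdet t htU) hrel
    -- `t` is algebraic
    set p : κ[X] := ∑ i : Ix D J, C ((a i : κ) * ω i.2) * Polynomial.X ^ (i.1 : ℕ) with hp
    have hpt : aeval t p = 0 := by
      rw [← hFt, hp, map_sum]
      unfold polyVal
      refine Finset.sum_congr rfl fun i _ => ?_
      rw [map_mul, aeval_C, map_pow, aeval_X, map_mul, map_intCast]
    have hp0 : p ≠ 0 := by
      intro h0
      obtain ⟨⟨k₀, j₁⟩, hk₀⟩ : ∃ i, a i ≠ 0 := by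
        by_contra hcon
        push Not at hcon
        exact ha0 (funext hcon)
      have h3 := congrArg (fun q => coeff q (k₀ : ℕ)) h0
      simp only [hp, finsetSum_coeff, coeff_C_mul, coeff_X_pow, coeff_zero] at h3
      rw [Fintype.sum_prod_type, Finset.sum_eq_single k₀] at h3
      · simp only [if_true, mul_one] at h3
        have h4 : ∑ j, ((a (k₀, j) : ℤ) : ℚ) • ω j = 0 := by
          rw [← h3]
          refine Finset.sum_congr rfl fun j _ => ?_
          rw [Algebra.smul_def, map_intCast]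
        have h5 := Fintype.linearIndependent_iff.1 ω.linearIndependent _ h4 j₁
        exact hk₀ (by exact_mod_cast h5)
      · intro b _ hb
        refine Finset.sum_eq_zero fun j _ => ?_
        rw [if_neg, mul_zero]
        intro h
        exact hb (Fin.ext h.symm)
      · intro h
        exact absurd (Finset.mem_univ _) h
    have h3 : IsAlgebraic κ t := ⟨p, hp0, hpt⟩
    have : Algebra.IsAlgebraic ℚ κ := inferInstance
    exact IsAlgebraic.restrictScalars ℚ h3
  have hSkf : (⋃ k ∈ Finset.univ, Sk k).Finite :=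
    Finset.univ.finite_toSet.biUnion fun k _ => hYf.subset fun a ha => ha.1
  have h3 := Set.ncard_le_ncard hsub (hSkf.union (Set.finite_singleton _))
  have h4 := Set.ncard_union_le (⋃ k ∈ Finset.univ, Sk k) {(0 : Ix D J → ℤ)}
  have h5 : (⋃ k ∈ Finset.univ, Sk k).ncard ≤ ∑ k : Fin N, (Sk k).ncard :=
    Finset.set_ncard_biUnion_le Finset.univ Sk
  rw [Set.ncard_singleton] at h4
  have h6 : (RelPoly ω U V w P δ D X).ncard ≤ ∑ k : Fin N, (Sk k).ncard + 1 := by omega
  exact_mod_cast h6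

end Pool.Agent.Helper79.AA
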