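import Pool.Agent.Helper79.AA.UDefs

/-!
# AA-13: the model of the universal root

`L` is the field of fractions of `S = κ[y_i, i ∈ Ix]`; `t = y_(i₀)`, `i₀ = (0, j₀)`, `a_i = y_i` for `i ≠ i₀` and
`a_(i₀) = - ω_(j₀)⁻¹ ∑_(i ≠ i₀) y_i ω_(i.2) t^(i.1)`, so that `∑ a_i ω_(i.2) t^(i.1) = 0`.
* Derivation: `D = τ ∂/∂y_(i₀)` extended to the fraction field, `τ = 1 / (∂ a_(i₀)/∂ y_(i₀))` (nonzero: it contains the monomial
  `y_(dg,j₀) t^(dg-1)`, as `dg ≥ 1`). Then `D a_(i₀) = 1`, `D a_i = 0` for `i ≠ i₀`, `D t = τ`. (Extension of a derivation to the fraction field: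
  see e.g. how `Pool.Agent.Helper79.GA` constructs derivations, `exists_ratx` in `GA`, or `Derivation.liftOfSurjective`,
  `Differential`; for a field extension of characteristic `0` one may also use a derivation of the fraction field
  built by the quotient rule.)
* `ind`: `L` is algebraic over `ℚ(a)` (`κ` is algebraic over `ℚ`, `t` is a root of the polynomial `∑ a_i ω_(i.2) X^(i.1)` over `κ(a)`,
  which is nonzero, and all `y_i` are in the field generated by `κ`, `a` and `t`), and the transcendence degree of `L` is the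
  number of elements of `Ix`, so the generating family `a` is algebraically independent. Or directly: a polynomial
  `P(a) = 0`, `P ≠ 0`; write `P = ∑_m P_m X_(i₀)^m`, top `m = n`; the coefficient of `t^(dg n)` in `P(a)` is
  `P_n (-(∑_j y_(dg,j) ω_j)/ω_(j₀))^n ≠ 0`, if the `P_n` do not contain `t`: right, they are polynomials in the `y_i`, `i ≠ i₀`.
* `quo`: elements of a fraction field. `gen`: if `P(t, a) = 0` then the polynomial `P(y_(i₀), (a_i(y)))` is zero (`S → L` is
  injective), so it vanishes for the values `y_i = a'_i`, `i ≠ i₀`, `y_(i₀) = t'`, and then `a_(i₀)(y) = a'_(i₀)` because of `Fv ω a' t' = 0`.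
  (`P(t, a)` is a polynomial in `y` as the `a_i` are.)
-/

open Polynomial

namespace Pool.Agent.Helper79.AA

open Pool.Agent.Helper79.GX Pool.Agent.Helper64.Per

/-- Extension of a derivation of a domain to its fraction field. -/
private theorem mod0_frac_ext {k A F : Type} [Field k] [CommRing A] [Field F] [Algebra k A]
    [Algebra k F] [Algebra A F] [IsScalarTower k A F] [IsDomain A] [IsFractionRing A F]
    (d : Derivation k A F) :
    ∃ D' : Derivation k F F, ∀ a, D' (algebraMap A F a) = d a := by
  have hE : Algebra.FormallyEtale A F := .of_isLocalization (nonZeroDivisors A)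
  let e := KaehlerDifferential.tensorKaehlerEquivOfFormallyEtale k A F
  let g : _ →ₗ[F] F := (LinearMap.liftBaseChange F d.liftKaehlerDifferential).comp
    e.symm.toLinearMap
  refine ⟨g.compDer (KaehlerDifferential.D k F), fun a => ?_⟩
  change LinearMap.liftBaseChange F d.liftKaehlerDifferential
      (e.symm (KaehlerDifferential.D k F _)) = _
  rw [KaehlerDifferential.tensorKaehlerEquivOfFormallyEtale_symm_D_algebraMap]
  simp

private theorem mod0_indep {κ : Type} [Field κ] {σ : Type} [Fintype σ] [DecidableEq σ]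
    (aS : σ → MvPolynomial σ κ) (i₀ : σ) (h : ∀ i, i ≠ i₀ → aS i = MvPolynomial.X i)
    (e : σ → ℕ) (w : σ → κ)
    (heq : ∑ i, aS i * MvPolynomial.C (w i) * MvPolynomial.X i₀ ^ e i = 0)
    (i₁ : σ) (hi₁ : i₁ ≠ i₀) (he : 0 < e i₁) (he0 : e i₀ = 0) (hw : w i₁ ≠ 0) :
    AlgebraicIndependent κ aS := by
  have hX : ∀ i : σ, IsAlgebraic (Algebra.adjoin κ (Set.range aS))
      (MvPolynomial.X i : MvPolynomial σ κ) := by
    intro i
    by_cases hi : i = i₀
    · subst hi
      have hm : ∀ j, aS j * MvPolynomial.C (w j) ∈ Algebra.adjoin κ (Set.range aS) := by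
        intro j
        refine Subalgebra.mul_mem _ (Algebra.subset_adjoin ⟨j, rfl⟩) ?_
        exact (Algebra.adjoin κ (Set.range aS)).algebraMap_mem (w j)
      refine ⟨∑ j, C (⟨aS j * MvPolynomial.C (w j), hm j⟩ :
        Algebra.adjoin κ (Set.range aS)) * X ^ e j, ?_, ?_⟩
      · intro h0
        have h1 := congrArg (fun p => ((p.coeff (e i₁) : Algebra.adjoin κ (Set.range aS)) :
          MvPolynomial σ κ)) h0
        simp only [finsetSum_coeff, coeff_C_mul, coeff_X_pow, coeff_zero] at h1
        rw [AddSubmonoidClass.coe_finsetSum] at h1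
        have h2 := congrArg (MvPolynomial.coeff (Finsupp.single i₁ 1)) h1
        rw [MvPolynomial.coeff_sum, Finset.sum_eq_single i₁] at h2
        · simp only [if_true, mul_one, ZeroMemClass.coe_zero, MvPolynomial.coeff_zero] at h2
          rw [h i₁ hi₁, mul_comm, MvPolynomial.coeff_C_mul, MvPolynomial.coeff_X] at h2
          exact hw (by simpa using h2)
        · intro j _ hj
          by_cases hje : e i₁ = e j
          · have hji : j ≠ i := by
              rintro rfl
              omega
            simp only [if_pos hje, mul_one]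
            rw [h j hji, mul_comm, MvPolynomial.coeff_C_mul, MvPolynomial.coeff_X]
            rw [if_neg, mul_zero]
            intro hs
            exact hj (Finsupp.single_left_injective one_ne_zero hs)
          · simp only [if_neg hje, mul_zero, ZeroMemClass.coe_zero, MvPolynomial.coeff_zero]
        · intro hn
          exact absurd (Finset.mem_univ _) hn
      · rw [map_sum]
        rw [← heq]
        refine Finset.sum_congr rfl fun j _ => ?_
        rw [map_mul, aeval_C, map_pow, aeval_X]
        rfl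
    · rw [← h i hi]
      exact isAlgebraic_algebraMap (⟨aS i, Algebra.subset_adjoin ⟨i, rfl⟩⟩ :
        Algebra.adjoin κ (Set.range aS))
  have hall : ∀ p : MvPolynomial σ κ, IsAlgebraic (Algebra.adjoin κ (Set.range aS)) p := by
    intro p
    induction p using MvPolynomial.induction_on with
    | C c => exact isAlgebraic_algebraMap (⟨MvPolynomial.C c,
        (Algebra.adjoin κ (Set.range aS)).algebraMap_mem c⟩ : Algebra.adjoin κ (Set.range aS))
    | add p q hp hq => exact hp.add hq
    | mul_X p i hp => exact hp.mul (hX i)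
  have halg : Algebra.IsAlgebraic (Algebra.adjoin κ (Set.range aS)) (MvPolynomial σ κ) := ⟨hall⟩
  refine (Algebra.IsAlgebraic.isTranscendenceBasis_of_le_trdeg_of_finite κ aS ?_).1
  rw [MvPolynomial.trdeg_of_isDomain]
  simp

private theorem mod0_core {κ : Type} [Field κ] [CharZero κ] [Algebra κ ℂ] {σ : Type} [Fintype σ]
    [DecidableEq σ] (i₀ i₁ : σ) (hi₁ : i₁ ≠ i₀) (e : σ → ℕ) (w : σ → κ) (he0 : e i₀ = 0)
    (he1 : 0 < e i₁) (hw0 : w i₀ ≠ 0) (hw1 : w i₁ ≠ 0) (L : Type) [Field L] [CharZero L]
    [Algebra κ L] [Algebra (MvPolynomial σ κ) L] [IsScalarTower κ (MvPolynomial σ κ) L]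
    [IsFractionRing (MvPolynomial σ κ) L] :
    ∃ (D : Derivation ℚ L L) (t : L) (a : σ → L), AlgebraicIndependent ℚ a ∧
      Transcendental κ t ∧ ∑ i, a i * algebraMap κ L (w i) * t ^ e i = 0 ∧
      (∀ c, D (algebraMap κ L c) = 0) ∧ (∀ i, D (a i) = if i = i₀ then 1 else 0) ∧
      (∀ f : L, ∃ P Q : MvPolynomial (Option σ) κ,
        MvPolynomial.aeval (fun o => o.elim t a) Q ≠ 0 ∧
        f = MvPolynomial.aeval (fun o => o.elim t a) P /
          MvPolynomial.aeval (fun o => o.elim t a) Q) ∧
      ∀ P : MvPolynomial (Option σ) κ, MvPolynomial.aeval (fun o => o.elim t a) P = 0 →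
        ∀ (t' : ℂ) (a' : σ → ℂ), ∑ i, a' i * algebraMap κ ℂ (w i) * t' ^ e i = 0 →
          MvPolynomial.aeval (fun o => o.elim t' a') P = 0 := by
  classical
  let A0 : (MvPolynomial σ κ) := -(MvPolynomial.C (w i₀)⁻¹) * ∑ j ∈ Finset.univ.erase i₀,
    MvPolynomial.X j * MvPolynomial.C (w j) * MvPolynomial.X i₀ ^ e j
  let aS : σ → (MvPolynomial σ κ) := fun i => if i = i₀ then A0 else MvPolynomial.X i
  have haS : ∀ i, i ≠ i₀ → aS i = MvPolynomial.X i := fun i hi => if_neg hi
  have haS0 : aS i₀ = A0 := if_pos rfl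
  have heqS : ∑ i, aS i * MvPolynomial.C (w i) * MvPolynomial.X i₀ ^ e i = 0 := by
    rw [← Finset.add_sum_erase Finset.univ _ (Finset.mem_univ i₀)]
    have h1 : ∑ i ∈ Finset.univ.erase i₀, aS i * MvPolynomial.C (w i) *
        MvPolynomial.X i₀ ^ e i = ∑ j ∈ Finset.univ.erase i₀,
        MvPolynomial.X j * MvPolynomial.C (w j) * MvPolynomial.X i₀ ^ e j :=
      Finset.sum_congr rfl fun i hi => by rw [haS i (Finset.ne_of_mem_erase hi)]
    rw [h1, haS0, he0, pow_zero, mul_one]
    have h2 : (MvPolynomial.C (w i₀)⁻¹ : (MvPolynomial σ κ)) * MvPolynomial.C (w i₀) = 1 := by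
      rw [← MvPolynomial.C_mul, inv_mul_cancel₀ hw0, MvPolynomial.C_1]
    change (-(MvPolynomial.C (w i₀)⁻¹) * ∑ j ∈ Finset.univ.erase i₀,
      MvPolynomial.X j * MvPolynomial.C (w j) * MvPolynomial.X i₀ ^ e j) *
      MvPolynomial.C (w i₀) + _ = (0 : (MvPolynomial σ κ))
    linear_combination (-(∑ j ∈ Finset.univ.erase i₀,
      MvPolynomial.X j * MvPolynomial.C (w j) * MvPolynomial.X i₀ ^ e j : (MvPolynomial σ κ))) * h2
  have hpd : MvPolynomial.pderiv i₀ (aS i₀) ≠ 0 := by
    intro h0
    have h1 := congrArg (MvPolynomial.eval (fun i => if i = i₀ then (1 : κ) else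
      if i = i₁ then 1 else 0)) h0
    rw [haS0, map_zero] at h1
    change MvPolynomial.eval _ (MvPolynomial.pderiv i₀ (-(MvPolynomial.C (w i₀)⁻¹) *
      ∑ j ∈ Finset.univ.erase i₀, MvPolynomial.X j * MvPolynomial.C (w j) *
      MvPolynomial.X i₀ ^ e j)) = 0 at h1
    rw [← MvPolynomial.C_neg, MvPolynomial.pderiv_C_mul, map_sum, map_mul,
      MvPolynomial.eval_C, map_sum, Finset.sum_eq_single i₁] at h1
    · rw [Derivation.leibniz, Derivation.leibniz, MvPolynomial.pderiv_C,
        MvPolynomial.pderiv_X_of_ne hi₁, Derivation.leibniz_pow, MvPolynomial.pderiv_X_self] at h1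
      simp only [smul_eq_mul, nsmul_eq_mul, mul_zero, add_zero, mul_one, map_mul,
        MvPolynomial.eval_X, MvPolynomial.eval_C, map_natCast, map_pow, if_neg hi₁, if_true,
        one_pow, one_mul] at h1
      have h3 : ((e i₁ : ℕ) : κ) ≠ 0 := Nat.cast_ne_zero.2 (by omega)
      have h4 : w i₁ ≠ 0 := hw1
      have h5 : (w i₀)⁻¹ ≠ 0 := inv_ne_zero hw0
      rcases mul_eq_zero.1 h1 with h | h
      · exact h5 (neg_eq_zero.1 h)
      · rcases mul_eq_zero.1 h with h | h
        · first
            | exact h4 h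
            | exact h3 h
        · first
            | exact h4 h
            | exact h3 h
    · intro j hj hj1
      have hj0 := Finset.ne_of_mem_erase hj
      rw [Derivation.leibniz, Derivation.leibniz, MvPolynomial.pderiv_C,
        MvPolynomial.pderiv_X_of_ne hj0]
      simp [hj0, hj1]
    · intro hn
      exact absurd (Finset.mem_erase.2 ⟨hi₁, Finset.mem_univ _⟩) hn
  have hinj : Function.Injective (algebraMap (MvPolynomial σ κ) L) := IsFractionRing.injective (MvPolynomial σ κ) L
  let d : Derivation κ (MvPolynomial σ κ) L := (Algebra.linearMap (MvPolynomial σ κ) L).compDer (MvPolynomial.pderiv i₀)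
  obtain ⟨D₀, hD₀⟩ := mod0_frac_ext d
  have hd : ∀ s : (MvPolynomial σ κ), d s = algebraMap (MvPolynomial σ κ) L (MvPolynomial.pderiv i₀ s) := fun s => rfl
  let τ : L := (algebraMap (MvPolynomial σ κ) L (MvPolynomial.pderiv i₀ (aS i₀)))⁻¹
  let D : Derivation ℚ L L := (τ • D₀).restrictScalars ℚ
  have hDval : ∀ s : (MvPolynomial σ κ), D (algebraMap (MvPolynomial σ κ) L s) =
      τ * algebraMap (MvPolynomial σ κ) L (MvPolynomial.pderiv i₀ s) := by
    intro s
    change τ • D₀ (algebraMap (MvPolynomial σ κ) L s) = _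
    rw [hD₀, hd, smul_eq_mul]
  let t : L := algebraMap (MvPolynomial σ κ) L (MvPolynomial.X i₀)
  let a : σ → L := fun i => algebraMap (MvPolynomial σ κ) L (aS i)
  have hind : AlgebraicIndependent κ aS := mod0_indep aS i₀ haS e w heqS i₁ hi₁
    he1 he0 hw1
  have hev : ∀ P : MvPolynomial (Option σ) κ,
      MvPolynomial.aeval (fun o => o.elim t a) P = algebraMap (MvPolynomial σ κ) L
        (MvPolynomial.aeval (fun o => o.elim (MvPolynomial.X i₀) aS) P) := by
    intro P
    have h1 : (MvPolynomial.aeval (fun o : Option σ => o.elim t a) :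
        MvPolynomial (Option σ) κ →ₐ[κ] L) = (IsScalarTower.toAlgHom κ (MvPolynomial σ κ) L).comp
          (MvPolynomial.aeval (fun o : Option σ => o.elim (MvPolynomial.X i₀) aS)) := by
      refine MvPolynomial.algHom_ext fun o => ?_
      rw [AlgHom.comp_apply, MvPolynomial.aeval_X, MvPolynomial.aeval_X]
      cases o <;> rfl
    rw [h1]
    rfl
  refine ⟨D, t, a, ?_⟩
  refine ⟨?_, ?_, ?_, ?_, ?_, ?_, ?_⟩
  · have h1 : AlgebraicIndependent κ a :=
      (hind.map' (f := IsScalarTower.toAlgHom κ (MvPolynomial σ κ) L) hinj)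
    exact h1.restrictScalars (algebraMap ℚ κ).injective
  · have h1 := (MvPolynomial.algebraicIndependent_X σ κ).transcendental i₀
    exact (transcendental_algebraMap_iff hinj).2 h1
  · have h1 := congrArg (algebraMap (MvPolynomial σ κ) L) heqS
    rw [map_sum, map_zero] at h1
    rw [← h1]
    refine Finset.sum_congr rfl fun i _ => ?_
    rw [map_mul, map_mul, map_pow, IsScalarTower.algebraMap_apply κ (MvPolynomial σ κ) L]
    rfl
  · intro c
    exact (τ • D₀).map_algebraMap c
  · intro i
    by_cases hi : i = i₀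
    · rw [if_pos hi, hi]
      change D (algebraMap (MvPolynomial σ κ) L (aS i₀)) = 1
      rw [hDval]
      exact inv_mul_cancel₀ (fun h0 => hpd (hinj (by rw [h0, map_zero])))
    · rw [if_neg hi]
      change D (algebraMap (MvPolynomial σ κ) L (aS i)) = 0
      rw [hDval, haS i hi, MvPolynomial.pderiv_X_of_ne hi, map_zero, mul_zero]
  · intro f
    have hren : ∀ s : (MvPolynomial σ κ), ∃ P : MvPolynomial (Option σ) κ,
        MvPolynomial.aeval (fun o => o.elim t a) P = algebraMap (MvPolynomial σ κ) L s := by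
      intro s
      refine ⟨MvPolynomial.aeval (fun i => if i = i₀ then MvPolynomial.X none else
        MvPolynomial.X (some i)) s, ?_⟩
      rw [hev]
      congr 1
      have h1 : (MvPolynomial.aeval (fun o : Option σ =>
          o.elim (MvPolynomial.X i₀) aS)).comp (MvPolynomial.aeval (fun i : σ =>
          if i = i₀ then (MvPolynomial.X none : MvPolynomial (Option σ) κ) else
            MvPolynomial.X (some i))) = AlgHom.id κ (MvPolynomial σ κ) := by
        refine MvPolynomial.algHom_ext fun i => ?_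
        rw [AlgHom.comp_apply, MvPolynomial.aeval_X, AlgHom.id_apply]
        by_cases hi : i = i₀
        · rw [if_pos hi, MvPolynomial.aeval_X, hi]
          rfl
        · rw [if_neg hi, MvPolynomial.aeval_X]
          exact haS i hi
      exact DFunLike.congr_fun h1 s
    obtain ⟨p, q, hq, rfl⟩ := IsFractionRing.div_surjective (A := (MvPolynomial σ κ)) f
    obtain ⟨P, hP⟩ := hren p
    obtain ⟨Q, hQ⟩ := hren q
    refine ⟨P, Q, ?_, by rw [hP, hQ]⟩
    rw [hQ]
    exact IsFractionRing.to_map_ne_zero_of_mem_nonZeroDivisors hq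
  · intro P hP t' a' hF
    rw [hev] at hP
    have hP0 := hinj (hP.trans (map_zero _).symm)
    let φ : MvPolynomial σ κ →ₐ[κ] ℂ := MvPolynomial.aeval (fun i => if i = i₀ then t' else a' i)
    have hφX : φ (MvPolynomial.X i₀) = t' := by
      change MvPolynomial.aeval _ _ = _
      rw [MvPolynomial.aeval_X, if_pos rfl]
    have hφi : ∀ i, i ≠ i₀ → φ (MvPolynomial.X i) = a' i := by
      intro i hi
      change MvPolynomial.aeval _ _ = _
      rw [MvPolynomial.aeval_X, if_neg hi]
    have hφC : ∀ c : κ, φ (MvPolynomial.C c) = algebraMap κ ℂ c := fun c =>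
      MvPolynomial.aeval_C _ c
    have hφ0 : φ (aS i₀) = a' i₀ := by
      have h1 := congrArg φ heqS
      rw [map_sum, map_zero, ← Finset.add_sum_erase Finset.univ _ (Finset.mem_univ i₀)] at h1
      have h2 := hF
      rw [← Finset.add_sum_erase Finset.univ _ (Finset.mem_univ i₀)] at h2
      have h3 : ∑ i ∈ Finset.univ.erase i₀, φ (aS i * MvPolynomial.C (w i) *
          MvPolynomial.X i₀ ^ e i) = ∑ i ∈ Finset.univ.erase i₀,
          a' i * algebraMap κ ℂ (w i) * t' ^ e i := by
        refine Finset.sum_congr rfl fun i hi => ?_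
        rw [haS i (Finset.ne_of_mem_erase hi), map_mul, map_mul, map_pow, hφX, hφC,
          hφi i (Finset.ne_of_mem_erase hi)]
      rw [h3, map_mul, map_mul, map_pow, hφX, hφC, he0, pow_zero, mul_one] at h1
      rw [he0, pow_zero, mul_one] at h2
      have h5 : algebraMap κ ℂ (w i₀) ≠ 0 := fun h0 => hw0
        ((algebraMap κ ℂ).injective (h0.trans (map_zero _).symm))
      have h6 : φ (aS i₀) * algebraMap κ ℂ (w i₀) = a' i₀ * algebraMap κ ℂ (w i₀) := by
        linear_combination h1 - h2
      exact mul_right_cancel₀ h5 h6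
    have h7 : φ.comp (MvPolynomial.aeval (fun o : Option σ =>
        o.elim (MvPolynomial.X i₀) aS)) = MvPolynomial.aeval (fun o => o.elim t' a') := by
      refine MvPolynomial.algHom_ext fun o => ?_
      rw [AlgHom.comp_apply, MvPolynomial.aeval_X, MvPolynomial.aeval_X]
      cases o with
      | none => exact hφX
      | some i =>
        change φ (aS i) = a' i
        by_cases hi : i = i₀
        · rw [hi, hφ0]
        · rw [haS i hi, hφi i hi]
    rw [← h7, AlgHom.comp_apply, hP0, map_zero]

theorem exists_mod0 {κ : IntermediateField ℚ Qbar} [FiniteDimensional ℚ κ] {J : Type} [Fintype J]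
    [DecidableEq J] {ω : J → κ} (hω : ∀ j, ω j ≠ 0) {dg : ℕ} (hdg : 1 ≤ dg) (j₀ : J) :
    ∃ (L : Type) (_ : Field L) (_ : CharZero L) (_ : Algebra κ L) (D : Derivation ℚ L L) (t : L)
      (a : Ix dg J → L), Mod0 ω dg j₀ D t a := by
  classical
  have hch : CharZero (FractionRing (MvPolynomial (Ix dg J) κ)) :=
    charZero_of_injective_algebraMap
      (algebraMap κ (FractionRing (MvPolynomial (Ix dg J) κ))).injective
  obtain ⟨D, t, a, h1, h2, h3, h4, h5, h6, h7⟩ := mod0_core (κ := κ) (σ := Ix dg J) (0, j₀)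
    (Fin.last dg, j₀) (by
      intro h
      have h1 := congrArg (fun i : Ix dg J => (i.1 : ℕ)) h
      simp only [Fin.val_last, Fin.val_zero] at h1
      omega) (fun i => (i.1 : ℕ)) (fun i => ω i.2) rfl
    (by
      change 0 < ((Fin.last dg : Fin (dg + 1)) : ℕ)
      rw [Fin.val_last]
      omega) (hω j₀) (hω j₀)
    (FractionRing (MvPolynomial (Ix dg J) κ))
  exact ⟨FractionRing (MvPolynomial (Ix dg J) κ), inferInstance, hch, inferInstance, D, t, a,
    ⟨h1, h2, h3, h4, h5, h6, h7⟩⟩

end Pool.Agent.Helper79.AA
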