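import Mathlib

/-!
# AA-22: linear differential equations on a disc

* `exists_ode`: `L(t₀ + h) = ∑ L_k h^k` on the disc; `y = ∑ y_j h^j`, `(j+1) y_(j+1) = ∑_(k ≤ j) L_k y_(j-k)`, `y_0 = v`. For `ρ < r` there is `C` with
  `‖L_k‖ ≤ C ρ^(-k)` (Cauchy estimates), and then by induction the norm of `y_j` is at most the coefficient of index
  `j` of the solution `‖v‖ (1 - x/ρ)^(-n C ρ)` of `Y' = n C (1 - x/ρ)^(-1) Y` (`n` = number of components; or any cruder bound: for every
  `ρ' < ρ` the sequence `‖y_j‖ ρ'^j` is bounded: if `‖y_i‖ ρ'^i ≤ B` for `i ≤ j` then `(j+1) ‖y_(j+1)‖ ρ'^(j+1) ≤ n C ρ' B / (1 - ρ'/ρ)`, so for `j` large the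
  bound `B` is preserved). So the series converges on the disc of radius `r`, and the
  derivative is computed term by term. (Any other proof is fine: Picard iteration on closed discs, uniqueness gives the
  extension.)
* `ode_unique`: the set of the `t` where all derivatives of `y - y'` vanish is open and closed; or: at a point where
  `y = y'` all derivatives agree by induction from the differential equation; then the identity theorem
  `AnalyticOnNhd.eqOn_of_preconnected_of_eventuallyEq`.
-/

namespace Pool.Agent.Helper79.AA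

open Finset

/-- The coefficients of the solution. -/
noncomputable def odeCoef {β : Type} [Fintype β] (a : β → β → ℕ → ℂ) (v : β → ℂ) :
    ℕ → β → ℂ
  | 0 => v
  | j + 1 => fun i => (((j : ℂ) + 1))⁻¹ * ∑ k : Fin (j + 1), ∑ l, a i l k *
      odeCoef a v (j - k) l
  termination_by j => j

theorem odeCoef_zero {β : Type} [Fintype β] (a : β → β → ℕ → ℂ) (v : β → ℂ) :
    odeCoef a v 0 = v := by
  rw [odeCoef]

theorem odeCoef_succ {β : Type} [Fintype β] (a : β → β → ℕ → ℂ) (v : β → ℂ) (j : ℕ) (i : β) :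
    ((j : ℂ) + 1) * odeCoef a v (j + 1) i =
      ∑ k ∈ range (j + 1), ∑ l, a i l k * odeCoef a v (j - k) l := by
  rw [odeCoef]
  have h : ((j : ℂ) + 1) ≠ 0 := by exact_mod_cast Nat.succ_ne_zero j
  rw [mul_inv_cancel_left₀ h]
  rw [Finset.sum_range]

theorem odeExt_bound {β : Type} [Fintype β] (a : β → β → ℕ → ℂ) (v : β → ℂ) {ρ' ρ C : ℝ}
    (h0 : 0 < ρ') (h1 : ρ' < ρ) (hC : 0 ≤ C) (ha : ∀ i l k, ‖a i l k‖ * ρ ^ k ≤ C) :
    ∃ B : ℝ, 0 ≤ B ∧ ∀ j i, ‖odeCoef a v j i‖ * ρ' ^ j ≤ B := by
  have hρ : 0 < ρ := h0.trans h1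
  set q : ℝ := ρ' / ρ with hq
  have hq0 : 0 ≤ q := by positivity
  have hq1 : q < 1 := by rw [hq, div_lt_one hρ]; exact h1
  have h1q : 0 < 1 - q := by linarith
  set n : ℝ := (Fintype.card β : ℝ) with hn
  have hn0 : 0 ≤ n := by positivity
  obtain ⟨N, hN⟩ := exists_nat_ge (n * C * ρ' / (1 - q))
  set B : ℝ := ∑ j ∈ range (N + 1), ∑ i, ‖odeCoef a v j i‖ * ρ' ^ j with hB
  have hB0 : 0 ≤ B := by
    apply Finset.sum_nonneg; intro j _; apply Finset.sum_nonneg; intro i _; positivity
  refine ⟨B, hB0, ?_⟩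
  intro j
  induction j using Nat.strong_induction_on with
  | _ j ih =>
    intro i
    by_cases hj : j < N + 1
    · calc ‖odeCoef a v j i‖ * ρ' ^ j ≤ ∑ i, ‖odeCoef a v j i‖ * ρ' ^ j :=
            Finset.single_le_sum (f := fun i => ‖odeCoef a v j i‖ * ρ' ^ j)
              (fun i _ => by positivity) (Finset.mem_univ i)
        _ ≤ B := Finset.single_le_sum
              (f := fun j => ∑ i, ‖odeCoef a v j i‖ * ρ' ^ j)
              (fun j _ => Finset.sum_nonneg (fun i _ => by positivity)) (Finset.mem_range.2 hj)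
    · obtain ⟨m, rfl⟩ : ∃ m, j = m + 1 := ⟨j - 1, by omega⟩
      have hmN : N ≤ m := by omega
      have hm1 : (0 : ℝ) < (m : ℝ) + 1 := by positivity
      have hkey : ((m : ℝ) + 1) * (‖odeCoef a v (m + 1) i‖ * ρ' ^ (m + 1)) ≤
          ((m : ℝ) + 1) * B := by
        have h2 : ((m : ℝ) + 1) * ‖odeCoef a v (m + 1) i‖ =
            ‖∑ k ∈ range (m + 1), ∑ l, a i l k * odeCoef a v (m - k) l‖ := by
          rw [← odeCoef_succ, norm_mul]
          congr 1
          have : ((m : ℂ) + 1) = (((m : ℝ) + 1 : ℝ) : ℂ) := by push_cast; ring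
          rw [this, Complex.norm_real, Real.norm_eq_abs, abs_of_pos hm1]
        have h3 : ‖∑ k ∈ range (m + 1), ∑ l, a i l k * odeCoef a v (m - k) l‖ ≤
            ∑ k ∈ range (m + 1), ∑ l, ‖a i l k‖ * ‖odeCoef a v (m - k) l‖ := by
          refine (norm_sum_le _ _).trans (Finset.sum_le_sum fun k _ => ?_)
          refine (norm_sum_le _ _).trans (Finset.sum_le_sum fun l _ => ?_)
          rw [norm_mul]
        have h4 : (∑ k ∈ range (m + 1), ∑ l, ‖a i l k‖ * ‖odeCoef a v (m - k) l‖) *
            ρ' ^ (m + 1) ≤ ∑ k ∈ range (m + 1), n * C * ρ' * B * q ^ k := by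
          rw [Finset.sum_mul]
          refine Finset.sum_le_sum fun k hk => ?_
          have hkm : k ≤ m := by rw [Finset.mem_range] at hk; omega
          rw [Finset.sum_mul]
          calc ∑ l, ‖a i l k‖ * ‖odeCoef a v (m - k) l‖ * ρ' ^ (m + 1)
              ≤ ∑ l : β, C * ρ' * B * q ^ k := by
                refine Finset.sum_le_sum fun l _ => ?_
                have e1 : ρ' ^ (m + 1) = ρ' * ρ' ^ k * ρ' ^ (m - k) := by
                  rw [mul_assoc, ← pow_add, Nat.add_sub_cancel' hkm, pow_succ]; ring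
                have e2 : ρ' ^ k = q ^ k * ρ ^ k := by
                  rw [← mul_pow, hq, div_mul_cancel₀ _ hρ.ne']
                have e3 : ‖a i l k‖ * ‖odeCoef a v (m - k) l‖ * ρ' ^ (m + 1) =
                    (‖a i l k‖ * ρ ^ k) * (‖odeCoef a v (m - k) l‖ * ρ' ^ (m - k)) *
                      (ρ' * q ^ k) := by
                  rw [e1, e2]; ring
                rw [e3]
                have e4 := ha i l k
                have e5 := ih (m - k) (by omega) l
                calc (‖a i l k‖ * ρ ^ k) * (‖odeCoef a v (m - k) l‖ * ρ' ^ (m - k)) *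
                      (ρ' * q ^ k) ≤ C * B * (ρ' * q ^ k) := by
                      apply mul_le_mul_of_nonneg_right _ (by positivity)
                      exact mul_le_mul e4 e5 (by positivity) hC
                  _ = C * ρ' * B * q ^ k := by ring
            _ = n * C * ρ' * B * q ^ k := by
                rw [Finset.sum_const, Finset.card_univ, nsmul_eq_mul, hn]; ring
        have h5 : ∑ k ∈ range (m + 1), n * C * ρ' * B * q ^ k ≤ n * C * ρ' * B / (1 - q) := by
          rw [← Finset.mul_sum, div_eq_mul_inv]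
          apply mul_le_mul_of_nonneg_left _ (by positivity)
          rw [← tsum_geometric_of_lt_one hq0 hq1]
          exact (summable_geometric_of_lt_one hq0 hq1).sum_le_tsum _ (fun k _ => by positivity)
        calc ((m : ℝ) + 1) * (‖odeCoef a v (m + 1) i‖ * ρ' ^ (m + 1))
            = (((m : ℝ) + 1) * ‖odeCoef a v (m + 1) i‖) * ρ' ^ (m + 1) := by ring
          _ ≤ (∑ k ∈ range (m + 1), ∑ l, ‖a i l k‖ * ‖odeCoef a v (m - k) l‖) *
              ρ' ^ (m + 1) := by
              rw [h2]
              exact mul_le_mul_of_nonneg_right h3 (by positivity)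
          _ ≤ n * C * ρ' * B / (1 - q) := h4.trans h5
          _ = n * C * ρ' / (1 - q) * B := by ring
          _ ≤ ((m : ℝ) + 1) * B := by
              apply mul_le_mul_of_nonneg_right _ hB0
              have : (N : ℝ) ≤ m := by exact_mod_cast hmN
              linarith
      exact le_of_mul_le_mul_left hkey hm1

theorem exists_ode {β : Type} [Fintype β] {t₀ : ℂ} {r : ℝ} (hr : 0 < r)
    {L : β → β → ℂ → ℂ} (hL : ∀ i j, AnalyticOnNhd ℂ (L i j) (Metric.ball t₀ r)) (v : β → ℂ) :
    ∃ y : ℂ → β → ℂ, (∀ i, AnalyticOnNhd ℂ (fun t => y t i) (Metric.ball t₀ r)) ∧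
      (∀ t ∈ Metric.ball t₀ r, ∀ i, deriv (fun t => y t i) t = ∑ l, L i l t * y t l) ∧
      y t₀ = v := by
  classical
  set a : β → β → ℕ → ℂ := fun i l k => ((k.factorial : ℂ))⁻¹ * iteratedDeriv k (L i l) t₀
    with ha
  have hser : ∀ i l, ∀ z ∈ Metric.ball t₀ r, HasSum (fun k => a i l k * (z - t₀) ^ k)
      (L i l z) := by
    intro i l z hz
    have := Complex.hasSum_taylorSeries_on_ball (f := L i l) (c := t₀) (r := r)
      (hL i l).differentiableOn hz
    have he : (fun k => a i l k * (z - t₀) ^ k) =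
        (fun n : ℕ => ((n.factorial : ℂ))⁻¹ • (z - t₀) ^ n • iteratedDeriv n (L i l) t₀) := by
      funext k
      simp only [ha, smul_eq_mul]
      ring
    rw [he]
    exact this
  have hbd : ∀ ρ, 0 < ρ → ρ < r → ∃ C : ℝ, 0 ≤ C ∧ ∀ i l k, ‖a i l k‖ * ρ ^ k ≤ C := by
    intro ρ h0 h1
    have hz : t₀ + (ρ : ℂ) ∈ Metric.ball t₀ r := by
      rw [mem_ball_iff_norm, add_sub_cancel_left, Complex.norm_real, Real.norm_eq_abs,
        abs_of_pos h0]
      exact h1
    have h2 : ∀ i l, ∃ C : ℝ, ∀ k, ‖a i l k‖ * ρ ^ k ≤ C := by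
      intro i l
      have h3 := (hser i l _ hz).summable.tendsto_atTop_zero
      have h4 := h3.norm.bddAbove_range
      obtain ⟨C, hC⟩ := h4
      refine ⟨C, fun k => ?_⟩
      have := hC ⟨k, rfl⟩
      simpa [abs_of_pos h0] using this
    choose C hC using h2
    refine ⟨∑ i, ∑ l, |C i l|, by positivity, fun i l k => ?_⟩
    calc ‖a i l k‖ * ρ ^ k ≤ C i l := hC i l k
      _ ≤ |C i l| := le_abs_self _
      _ ≤ ∑ l, |C i l| := Finset.single_le_sum (f := fun l => |C i l|)
          (fun _ _ => abs_nonneg _) (Finset.mem_univ l)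
      _ ≤ ∑ i, ∑ l, |C i l| := Finset.single_le_sum (f := fun i => ∑ l, |C i l|)
          (fun _ _ => Finset.sum_nonneg fun _ _ => abs_nonneg _) (Finset.mem_univ i)
  set c : ℕ → β → ℂ := odeCoef a v with hc
  -- local summability
  have hloc : ∀ t ∈ Metric.ball t₀ r, ∃ s, t ∈ Metric.ball t₀ s ∧ s < r ∧ ∃ u : ℕ → ℝ, Summable u ∧
      ∀ i j, ∀ w ∈ Metric.ball t₀ s, ‖c j i * (w - t₀) ^ j‖ ≤ u j := by
    intro t ht
    rw [mem_ball_iff_norm] at ht
    obtain ⟨s, hs1, hs2⟩ := exists_between ht
    have hs0 : 0 < s := (norm_nonneg _).trans_lt hs1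
    obtain ⟨ρ', h1, h2⟩ := exists_between hs2
    obtain ⟨ρ, h3, h4⟩ := exists_between h2
    have hρ' : 0 < ρ' := hs0.trans h1
    obtain ⟨C, hC0, hC⟩ := hbd ρ (hρ'.trans h3) h4
    obtain ⟨B, hB0, hB⟩ := odeExt_bound a v hρ' h3 hC0 hC
    refine ⟨s, by rw [mem_ball_iff_norm]; exact hs1, hs2, fun j => B * (s / ρ') ^ j, ?_, ?_⟩
    · apply Summable.mul_left
      apply summable_geometric_of_lt_one (by positivity)
      rw [div_lt_one hρ']; exact h1
    · intro i j w hw
      rw [mem_ball_iff_norm] at hw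
      show ‖c j i * (w - t₀) ^ j‖ ≤ B * (s / ρ') ^ j
      rw [norm_mul, norm_pow, div_pow]
      calc ‖c j i‖ * ‖w - t₀‖ ^ j ≤ ‖c j i‖ * s ^ j := by
            apply mul_le_mul_of_nonneg_left _ (norm_nonneg _)
            exact pow_le_pow_left₀ (norm_nonneg _) hw.le _
        _ = (‖c j i‖ * ρ' ^ j) * (s ^ j / ρ' ^ j) := by
            field_simp
        _ ≤ B * (s ^ j / ρ' ^ j) := by
            apply mul_le_mul_of_nonneg_right (hB j i) (by positivity)
  set y : ℂ → β → ℂ := fun t i => ∑' j, c j i * (t - t₀) ^ j with hy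
  have hdiff : ∀ i j, Differentiable ℂ (fun w : ℂ => c j i * (w - t₀) ^ j) := by
    intro i j
    fun_prop
  refine ⟨y, ?_, ?_, ?_⟩
  · intro i
    apply DifferentiableOn.analyticOnNhd _ Metric.isOpen_ball
    intro t ht
    obtain ⟨s, hs, -, u, hu, hu'⟩ := hloc t ht
    have := Complex.differentiableOn_tsum_of_summable_norm (F := fun j w => c j i * (w - t₀) ^ j)
      (U := Metric.ball t₀ s) hu (fun j => (hdiff i j).differentiableOn) Metric.isOpen_ball
      (fun j w hw => hu' i j w hw)
    exact ((this t hs).differentiableAt (Metric.isOpen_ball.mem_nhds hs)).differentiableWithinAt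
  · intro t ht i
    obtain ⟨s, hs, -, u, hu, hu'⟩ := hloc t ht
    have h1 := Complex.hasSum_deriv_of_summable_norm (F := fun j w => c j i * (w - t₀) ^ j)
      (U := Metric.ball t₀ s) hu (fun j => (hdiff i j).differentiableOn) Metric.isOpen_ball
      (fun j w hw => hu' i j w hw) hs
    have hd : ∀ j : ℕ, deriv (fun w : ℂ => c j i * (w - t₀) ^ j) t =
        c j i * ((j : ℂ) * (t - t₀) ^ (j - 1)) := by
      intro j
      have h2 : HasDerivAt (fun w : ℂ => c j i * (w - t₀) ^ j)
          (c j i * ((j : ℂ) * (t - t₀) ^ (j - 1) * 1)) t :=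
        (((hasDerivAt_id t).sub_const t₀).pow j).const_mul (c j i)
      rw [h2.deriv, mul_one]
    simp_rw [hd] at h1
    have h3 : HasSum (fun j : ℕ => c (j + 1) i * (((j + 1 : ℕ) : ℂ) * (t - t₀) ^ j))
        (deriv (fun w : ℂ => ∑' j, c j i * (w - t₀) ^ j) t) := by
      have := (hasSum_nat_add_iff' (f := fun j : ℕ => c j i * ((j : ℂ) * (t - t₀) ^ (j - 1))) 1).2 h1
      simpa using this
    have hsumc : ∀ l, Summable (fun j => ‖c j l * (t - t₀) ^ j‖) := fun l =>
      Summable.of_nonneg_of_le (fun _ => norm_nonneg _) (fun j => hu' l j t hs) hu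
    have h4 : HasSum (fun j : ℕ => ∑ l, ∑ k ∈ range (j + 1), (a i l k * (t - t₀) ^ k) *
        (c (j - k) l * (t - t₀) ^ (j - k))) (∑ l, L i l t * y t l) := by
      apply hasSum_sum
      intro l _
      have := hasSum_sum_range_mul_of_summable_norm (f := fun k => a i l k * (t - t₀) ^ k)
        (g := fun k => c k l * (t - t₀) ^ k) (hser i l t ht).summable.norm (hsumc l)
      rw [(hser i l t ht).tsum_eq] at this
      exact this
    have h5 : (fun j : ℕ => c (j + 1) i * (((j + 1 : ℕ) : ℂ) * (t - t₀) ^ j)) =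
        (fun j : ℕ => ∑ l, ∑ k ∈ range (j + 1), (a i l k * (t - t₀) ^ k) *
        (c (j - k) l * (t - t₀) ^ (j - k))) := by
      funext j
      rw [Finset.sum_comm]
      calc c (j + 1) i * (((j + 1 : ℕ) : ℂ) * (t - t₀) ^ j)
          = (((j : ℂ) + 1) * c (j + 1) i) * (t - t₀) ^ j := by push_cast; ring
        _ = (∑ k ∈ range (j + 1), ∑ l, a i l k * c (j - k) l) * (t - t₀) ^ j := by
            rw [hc, odeCoef_succ]
        _ = _ := by
            rw [Finset.sum_mul]
            refine Finset.sum_congr rfl fun k hk => ?_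
            rw [Finset.sum_mul]
            refine Finset.sum_congr rfl fun l _ => ?_
            have hkj : k ≤ j := by rw [Finset.mem_range] at hk; omega
            have : (t - t₀) ^ j = (t - t₀) ^ k * (t - t₀) ^ (j - k) := by
              rw [← pow_add, Nat.add_sub_cancel' hkj]
            rw [this]; ring
    rw [h5] at h3
    exact h3.unique h4
  · funext i
    simp only [hy, sub_self]
    rw [tsum_eq_single 0]
    · simp [hc, odeCoef_zero]
    · intro j hj
      rw [zero_pow hj, mul_zero]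

theorem ode_unique {β : Type} [Fintype β] {V : Set ℂ} (hV : IsOpen V) (hV' : IsPreconnected V)
    {L : β → β → ℂ → ℂ} (hL : ∀ i j, AnalyticOnNhd ℂ (L i j) V) {y y' : ℂ → β → ℂ}
    (hy : ∀ i, AnalyticOnNhd ℂ (fun t => y t i) V)
    (hy' : ∀ i, AnalyticOnNhd ℂ (fun t => y' t i) V)
    (h : ∀ t ∈ V, ∀ i, deriv (fun t => y t i) t = ∑ l, L i l t * y t l)
    (h' : ∀ t ∈ V, ∀ i, deriv (fun t => y' t i) t = ∑ l, L i l t * y' t l) {t₀ : ℂ}
    (ht : t₀ ∈ V) (h0 : y t₀ = y' t₀) : ∀ t ∈ V, y t = y' t := by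
  classical
  set d : β → ℂ → ℂ := fun i t => y t i - y' t i with hd
  have hda : ∀ i, AnalyticOnNhd ℂ (d i) V := fun i => (hy i).sub (hy' i)
  have hd0 : ∀ i, d i t₀ = 0 := fun i => by simp [hd, h0]
  have hode : ∀ i, ∀ t ∈ V, deriv (d i) t = ∑ l, L i l t * d l t := by
    intro i t htV
    have h1 : deriv (d i) t = deriv (fun t => y t i) t - deriv (fun t => y' t i) t :=
      deriv_fun_sub (hy i t htV).differentiableAt (hy' i t htV).differentiableAt
    rw [h1, h t htV i, h' t htV i, ← Finset.sum_sub_distrib]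
    refine Finset.sum_congr rfl fun l _ => ?_
    simp only [hd]; ring
  have key : ∀ n : ℕ, ∀ i, (n : ℕ∞) ≤ analyticOrderAt (d i) t₀ := by
    intro n
    induction n with
    | zero => intro i; simp
    | succ n ih =>
      intro i
      have h1 := (hda i t₀ ht).analyticOrderAt_deriv_add_one
      have h2 : (fun t => d i t - d i t₀) = d i := by funext t; rw [hd0]; ring
      rw [h2] at h1
      rw [← h1]
      push_cast
      gcongr
      have h3 : deriv (d i) =ᶠ[nhds t₀] (fun t => ∑ l, L i l t * d l t) := by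
        filter_upwards [hV.mem_nhds ht] with t htV using hode i t htV
      rw [analyticOrderAt_congr h3]
      have h4 : ∀ s : Finset β, (n : ℕ∞) ≤ analyticOrderAt (fun t => ∑ l ∈ s, L i l t * d l t) t₀ := by
        intro s
        induction s using Finset.induction_on with
        | empty =>
          simp only [Finset.sum_empty]
          have : analyticOrderAt (fun _ : ℂ => (0 : ℂ)) t₀ = ⊤ := by
            rw [analyticOrderAt_eq_top]; simp
          rw [this]; exact le_top
        | insert l s hl ihs =>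
          simp only [Finset.sum_insert hl]
          refine le_trans (le_min ?_ ihs) le_analyticOrderAt_add
          have h5 : analyticOrderAt (fun t => L i l t * d l t) t₀ =
              analyticOrderAt (L i l) t₀ + analyticOrderAt (d l) t₀ :=
            analyticOrderAt_mul (hL i l t₀ ht) (hda l t₀ ht)
          rw [h5]
          exact (ih l).trans le_add_self
      exact h4 _
  intro t htV
  funext i
  have h1 : analyticOrderAt (d i) t₀ = ⊤ := by
    by_contra hne
    obtain ⟨m, hm⟩ := ENat.ne_top_iff_exists.1 hne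
    have := key (m + 1) i
    rw [← hm] at this
    have : m + 1 ≤ m := by exact_mod_cast this
    omega
  rw [analyticOrderAt_eq_top] at h1
  have h2 : (fun t => y t i) =ᶠ[nhds t₀] (fun t => y' t i) := by
    filter_upwards [h1] with s hs
    exact sub_eq_zero.1 hs
  exact (hy i).eqOn_of_preconnected_of_eventuallyEq (hy' i) hV' ht h2 htV

end Pool.Agent.Helper79.AA
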