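import Pool.Agent.Helper79.AA.MBeta

/-!
# AA-24: the functions of a pencil

Let `w = ω_(j₀) ≠ 0` and `θ` a branch with `F_(a + s e)(θ(s)) = 0` on the disc of radius `R` (`e` the direction `(0, j₀)`). Differentiate:
`Fd(θ(s)) θ'(s) = - w` (`Fd` of `ptC a s` does not depend on `s`).
* `pen_sys`: `z_(γ,i)(s) = ω_γ θ(s)^(k_γ) y_i(θ(s))`. By `ident` at `(θ(s), ptC a s)` multiplied by `y_(i')(θ(s))` and summed over `i'`:
  `Θ (-w) [k_γ ω_γ θ^(k_γ-1) T y_i + ω_γ θ^(k_γ) ∑ A_(ii') y_i'] = Fd T ∑ M_((γ,i),(γ',i')) z_(γ',i')`, and `∑ A_(ii') y_i' = T y_i'(θ)` (the derivative), so after division by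
  `T(θ(s)) ≠ 0` and by `Fd ≠ 0` (using `- w / Fd = θ'`) we get `Θ z_(γ,i)' = ∑ M z`. `spec_aeval`.
-/

open Polynomial

namespace Pool.Agent.Helper79.AA

open Pool.Agent.Helper79.GX Pool.Agent.Helper64.Per

/-- The functions `ω_γ θ^(k_γ) y_i(θ)`. -/
noncomputable def pz {κ : IntermediateField ℚ Qbar} {J Γ β : Type} (ω : J → κ) (b : Γ → J × ℕ)
    (θ : ℂ → ℂ) (y : ℂ → β → ℂ) (s : ℂ) (p : Γ × β) : ℂ :=
  algebraMap κ ℂ (ω (b p.1).1) * θ s ^ (b p.1).2 * y (θ s) p.2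

section

variable {κ : IntermediateField ℚ Qbar} {J : Type} [Fintype J] [DecidableEq J]
  (ω : Module.Basis J ℚ κ) {dg : ℕ} {j₀ : J} {β : Type} [Fintype β] [DecidableEq β] {T : κ[X]}
  {A : Matrix β β κ[X]} (D : Uni (fun j => ω j) dg j₀ T A) {a : Ix dg J → ℤ} {R : ℝ}
  {θ : ℂ → ℂ} (hθ : AnalyticOnNhd ℂ θ (Metric.ball 0 R))
  (hF : ∀ s ∈ Metric.ball (0 : ℂ) R, Fv (fun j => ω j) (ptC (0, j₀) a s) (θ s) = 0) {t₁ : ℂ}
  {r : ℝ} (hmem : ∀ s ∈ Metric.ball (0 : ℂ) R, θ s ∈ Metric.ball t₁ r)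
  (hT : ∀ t ∈ Metric.ball t₁ r, aeval t T ≠ 0) {y : ℂ → β → ℂ}
  (hy : ∀ i, AnalyticOnNhd ℂ (fun t => y t i) (Metric.ball t₁ r))
  (hode : ∀ t ∈ Metric.ball t₁ r, ∀ i, aeval t T * deriv (fun t => y t i) t =
    ∑ l, aeval t (A i l) * y t l)

omit [DecidableEq β] [Fintype β] in
include hθ hF in
private theorem pen_der {s : ℂ} (hs : s ∈ Metric.ball (0 : ℂ) R) :
    Fd (fun j => ω j) (ptC (0, j₀) a s) (θ s) * deriv θ s = -(algebraMap κ ℂ (ω j₀)) := by
  have hθd : HasDerivAt θ (deriv θ s) s := (hθ s hs).differentiableAt.hasDerivAt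
  have hterm : ∀ i : Ix dg J, HasDerivAt
      (fun u : ℂ => ptC (0, j₀) a u i * algebraMap κ ℂ (ω i.2) * θ u ^ (i.1 : ℕ))
      ((if i = (0, j₀) then (1 : ℂ) else 0) * algebraMap κ ℂ (ω i.2) * θ s ^ (i.1 : ℕ) +
        ptC (0, j₀) a s i * algebraMap κ ℂ (ω i.2) *
          ((((i.1 : ℕ) : ℂ)) * θ s ^ ((i.1 : ℕ) - 1) * deriv θ s)) s := by
    intro i
    have h1 : HasDerivAt (fun u : ℂ => ptC (0, j₀) a u i)
        (if i = (0, j₀) then (1 : ℂ) else 0) s := by
      unfold ptC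
      by_cases hi : i = (0, j₀)
      · simp only [hi, if_true]
        simpa using (hasDerivAt_id s).const_add ((a (0, j₀) : ℤ) : ℂ)
      · simp only [hi, if_false, add_zero]
        exact hasDerivAt_const s _
    exact (h1.mul_const (algebraMap κ ℂ (ω i.2))).mul (hθd.pow (i.1 : ℕ))
  have hsum := HasDerivAt.fun_sum (u := Finset.univ) (fun i _ => hterm i)
  have hzero : HasDerivAt (fun u : ℂ => ∑ i : Ix dg J, ptC (0, j₀) a u i *
      algebraMap κ ℂ (ω i.2) * θ u ^ (i.1 : ℕ)) 0 s := by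
    refine (hasDerivAt_const s (0 : ℂ)).congr_of_eventuallyEq ?_
    filter_upwards [Metric.isOpen_ball.mem_nhds hs] with u hu
    exact hF u hu
  have huniq := hsum.unique hzero
  rw [Finset.sum_add_distrib] at huniq
  have hA : ∑ i : Ix dg J, (if i = (0, j₀) then (1 : ℂ) else 0) * algebraMap κ ℂ (ω i.2) *
      θ s ^ (i.1 : ℕ) = algebraMap κ ℂ (ω j₀) := by
    rw [Finset.sum_eq_single ((0, j₀) : Ix dg J)]
    · simp
    · intro i _ hi
      simp [hi]
    · intro h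
      exact absurd (Finset.mem_univ _) h
  rw [hA] at huniq
  have hB : ∑ i : Ix dg J, ptC (0, j₀) a s i * algebraMap κ ℂ (ω i.2) *
      ((((i.1 : ℕ) : ℂ)) * θ s ^ ((i.1 : ℕ) - 1) * deriv θ s) =
      Fd (fun j => ω j) (ptC (0, j₀) a s) (θ s) * deriv θ s := by
    unfold Fd
    rw [Finset.sum_mul]
    apply Finset.sum_congr rfl
    intro i _
    ring
  rw [hB] at huniq
  linear_combination huniq

include hθ hF hmem hT hy hode

theorem pen_sys : IsSys (spec (0, j₀) a D.Θ) (D.M.map (spec (0, j₀) a)) R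
    (pz (fun j => ω j) D.b θ y) := by
  refine ⟨?_, ?_⟩
  · rintro ⟨γ, i⟩ s hs
    have h1 : AnalyticAt ℂ (fun u => y (θ u) i) s :=
      AnalyticAt.fun_comp (hy i (θ s) (hmem s hs)) (hθ s hs)
    exact (analyticAt_const.mul ((hθ s hs).pow _)).mul h1
  · rintro s hs ⟨γ, i⟩
    have hθd : HasDerivAt θ (deriv θ s) s := (hθ s hs).differentiableAt.hasDerivAt
    have hyd : HasDerivAt (fun t => y t i) (deriv (fun t => y t i) (θ s)) (θ s) :=
      (hy i (θ s) (hmem s hs)).differentiableAt.hasDerivAt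
    have hcomp : HasDerivAt (fun u => y (θ u) i)
        (deriv (fun t => y t i) (θ s) * deriv θ s) s := hyd.comp s hθd
    have hpz : HasDerivAt (fun u => pz (fun j => ω j) D.b θ y u (γ, i))
        (algebraMap κ ℂ (ω (D.b γ).1) *
          (((D.b γ).2 : ℂ) * θ s ^ ((D.b γ).2 - 1) * deriv θ s) * y (θ s) i +
          algebraMap κ ℂ (ω (D.b γ).1) * θ s ^ (D.b γ).2 *
            (deriv (fun t => y t i) (θ s) * deriv θ s)) s :=
      ((hθd.pow (D.b γ).2).const_mul (algebraMap κ ℂ (ω (D.b γ).1))).mul hcomp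
    rw [hpz.deriv, spec_aeval]
    have hw : algebraMap κ ℂ (ω j₀) ≠ 0 := by
      rw [Ne, map_eq_zero_iff _ (algebraMap κ ℂ).injective]
      exact ω.ne_zero j₀
    have hder := pen_der (ω := ω) hθ hF hs
    have hFd : Fd (fun j => ω j) (ptC (0, j₀) a s) (θ s) ≠ 0 := by
      intro h0
      rw [h0, zero_mul] at hder
      exact hw (neg_eq_zero.1 hder.symm)
    have hTt := hT (θ s) (hmem s hs)
    have hode' := hode (θ s) (hmem s hs) i
    have hid := fun i' => D.ident (θ s) (ptC (0, j₀) a s) (hF s hs) γ i i'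
    have hsum : ∑ i', (MvPolynomial.aeval (ptC (0, j₀) a s) D.Θ *
        (-(algebraMap κ ℂ (ω j₀))) *
        ((if i = i' then (((D.b γ).2 : ℕ) : ℂ) * algebraMap κ ℂ (ω (D.b γ).1) *
          θ s ^ ((D.b γ).2 - 1) * aeval (θ s) T else 0) +
          algebraMap κ ℂ (ω (D.b γ).1) * θ s ^ (D.b γ).2 * aeval (θ s) (A i i'))) *
          y (θ s) i' =
        ∑ i', (Fd (fun j => ω j) (ptC (0, j₀) a s) (θ s) * aeval (θ s) T *
          ∑ γ', MvPolynomial.aeval (ptC (0, j₀) a s) (D.M (γ, i) (γ', i')) *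
            (algebraMap κ ℂ (ω (D.b γ').1) * θ s ^ (D.b γ').2)) * y (θ s) i' :=
      Finset.sum_congr rfl (fun i' _ => by rw [hid i'])
    have hL : ∑ i', (MvPolynomial.aeval (ptC (0, j₀) a s) D.Θ *
        (-(algebraMap κ ℂ (ω j₀))) *
        ((if i = i' then (((D.b γ).2 : ℕ) : ℂ) * algebraMap κ ℂ (ω (D.b γ).1) *
          θ s ^ ((D.b γ).2 - 1) * aeval (θ s) T else 0) +
          algebraMap κ ℂ (ω (D.b γ).1) * θ s ^ (D.b γ).2 * aeval (θ s) (A i i'))) *
          y (θ s) i' =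
        MvPolynomial.aeval (ptC (0, j₀) a s) D.Θ * (-(algebraMap κ ℂ (ω j₀))) *
          ((((D.b γ).2 : ℕ) : ℂ) * algebraMap κ ℂ (ω (D.b γ).1) *
            θ s ^ ((D.b γ).2 - 1) * aeval (θ s) T * y (θ s) i +
            algebraMap κ ℂ (ω (D.b γ).1) * θ s ^ (D.b γ).2 *
              ∑ i', aeval (θ s) (A i i') * y (θ s) i') := by
      have e1 : ∀ i', (MvPolynomial.aeval (ptC (0, j₀) a s) D.Θ *
        (-(algebraMap κ ℂ (ω j₀))) *
        ((if i = i' then (((D.b γ).2 : ℕ) : ℂ) * algebraMap κ ℂ (ω (D.b γ).1) *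
          θ s ^ ((D.b γ).2 - 1) * aeval (θ s) T else 0) +
          algebraMap κ ℂ (ω (D.b γ).1) * θ s ^ (D.b γ).2 * aeval (θ s) (A i i'))) *
          y (θ s) i' =
          (if i = i' then MvPolynomial.aeval (ptC (0, j₀) a s) D.Θ *
            (-(algebraMap κ ℂ (ω j₀))) * ((((D.b γ).2 : ℕ) : ℂ) * algebraMap κ ℂ (ω (D.b γ).1) *
          θ s ^ ((D.b γ).2 - 1) * aeval (θ s) T) * y (θ s) i' else 0) +
          MvPolynomial.aeval (ptC (0, j₀) a s) D.Θ * (-(algebraMap κ ℂ (ω j₀))) *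
            (algebraMap κ ℂ (ω (D.b γ).1) * θ s ^ (D.b γ).2) *
            (aeval (θ s) (A i i') * y (θ s) i') := by
        intro i'
        split_ifs with h
        · ring
        · ring
      rw [Finset.sum_congr rfl (fun i' _ => e1 i'), Finset.sum_add_distrib,
        Finset.sum_ite_eq Finset.univ i, ← Finset.mul_sum]
      simp only [Finset.mem_univ, if_true]
      ring
    rw [hL, ← hode'] at hsum
    have hR : ∑ i', (Fd (fun j => ω j) (ptC (0, j₀) a s) (θ s) * aeval (θ s) T *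
          ∑ γ', MvPolynomial.aeval (ptC (0, j₀) a s) (D.M (γ, i) (γ', i')) *
            (algebraMap κ ℂ (ω (D.b γ').1) * θ s ^ (D.b γ').2)) * y (θ s) i' =
        Fd (fun j => ω j) (ptC (0, j₀) a s) (θ s) * aeval (θ s) T *
          ∑ l : D.Γ × β, aeval s ((D.M.map (spec (0, j₀) a)) (γ, i) l) *
            pz (fun j => ω j) D.b θ y s l := by
      rw [Fintype.sum_prod_type, Finset.sum_comm, Finset.mul_sum]
      apply Finset.sum_congr rfl
      intro i' _
      rw [mul_assoc, Finset.sum_mul]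
      congr 1
      apply Finset.sum_congr rfl
      intro γ' _
      rw [Matrix.map_apply, spec_aeval]
      unfold pz
      ring
    rw [hR] at hsum
    have hne : Fd (fun j => ω j) (ptC (0, j₀) a s) (θ s) * aeval (θ s) T ≠ 0 :=
      mul_ne_zero hFd hTt
    apply mul_left_cancel₀ hne
    rw [← hsum, ← hder]
    ring

end

end Pool.Agent.Helper79.AA
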