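import Pool.Agent.Helper79.AA.Pen

/-!
# AA-24b: bad points of a pencil

Notation of `Pen.lean`: `w = ω_(j₀)`; `Fd θ' = - w` on the disc.
* `pen_bad`: `t₀ = θ(u)` is a root of the nonzero polynomial `F = ∑ (pt a u)_i ω_(i.2) X^(i.1)` over `κ` of degree `≤ dg` (`F'(t₀) = Fd ≠ 0`). Let
  `g` be as in `KBad`, replace `g_i` by its remainder modulo the minimal polynomial of `t₀`: then `deg g_i ≤ dg`. Write
  `g_i = ∑_(p : J × ℕ, p.2 ≤ dg) m_(i,p) ω_(p.1) X^(p.2)` with `m ∈ ℚ` (`ω` a basis). By `Uni.span` at `(t₀, pt a u)`, `Θ ≠ 0`: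
  `g_i(t₀) = ∑_γ x_(γ,i) ω_γ t₀^(k_γ)`, `x_(γ,i) = ∑_p m_(i,p) ρ_(p,γ)(pt a u) / Θ(pt a u) ∈ ℚ`. So `∑ x z(u) = ∑ g_i(t₀) y_i(t₀) = 0` (`y = z'` at `t₀`).
  If `v` is as in `BadAt` (negated), put `S(t) = - w⁻¹ ∑_i a_i ω_(i.2) t^(i.1) ∈ κ[t]` (so `S(θ(s)) = s`) and `h_i(t) = ∑_γ v_(γ,i)(S(t)) ω_γ t^(k_γ) ∈ κ[t]`. Then
  `h_i(t₀) = ∑_γ x_(γ,i) ω_γ t₀^(k_γ) = g_i(t₀)` (`S(t₀) = u`), and `∑ h_i(θ(s)) y_i(θ(s)) = ∑ v(s) z(s) = 0` on the disc. `θ` is not constant
  (`θ' ≠ 0`), so `∑ h_i(t) y_i(t) = 0` for `t` near `t₀` (open mapping or: the analytic function `t ↦ ∑ h_i(t) y_i(t)` composed with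
  `θ` vanishes near `u`, `θ'(u) ≠ 0`), where `y = z'` near `t₀`; identity theorem on `U`.
-/

open Polynomial

namespace Pool.Agent.Helper79.AA

open Pool.Agent.Helper79.GX Pool.Agent.Helper64.Per

section

variable {κ : IntermediateField ℚ Qbar} {J : Type} [Fintype J] [DecidableEq J]
  (ω : Module.Basis J ℚ κ) {dg : ℕ} {j₀ : J} {β : Type} [Fintype β] [DecidableEq β] {T : κ[X]}
  {A : Matrix β β κ[X]} (D : Uni (fun j => ω j) dg j₀ T A) {a : Ix dg J → ℤ} {R : ℝ}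
  {θ : ℂ → ℂ} (hθ : AnalyticOnNhd ℂ θ (Metric.ball 0 R))
  (hF : ∀ s ∈ Metric.ball (0 : ℂ) R, Fv (fun j => ω j) (ptC (0, j₀) a s) (θ s) = 0) {t₁ : ℂ}
  {r : ℝ} (hmem : ∀ s ∈ Metric.ball (0 : ℂ) R, θ s ∈ Metric.ball t₁ r)
  (hT : ∀ t ∈ Metric.ball t₁ r, aeval t T ≠ 0) {y : ℂ → β → ℂ}
  (hy : ∀ i, AnalyticOnNhd ℂ (fun t => y t i) (Metric.ball t₁ r))
  (hode : ∀ t ∈ Metric.ball t₁ r, ∀ i, aeval t T * deriv (fun t => y t i) t =
    ∑ l, aeval t (A i l) * y t l)

omit [DecidableEq β] [Fintype β] in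
include hθ hF in
private theorem pen2_der {s : ℂ} (hs : s ∈ Metric.ball (0 : ℂ) R) :
    Fd (fun j => ω j) (ptC (0, j₀) a s) (θ s) * deriv θ s = -(algebraMap κ ℂ (ω j₀)) := by
  have hθd : HasDerivAt θ (deriv θ s) s := (hθ s hs).differentiableAt.hasDerivAt
  have hterm : ∀ i : Ix dg J, HasDerivAt
      (fun u : ℂ => ptC (0, j₀) a u i * algebraMap κ ℂ (ω i.2) * θ u ^ (i.1 : ℕ))
      ((if i = (0, j₀) then (1 : ℂ) else 0) * algebraMap κ ℂ (ω i.2) * θ s ^ (i.1 : ℕ) +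
        ptC (0, j₀) a s i * algebraMap κ ℂ (ω i.2) *
          ((((i.1 : ℕ) : ℂ)) * θ s ^ ((i.1 : ℕ) - 1) * deriv θ s)) s := by
    intro i
    have h1 : HasDerivAt (fun u : ℂ => ptC (0, j₀) a u i)
        (if i = (0, j₀) then (1 : ℂ) else 0) s := by
      unfold ptC
      by_cases hi : i = (0, j₀)
      · simp only [hi, if_true]
        simpa using (hasDerivAt_id s).const_add ((a (0, j₀) : ℤ) : ℂ)
      · simp only [hi, if_false, add_zero]
        exact hasDerivAt_const s _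
    exact (h1.mul_const (algebraMap κ ℂ (ω i.2))).mul (hθd.pow (i.1 : ℕ))
  have hsum := HasDerivAt.fun_sum (u := Finset.univ) (fun i _ => hterm i)
  have hzero : HasDerivAt (fun u : ℂ => ∑ i : Ix dg J, ptC (0, j₀) a u i *
      algebraMap κ ℂ (ω i.2) * θ u ^ (i.1 : ℕ)) 0 s := by
    refine (hasDerivAt_const s (0 : ℂ)).congr_of_eventuallyEq ?_
    filter_upwards [Metric.isOpen_ball.mem_nhds hs] with u hu
    exact hF u hu
  have huniq := hsum.unique hzero
  rw [Finset.sum_add_distrib] at huniq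
  have hA : ∑ i : Ix dg J, (if i = (0, j₀) then (1 : ℂ) else 0) * algebraMap κ ℂ (ω i.2) *
      θ s ^ (i.1 : ℕ) = algebraMap κ ℂ (ω j₀) := by
    rw [Finset.sum_eq_single ((0, j₀) : Ix dg J)]
    · simp
    · intro i _ hi
      simp [hi]
    · intro h
      exact absurd (Finset.mem_univ _) h
  rw [hA] at huniq
  have hB : ∑ i : Ix dg J, ptC (0, j₀) a s i * algebraMap κ ℂ (ω i.2) *
      ((((i.1 : ℕ) : ℂ)) * θ s ^ ((i.1 : ℕ) - 1) * deriv θ s) =
      Fd (fun j => ω j) (ptC (0, j₀) a s) (θ s) * deriv θ s := by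
    unfold Fd
    rw [Finset.sum_mul]
    apply Finset.sum_congr rfl
    intro i _
    ring
  rw [hB] at huniq
  linear_combination huniq

/-- The value of a polynomial with rational coefficients at an integral point of the line. -/
private theorem pen2_val {σ : Type} [DecidableEq σ] (i₀ : σ) (a : σ → ℤ) (u : ℤ)
    (P : MvPolynomial σ ℚ) : MvPolynomial.aeval (ptC i₀ a (u : ℂ)) P =
      ((MvPolynomial.eval (fun i => ((pt i₀ a u i : ℤ) : ℚ)) P : ℚ) : ℂ) := by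
  rw [← spec_eval, ← spec_aeval]
  have h1 := Polynomial.aeval_algebraMap_apply_eq_algebraMap_eval (A := ℂ) (u : ℚ)
    (spec i₀ a P)
  have h2 : (algebraMap ℚ ℂ) (u : ℚ) = (u : ℂ) := by simp
  rw [h2] at h1
  rw [h1]
  simp

omit [DecidableEq β] [Fintype β] in
include hθ hF in
/-- The polynomial whose root is `t₀`. -/
private theorem pen2_F {u : ℤ} (hu : (u : ℂ) ∈ Metric.ball (0 : ℂ) R) :
    ∃ F : κ[X], F ≠ 0 ∧ F.natDegree ≤ dg ∧ aeval (θ u) F = 0 := by
  have hw : algebraMap κ ℂ (ω j₀) ≠ 0 := by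
    rw [Ne, map_eq_zero_iff _ (algebraMap κ ℂ).injective]
    exact ω.ne_zero j₀
  refine ⟨∑ i : Ix dg J, C (((pt (0, j₀) a u i : ℤ) : κ) * ω i.2) * X ^ (i.1 : ℕ), ?_, ?_, ?_⟩
  · intro h0
    have h1 : aeval (θ u) (derivative (∑ i : Ix dg J,
        C (((pt (0, j₀) a u i : ℤ) : κ) * ω i.2) * X ^ (i.1 : ℕ))) =
        Fd (fun j => ω j) (ptC (0, j₀) a (u : ℂ)) (θ u) := by
      rw [derivative_sum, map_sum]
      unfold Fd
      apply Finset.sum_congr rfl
      intro i _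
      rw [derivative_C_mul_X_pow, map_mul, aeval_C, map_pow, aeval_X]
      unfold ptC pt
      push_cast
      split_ifs <;> simp <;> ring
    rw [h0] at h1
    simp only [derivative_zero, map_zero] at h1
    have h2 := pen2_der ω hθ hF hu
    rw [← h1, zero_mul] at h2
    exact hw (neg_eq_zero.1 h2.symm)
  · apply natDegree_sum_le_of_forall_le
    intro i _
    refine (natDegree_C_mul_X_pow_le _ _).trans ?_
    have := i.1.isLt
    omega
  · rw [map_sum]
    rw [← hF (u : ℂ) hu]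
    unfold Fv
    apply Finset.sum_congr rfl
    intro i _
    rw [map_mul, aeval_C, map_pow, aeval_X]
    unfold ptC pt
    push_cast
    split_ifs <;> simp

omit [DecidableEq β] in
/-- The value of a polynomial over `κ` of degree `≤ dg` at `t₀`. -/
private theorem pen2_span [DecidableEq β] (D : Uni (fun j => ω j) dg j₀ T A)
    {a : Ix dg J → ℤ} {u : ℤ} {t₀ : ℂ}
    (hFt : Fv (fun j => ω j) (ptC (0, j₀) a (u : ℂ)) t₀ = 0)
    (hΘ : MvPolynomial.eval (fun i => ((pt (0, j₀) a u i : ℤ) : ℚ)) D.Θ ≠ 0)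
    (g : κ[X]) (hg : g.natDegree ≤ dg) :
    ∃ x : D.Γ → ℚ, aeval t₀ g = ∑ γ, ((x γ : ℚ) : ℂ) *
      (algebraMap κ ℂ (ω (D.b γ).1) * t₀ ^ (D.b γ).2) := by
  obtain ⟨Θq, hΘq⟩ : ∃ q : ℚ, q = MvPolynomial.eval
    (fun i => ((pt (0, j₀) a u i : ℤ) : ℚ)) D.Θ := ⟨_, rfl⟩
  rw [← hΘq] at hΘ
  have hΘC : (Θq : ℂ) ≠ 0 := by exact_mod_cast hΘ
  refine ⟨fun γ => (∑ n ∈ Finset.range (dg + 1), ∑ j, ω.repr (g.coeff n) j *
    MvPolynomial.eval (fun i => ((pt (0, j₀) a u i : ℤ) : ℚ)) (D.ρ (j, n) γ)) / Θq, ?_⟩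
  have h1 : aeval t₀ g = ∑ n ∈ Finset.range (dg + 1), ∑ j,
      ((ω.repr (g.coeff n) j : ℚ) : ℂ) * (algebraMap κ ℂ (ω j) * t₀ ^ n) := by
    rw [aeval_eq_sum_range' (n := dg + 1) (by omega)]
    apply Finset.sum_congr rfl
    intro n _
    have h2 : algebraMap κ ℂ (g.coeff n) = ∑ j, ((ω.repr (g.coeff n) j : ℚ) : ℂ) *
        algebraMap κ ℂ (ω j) := by
      conv_lhs => rw [← ω.sum_repr (g.coeff n)]
      rw [map_sum]
      apply Finset.sum_congr rfl
      intro j _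
      rw [Algebra.smul_def, map_mul]
      congr 1
    rw [Algebra.smul_def, h2, Finset.sum_mul]
    apply Finset.sum_congr rfl
    intro j _
    ring
  have h3 : ∀ n ∈ Finset.range (dg + 1), ∀ j, (algebraMap κ ℂ (ω j) * t₀ ^ n) =
      (Θq : ℂ)⁻¹ * ∑ γ, ((MvPolynomial.eval (fun i => ((pt (0, j₀) a u i : ℤ) : ℚ))
        (D.ρ (j, n) γ) : ℚ) : ℂ) * (algebraMap κ ℂ (ω (D.b γ).1) * t₀ ^ (D.b γ).2) := by
    intro n hn j
    have h4 := D.span t₀ (ptC (0, j₀) a (u : ℂ)) hFt (j, n)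
      (Nat.lt_succ_iff.mp (Finset.mem_range.mp hn))
    simp only [pen2_val] at h4
    rw [← hΘq] at h4
    rw [← h4, ← mul_assoc, inv_mul_cancel₀ hΘC, one_mul]
  rw [h1]
  have h5 : ∀ γ, (((∑ n ∈ Finset.range (dg + 1), ∑ j, ω.repr (g.coeff n) j *
      MvPolynomial.eval (fun i => ((pt (0, j₀) a u i : ℤ) : ℚ)) (D.ρ (j, n) γ)) / Θq : ℚ) : ℂ) *
      (algebraMap κ ℂ (ω (D.b γ).1) * t₀ ^ (D.b γ).2) =
      ∑ n ∈ Finset.range (dg + 1), ∑ j, ((ω.repr (g.coeff n) j : ℚ) : ℂ) * ((Θq : ℂ)⁻¹ *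
        (((MvPolynomial.eval (fun i => ((pt (0, j₀) a u i : ℤ) : ℚ)) (D.ρ (j, n) γ) : ℚ) : ℂ) *
        (algebraMap κ ℂ (ω (D.b γ).1) * t₀ ^ (D.b γ).2))) := by
    intro γ
    push_cast
    rw [div_mul_eq_mul_div, div_eq_mul_inv, Finset.sum_mul, Finset.sum_mul]
    apply Finset.sum_congr rfl
    intro n _
    rw [Finset.sum_mul, Finset.sum_mul]
    apply Finset.sum_congr rfl
    intro j _
    ring
  rw [Finset.sum_congr rfl (fun γ _ => h5 γ)]
  conv_rhs => rw [Finset.sum_comm]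
  apply Finset.sum_congr rfl
  intro n hn
  conv_rhs => rw [Finset.sum_comm]
  apply Finset.sum_congr rfl
  intro j _
  rw [h3 n hn j, Finset.mul_sum, Finset.mul_sum]

include hθ hF hmem hT hy hode

theorem pen_bad {U : Set ℂ} (hU : IsOpen U) (hU' : IsPreconnected U) {z : ℂ → β → ℂ}
    (hz : ∀ i, AnalyticOnNhd ℂ (fun t => z t i) U) {u : ℤ}
    (hu : (u : ℂ) ∈ Metric.ball (0 : ℂ) R)
    (hΘ : MvPolynomial.eval (fun i => ((pt (0, j₀) a u i : ℤ) : ℚ)) D.Θ ≠ 0) (ht : θ u ∈ U)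
    (hyz : ∀ᶠ t in nhds (θ u), y t = z t) (hK : KBad κ U z (θ u)) :
    BadAt R (pz (fun j => ω j) D.b θ y) (u : ℚ) := by
  classical
  obtain ⟨F, hF0, hFdeg, hFt⟩ := pen2_F ω hθ hF hu
  obtain ⟨g, hg0, hgn⟩ := hK
  -- reduce the degrees
  have hmod : ∀ i, aeval (θ u) (g i % F) = aeval (θ u) (g i) := by
    intro i
    conv_rhs => rw [← EuclideanDomain.div_add_mod (g i) F]
    rw [map_add, map_mul, hFt, zero_mul, zero_add]
  have hdeg : ∀ i, (g i % F).natDegree ≤ dg := by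
    intro i
    rcases eq_or_ne (g i % F) 0 with h0 | h0
    · rw [h0, natDegree_zero]
      exact Nat.zero_le _
    · have h1 : (g i % F).degree < F.degree := EuclideanDomain.mod_lt _ hF0
      exact (natDegree_lt_natDegree h0 h1).le.trans hFdeg
  have hx : ∀ i, ∃ x : D.Γ → ℚ, aeval (θ u) (g i) = ∑ γ, ((x γ : ℚ) : ℂ) *
      (algebraMap κ ℂ (ω (D.b γ).1) * θ u ^ (D.b γ).2) := by
    intro i
    rw [← hmod i]
    exact pen2_span ω D (hF (u : ℂ) hu) hΘ _ (hdeg i)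
  choose x hx using hx
  have hyz0 : y (θ u) = z (θ u) := hyz.self_of_nhds
  have hcast : (((u : ℚ) : ℂ)) = (u : ℂ) := by push_cast; rfl
  refine ⟨fun k => x k.2 k.1, ?_, ?_⟩
  · rw [Fintype.sum_prod_type, Finset.sum_comm]
    rw [← hg0]
    apply Finset.sum_congr rfl
    intro i _
    rw [hx i, Finset.sum_mul]
    apply Finset.sum_congr rfl
    intro γ _
    unfold pz
    rw [hcast, ← hyz0]
    ring
  · rintro ⟨v, hv, hv0⟩
    apply hgn
    obtain ⟨S, hS⟩ : ∃ S : κ[X], S = C (-(ω j₀)⁻¹) * ∑ i : Ix dg J,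
      C (((a i : ℤ) : κ) * ω i.2) * X ^ (i.1 : ℕ) := ⟨_, rfl⟩
    have hw : algebraMap κ ℂ (ω j₀) ≠ 0 := by
      rw [Ne, map_eq_zero_iff _ (algebraMap κ ℂ).injective]
      exact ω.ne_zero j₀
    have hSs : ∀ s ∈ Metric.ball (0 : ℂ) R, aeval (θ s) S = s := by
      intro s hs
      have h1 := hF s hs
      unfold Fv ptC at h1
      simp only [add_mul] at h1
      rw [Finset.sum_add_distrib] at h1
      have h2 : ∑ i : Ix dg J, (if i = (0, j₀) then s else 0) * algebraMap κ ℂ (ω i.2) *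
          θ s ^ (i.1 : ℕ) = s * algebraMap κ ℂ (ω j₀) := by
        rw [Finset.sum_eq_single ((0, j₀) : Ix dg J)]
        · simp
        · intro i _ hi
          simp [hi]
        · intro h
          exact absurd (Finset.mem_univ _) h
      rw [h2] at h1
      have h3 : aeval (θ s) S = -(algebraMap κ ℂ (ω j₀))⁻¹ * ∑ i : Ix dg J,
          ((a i : ℤ) : ℂ) * algebraMap κ ℂ (ω i.2) * θ s ^ (i.1 : ℕ) := by
        rw [hS, map_mul, aeval_C, map_neg, map_inv₀, map_sum]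
        congr 1
        apply Finset.sum_congr rfl
        intro i _
        rw [map_mul, aeval_C, map_pow, aeval_X, map_mul, map_intCast]
      rw [h3]
      have h4 : ∑ i : Ix dg J, ((a i : ℤ) : ℂ) * algebraMap κ ℂ (ω i.2) * θ s ^ (i.1 : ℕ) =
          -(s * algebraMap κ ℂ (ω j₀)) := by
        linear_combination h1
      rw [h4]
      field_simp
    obtain ⟨h, hh⟩ : ∃ h : β → κ[X], h = fun i => ∑ γ : D.Γ,
      ((v (γ, i)).map (algebraMap ℚ κ)).comp S * (C (ω (D.b γ).1) * X ^ (D.b γ).2) := ⟨_, rfl⟩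
    have hhs : ∀ s ∈ Metric.ball (0 : ℂ) R, ∀ i, aeval (θ s) (h i) = ∑ γ : D.Γ,
        aeval s (v (γ, i)) * (algebraMap κ ℂ (ω (D.b γ).1) * θ s ^ (D.b γ).2) := by
      intro s hs i
      rw [hh]
      simp only [map_sum, map_mul, aeval_C, map_pow, aeval_X, aeval_comp, hSs s hs,
        aeval_map_algebraMap]
    refine ⟨h, fun i => ?_, ?_⟩
    · rw [hhs (u : ℂ) hu i, hx i]
      apply Finset.sum_congr rfl
      intro γ _
      congr 1
      have h1 := hv (γ, i)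
      simp only at h1
      rw [← h1]
      have h2 := Polynomial.aeval_algebraMap_apply_eq_algebraMap_eval (A := ℂ) (u : ℚ)
        (v (γ, i))
      have h3 : (algebraMap ℚ ℂ) (u : ℚ) = (u : ℂ) := by simp
      rw [h3] at h2
      rw [h2]
      simp
    · have hana : AnalyticOnNhd ℂ (fun t => ∑ i, aeval t (h i) * z t i) U := by
        intro t ht'
        apply Finset.analyticAt_fun_sum
        intro i _
        apply AnalyticAt.mul
        · have h1 : (fun t : ℂ => aeval t (h i)) =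
              fun t => ((h i).map (algebraMap κ ℂ)).eval t := by
            funext t
            rw [eval_map_algebraMap]
          rw [h1]
          exact AnalyticAt.aeval_polynomial analyticAt_id _
        · exact hz i t ht'
      have hθu : AnalyticAt ℂ θ (u : ℂ) := hθ (u : ℂ) hu
      have hder0 : deriv θ (u : ℂ) ≠ 0 := by
        intro h0
        have h1 := pen2_der ω hθ hF hu
        rw [h0, mul_zero] at h1
        exact hw (neg_eq_zero.1 h1.symm)
      have hmap : Filter.map θ (nhds (u : ℂ)) = nhds (θ u) :=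
        HasStrictDerivAt.map_nhds_eq hθu.hasStrictDerivAt hder0
      have hev : ∀ᶠ t in nhds (θ u), (∑ i, aeval t (h i) * z t i) = 0 := by
        rw [← hmap, Filter.eventually_map]
        have hyz' : ∀ᶠ s in nhds (u : ℂ), y (θ s) = z (θ s) :=
          hθu.continuousAt.eventually hyz
        filter_upwards [hyz', Metric.isOpen_ball.mem_nhds hu] with s hs1 hs2
        have h1 := hv0 s hs2
        rw [Fintype.sum_prod_type, Finset.sum_comm] at h1
        rw [← h1]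
        apply Finset.sum_congr rfl
        intro i _
        rw [hhs s hs2 i, Finset.sum_mul]
        apply Finset.sum_congr rfl
        intro γ _
        unfold pz
        rw [← hs1]
        ring
      intro t ht'
      exact hana.eqOn_zero_of_preconnected_of_eventuallyEq_zero hU' ht hev ht'

end

end Pool.Agent.Helper79.AA
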