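import Mathlib

/-!
# AA-23: uniqueness of branches

Differentiate `p(θ(s)) + w s = 0`: `p'(θ(s)) θ'(s) = - w ≠ 0`, so `p'(θ₁ s₀) ≠ 0`. `p(x) - p(y) = (x - y) H(x, y)` with a polynomial `H`,
`H(x, x) = p'(x)` (e.g. `Polynomial.derivRingHom`-free: `Polynomial.evalSubFactor`, `Polynomial.sub_dvd_eval_sub`; or use that a
function with nonzero derivative is locally injective: `HasStrictDerivAt` local inverse `HasStrictDerivAt.localInverse`,
`eventually_left_inverse`), so `θ₁ = θ₂` near `s₀`; identity theorem.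
-/

open Polynomial

namespace Pool.Agent.Helper79.AA

theorem branch_unique {p : ℂ[X]} {w : ℂ} (hw : w ≠ 0) {V : Set ℂ} (hV : IsOpen V)
    (hV' : IsPreconnected V) {θ₁ θ₂ : ℂ → ℂ} (h₁ : AnalyticOnNhd ℂ θ₁ V)
    (h₂ : AnalyticOnNhd ℂ θ₂ V) (e₁ : ∀ s ∈ V, p.eval (θ₁ s) + s * w = 0)
    (e₂ : ∀ s ∈ V, p.eval (θ₂ s) + s * w = 0) {s₀ : ℂ} (hs : s₀ ∈ V) (h : θ₁ s₀ = θ₂ s₀) :
    ∀ s ∈ V, θ₁ s = θ₂ s := by
  have hd₁ : HasDerivAt θ₁ (deriv θ₁ s₀) s₀ := (h₁ s₀ hs).differentiableAt.hasDerivAt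
  have hVn : V ∈ nhds s₀ := hV.mem_nhds hs
  -- the derivative of the relation
  have hpd : HasDerivAt (fun s => p.eval (θ₁ s)) (p.derivative.eval (θ₁ s₀) * deriv θ₁ s₀) s₀ :=
    (p.hasDerivAt (θ₁ s₀)).comp s₀ hd₁
  have hpd2 : HasDerivAt (fun s => p.eval (θ₁ s)) (-w) s₀ := by
    have hlin : HasDerivAt (fun s : ℂ => -(s * w)) (-w) s₀ := by
      have h4 : HasDerivAt (fun s : ℂ => s * w) w s₀ := by
        simpa using (hasDerivAt_id s₀).mul_const w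
      exact h4.neg
    refine hlin.congr_of_eventuallyEq ?_
    filter_upwards [hVn] with s hsV
    exact eq_neg_of_add_eq_zero_left (e₁ s hsV)
  have hne : p.derivative.eval (θ₁ s₀) ≠ 0 := by
    intro h0
    have h3 := hpd.unique hpd2
    rw [h0, zero_mul] at h3
    exact hw (neg_eq_zero.mp h3.symm)
  have hstr : HasStrictDerivAt (fun z => p.eval z) (p.derivative.eval (θ₁ s₀)) (θ₁ s₀) :=
    p.hasStrictDerivAt (θ₁ s₀)
  have hfd := hstr.hasStrictFDerivAt_equiv hne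
  have hinv := hfd.eventually_left_inverse
  have hc₁ : Filter.Tendsto θ₁ (nhds s₀) (nhds (θ₁ s₀)) := (h₁ s₀ hs).continuousAt
  have hc₂ : Filter.Tendsto θ₂ (nhds s₀) (nhds (θ₁ s₀)) := by
    rw [h]
    exact (h₂ s₀ hs).continuousAt
  have hev : θ₁ =ᶠ[nhds s₀] θ₂ := by
    filter_upwards [hc₁.eventually hinv, hc₂.eventually hinv, hVn] with s a1 a2 hsV
    have e : p.eval (θ₁ s) = p.eval (θ₂ s) := by
      rw [eq_neg_of_add_eq_zero_left (e₁ s hsV), eq_neg_of_add_eq_zero_left (e₂ s hsV)]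
    rw [← a1, ← a2, e]
  exact fun s hsV => h₁.eqOn_of_preconnected_of_eventuallyEq h₂ hV' hs hev hsV

end Pool.Agent.Helper79.AA
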