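import Pool.Agent.Helper79.AA.Core
import Pool.Agent.Helper79.AA.Pen2
import Pool.Agent.Helper79.AA.Inv
import Pool.Agent.Helper79.AA.OdeExt
import Pool.Agent.Helper79.AA.Uniq

/-!
# AA: one pencil (assembly)
-/

open Polynomial

namespace Pool.Agent.Helper79.AA

open Pool.Agent.Helper79.GX Pool.Agent.Helper64.Per

section

variable {κ : IntermediateField ℚ Qbar} {J : Type} [Fintype J] [DecidableEq J] (ω : J → κ)
  {dg : ℕ} (j₀ : J)

omit [Fintype J] in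
theorem ptC_int (a : Ix dg J → ℤ) (u : ℤ) :
    (fun i => ((pt ((0 : Fin (dg + 1)), j₀) a u i : ℤ) : ℂ)) = ptC (0, j₀) a (u : ℂ) := by
  funext i
  unfold pt ptC
  split_ifs <;> push_cast <;> rfl

theorem Fv_ptC (a : Ix dg J → ℤ) (s t : ℂ) :
    Fv ω (ptC (0, j₀) a s) t = Fv ω (fun i => (a i : ℂ)) t + s * algebraMap κ ℂ (ω j₀) := by
  unfold Fv ptC
  simp only [add_mul, Finset.sum_add_distrib]
  congr 1
  rw [Finset.sum_eq_single (0, j₀)]
  · simp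
  · intro b _ hb
    rw [if_neg hb, zero_mul, zero_mul]
  · intro h
    exact absurd (Finset.mem_univ _) h

theorem Fd_ptC (a : Ix dg J → ℤ) (s t : ℂ) :
    Fd ω (ptC (0, j₀) a s) t = Fd ω (fun i => (a i : ℂ)) t := by
  unfold Fd ptC
  refine Finset.sum_congr rfl fun i _ => ?_
  by_cases h : i = (0, j₀)
  · rw [h]
    simp
  · rw [if_neg h, add_zero]

/-- The polynomial `F_a`. -/
noncomputable def Fp (a : Ix dg J → ℂ) : ℂ[X] :=
  ∑ i, C (a i * algebraMap κ ℂ (ω i.2)) * X ^ (i.1 : ℕ)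

omit [DecidableEq J] in
theorem Fp_eval (a : Ix dg J → ℂ) (t : ℂ) : (Fp ω a).eval t = Fv ω a t := by
  unfold Fp Fv
  rw [eval_finsetSum]
  refine Finset.sum_congr rfl fun i _ => ?_
  rw [eval_mul, eval_C, eval_pow, eval_X]

omit [DecidableEq J] in
theorem Fp_deriv (a : Ix dg J → ℂ) (t : ℂ) : (derivative (Fp ω a)).eval t = Fd ω a t := by
  unfold Fp Fd
  rw [derivative_sum, eval_finsetSum]
  refine Finset.sum_congr rfl fun i _ => ?_
  rw [derivative_C_mul, derivative_X_pow, eval_mul, eval_C, eval_mul, eval_C, eval_pow, eval_X]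

omit [DecidableEq J] in
theorem Fp_natDegree (a : Ix dg J → ℂ) : (Fp ω a).natDegree ≤ dg := by
  unfold Fp
  refine natDegree_sum_le_of_forall_le _ _ fun i _ => ?_
  refine (natDegree_C_mul_X_pow_le _ _).trans ?_
  have := i.1.2
  omega

omit [DecidableEq J] in
theorem Fv_hasDeriv (a : Ix dg J → ℂ) (t : ℂ) : HasDerivAt (Fv ω a) (Fd ω a t) t := by
  have h := (Fp ω a).hasDerivAt t
  rw [Fp_deriv] at h
  have h2 : (fun t => (Fp ω a).eval t) = Fv ω a := by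
    funext t
    exact Fp_eval ω a t
  rwa [h2] at h

end

/-- The bad points of one pencil. -/
theorem pencil_count {κ : IntermediateField ℚ Qbar} {J : Type} [Fintype J] [DecidableEq J]
    (ω : Module.Basis J ℚ κ) {dg : ℕ} {j₀ : J} {β : Type} [Fintype β] [DecidableEq β] {T : κ[X]}
    {A : Matrix β β κ[X]} (D : Uni (fun j => ω j) dg j₀ T A) {B E : ℕ}
    (hcore : ∀ {ι : Type} [Fintype ι] [DecidableEq ι],
      Fintype.card ι ≤ Fintype.card (D.Γ × β) → ∀ (K : ℕ) (Λ R : ℝ), 2 ≤ K → (K : ℝ) ^ E ≤ Λ →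
      Λ ≤ R * K → ∀ (T : ℚ[X]) (A : Matrix ι ι ℚ[X]) (z : ℂ → ι → ℂ), IsSys T A R z →
      ∀ Ξ : Finset ℤ, (∀ u ∈ Ξ, |u| ≤ K) → (∀ u ∈ Ξ, T.eval (u : ℚ) ≠ 0) →
      (∀ u ∈ Ξ, Gr T A (u : ℚ) (Λ ^ D.c)) → (∀ u ∈ Ξ, BadAt R z (u : ℚ)) → Ξ.card ≤ B)
    {U V : Set ℂ} (hU : IsOpen U) (hU' : IsPreconnected U) (hV : IsOpen V) (hV' : Convex ℝ V)
    (hVU : V ⊆ U) {z : ℂ → β → ℂ} (hz : ∀ i, AnalyticOnNhd ℂ (fun t => z t i) U)
    (hode : ∀ t ∈ U, ∀ i, aeval t T * deriv (fun t => z t i) t = ∑ l, aeval t (A i l) * z t l)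
    {X K : ℕ} {ρ r₀ : ℝ} (hX : 2 ≤ X) (hK : 2 ≤ K) (hKE : (K : ℝ) ^ E ≤ X)
    (hρK : 2 * (K : ℝ) < ρ) (hR : (X : ℝ) ≤ (ρ - K) * K) (hr₀ : 0 < r₀) {a : Ix dg J → ℤ}
    {Ξ : Finset ℤ} (hΞ : ∀ u ∈ Ξ, |u| ≤ K) {τ : ℤ → ℂ}
    (hbox : ∀ u ∈ Ξ, ∀ i, |pt (0, j₀) a u i| ≤ X)
    (hΘ : ∀ u ∈ Ξ, MvPolynomial.eval (fun i => ((pt (0, j₀) a u i : ℤ) : ℚ)) D.Θ ≠ 0)
    (hτV : ∀ u ∈ Ξ, τ u ∈ V)
    (hF : ∀ u ∈ Ξ, Fv (fun j => ω j) (ptC (0, j₀) a (u : ℂ)) (τ u) = 0)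
    (hbad : ∀ u ∈ Ξ, KBad κ U z (τ u))
    (hT : ∀ u ∈ Ξ, ∀ t ∈ Metric.ball (τ u) r₀, aeval t T ≠ 0)
    (hd : ∀ u ∈ Ξ, ∀ t ∈ Metric.ball (τ u) r₀, ‖Fd (fun j => ω j) (fun i => (a i : ℂ)) t -
      Fd (fun j => ω j) (fun i => (a i : ℂ)) (τ u)‖ ≤
        ‖Fd (fun j => ω j) (fun i => (a i : ℂ)) (τ u)‖ / 2)
    (hρ : ∀ u ∈ Ξ, ρ ≤ ‖Fd (fun j => ω j) (fun i => (a i : ℂ)) (τ u)‖ /
      ‖algebraMap κ ℂ (ω j₀)‖ * r₀ / 2) : Ξ.card ≤ dg * B := by
  classical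
  set w : ℂ := algebraMap κ ℂ (ω j₀) with hw
  have hw0 : w ≠ 0 := by
    rw [hw, Ne, map_eq_zero]
    exact ω.ne_zero j₀
  set F : ℂ → ℂ := Fv (fun j => ω j) (fun i => (a i : ℂ)) with hFdef
  set F' : ℂ → ℂ := Fd (fun j => ω j) (fun i => (a i : ℂ)) with hF'def
  have hFd : ∀ t, HasDerivAt F (F' t) t := fun t => Fv_hasDeriv _ _ t
  have hK2 : (2 : ℝ) ≤ K := by exact_mod_cast hK
  have hρ0 : 0 < ρ := by linarith
  have hroot : ∀ u ∈ Ξ, F (τ u) + (u : ℂ) * w = 0 := by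
    intro u hu
    have := hF u hu
    rwa [Fv_ptC] at this
  have hF'0 : ∀ u ∈ Ξ, F' (τ u) ≠ 0 := by
    intro u hu h0
    have := hρ u hu
    rw [h0, norm_zero, zero_div, zero_mul, zero_div] at this
    linarith
  -- the function `f`
  set f : ℂ → ℂ := fun t => -(F t) / w with hf
  have hfd : ∀ t, HasDerivAt f (-(F' t) / w) t := fun t => (hFd t).neg.div_const w
  have hfan : AnalyticOnNhd ℂ f Set.univ :=
    DifferentiableOn.analyticOnNhd (fun t _ => (hfd t).differentiableAt.differentiableWithinAt)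
      isOpen_univ
  have hfu : ∀ u ∈ Ξ, f (τ u) = u := by
    intro u hu
    have h1 := hroot u hu
    rw [hf]
    simp only
    rw [div_eq_iff hw0]
    linear_combination -h1
  have hbr : ∀ u ∈ Ξ, ∃ g : ℂ → ℂ, AnalyticOnNhd ℂ g (Metric.ball (u : ℂ) ρ) ∧ g (u : ℂ) = τ u ∧
      ∀ s ∈ Metric.ball (u : ℂ) ρ, g s ∈ Metric.ball (τ u) r₀ ∧ F (g s) + s * w = 0 := by
    intro u hu
    have hd0 : deriv f (τ u) ≠ 0 := by
      rw [(hfd _).deriv]
      exact div_ne_zero (neg_ne_zero.2 (hF'0 u hu)) hw0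
    have hnd : ‖deriv f (τ u)‖ = ‖F' (τ u)‖ / ‖w‖ := by
      rw [(hfd _).deriv, norm_div, norm_neg]
    obtain ⟨g, hg1, hg2, hg3⟩ := exists_inv hr₀ (hfan.mono (Set.subset_univ _)) hd0
      (fun t ht => by
        rw [hnd, (hfd _).deriv, (hfd _).deriv, ← sub_div, norm_div]
        have h1 := hd u hu t ht
        have h2 : -(F' t) - -(F' (τ u)) = -(F' t - F' (τ u)) := by ring
        rw [h2, norm_neg, div_div, mul_comm ‖w‖ 2, ← div_div]
        exact div_le_div_of_nonneg_right h1 (norm_nonneg _))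
    rw [hfu u hu, hnd] at hg1 hg3
    rw [hfu u hu] at hg2
    have hsub : Metric.ball (u : ℂ) ρ ⊆ Metric.ball (u : ℂ) (‖F' (τ u)‖ / ‖w‖ * r₀ / 2) :=
      Metric.ball_subset_ball (hρ u hu)
    refine ⟨g, hg1.mono hsub, hg2, fun s hs => ?_⟩
    obtain ⟨h1, h2⟩ := hg3 s (hsub hs)
    refine ⟨h1, ?_⟩
    rw [hf] at h2
    simp only at h2
    rw [div_eq_iff hw0] at h2
    linear_combination -h2
  choose! g hg using hbr
  have h0mem : ∀ u ∈ Ξ, (0 : ℂ) ∈ Metric.ball (u : ℂ) ρ := by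
    intro u hu
    rw [Metric.mem_ball, dist_comm, dist_zero_right, Complex.norm_intCast]
    have h1 : |(u : ℝ)| ≤ K := by exact_mod_cast hΞ u hu
    linarith
  -- pigeonhole
  by_contra hcon
  push Not at hcon
  have hne : Ξ.Nonempty := Finset.card_pos.1 (by omega)
  set p : ℂ[X] := Fp (fun j => ω j) (fun i => (a i : ℂ)) with hp
  have hpe : ∀ t, p.eval t = F t := fun t => Fp_eval _ _ t
  have hp0 : p ≠ 0 := by
    obtain ⟨u, hu⟩ := hne
    intro h0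
    apply hF'0 u hu
    rw [hF'def, ← Fp_deriv, ← hp, h0, derivative_zero, eval_zero]
  have hmaps : ∀ u ∈ Ξ, g u 0 ∈ p.roots.toFinset := by
    intro u hu
    rw [Multiset.mem_toFinset, mem_roots hp0, IsRoot, hpe]
    have := ((hg u hu).2.2 0 (h0mem u hu)).2
    rwa [zero_mul, add_zero] at this
  have hrc : p.roots.toFinset.card ≤ dg :=
    (Multiset.toFinset_card_le _).trans ((card_roots' p).trans (Fp_natDegree _ _))
  obtain ⟨ζ, hζ, hfib⟩ := Finset.exists_lt_card_fiber_of_mul_lt_card_of_maps_to hmaps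
    (n := B) (lt_of_le_of_lt (Nat.mul_le_mul_right _ hrc) hcon)
  set Ξ₁ : Finset ℤ := Ξ.filter fun u => g u 0 = ζ with hΞ₁
  have hΞ₁s : ∀ u ∈ Ξ₁, u ∈ Ξ := fun u hu => (Finset.mem_filter.1 hu).1
  obtain ⟨u₁, hu₁⟩ : Ξ₁.Nonempty := Finset.card_pos.1 (by omega)
  have hu₁' := hΞ₁s u₁ hu₁
  set θ : ℂ → ℂ := g u₁ with hθ
  set R : ℝ := ρ - K with hRdef
  have hK0 : |(u₁ : ℝ)| ≤ K := by exact_mod_cast hΞ u₁ hu₁'
  have hball : Metric.ball (0 : ℂ) R ⊆ Metric.ball (u₁ : ℂ) ρ := by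
    refine Metric.ball_subset_ball' ?_
    rw [dist_comm, dist_zero_right, Complex.norm_intCast]
    linarith
  have hKR : (K : ℝ) < R := by linarith
  have humem : ∀ u ∈ Ξ, (u : ℂ) ∈ Metric.ball (0 : ℂ) R := by
    intro u hu
    rw [Metric.mem_ball, dist_zero_right, Complex.norm_intCast]
    have h1 : |(u : ℝ)| ≤ K := by exact_mod_cast hΞ u hu
    linarith
  have hθu : ∀ u ∈ Ξ₁, θ (u : ℂ) = τ u := by
    intro u hu
    have hu' := hΞ₁s u hu
    have h1 := branch_unique (p := p) hw0 (V := Metric.ball (u₁ : ℂ) ρ ∩ Metric.ball (u : ℂ) ρ)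
      (Metric.isOpen_ball.inter Metric.isOpen_ball)
      ((convex_ball _ _).inter (convex_ball _ _)).isPreconnected
      ((hg u₁ hu₁').1.mono Set.inter_subset_left) ((hg u hu').1.mono Set.inter_subset_right)
      (fun s hs => by rw [hpe]; exact ((hg u₁ hu₁').2.2 s hs.1).2)
      (fun s hs => by rw [hpe]; exact ((hg u hu').2.2 s hs.2).2)
      (s₀ := 0) ⟨h0mem u₁ hu₁', h0mem u hu'⟩
      (by rw [(Finset.mem_filter.1 hu₁).2, (Finset.mem_filter.1 hu).2])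
      (u : ℂ) ⟨hball (humem u hu'), Metric.mem_ball_self hρ0⟩
    rw [hθ, h1, (hg u hu').2.1]
  -- the extension of the solution
  set t₁ : ℂ := τ u₁ with ht₁
  have hT₁ := hT u₁ hu₁'
  have hLan : ∀ i j : β, AnalyticOnNhd ℂ (fun t : ℂ => aeval t (A i j) / aeval t T)
      (Metric.ball t₁ r₀) := by
    intro i j
    have hpol : ∀ q : κ[X], AnalyticOnNhd ℂ (fun s : ℂ => aeval s q) Set.univ := fun q =>
      DifferentiableOn.analyticOnNhd
        (fun s _ => (q.hasDerivAt_aeval s).differentiableAt.differentiableWithinAt) isOpen_univ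
    exact ((hpol _).mono (Set.subset_univ _)).div ((hpol _).mono (Set.subset_univ _)) hT₁
  obtain ⟨y, hy1, hy2, hy3⟩ := exists_ode hr₀ (L := fun i j t => aeval t (A i j) / aeval t T)
    hLan (z t₁)
  have hyode : ∀ t ∈ Metric.ball t₁ r₀, ∀ i, aeval t T * deriv (fun t => y t i) t =
      ∑ l, aeval t (A i l) * y t l := by
    intro t ht i
    rw [hy2 t ht i, Finset.mul_sum]
    refine Finset.sum_congr rfl fun l _ => ?_
    have := hT₁ t ht
    field_simp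
  have hyz : ∀ t ∈ V ∩ Metric.ball t₁ r₀, y t = z t := by
    refine ode_unique (V := V ∩ Metric.ball t₁ r₀) (hV.inter Metric.isOpen_ball)
      (hV'.inter (convex_ball _ _)).isPreconnected
      (L := fun i j t => aeval t (A i j) / aeval t T)
      (fun i j => (hLan i j).mono Set.inter_subset_right)
      (fun i => (hy1 i).mono Set.inter_subset_right)
      (fun i => (hz i).mono (Set.inter_subset_left.trans hVU))
      (fun t ht i => hy2 t ht.2 i) (fun t ht i => ?_) (t₀ := t₁)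
      ⟨hτV u₁ hu₁', Metric.mem_ball_self hr₀⟩ hy3
    have h1 := hode t (hVU ht.1) i
    have h2 := hT₁ t ht.2
    have h3 : ∑ l, aeval t (A i l) / aeval t T * z t l =
        (aeval t T)⁻¹ * ∑ l, aeval t (A i l) * z t l := by
      rw [Finset.mul_sum]
      exact Finset.sum_congr rfl fun l _ => by rw [div_eq_mul_inv]; ring
    rw [h3, ← h1, ← mul_assoc, inv_mul_cancel₀ h2, one_mul]
  -- the system
  have hθan : AnalyticOnNhd ℂ θ (Metric.ball 0 R) := (hg u₁ hu₁').1.mono hball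
  have hθF : ∀ s ∈ Metric.ball (0 : ℂ) R, Fv (fun j => ω j) (ptC (0, j₀) a s) (θ s) = 0 := by
    intro s hs
    rw [Fv_ptC]
    exact ((hg u₁ hu₁').2.2 s (hball hs)).2
  have hθm : ∀ s ∈ Metric.ball (0 : ℂ) R, θ s ∈ Metric.ball t₁ r₀ := fun s hs =>
    ((hg u₁ hu₁').2.2 s (hball hs)).1
  have hsys := pen_sys ω D hθan hθF hθm hT₁ hy1 hyode
  have hcard := hcore (ι := D.Γ × β) le_rfl K (X : ℝ) R hK hKE hR _ _ _ hsys Ξ₁
    (fun u hu => hΞ u (hΞ₁s u hu))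
    (fun u hu => by
      rw [spec_eval]
      exact hΘ u (hΞ₁s u hu))
    (fun u hu => D.growth X hX a u (hbox u (hΞ₁s u hu)) (hΘ u (hΞ₁s u hu)))
    (fun u hu => by
      have hu' := hΞ₁s u hu
      have ht : θ (u : ℂ) = τ u := hθu u hu
      have hm : τ u ∈ V ∩ Metric.ball t₁ r₀ :=
        ⟨hτV u hu', by rw [← ht]; exact hθm _ (humem u hu')⟩
      refine pen_bad ω D hθan hθF hθm hT₁ hy1 hyode hU hU' hz (humem u hu') (hΘ u hu') ?_ ?_ ?_
      · rw [ht]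
        exact hVU hm.1
      · rw [ht]
        filter_upwards [(hV.inter Metric.isOpen_ball).mem_nhds hm] with t ht'
        exact hyz t ht'
      · rw [ht]
        exact hbad u hu')
  omega

end Pool.Agent.Helper79.AA
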