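import Mathlib

namespace Pool.Agent.Helper79.AA

theorem rate {m b b' c K E : ℕ} {Λ R : ℝ} (hm : 1 ≤ m) (hK : 2 ≤ K) (hb : b = 2 * b')
    (hb' : 6 * c * m ^ 2 + 1 ≤ b') (hE : 2 * (8 * m ^ 3 + 4 * m ^ 2 + 4 * m + 6) ≤ E)
    (hΛ : (K : ℝ) ^ E ≤ Λ) (hR : Λ ≤ R * K) :
    ((Λ ^ c) ^ m) ^ m *
      (((2 * (K : ℝ)) ^ (2 * m * b) * (Λ ^ c) ^ 2) ^ (2 * m) * (2 * (K : ℝ)) ^ (2 * m * b) *
        (Λ ^ c) ^ m) ^ (m - 1) *
      (((2 * (K : ℝ)) ^ (2 * m * b) * (Λ ^ c) ^ 2) ^ (2 * m) * (R / 2) ^ (2 * m * b) *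
        (3 * (K : ℝ)) ^ ((2 * m + 1) * b) * (4 / R) ^ ((2 * m + 1) * b)) < 1 := by
  have hx : (2 : ℝ) ≤ K := by exact_mod_cast hK
  have hx0 : (0 : ℝ) < K := by linarith
  have hx1 : (1 : ℝ) ≤ K := by linarith
  have hE1 : 1 ≤ E := by omega
  have hΛ2 : 2 ≤ Λ := by
    calc (2 : ℝ) ≤ K := hx
      _ = (K : ℝ) ^ 1 := (pow_one _).symm
      _ ≤ (K : ℝ) ^ E := pow_le_pow_right₀ hx1 hE1
      _ ≤ Λ := hΛ
  have hΛ0 : 0 < Λ := by linarith
  have hΛ1 : 1 ≤ Λ := by linarith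
  have hR0 : 0 < R := by
    by_contra h
    push Not at h
    nlinarith
  have h2K : 2 * (K : ℝ) ≤ (K : ℝ) ^ 2 := by nlinarith
  have h3K : 3 * (K : ℝ) ≤ (K : ℝ) ^ 3 := by nlinarith [mul_pos hx0 hx0]
  have h4K : 4 * (K : ℝ) ≤ (K : ℝ) ^ 3 := by nlinarith [mul_pos hx0 hx0]
  set x : ℝ := (K : ℝ) with hxd
  set α : ℝ := ((2 * x) ^ (2 * m * b) * (Λ ^ c) ^ 2) ^ (2 * m) with hα
  have e1 : ∀ n : ℕ, (2 * x) ^ n ≤ x ^ (2 * n) := fun n => by
    rw [pow_mul]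
    exact pow_le_pow_left₀ (by positivity) h2K n
  have hα1 : α ≤ x ^ (8 * m ^ 2 * b) * Λ ^ (4 * c * m) := by
    calc α ≤ (x ^ (2 * (2 * m * b)) * (Λ ^ c) ^ 2) ^ (2 * m) :=
          pow_le_pow_left₀ (by positivity)
            (mul_le_mul_of_nonneg_right (e1 _) (by positivity)) _
      _ = x ^ (8 * m ^ 2 * b) * Λ ^ (4 * c * m) := by
          rw [mul_pow, ← pow_mul, ← pow_mul, ← pow_mul]
          congr 2 <;> ring
  have hα0 : 0 ≤ α := by positivity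
  have hβ : α * (2 * x) ^ (2 * m * b) * (Λ ^ c) ^ m ≤
      x ^ (8 * m ^ 2 * b + 4 * m * b) * Λ ^ (5 * c * m) := by
    calc α * (2 * x) ^ (2 * m * b) * (Λ ^ c) ^ m
        ≤ (x ^ (8 * m ^ 2 * b) * Λ ^ (4 * c * m)) * x ^ (2 * (2 * m * b)) * (Λ ^ c) ^ m := by
          refine mul_le_mul_of_nonneg_right ?_ (by positivity)
          exact mul_le_mul hα1 (e1 _) (by positivity) (by positivity)
      _ = x ^ (8 * m ^ 2 * b + 4 * m * b) * Λ ^ (5 * c * m) := by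
          rw [← pow_mul, pow_add, show 5 * c * m = 4 * c * m + c * m by ring, pow_add,
            show 2 * (2 * m * b) = 4 * m * b by ring]
          ring
  have hlast : (R / 2) ^ (2 * m * b) * (3 * x) ^ ((2 * m + 1) * b) *
      (4 / R) ^ ((2 * m + 1) * b) ≤ x ^ (2 * m * b + 3 * ((2 * m + 1) * b) + 3 * b) *
        (Λ⁻¹) ^ b := by
    have a1 : (R / 2) ^ (2 * m * b) * (4 / R) ^ ((2 * m + 1) * b) =
        2 ^ (2 * m * b) * (4 / R) ^ b := by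
      rw [show (2 * m + 1) * b = 2 * m * b + b by ring, pow_add, ← mul_assoc, ← mul_pow]
      congr 2
      field_simp
      norm_num
    have a2 : (4 / R) ≤ x ^ 3 * Λ⁻¹ := by
      rw [div_le_iff₀ hR0]
      have : 4 * x ≤ x ^ 3 := h4K
      have h5 : Λ ≤ R * x := hR
      calc (4 : ℝ) = 4 * (Λ * Λ⁻¹) := by rw [mul_inv_cancel₀ hΛ0.ne', mul_one]
        _ ≤ 4 * (R * x * Λ⁻¹) := by
            refine mul_le_mul_of_nonneg_left ?_ (by norm_num)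
            exact mul_le_mul_of_nonneg_right h5 (by positivity)
        _ = (4 * x) * Λ⁻¹ * R := by ring
        _ ≤ x ^ 3 * Λ⁻¹ * R := by
            refine mul_le_mul_of_nonneg_right ?_ hR0.le
            exact mul_le_mul_of_nonneg_right this (by positivity)
    calc (R / 2) ^ (2 * m * b) * (3 * x) ^ ((2 * m + 1) * b) * (4 / R) ^ ((2 * m + 1) * b)
        = (R / 2) ^ (2 * m * b) * (4 / R) ^ ((2 * m + 1) * b) *
          (3 * x) ^ ((2 * m + 1) * b) := by ring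
      _ = 2 ^ (2 * m * b) * (4 / R) ^ b * (3 * x) ^ ((2 * m + 1) * b) := by rw [a1]
      _ ≤ x ^ (2 * m * b) * (x ^ 3 * Λ⁻¹) ^ b * (x ^ 3) ^ ((2 * m + 1) * b) := by
          have b1 : (2 : ℝ) ^ (2 * m * b) ≤ x ^ (2 * m * b) :=
            pow_le_pow_left₀ (by norm_num) hx _
          have b2 : (4 / R) ^ b ≤ (x ^ 3 * Λ⁻¹) ^ b :=
            pow_le_pow_left₀ (by positivity) a2 _
          have b3 : (3 * x) ^ ((2 * m + 1) * b) ≤ (x ^ 3) ^ ((2 * m + 1) * b) :=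
            pow_le_pow_left₀ (by positivity) h3K _
          exact mul_le_mul (mul_le_mul b1 b2 (by positivity) (by positivity)) b3
            (by positivity) (by positivity)
      _ = x ^ (2 * m * b + 3 * ((2 * m + 1) * b) + 3 * b) * (Λ⁻¹) ^ b := by
          rw [mul_pow, ← pow_mul, ← pow_mul, pow_add, pow_add]
          ring
  have htot : ((Λ ^ c) ^ m) ^ m * (α * (2 * x) ^ (2 * m * b) * (Λ ^ c) ^ m) ^ (m - 1) *
      (α * (R / 2) ^ (2 * m * b) * (3 * x) ^ ((2 * m + 1) * b) *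
        (4 / R) ^ ((2 * m + 1) * b)) ≤
      x ^ (b * (8 * m ^ 3 + 4 * m ^ 2 + 4 * m + 6)) * Λ ^ (6 * c * m ^ 2) * (Λ⁻¹) ^ b := by
    have c1 : (α * (2 * x) ^ (2 * m * b) * (Λ ^ c) ^ m) ^ (m - 1) ≤
        (x ^ (8 * m ^ 2 * b + 4 * m * b) * Λ ^ (5 * c * m)) ^ (m - 1) :=
      pow_le_pow_left₀ (by positivity) hβ _
    have c2 : α * (R / 2) ^ (2 * m * b) * (3 * x) ^ ((2 * m + 1) * b) *
        (4 / R) ^ ((2 * m + 1) * b) ≤ (x ^ (8 * m ^ 2 * b) * Λ ^ (4 * c * m)) *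
        (x ^ (2 * m * b + 3 * ((2 * m + 1) * b) + 3 * b) * (Λ⁻¹) ^ b) := by
      calc α * (R / 2) ^ (2 * m * b) * (3 * x) ^ ((2 * m + 1) * b) *
            (4 / R) ^ ((2 * m + 1) * b) = α * ((R / 2) ^ (2 * m * b) *
            (3 * x) ^ ((2 * m + 1) * b) * (4 / R) ^ ((2 * m + 1) * b)) := by ring
        _ ≤ _ := mul_le_mul hα1 hlast (by positivity) (by positivity)
    calc _ ≤ ((Λ ^ c) ^ m) ^ m * (x ^ (8 * m ^ 2 * b + 4 * m * b) * Λ ^ (5 * c * m)) ^ (m - 1) *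
          ((x ^ (8 * m ^ 2 * b) * Λ ^ (4 * c * m)) *
        (x ^ (2 * m * b + 3 * ((2 * m + 1) * b) + 3 * b) * (Λ⁻¹) ^ b)) := by
          refine mul_le_mul (mul_le_mul_of_nonneg_left c1 (by positivity)) c2 (by positivity)
            (by positivity)
      _ = x ^ ((8 * m ^ 2 * b + 4 * m * b) * (m - 1) + 8 * m ^ 2 * b + (2 * m * b +
          3 * ((2 * m + 1) * b) + 3 * b)) * Λ ^ (c * m * m + 5 * c * m * (m - 1) + 4 * c * m) *
          (Λ⁻¹) ^ b := by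
          rw [mul_pow, ← pow_mul, ← pow_mul, ← pow_mul, ← pow_mul, pow_add, pow_add, pow_add,
            pow_add, pow_add, pow_add]
          ring
      _ ≤ _ := by
          refine mul_le_mul_of_nonneg_right ?_ (by positivity)
          refine mul_le_mul ?_ ?_ (by positivity) (by positivity)
          · refine pow_le_pow_right₀ hx1 ?_
            obtain ⟨m', rfl⟩ : ∃ m', m = m' + 1 := ⟨m - 1, by omega⟩
            rw [Nat.add_sub_cancel]
            nlinarith [Nat.zero_le (b * m'), Nat.zero_le (b * m' ^ 2), Nat.zero_le b]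
          · refine pow_le_pow_right₀ hΛ1 ?_
            obtain ⟨m', rfl⟩ : ∃ m', m = m' + 1 := ⟨m - 1, by omega⟩
            rw [Nat.add_sub_cancel]
            nlinarith [Nat.zero_le (c * m')]
  refine lt_of_le_of_lt htot ?_
  have d1 : x ^ (b * (8 * m ^ 3 + 4 * m ^ 2 + 4 * m + 6)) ≤ Λ ^ b' := by
    calc x ^ (b * (8 * m ^ 3 + 4 * m ^ 2 + 4 * m + 6))
        = (x ^ (2 * (8 * m ^ 3 + 4 * m ^ 2 + 4 * m + 6))) ^ b' := by
          rw [← pow_mul, hb]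
          congr 1
          ring
      _ ≤ (x ^ E) ^ b' := pow_le_pow_left₀ (by positivity) (pow_le_pow_right₀ hx1 hE) _
      _ ≤ Λ ^ b' := pow_le_pow_left₀ (by positivity) hΛ _
  have d2 : Λ ^ (6 * c * m ^ 2) ≤ Λ ^ (b' - 1) := pow_le_pow_right₀ hΛ1 (by omega)
  calc x ^ (b * (8 * m ^ 3 + 4 * m ^ 2 + 4 * m + 6)) * Λ ^ (6 * c * m ^ 2) * (Λ⁻¹) ^ b
      ≤ Λ ^ b' * Λ ^ (b' - 1) * (Λ⁻¹) ^ b := by
        refine mul_le_mul_of_nonneg_right ?_ (by positivity)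
        exact mul_le_mul d1 d2 (by positivity) (by positivity)
    _ = Λ⁻¹ := by
        have : b = b' + (b' - 1) + 1 := by omega
        rw [← pow_add, this, inv_pow, pow_succ, mul_inv, ← mul_assoc,
          mul_inv_cancel₀ (by positivity), one_mul]
    _ < 1 := by
        rw [inv_lt_one₀ hΛ0]
        linarith

end Pool.Agent.Helper79.AA
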