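import Pool.Agent.Helper79.AA.Defs

/-!
# AA-01: the rows

* `row_zero`: `betaF T A 0 = 1`.
* `nop_eval`: `T^j ∇^j p / j! = ∑_(l ≤ j) T^l (hasse_l p) β_(j-l)` as polynomials, by induction on `j`: with
  `(j+1) β_(j+1) = T β_j' - j T' β_j + β_j A` and `(hasse_l p)' = (l+1) hasse_(l+1) p`
  (`Polynomial.derivative_hasseDeriv` or similar). Then evaluate at `u`.
* `row_deriv`: for `f = ∑_a p_a z_a` on the disc: `T^j f^(j) = ∑_b (nop j p)_b z_b` on the disc (induction on
  `j`: differentiate, multiply by `T`; use `IsSys.ode`; the disc is open so that an identity on the disc can be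
  differentiated, `iteratedDeriv_succ`). Evaluate at `u` and use `nop_eval`.
* `row_ode`: consequence of `nop_eval` (or directly): not needed.
-/

open Polynomial

namespace Pool.Agent.Helper79.AA

open Pool.Agent.Helper79.GX

variable {ι : Type} [Fintype ι] [DecidableEq ι] {T : ℚ[X]} {A : Matrix ι ι ℚ[X]}

/-- The terms of the Leibniz formula. -/
private noncomputable def gg (T : ℚ[X]) (A : Matrix ι ι ℚ[X]) (p : ι → ℚ[X]) (l m : ℕ) (b : ι) :
    ℚ[X] := ∑ a, T ^ l * hasseDeriv l (p a) * betaF T A m a b

private theorem deriv_hasse (l : ℕ) (f : ℚ[X]) :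
    derivative (hasseDeriv l f) = ((l + 1 : ℕ) : ℚ[X]) * hasseDeriv (l + 1) f := by
  have h := LinearMap.congr_fun (hasseDeriv_comp (R := ℚ) 1 l) f
  rw [LinearMap.comp_apply, hasseDeriv_one] at h
  rw [h, LinearMap.smul_apply, Nat.choose_one_right, add_comm 1 l, nsmul_eq_mul]

private theorem T_deriv_pow (T : ℚ[X]) (l : ℕ) :
    T * derivative (T ^ l) = (l : ℚ[X]) * derivative T * T ^ l := by
  cases l with
  | zero => simp
  | succ l =>
    rw [derivative_pow, Nat.add_sub_cancel]
    simp only [Nat.cast_add, Nat.cast_one, map_add, map_natCast, map_one]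
    ring

private theorem beta_succ (T : ℚ[X]) (A : Matrix ι ι ℚ[X]) (m : ℕ) (a b : ι) :
    ((m : ℚ[X]) + 1) * betaF T A (m + 1) a b = T * derivative (betaF T A m a b) -
      ((m : ℚ[X]) * derivative T) * betaF T A m a b + ∑ c, betaF T A m a c * A c b := by
  have h : ((m : ℚ[X]) + 1) * C (((m : ℚ) + 1)⁻¹) = 1 := by
    have h1 : ((m : ℚ[X]) + 1) = C ((m : ℚ) + 1) := by simp
    rw [h1, ← C_mul, mul_inv_cancel₀ (by positivity), C_1]
  have h2 : betaF T A (m + 1) a b = C (((m : ℚ) + 1)⁻¹) * (T * derivative (betaF T A m a b) -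
      ((m : ℚ[X]) * derivative T) * betaF T A m a b + ∑ c, betaF T A m a c * A c b) := by
    rw [betaF]
    simp only [Matrix.smul_apply, Matrix.add_apply, Matrix.sub_apply, Matrix.map_apply,
      smul_eq_mul, Matrix.mul_apply]
  rw [h2, ← mul_assoc, h, one_mul]

private theorem gg_step (p : ι → ℚ[X]) (l m : ℕ) (b : ι) :
    T * derivative (gg T A p l m b) + ∑ c, gg T A p l m c * A c b =
      ((l : ℚ[X]) + 1) * gg T A p (l + 1) m b + ((m : ℚ[X]) + 1) * gg T A p l (m + 1) b +
        ((l : ℚ[X]) + (m : ℚ[X])) * derivative T * gg T A p l m b := by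
  unfold gg
  have h1 : ∑ c, (∑ a, T ^ l * hasseDeriv l (p a) * betaF T A m a c) * A c b =
      ∑ a, T ^ l * hasseDeriv l (p a) * ∑ c, betaF T A m a c * A c b := by
    simp only [Finset.sum_mul]
    rw [Finset.sum_comm]
    refine Finset.sum_congr rfl fun a _ => ?_
    rw [Finset.mul_sum]
    exact Finset.sum_congr rfl fun c _ => by ring
  rw [h1, derivative_sum]
  simp only [Finset.mul_sum (a := T), Finset.mul_sum (a := ((l : ℚ[X]) + 1)),
    Finset.mul_sum (a := ((m : ℚ[X]) + 1)),
    Finset.mul_sum (a := (((l : ℚ[X]) + (m : ℚ[X])) * derivative T))]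
  rw [← Finset.sum_add_distrib, ← Finset.sum_add_distrib, ← Finset.sum_add_distrib]
  refine Finset.sum_congr rfl fun a _ => ?_
  have h2 := beta_succ T A m a b
  have h3 := T_deriv_pow T l
  have h4 := deriv_hasse l (p a)
  rw [derivative_mul, derivative_mul, h4]
  push_cast
  linear_combination (- (T ^ l * hasseDeriv l (p a))) * h2 +
    hasseDeriv l (p a) * betaF T A m a b * h3

private theorem nop_eq (p : ι → ℚ[X]) (j : ℕ) (b : ι) :
    nop T A j p b = (j.factorial : ℚ[X]) * ∑ l ∈ Finset.range (j + 1), gg T A p l (j - l) b := by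
  induction j generalizing b with
  | zero =>
    have h0 : betaF T A 0 = 1 := rfl
    simp only [nop, gg, Nat.factorial_zero, Nat.cast_one, one_mul, zero_add, Finset.range_one,
      Finset.sum_singleton, pow_zero, hasseDeriv_zero, LinearMap.id_apply, Nat.sub_self, h0,
      Matrix.one_apply]
    simp
  | succ j ih =>
    simp only [nop, dop, ih]
    have h1 : T * derivative ((j.factorial : ℚ[X]) *
        ∑ l ∈ Finset.range (j + 1), gg T A p l (j - l) b) =
        (j.factorial : ℚ[X]) * ∑ l ∈ Finset.range (j + 1), T * derivative (gg T A p l (j - l) b) := by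
      rw [derivative_natCast_mul, derivative_sum, Finset.mul_sum, Finset.mul_sum, Finset.mul_sum]
      exact Finset.sum_congr rfl fun l _ => by ring
    have h2 : ∑ a, (j.factorial : ℚ[X]) * (∑ l ∈ Finset.range (j + 1), gg T A p l (j - l) a) *
        A a b = (j.factorial : ℚ[X]) * ∑ l ∈ Finset.range (j + 1),
          ∑ a, gg T A p l (j - l) a * A a b := by
      rw [Finset.sum_comm, Finset.mul_sum]
      refine Finset.sum_congr rfl fun a _ => ?_
      rw [mul_assoc, Finset.sum_mul]
    rw [h1, h2]
    have h3 : ∀ l ∈ Finset.range (j + 1), T * derivative (gg T A p l (j - l) b) +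
        ∑ c, gg T A p l (j - l) c * A c b - (j : ℚ[X]) * derivative T * gg T A p l (j - l) b =
        ((l : ℚ[X]) + 1) * gg T A p (l + 1) (j - l) b +
          (((j - l : ℕ) : ℚ[X]) + 1) * gg T A p l (j - l + 1) b := by
      intro l hl
      rw [Finset.mem_range] at hl
      rw [gg_step]
      have h4 : (j : ℚ[X]) = (l : ℚ[X]) + ((j - l : ℕ) : ℚ[X]) := by
        rw [← Nat.cast_add]
        congr 1
        omega
      rw [h4]
      have h5 : l + (j - l) - l = j - l := by omega
      ring
    have h4 : (j.factorial : ℚ[X]) * ∑ l ∈ Finset.range (j + 1),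
          T * derivative (gg T A p l (j - l) b) +
        (j.factorial : ℚ[X]) * ∑ l ∈ Finset.range (j + 1), ∑ a, gg T A p l (j - l) a * A a b -
        (j : ℚ[X]) * derivative T * ((j.factorial : ℚ[X]) *
          ∑ l ∈ Finset.range (j + 1), gg T A p l (j - l) b) =
        (j.factorial : ℚ[X]) * ∑ l ∈ Finset.range (j + 1),
          (T * derivative (gg T A p l (j - l) b) + ∑ c, gg T A p l (j - l) c * A c b -
            (j : ℚ[X]) * derivative T * gg T A p l (j - l) b) := by
      rw [Finset.sum_sub_distrib, Finset.sum_add_distrib, ← Finset.mul_sum,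
        ← Finset.mul_sum (a := (j : ℚ[X]) * derivative T)]
      ring
    rw [h4, Finset.sum_congr rfl h3]
    have h5 : ∑ l ∈ Finset.range (j + 1), (((l : ℚ[X]) + 1) * gg T A p (l + 1) (j - l) b +
          (((j - l : ℕ) : ℚ[X]) + 1) * gg T A p l (j - l + 1) b) =
        ((j : ℚ[X]) + 1) * ∑ l ∈ Finset.range (j + 1 + 1), gg T A p l (j + 1 - l) b := by
      rw [Finset.sum_add_distrib]
      have e1 : ∑ l ∈ Finset.range (j + 1), ((l : ℚ[X]) + 1) * gg T A p (l + 1) (j - l) b =
          ∑ l ∈ Finset.range (j + 1 + 1), (l : ℚ[X]) * gg T A p l (j + 1 - l) b := by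
        rw [Finset.sum_range_succ' _ (j + 1)]
        simp only [Nat.cast_zero, zero_mul, add_zero]
        refine Finset.sum_congr rfl fun l _ => ?_
        have : j + 1 - (l + 1) = j - l := by omega
        rw [this]
        push_cast
        ring
      have e2 : ∑ l ∈ Finset.range (j + 1),
          (((j - l : ℕ) : ℚ[X]) + 1) * gg T A p l (j - l + 1) b =
          ∑ l ∈ Finset.range (j + 1 + 1), ((j + 1 - l : ℕ) : ℚ[X]) * gg T A p l (j + 1 - l) b := by
        rw [Finset.sum_range_succ _ (j + 1)]
        simp only [Nat.sub_self, Nat.cast_zero, zero_mul, add_zero]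
        refine Finset.sum_congr rfl fun l hl => ?_
        rw [Finset.mem_range] at hl
        have : j + 1 - l = j - l + 1 := by omega
        rw [this]
        push_cast
        ring
      rw [e1, e2, ← Finset.sum_add_distrib, Finset.mul_sum]
      refine Finset.sum_congr rfl fun l hl => ?_
      rw [Finset.mem_range] at hl
      rw [← add_mul, ← Nat.cast_add]
      have : l + (j + 1 - l) = j + 1 := by omega
      rw [this]
      push_cast
      ring
    rw [h5, Nat.factorial_succ]
    push_cast
    ring

theorem row_zero (p : ι → ℚ[X]) (u : ℚ) (b : ι) : row T A p 0 u b = (p b).eval u := by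
  unfold row gm
  simp only [zero_add, Finset.range_one, Finset.sum_singleton, hasseDeriv_zero,
    LinearMap.id_apply, Nat.sub_self, betaF, Matrix.of_apply, pow_zero, div_one, Matrix.one_apply]
  rw [Finset.sum_eq_single b]
  · simp
  · intro a _ hab
    simp [hab]
  · intro h
    exact absurd (Finset.mem_univ b) h

theorem nop_eval (p : ι → ℚ[X]) (j : ℕ) {u : ℚ} (hu : T.eval u ≠ 0) (b : ι) :
    (nop T A j p b).eval u = (j.factorial : ℚ) * T.eval u ^ j * row T A p j u b := by
  rw [nop_eq, eval_mul, eval_natCast, mul_assoc]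
  congr 1
  unfold row gg gm
  rw [eval_finsetSum, Finset.mul_sum]
  refine Finset.sum_congr rfl fun l hl => ?_
  rw [Finset.mem_range] at hl
  rw [eval_finsetSum, Finset.mul_sum]
  refine Finset.sum_congr rfl fun a _ => ?_
  rw [Matrix.of_apply, eval_mul, eval_mul, eval_pow]
  have h : T.eval u ^ j = T.eval u ^ l * T.eval u ^ (j - l) := by
    rw [← pow_add]
    congr 1
    omega
  rw [h]
  field_simp

theorem nop_fun {R : ℝ} {z : ℂ → ι → ℂ} (hz : IsSys T A R z) (p : ι → ℚ[X]) (j : ℕ) {s : ℂ}
    (hs : s ∈ Metric.ball (0 : ℂ) R) :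
    aeval s T ^ j * iteratedDeriv j (fun s => ∑ a, aeval s (p a) * z s a) s =
      ∑ b, aeval s (nop T A j p b) * z s b := by
  set f : ℂ → ℂ := fun s => ∑ a, aeval s (p a) * z s a with hf
  have haev : ∀ q : ℚ[X], AnalyticOnNhd ℂ (fun s : ℂ => aeval s q) (Metric.ball (0 : ℂ) R) := by
    intro q
    have h : Differentiable ℂ (fun s : ℂ => aeval s q) := fun s =>
      (Polynomial.hasDerivAt_aeval q s).differentiableAt
    exact fun x _ => h.analyticAt x
  have hfa : AnalyticOnNhd ℂ f (Metric.ball (0 : ℂ) R) := by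
    intro x hx
    rw [hf]
    apply Finset.analyticAt_fun_sum
    intro a _
    exact (haev (p a) x hx).mul (hz.an a x hx)
  induction j generalizing s with
  | zero => simp [nop, hf]
  | succ j ih =>
    have hfj : DifferentiableAt ℂ (iteratedDeriv j f) s := by
      rw [iteratedDeriv_eq_iterate]
      exact ((hfa s hs).iterated_deriv j).differentiableAt
    have hev : (fun s => aeval s T ^ j * iteratedDeriv j f s) =ᶠ[nhds s]
        fun s => ∑ b, aeval s (nop T A j p b) * z s b := by
      filter_upwards [Metric.isOpen_ball.mem_nhds hs] with t ht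
      exact ih ht
    have hd := hev.deriv_eq
    have h1 : HasDerivAt (fun s => aeval s T ^ j * iteratedDeriv j f s)
        ((j : ℂ) * aeval s T ^ (j - 1) * aeval s (derivative T) * iteratedDeriv j f s +
          aeval s T ^ j * iteratedDeriv (j + 1) f s) s := by
      have e1 := (Polynomial.hasDerivAt_aeval T s).pow j
      have e2 : HasDerivAt (iteratedDeriv j f) (iteratedDeriv (j + 1) f s) s := by
        rw [iteratedDeriv_succ]
        exact hfj.hasDerivAt
      exact e1.mul e2
    have h2 : HasDerivAt (fun s => ∑ b, aeval s (nop T A j p b) * z s b)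
        (∑ b, (aeval s (derivative (nop T A j p b)) * z s b +
          aeval s (nop T A j p b) * deriv (fun u => z u b) s)) s := by
      apply HasDerivAt.fun_sum
      intro b _
      exact (Polynomial.hasDerivAt_aeval (nop T A j p b) s).mul
        ((hz.an b s hs).differentiableAt.hasDerivAt)
    rw [h1.deriv, h2.deriv] at hd
    have ihs := ih hs
    have h3 : aeval s T * ((j : ℂ) * aeval s T ^ (j - 1) * aeval s (derivative T) *
        iteratedDeriv j f s) = (j : ℂ) * aeval s (derivative T) *
          (aeval s T ^ j * iteratedDeriv j f s) := by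
      cases j with
      | zero => simp
      | succ j =>
        rw [Nat.add_sub_cancel]
        ring
    have h4 : aeval s T ^ (j + 1) * iteratedDeriv (j + 1) f s =
        aeval s T * (∑ b, (aeval s (derivative (nop T A j p b)) * z s b +
          aeval s (nop T A j p b) * deriv (fun u => z u b) s)) -
        (j : ℂ) * aeval s (derivative T) * ∑ b, aeval s (nop T A j p b) * z s b := by
      rw [← hd, ← ihs]
      rw [mul_add, h3]
      ring
    rw [h4, Finset.sum_add_distrib, mul_add, Finset.mul_sum, Finset.mul_sum, Finset.mul_sum]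
    have h5 : ∑ b, aeval s T * (aeval s (nop T A j p b) * deriv (fun u => z u b) s) =
        ∑ b, (∑ a, aeval s (nop T A j p a) * aeval s (A a b)) * z s b := by
      have e1 : ∀ b, aeval s T * (aeval s (nop T A j p b) * deriv (fun u => z u b) s) =
          ∑ l, aeval s (nop T A j p b) * aeval s (A b l) * z s l := by
        intro b
        rw [mul_left_comm, hz.ode s hs b, Finset.mul_sum]
        exact Finset.sum_congr rfl fun l _ => by ring
      simp only [e1]
      rw [Finset.sum_comm]
      exact Finset.sum_congr rfl fun b _ => by rw [Finset.sum_mul]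
    rw [h5, ← Finset.sum_add_distrib, ← Finset.sum_sub_distrib]
    refine Finset.sum_congr rfl fun b _ => ?_
    simp only [nop, dop, map_sub, map_add, map_mul, map_sum, map_natCast]
    ring

theorem row_deriv {R : ℝ} {z : ℂ → ι → ℂ} (hz : IsSys T A R z) (p : ι → ℚ[X]) (j : ℕ) {u : ℚ}
    (hu : (u : ℂ) ∈ Metric.ball (0 : ℂ) R) (hT : T.eval u ≠ 0) :
    iteratedDeriv j (fun s => ∑ a, aeval s (p a) * z s a) (u : ℂ) =
      (j.factorial : ℂ) * ∑ b, ((row T A p j u b : ℚ) : ℂ) * z u b := by
  have hev : ∀ q : ℚ[X], aeval (u : ℂ) q = ((q.eval u : ℚ) : ℂ) := by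
    intro q
    have h := Polynomial.aeval_algebraMap_apply ℂ u q
    simpa using h
  have h := nop_fun hz p j hu
  simp only [hev, nop_eval p j hT] at h
  have hT' : ((T.eval u : ℚ) : ℂ) ^ j ≠ 0 := pow_ne_zero _ (by exact_mod_cast hT)
  apply mul_left_cancel₀ hT'
  rw [h, Finset.mul_sum, Finset.mul_sum]
  refine Finset.sum_congr rfl fun b _ => ?_
  push_cast
  ring

end Pool.Agent.Helper79.AA
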