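import Pool.Agent.Helper79.AA.Defs
import Pool.Agent.Helper79.GX.KDefs

/-!
# AA: the universal polynomial of degree `≤ dg`: definitions

`a = (a_(k,j))`, `k ≤ dg`, `j ∈ J`, are the coefficients of the polynomial `F_a(t) = ∑ a_(k,j) ω_j t^k`. The direction of the lines
is the coordinate `(0, j₀)` (the constant term).
-/

open Polynomial

namespace Pool.Agent.Helper79.AA

open Pool.Agent.Helper79.GX Pool.Agent.Helper64.Per

/-- The index set of the coefficients. -/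
abbrev Ix (dg : ℕ) (J : Type) : Type := Fin (dg + 1) × J

section

variable {κ : IntermediateField ℚ Qbar} {J : Type} [Fintype J]

/-- `F_a(t)`. -/
noncomputable def Fv (ω : J → κ) {dg : ℕ} (a : Ix dg J → ℂ) (t : ℂ) : ℂ :=
  ∑ i, a i * algebraMap κ ℂ (ω i.2) * t ^ (i.1 : ℕ)

/-- `F_a'(t)`. -/
noncomputable def Fd (ω : J → κ) {dg : ℕ} (a : Ix dg J → ℂ) (t : ℂ) : ℂ :=
  ∑ i, a i * algebraMap κ ℂ (ω i.2) * ((((i.1 : ℕ) : ℂ)) * t ^ ((i.1 : ℕ) - 1))

end

section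

variable {σ : Type} [DecidableEq σ]

/-- The points of the line through `a` in the direction `i₀`. -/
def pt (i₀ : σ) (a : σ → ℤ) (u : ℤ) : σ → ℤ := fun i => a i + if i = i₀ then u else 0

/-- The complex points of this line. -/
noncomputable def ptC (i₀ : σ) (a : σ → ℤ) (s : ℂ) : σ → ℂ :=
  fun i => (a i : ℂ) + if i = i₀ then s else 0

/-- The restriction of a polynomial to this line. -/
noncomputable def spec (i₀ : σ) (a : σ → ℤ) : MvPolynomial σ ℚ →ₐ[ℚ] ℚ[X] :=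
  MvPolynomial.aeval fun i => C ((a i : ℤ) : ℚ) + if i = i₀ then X else 0

/-- The divided iterates in several variables, with respect to `∂/∂x_(i₀)`. -/
noncomputable def mbeta {ι : Type} [Fintype ι] [DecidableEq ι] (i₀ : σ) (Θ : MvPolynomial σ ℚ)
    (M : Matrix ι ι (MvPolynomial σ ℚ)) : ℕ → Matrix ι ι (MvPolynomial σ ℚ)
  | 0 => 1
  | (j + 1) => (MvPolynomial.C (((j : ℚ) + 1)⁻¹) : MvPolynomial σ ℚ) •
      (Θ • (mbeta i₀ Θ M j).map (MvPolynomial.pderiv i₀)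
        - ((j : MvPolynomial σ ℚ) * MvPolynomial.pderiv i₀ Θ) • mbeta i₀ Θ M j
        + mbeta i₀ Θ M j * M)

end

/-- A model of the field generated by the coefficients `a` of the universal polynomial, the field
`κ` and a root `t`. -/
structure Mod0 {κ : IntermediateField ℚ Qbar} {J : Type} [Fintype J] [DecidableEq J] (ω : J → κ)
    (dg : ℕ) (j₀ : J) {L : Type} [Field L] [CharZero L] [Algebra κ L] (D : Derivation ℚ L L)
    (t : L) (a : Ix dg J → L) : Prop where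
  ind : AlgebraicIndependent ℚ a
  tr : Transcendental κ t
  eqn : ∑ i, a i * algebraMap κ L (ω i.2) * t ^ (i.1 : ℕ) = 0
  const : ∀ c : κ, D (algebraMap κ L c) = 0
  der : ∀ i, D (a i) = if i = (0, j₀) then 1 else 0
  quo : ∀ f : L, ∃ P Q : MvPolynomial (Option (Ix dg J)) κ,
    MvPolynomial.aeval (fun o => o.elim t a) Q ≠ 0 ∧
    f = MvPolynomial.aeval (fun o => o.elim t a) P / MvPolynomial.aeval (fun o => o.elim t a) Q
  gen : ∀ P : MvPolynomial (Option (Ix dg J)) κ, MvPolynomial.aeval (fun o => o.elim t a) P = 0 →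
    ∀ (t' : ℂ) (a' : Ix dg J → ℂ), Fv ω a' t' = 0 →
      MvPolynomial.aeval (fun o => o.elim t' a') P = 0

/-- The same with the subfield `k = ℚ(a)`. -/
structure Mod {κ : IntermediateField ℚ Qbar} {J : Type} [Fintype J] [DecidableEq J] (ω : J → κ)
    (dg : ℕ) (j₀ : J) {k L : Type} [Field k] [CharZero k] [Algebra (MvPolynomial (Ix dg J) ℚ) k]
    [Field L] [CharZero L] [Algebra k L] [Algebra κ L] (Dk : Derivation ℚ k k)
    (D : Derivation ℚ L L) (t : L) : Prop where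
  frac : IsFractionRing (MvPolynomial (Ix dg J) ℚ) k
  fin : FiniteDimensional k L
  der : ∀ P, Dk (algebraMap (MvPolynomial (Ix dg J) ℚ) k P) =
    algebraMap (MvPolynomial (Ix dg J) ℚ) k (MvPolynomial.pderiv (0, j₀) P)
  ext : ∀ c : k, D (algebraMap k L c) = algebraMap k L (Dk c)
  const : ∀ c : κ, D (algebraMap κ L c) = 0
  tr : Transcendental κ t
  eqn : ∑ i : Ix dg J, algebraMap k L (algebraMap (MvPolynomial (Ix dg J) ℚ) k
    (MvPolynomial.X i)) * algebraMap κ L (ω i.2) * t ^ (i.1 : ℕ) = 0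
  span : Submodule.span k (Set.range fun p : J × ℕ => algebraMap κ L (ω p.1) * t ^ p.2) = ⊤
  gen : ∀ P : MvPolynomial (Option (Ix dg J)) κ,
    MvPolynomial.aeval (fun o => o.elim t fun i => algebraMap k L (algebraMap
      (MvPolynomial (Ix dg J) ℚ) k (MvPolynomial.X i))) P = 0 →
    ∀ (t' : ℂ) (a' : Ix dg J → ℂ), Fv ω a' t' = 0 →
      MvPolynomial.aeval (fun o => o.elim t' a') P = 0

/-- The universal push-forward. -/
structure Uni {κ : IntermediateField ℚ Qbar} {J : Type} [Fintype J] [DecidableEq J] (ω : J → κ)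
    (dg : ℕ) (j₀ : J) {β : Type} [Fintype β] [DecidableEq β] (T : κ[X])
    (A : Matrix β β κ[X]) where
  Γ : Type
  [fΓ : Fintype Γ]
  [dΓ : DecidableEq Γ]
  b : Γ → J × ℕ
  Θ : MvPolynomial (Ix dg J) ℚ
  Θ_ne : Θ ≠ 0
  M : Matrix (Γ × β) (Γ × β) (MvPolynomial (Ix dg J) ℚ)
  ρ : J × ℕ → Γ → MvPolynomial (Ix dg J) ℚ
  c : ℕ
  growth : ∀ X : ℕ, 2 ≤ X → ∀ (a : Ix dg J → ℤ) (u : ℤ), (∀ i, |pt (0, j₀) a u i| ≤ X) →
    MvPolynomial.eval (fun i => ((pt (0, j₀) a u i : ℤ) : ℚ)) Θ ≠ 0 →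
    Gr (spec (0, j₀) a Θ) (M.map (spec (0, j₀) a)) (u : ℚ) ((X : ℝ) ^ c)
  ident : ∀ (t : ℂ) (a : Ix dg J → ℂ), Fv ω a t = 0 → ∀ (γ : Γ) (i i' : β),
    MvPolynomial.aeval a Θ * (-(algebraMap κ ℂ (ω j₀))) *
      ((if i = i' then (((b γ).2 : ℕ) : ℂ) * algebraMap κ ℂ (ω (b γ).1) * t ^ ((b γ).2 - 1) *
        aeval t T else 0) + algebraMap κ ℂ (ω (b γ).1) * t ^ (b γ).2 * aeval t (A i i')) =
    Fd ω a t * aeval t T * ∑ γ', MvPolynomial.aeval a (M (γ, i) (γ', i')) *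
      (algebraMap κ ℂ (ω (b γ').1) * t ^ (b γ').2)
  span : ∀ (t : ℂ) (a : Ix dg J → ℂ), Fv ω a t = 0 → ∀ p : J × ℕ, p.2 ≤ dg →
    MvPolynomial.aeval a Θ * (algebraMap κ ℂ (ω p.1) * t ^ p.2) =
      ∑ γ, MvPolynomial.aeval a (ρ p γ) * (algebraMap κ ℂ (ω (b γ).1) * t ^ (b γ).2)

attribute [instance] Uni.fΓ Uni.dΓ

/-- A relation at `t₀` with coefficients in `κ(t₀)` which is not the value of a functional relation over
`κ[t]`. -/
def KBad (κ : IntermediateField ℚ Qbar) {β : Type} [Fintype β] (U : Set ℂ) (z : ℂ → β → ℂ)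
    (t₀ : ℂ) : Prop :=
  ∃ g : β → κ[X], ∑ i, aeval t₀ (g i) * z t₀ i = 0 ∧
    ¬ ∃ h : β → κ[X], (∀ i, aeval t₀ (h i) = aeval t₀ (g i)) ∧
      ∀ t ∈ U, ∑ i, aeval t (h i) * z t i = 0

end Pool.Agent.Helper79.AA
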