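import Pool.Agent.Helper79.AA.UDefs
import Pool.Agent.Helper79.GA.StatG
import Pool.Agent.Helper79.GA.TTens
import Pool.Agent.Helper79.GA.TOp
import Pool.Agent.Helper79.CU.TensOde

/-!
# AA-27: words

`W_((l,a),k) = w^l P_(a,k)` are the letters; `none` is the letter `1`; a word of length `e` is the product of its letters.
* `tame_words`: the matrix `wm B` is block diagonal: one zero block of size one (`none`) and one copy of `B` for every `k`. `tame_block`
  for `blockDiagonal'` (index type `Σ`), then change the index type (`TameM` is invariant under `Matrix.reindex`: `iter` commutes with it,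
  or use `tame_sub` with permutation matrices; `hst` there is `ratx_tame`), then `tame_tens`; `tens e (a/T) = (tens e a)/T` (`tens_map`, `tens_smul`).
* `words_ode`: `tens_ode` for the matrix of letters with one column (`γ = Unit`).
* `words_analytic`: products.
-/

open Polynomial

namespace Pool.Agent.Helper79.AA

open Pool.Agent.Helper79.GX Pool.Agent.Helper79.CU Pool.Agent.Helper79.GA
  Pool.Agent.Helper64.Per

section

variable {R : Type} [CommRing R] {μ : ℕ} {ι : Type} [Fintype ι] [DecidableEq ι]

/-- The alphabet. -/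
abbrev Al (μ : ℕ) (ι : Type) : Type := Option ((Fin μ × ι) × ι)

/-- The matrix of the system of the letters. -/
def wm (B : Matrix (Fin μ × ι) (Fin μ × ι) R) : Matrix (Al μ ι) (Al μ ι) R
  | none, _ => 0
  | some _, none => 0
  | some p, some q => if p.2 = q.2 then B p.1 q.1 else 0

/-- The letters. -/
def lt (w : R) (P : Matrix ι ι R) : Al μ ι → R
  | none => 1
  | some p => w ^ (p.1.1 : ℕ) * P p.1.2 p.2

/-- The words. -/
def wd (e : ℕ) (w : R) (P : Matrix ι ι R) (α : Fin e → Al μ ι) : R := ∏ j, lt w P (α j)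

end

section

variable {μ : ℕ} {ι : Type} [Fintype ι] [DecidableEq ι]

omit [Fintype ι] in
private lemma wm_map {R S : Type} [CommRing R] [CommRing S] (φ : R →+* S)
    (B : Matrix (Fin μ × ι) (Fin μ × ι) R) : (wm B).map φ = wm (B.map φ) := by
  ext i j
  rcases i with _ | p <;> rcases j with _ | q
  · exact map_zero φ
  · exact map_zero φ
  · exact map_zero φ
  · rw [Matrix.map_apply]
    change φ (if p.2 = q.2 then B p.1 q.1 else 0) = if p.2 = q.2 then φ (B p.1 q.1) else 0
    split_ifs
    · rfl
    · exact map_zero φ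

omit [Fintype ι] in
private lemma wm_smul {R : Type} [CommRing R] (x : R)
    (B : Matrix (Fin μ × ι) (Fin μ × ι) R) : x • wm B = wm (x • B) := by
  ext i j
  rcases i with _ | p <;> rcases j with _ | q
  · exact smul_zero x
  · exact smul_zero x
  · exact smul_zero x
  · rw [Matrix.smul_apply]
    change x • (if p.2 = q.2 then B p.1 q.1 else 0) = if p.2 = q.2 then x • B p.1 q.1 else 0
    split_ifs
    · rfl
    · exact smul_zero x

private lemma wm_sum {R : Type} [CommRing R] (B : Matrix (Fin μ × ι) (Fin μ × ι) R)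
    (p : (Fin μ × ι) × ι) (f : (Fin μ × ι) × ι → R) :
    ∑ r, (if p.2 = r.2 then B p.1 r.1 else 0) * f r = ∑ r, B p.1 r * f (r, p.2) := by
  rw [Fintype.sum_prod_type]
  refine Finset.sum_congr rfl fun r _ => ?_
  rw [Finset.sum_eq_single p.2]
  · rw [if_pos rfl]
  · intro b _ hb
    rw [if_neg (Ne.symm hb), zero_mul]
  · intro h
    exact absurd (Finset.mem_univ _) h

private lemma wm_sum' {R : Type} [CommRing R] (B C : Matrix (Fin μ × ι) (Fin μ × ι) R)
    (p q : (Fin μ × ι) × ι) :
    ∑ r : (Fin μ × ι) × ι, (if p.2 = r.2 then B p.1 r.1 else 0) *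
      (if r.2 = q.2 then C r.1 q.1 else 0) = if p.2 = q.2 then ∑ r, B p.1 r * C r q.1 else 0 := by
  rw [wm_sum B p (fun r => if r.2 = q.2 then C r.1 q.1 else 0)]
  split_ifs with h
  · rfl
  · refine Finset.sum_eq_zero fun r _ => ?_
    rw [mul_zero]

private lemma wm_iter {K : Type} [Field K] [CharZero K] (D : Derivation ℚ K K)
    (C : Matrix (Fin μ × ι) (Fin μ × ι) K) (m : ℕ) :
    iter D (wm C) m none none = (if m = 0 then 1 else 0) ∧
    (∀ q, iter D (wm C) m none (some q) = 0) ∧
    (∀ p, iter D (wm C) m (some p) none = 0) ∧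
    (∀ p q, iter D (wm C) m (some p) (some q) =
      if p.2 = q.2 then iter D C m p.1 q.1 else 0) := by
  induction m with
  | zero =>
    refine ⟨?_, fun q => ?_, fun p => ?_, fun p q => ?_⟩
    · rw [if_pos rfl]
      exact Matrix.one_apply_eq _
    · exact Matrix.one_apply_ne (by simp)
    · exact Matrix.one_apply_ne (by simp)
    · change (1 : Matrix (Al μ ι) (Al μ ι) K) (some p) (some q) =
        if p.2 = q.2 then (1 : Matrix (Fin μ × ι) (Fin μ × ι) K) p.1 q.1 else 0
      rw [Matrix.one_apply, Matrix.one_apply]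
      by_cases h1 : p.2 = q.2
      · by_cases h2 : p.1 = q.1
        · rw [if_pos (by rw [Prod.ext h2 h1]), if_pos h1, if_pos h2]
        · rw [if_neg (fun h => h2 (by rw [Option.some.inj h])), if_pos h1, if_neg h2]
      · rw [if_neg (fun h => h1 (by rw [Option.some.inj h])), if_neg h1]
  | succ m ih =>
    obtain ⟨h1, h2, h3, h4⟩ := ih
    have hrec : ∀ i j, iter D (wm C) (m + 1) i j = (((m + 1 : ℕ) : K)⁻¹) *
        (D (iter D (wm C) m i j) + ∑ l, iter D (wm C) m i l * wm C l j) := fun _ _ => rfl
    have hz : ∀ i, wm C i none = 0 := by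
      intro i
      rcases i with _ | p <;> rfl
    refine ⟨?_, fun q => ?_, fun p => ?_, fun p q => ?_⟩
    · rw [hrec, if_neg (Nat.succ_ne_zero m), h1]
      have e : ∑ l, iter D (wm C) m none l * wm C l none = 0 :=
        Finset.sum_eq_zero fun l _ => by rw [hz, mul_zero]
      rw [e]
      split_ifs
      · rw [Derivation.map_one_eq_zero, add_zero, mul_zero]
      · rw [map_zero, add_zero, mul_zero]
    · rw [hrec, h2, map_zero, Fintype.sum_option]
      have e : ∑ l, iter D (wm C) m none (some l) * wm C (some l) (some q) = 0 :=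
        Finset.sum_eq_zero fun l _ => by rw [h2, zero_mul]
      have e' : wm C none (some q) = 0 := rfl
      rw [e, e', mul_zero, add_zero, add_zero, mul_zero]
    · rw [hrec, h3, map_zero]
      have e : ∑ l, iter D (wm C) m (some p) l * wm C l none = 0 :=
        Finset.sum_eq_zero fun l _ => by rw [hz, mul_zero]
      rw [e, add_zero, mul_zero]
    · rw [hrec, h4, Fintype.sum_option, h3, zero_mul, zero_add]
      have e : ∑ l, iter D (wm C) m (some p) (some l) * wm C (some l) (some q) =
          if p.2 = q.2 then ∑ r, iter D C m p.1 r * C r q.1 else 0 := by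
        rw [← wm_sum']
        refine Finset.sum_congr rfl fun l _ => ?_
        rw [h4]
        rfl
      rw [e]
      have hrec' : iter D C (m + 1) p.1 q.1 = (((m + 1 : ℕ) : K)⁻¹) *
        (D (iter D C m p.1 q.1) + ∑ l, iter D C m p.1 l * C l q.1) := rfl
      rw [hrec']
      split_ifs
      · rfl
      · rw [map_zero, add_zero, mul_zero]

private lemma wm_tame {K : Type} [Field K] [CharZero K] {D : Derivation ℚ K K}
    {C : Matrix (Fin μ × ι) (Fin μ × ι) K} (h : TameM D C) : TameM D (wm C) := by
  unfold TameM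
  refine GmS.family fun p => ?_
  obtain ⟨i, j⟩ := p
  rcases i with _ | p <;> rcases j with _ | q
  · have e : (fun (m : ℕ) (_ : Unit) => iter D (wm C) m none none) =
        fun (m : ℕ) (_ : Unit) => if m = 0 then (1 : K) else 0 := by
      funext m _
      exact (wm_iter D C m).1
    change GmS (fun (m : ℕ) (_ : Unit) => iter D (wm C) m none none)
    rw [e]
    refine ⟨∅, 0, 1, Set.finite_empty, fun N => ⟨1, one_pos, by rw [one_pow], fun m _ _ => ?_⟩⟩
    rw [Nat.cast_one, one_mul]
    beta_reduce
    split_ifs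
    · exact (G (∅ : Set K)).mono (Nat.zero_le _) (G (∅ : Set K)).one
    · exact AddSubgroup.zero_mem _
  · have e : (fun (m : ℕ) (_ : Unit) => iter D (wm C) m none (some q)) =
        fun (m : ℕ) (_ : Unit) => (0 : K) := by
      funext m _
      exact (wm_iter D C m).2.1 q
    change GmS (fun (m : ℕ) (_ : Unit) => iter D (wm C) m none (some q))
    rw [e]
    exact GmS.zero
  · have e : (fun (m : ℕ) (_ : Unit) => iter D (wm C) m (some p) none) =
        fun (m : ℕ) (_ : Unit) => (0 : K) := by
      funext m _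
      exact (wm_iter D C m).2.2.1 p
    change GmS (fun (m : ℕ) (_ : Unit) => iter D (wm C) m (some p) none)
    rw [e]
    exact GmS.zero
  · have e : (fun (m : ℕ) (_ : Unit) => iter D (wm C) m (some p) (some q)) =
        fun (m : ℕ) (_ : Unit) => if p.2 = q.2 then iter D C m p.1 q.1 else 0 := by
      funext m _
      exact (wm_iter D C m).2.2.2 p q
    change GmS (fun (m : ℕ) (_ : Unit) => iter D (wm C) m (some p) (some q))
    rw [e]
    by_cases hpq : p.2 = q.2
    · simp only [if_pos hpq]
      exact GmS.comp h fun _ : Unit => (p.1, q.1)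
    · simp only [if_neg hpq]
      exact GmS.zero

theorem tame_words {k K : Type} [Field k] [Field K] [CharZero K] [Algebra k K] {u : K}
    {D : Derivation ℚ K K} [CharZero k] (hu : RatX k u D) {T : k[X]}
    {B : Matrix (Fin μ × ι) (Fin μ × ι) k[X]}
    (h : TameM D (fun i j => aeval u (B i j) / aeval u T)) (e : ℕ) :
    TameM D (fun i j => aeval u (tens e (wm B) i j) / aeval u T) := by
  set φ : k[X] →+* K := (aeval u : k[X] →ₐ[k] K).toRingHom with hφ
  have h0 : TameM D ((aeval u T)⁻¹ • B.map φ) := by
    have e0 : (aeval u T)⁻¹ • B.map φ = fun i j => aeval u (B i j) / aeval u T := by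
      ext i j
      rw [Matrix.smul_apply, Matrix.map_apply, smul_eq_mul, div_eq_inv_mul]
      rfl
    rw [e0]
    exact h
  have h1 := tame_tens (wm_tame h0) e
  rw [← wm_smul, ← wm_map, tens_smul, ← tens_map] at h1
  have e1 : (aeval u T)⁻¹ • (tens e (wm B)).map φ =
      fun i j => aeval u (tens e (wm B) i j) / aeval u T := by
    ext i j
    rw [Matrix.smul_apply, Matrix.map_apply, smul_eq_mul, div_eq_inv_mul]
    rfl
  rw [e1] at h1
  exact h1

variable {κ : IntermediateField ℚ Qbar} {U : Set ℂ} (hU : IsOpen U) {w : ℂ → ℂ}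
  (hw : AnalyticOnNhd ℂ w U) {P : ℂ → Matrix ι ι ℂ}
  (hP : ∀ a b, AnalyticOnNhd ℂ (fun t => P t a b) U)

include hw hP in
private lemma lt_analytic (i : Al μ ι) : AnalyticOnNhd ℂ (fun t => lt (w t) (P t) i) U := by
  rcases i with _ | p
  · exact analyticOnNhd_const
  · exact fun x hx => ((hw x hx).fun_pow _).fun_mul (hP _ _ x hx)

include hw hP in
theorem words_analytic (e : ℕ) (α : Fin e → Al μ ι) :
    AnalyticOnNhd ℂ (fun t => wd e (w t) (P t) α) U := by
  unfold wd
  exact Finset.analyticOnNhd_fun_prod _ fun j _ => lt_analytic hw hP (α j)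

include hU hw hP in
theorem words_ode {T : κ[X]} {B : Matrix (Fin μ × ι) (Fin μ × ι) κ[X]}
    (hode : ∀ t ∈ U, ∀ (p : Fin μ × ι) (k : ι),
      aeval t T * deriv (fun t => w t ^ (p.1 : ℕ) * P t p.2 k) t =
        ∑ q, aeval t (B p q) * (w t ^ (q.1 : ℕ) * P t q.2 k)) (e : ℕ) (α : Fin e → Al μ ι)
    {t : ℂ} (ht : t ∈ U) :
    aeval t T * deriv (fun t => wd e (w t) (P t) α) t =
      ∑ α', aeval t (tens e (wm B) α α') * wd e (w t) (P t) α' := by
  set φ : κ[X] →+* ℂ := (aeval t : κ[X] →ₐ[κ] ℂ).toRingHom with hφ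
  have h1 := (tens_ode (γ := Unit) (V := fun t => fun i (_ : Unit) => lt (w t) (P t) i)
    (t := t) (T := aeval t T) (A := (wm B).map φ)
    (fun i _ => (lt_analytic hw hP i t ht).differentiableAt) (fun i _ => ?_) e α
    (fun _ => ())).2
  · rw [← tens_map] at h1
    exact h1
  · rcases i with _ | p
    · have e1 : (fun t => lt (w t) (P t) (none : Al μ ι)) = fun _ => (1 : ℂ) := rfl
      rw [e1, deriv_const, mul_zero]
      symm
      refine Finset.sum_eq_zero fun l _ => ?_
      have e2 : (wm B).map φ none l = 0 := map_zero φ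
      rw [e2, zero_mul]
    · have e1 : (fun t => lt (w t) (P t) (some p)) = fun t => w t ^ (p.1.1 : ℕ) * P t p.1.2 p.2 :=
        rfl
      rw [e1, hode t ht p.1 p.2, wm_map, Fintype.sum_option]
      have e2 : wm (B.map φ) (some p) none = 0 := rfl
      rw [e2, zero_mul, zero_add]
      exact (wm_sum (B.map φ) p (fun r => lt (w t) (P t) (some r))).symm

end

end Pool.Agent.Helper79.AA
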